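import Pool.Agent.Helper12.HR2.Core

/-!
MP_16b0ee, project HR2: a second kernel computation for certificates. The real part of the identity
is computed coefficient by coefficient: the monomials (up to conjugation) are numbered, the tables
contain for every multiplier and for every pair of basis monomials the numbers of the monomials
which occur. The coefficient with the number `j` is multiplied by `2 ^ (K j)`. All functions are
written with recursors and the operations of `Nat` and `Int`.
-/

set_option autoImplicit false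

namespace Pool.Agent.Helper54.HR2

open Pool.Agent.Helper12.HR2 (Par)

/-- a row of a table: terms (shift, multiplicity) with the monomial itself, with its conjugate, with
a monomial which is its own conjugate; the shift is `K` times the number -/
abbrev Row := List (ℕ × ℕ) × List (ℕ × ℕ) × List (ℕ × ℕ)

/-- a row with one term: the shift (`K` times the number plus the logarithm of the multiplicity),
the kind (0: the monomial itself, 1: its conjugate, 2: a monomial which is its own conjugate) -/
abbrev Sng := ℕ × ℕ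

/-- a block of rows with one term: offset of the shifts, number of the first digit, rows -/
abbrev Blk := ℕ × ℕ × List Sng

/-- the packed terms -/
noncomputable def rr (l : List (ℕ × ℕ)) : ℕ :=
  List.rec (motive := fun _ => ℕ) 0 (fun p _ ih => Nat.add (Nat.shiftLeft p.2 p.1) ih) l

/-- all packed terms of a row -/
noncomputable def ra (r : Row) : ℕ := Nat.add (rr r.1) (Nat.add (rr r.2.1) (rr r.2.2))

/-- the real form of the digits -/
noncomputable def fr (w : ℕ) (rs : List Row) : ℕ → ℕ :=
  List.rec (motive := fun _ => ℕ → ℕ) (fun _ => 0)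
    (fun r _ ih x => Nat.add (Nat.mul (Nat.mod x w) (ra r)) (ih (Nat.div x w))) rs

/-- the real form of ones -/
noncomputable def fr1 (rs : List Row) : ℕ :=
  List.rec (motive := fun _ => ℕ) 0 (fun r _ ih => Nat.add (ra r) ih) rs

/-- the imaginary form of the digits -/
noncomputable def fi (w g : ℕ) (rs : List Row) : ℕ → ℕ :=
  List.rec (motive := fun _ => ℕ → ℕ) (fun _ => 0)
    (fun r _ ih x => Nat.add (Nat.add (Nat.mul (Nat.mod x w) (rr r.1))
      (Nat.mul (Nat.sub g (Nat.mod x w)) (rr r.2.1))) (ih (Nat.div x w))) rs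

/-- the imaginary form of ones -/
noncomputable def fi1 (rs : List Row) : ℕ :=
  List.rec (motive := fun _ => ℕ) 0 (fun r _ ih => Nat.add (Nat.add (rr r.1) (rr r.2.1)) ih) rs

/-- the real form with the offset `h` -/
noncomputable def zr (w h : ℕ) (rs : List Row) (x : ℕ) : ℤ :=
  Int.subNatNat (fr w rs x) (Nat.mul h (fr1 rs))

/-- the imaginary form with the offset `h` -/
noncomputable def zi (w h : ℕ) (rs : List Row) (x : ℕ) : ℤ :=
  Int.subNatNat (fi w (Nat.mul 2 h) rs x) (Nat.mul h (fi1 rs))

/-- the real form of the digits, rows with one term -/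
noncomputable def gr1 (w : ℕ) (rs : List Sng) : ℕ → ℕ :=
  List.rec (motive := fun _ => ℕ → ℕ) (fun _ => 0)
    (fun r _ ih x => Nat.add (Nat.shiftLeft (Nat.mod x w) r.1) (ih (Nat.div x w))) rs

/-- the real form of ones, rows with one term -/
noncomputable def go1 (rs : List Sng) : ℕ :=
  List.rec (motive := fun _ => ℕ) 0 (fun r _ ih => Nat.add (Nat.shiftLeft 1 r.1) ih) rs

/-- the imaginary form of the digits, rows with one term -/
noncomputable def gi1 (w g : ℕ) (rs : List Sng) : ℕ → ℕ :=
  List.rec (motive := fun _ => ℕ → ℕ) (fun _ => 0)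
    (fun r _ ih x => Nat.rec (motive := fun _ => ℕ)
      (Nat.add (Nat.shiftLeft (Nat.mod x w) r.1) (ih (Nat.div x w)))
      (fun f _ => Nat.rec (motive := fun _ => ℕ)
        (Nat.add (Nat.shiftLeft (Nat.sub g (Nat.mod x w)) r.1) (ih (Nat.div x w)))
        (fun _ _ => ih (Nat.div x w)) f) r.2) rs

/-- the imaginary form of ones, rows with one term -/
noncomputable def gp1 (rs : List Sng) : ℕ :=
  List.rec (motive := fun _ => ℕ) 0
    (fun r _ ih => Nat.rec (motive := fun _ => ℕ) (Nat.add (Nat.shiftLeft 1 r.1) ih)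
      (fun f _ => Nat.rec (motive := fun _ => ℕ) (Nat.add (Nat.shiftLeft 1 r.1) ih)
        (fun _ _ => ih) f) r.2) rs

/-- the real form with the offset `h`, rows with one term -/
noncomputable def yr (w h : ℕ) (rs : List Sng) (x : ℕ) : ℤ :=
  Int.subNatNat (gr1 w rs x) (Nat.mul h (go1 rs))

/-- the imaginary form with the offset `h`, rows with one term -/
noncomputable def yi (w h : ℕ) (rs : List Sng) (x : ℕ) : ℤ :=
  Int.subNatNat (gi1 w (Nat.mul 2 h) rs x) (Nat.mul h (gp1 rs))

/-- multiplication by a power of two -/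
noncomputable def sh (o : ℕ) (z : ℤ) : ℤ := Int.mul (Int.ofNat (Nat.shiftLeft 1 o)) z

/-- the real form for blocks -/
noncomputable def br (w h : ℕ) (bs : List Blk) (x : ℕ) : ℤ :=
  List.rec (motive := fun _ => ℤ) (Int.ofNat 0)
    (fun b _ ih => Int.add (sh b.1 (yr w h b.2.2 (Nat.div x (Nat.pow w b.2.1)))) ih) bs

/-- the imaginary form for blocks -/
noncomputable def bi (w h : ℕ) (bs : List Blk) (x : ℕ) : ℤ :=
  List.rec (motive := fun _ => ℤ) (Int.ofNat 0)
    (fun b _ ih => Int.add (sh b.1 (yi w h b.2.2 (Nat.div x (Nat.pow w b.2.1)))) ih) bs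

/-- a group of multipliers `(A, B)` with the same weight and the same number of zeros in `A` -/
structure Grp where
  /-- the weight -/
  w : ℕ
  /-- the number of zeros in the first list -/
  a : ℕ
  /-- offset of the shifts of the monomials -/
  oM : ℕ
  /-- offset of the shifts of the products -/
  oE : ℕ
  /-- the monomials -/
  M : List Sng
  /-- the monomials multiplied by the first variable -/
  E : List Sng
  /-- the positive part of the derivative -/
  D : List Row

/-- the coefficient of the derivative -/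
noncomputable def cD (P : Par) : ℤ := Int.ofNat (Nat.mul P.bd P.sr)

/-- the coefficient of the multiplication by the first variable, real part -/
noncomputable def cE (P : Par) (a : ℕ) : ℤ :=
  Int.add (Int.ofNat (Nat.mul (Nat.mul P.bd P.sr) a)) (Int.mul (Int.ofNat (Nat.mul 2 P.bd)) P.p)

/-- the coefficient of the multiplication by the first variable, imaginary part -/
noncomputable def cF (P : Par) : ℤ := Int.mul (Int.ofNat (Nat.mul 2 P.bd)) P.q

/-- the coefficient of the monomial -/
noncomputable def cM (P : Par) (w : ℕ) : ℤ :=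
  Int.ofNat (Nat.mul P.sr (Nat.add P.bn (Nat.mul P.bd w)))

/-- the real part of a group -/
noncomputable def gr (P : Par) (w h : ℕ) (g : Grp) (xy : ℕ × ℕ) : ℤ :=
  Int.sub (sh g.oE
    (Int.add (Int.sub (Int.mul (cD P) (zr w h g.D xy.1)) (Int.mul (cE P g.a) (yr w h g.E xy.1)))
      (Int.mul (cF P) (yr w h g.E xy.2))))
    (sh g.oM (Int.mul (cM P g.w) (yr w h g.M xy.1)))

/-- the imaginary part of a group -/
noncomputable def gi (P : Par) (w h : ℕ) (g : Grp) (xy : ℕ × ℕ) : ℤ :=
  Int.add (sh g.oE
    (Int.add (Int.sub (Int.mul (cF P) (yi w h g.E xy.1)) (Int.mul (cD P) (zi w h g.D xy.2)))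
      (Int.mul (cE P g.a) (yi w h g.E xy.2))))
    (sh g.oM (Int.mul (cM P g.w) (yi w h g.M xy.2)))

/-- all groups, real part -/
noncomputable def gsr (P : Par) (w h : ℕ) (gs : List Grp) : List (ℕ × ℕ) → ℤ :=
  List.rec (motive := fun _ => List (ℕ × ℕ) → ℤ) (fun _ => Int.ofNat 0)
    (fun g _ ih l => List.rec (motive := fun _ => ℤ) (Int.ofNat 0)
      (fun xy l' _ => Int.add (gr P w h g xy) (ih l')) l) gs

/-- all groups, imaginary part -/
noncomputable def gsi (P : Par) (w h : ℕ) (gs : List Grp) : List (ℕ × ℕ) → ℤ :=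
  List.rec (motive := fun _ => List (ℕ × ℕ) → ℤ) (fun _ => Int.ofNat 0)
    (fun g _ ih l => List.rec (motive := fun _ => ℤ) (Int.ofNat 0)
      (fun xy l' _ => Int.add (gi P w h g xy) (ih l')) l) gs

/-- the sum of the first `n` powers of `B` -/
noncomputable def ons (B n : ℕ) : ℕ :=
  Nat.rec (motive := fun _ => ℕ) 0 (fun _ ih => Nat.add 1 (Nat.mul B ih)) n

/-- the first `n` digits to the base `w`, to the base `B` -/
noncomputable def spr (B w : ℕ) (n : ℕ) : ℕ → ℕ :=
  Nat.rec (motive := fun _ => ℕ → ℕ) (fun _ => 0)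
    (fun _ ih x => Nat.add (Nat.mod x w) (Nat.mul B (ih (Nat.div x w)))) n

/-- a column of the Gram matrix, real part, with offsets; a row of `U` consists of the number of
digits, the real parts and the imaginary parts -/
noncomputable def cr (B w h : ℕ) (U : List (ℕ × ℕ × ℕ)) : ℕ → ℕ :=
  List.rec (motive := fun _ => ℕ → ℕ) (fun _ => 0)
    (fun r _ ih k => Nat.add
      (Nat.add (Nat.add (Nat.mul (Nat.mod (Nat.div r.2.1 (Nat.pow w k)) w) (spr B w r.1 r.2.1))
        (Nat.mul (Nat.mod (Nat.div r.2.2 (Nat.pow w k)) w) (spr B w r.1 r.2.2)))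
        (Nat.mul (Nat.sub (Nat.mul 4 h) (Nat.add (Nat.mod (Nat.div r.2.1 (Nat.pow w k)) w)
          (Nat.mod (Nat.div r.2.2 (Nat.pow w k)) w))) (Nat.mul h (ons B r.1))))
      (Nat.rec (motive := fun _ => ℕ) 0 (fun k' _ => Nat.mul B (ih k')) k)) U

/-- a column of the Gram matrix, imaginary part, with offsets -/
noncomputable def ci (B w h : ℕ) (U : List (ℕ × ℕ × ℕ)) : ℕ → ℕ :=
  List.rec (motive := fun _ => ℕ → ℕ) (fun _ => 0)
    (fun r _ ih k => Nat.add
      (Nat.add (Nat.add (Nat.mul (Nat.mod (Nat.div r.2.1 (Nat.pow w k)) w) (spr B w r.1 r.2.2))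
        (Nat.mul (Nat.sub (Nat.mul 2 h) (Nat.mod (Nat.div r.2.2 (Nat.pow w k)) w))
          (spr B w r.1 r.2.1)))
        (Nat.mul (Nat.sub (Nat.add (Nat.mul 2 h) (Nat.mod (Nat.div r.2.2 (Nat.pow w k)) w))
          (Nat.mod (Nat.div r.2.1 (Nat.pow w k)) w)) (Nat.mul h (ons B r.1))))
      (Nat.rec (motive := fun _ => ℕ) 0 (fun k' _ => Nat.mul B (ih k')) k)) U

/-- the correction of the offsets -/
noncomputable def cq (B w h : ℕ) (U : List (ℕ × ℕ × ℕ)) : ℕ → ℕ :=
  List.rec (motive := fun _ => ℕ → ℕ) (fun _ => 0)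
    (fun r _ ih k => Nat.add
      (Nat.add (Nat.mul h (Nat.add (spr B w r.1 r.2.1) (spr B w r.1 r.2.2)))
        (Nat.mul (Nat.mul 2 h) (Nat.mul h (ons B r.1))))
      (Nat.rec (motive := fun _ => ℕ) 0 (fun k' _ => Nat.mul B (ih k')) k)) U

/-- the Gram matrix, real part -/
noncomputable def mr (B H w h n : ℕ) (U : List (ℕ × ℕ × ℕ)) (T : List (ℕ × List Blk)) : ℤ :=
  List.rec (motive := fun _ => ℤ) (Int.ofNat 0)
    (fun bs _ ih => Int.add
      (br B H bs.2 (Nat.sub (Nat.add (cr B w h U bs.1) (Nat.mul H (ons B n))) (cq B w h U bs.1)))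
      ih) T

/-- the Gram matrix, imaginary part -/
noncomputable def mi (B H w h n : ℕ) (U : List (ℕ × ℕ × ℕ)) (T : List (ℕ × List Blk)) : ℤ :=
  List.rec (motive := fun _ => ℤ) (Int.ofNat 0)
    (fun bs _ ih => Int.add
      (bi B H bs.2 (Nat.sub (Nat.add (ci B w h U bs.1) (Nat.mul H (ons B n))) (cq B w h U bs.1)))
      ih) T

/-- the tables -/
structure Tab6 where
  /-- the shift of the constant monomial -/
  one : ℕ
  /-- the monomials of the area form -/
  q : List Blk
  /-- the multipliers -/
  g : List Grp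
  /-- the number of basis monomials for the Gram matrix -/
  n : ℕ
  /-- the columns of the Gram matrix -/
  c : List (ℕ × List Blk)
  /-- the squares of all basis monomials -/
  d : List Blk
  /-- the monomials of the residual -/
  r : List Blk
  /-- the number of monomials of the area form -/
  nQ : ℕ
  /-- the number of multipliers -/
  nM : ℕ
  /-- the sum of the multiplicities of the derivatives -/
  nD : ℕ
  /-- the sum of the multiplicities of the Gram matrix -/
  nC : ℕ
  /-- the number of all basis monomials -/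
  nB : ℕ
  /-- the number of digits of the residual -/
  nR : ℕ

/-- the data of a certificate -/
structure Cert6 where
  /-- parameters -/
  P : Par
  /-- the constant -/
  eta : ℕ
  /-- base of the digits of the form -/
  wQ : ℕ
  /-- offset -/
  hQ : ℕ
  /-- the form, real parts -/
  qx : ℕ
  /-- the form, imaginary parts -/
  qy : ℕ
  /-- base of the digits of the multipliers -/
  wL : ℕ
  /-- offset -/
  hL : ℕ
  /-- common factor of the multipliers -/
  mL : ℕ
  /-- the multipliers -/
  G : List (ℕ × ℕ)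
  /-- base of the digits of the rows -/
  wU : ℕ
  /-- offset -/
  hU : ℕ
  /-- the rows -/
  U : List (ℕ × ℕ × ℕ)
  /-- base of the digits of the Gram matrix -/
  wG : ℕ
  /-- offset -/
  hG : ℕ
  /-- base of the digits of the diagonal -/
  wD : ℕ
  /-- the diagonal -/
  dg : ℕ
  /-- base of the digits of the residual -/
  wR : ℕ
  /-- offset -/
  hR : ℕ
  /-- the residual, real parts -/
  rx : ℕ
  /-- the residual, imaginary parts -/
  ry : ℕ
  /-- the multiple of the sum of squares -/
  eps : ℕ
  /-- multiplier of the left side -/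
  m1 : ℕ
  /-- multiplier of the rows -/
  m2 : ℕ

/-- the real part of the left side -/
noncomputable def TR (t : Tab6) (C : Cert6) : ℤ :=
  Int.add (Int.mul (Int.ofNat (Nat.mul C.P.sr C.P.bd))
    (Int.add (Int.ofNat (Nat.shiftLeft C.eta t.one)) (br C.wQ C.hQ t.q C.qx)))
    (Int.mul (Int.ofNat C.mL) (gsr C.P C.wL C.hL t.g C.G))

/-- the imaginary part of the left side -/
noncomputable def TI (t : Tab6) (C : Cert6) : ℤ :=
  Int.sub (Int.mul (Int.ofNat C.mL) (gsi C.P C.wL C.hL t.g C.G))
    (Int.mul (Int.ofNat (Nat.mul C.P.sr C.P.bd)) (bi C.wQ C.hQ t.q C.qy))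

/-- the real part of the identity -/
noncomputable def FR (t : Tab6) (C : Cert6) : ℤ :=
  Int.add (Int.add (Int.mul (Int.ofNat (Nat.mul 2 C.m1)) (TR t C))
    (Int.mul (Int.ofNat C.m2) (mr C.wG C.hG C.wU C.hU t.n C.U t.c)))
    (Int.add (Int.add (br C.wD 0 t.d C.dg) (Int.mul (Int.ofNat C.eps) (br 2 0 t.d (Nat.sub (Nat.pow 2 t.nB) 1))))
      (Int.mul (Int.ofNat 2) (br C.wR C.hR t.r C.rx)))

/-- minus the imaginary part of the identity -/
noncomputable def FI (t : Tab6) (C : Cert6) : ℤ :=
  Int.add (Int.sub (Int.mul (Int.ofNat C.m2) (mi C.wG C.hG C.wU C.hU t.n C.U t.c))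
    (Int.mul (Int.ofNat (Nat.mul 2 C.m1)) (TI t C)))
    (Int.mul (Int.ofNat 2) (bi C.wR C.hR t.r C.ry))

/-- sum of the moduli of the digits -/
noncomputable def sab (w h n : ℕ) : ℕ → ℕ :=
  Nat.rec (motive := fun _ => ℕ → ℕ) (fun _ => 0)
    (fun _ ih x => Nat.add (Nat.add (Nat.sub (Nat.mod x w) h) (Nat.sub h (Nat.mod x w)))
      (ih (Nat.div x w))) n

/-- the bound of the norm of the identity -/
noncomputable def nF (t : Tab6) (C : Cert6) : ℕ :=
  Nat.add (Nat.add
    (Nat.mul (Nat.mul 2 C.m1) (Nat.add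
      (Nat.mul (Nat.mul C.P.sr C.P.bd) (Nat.add C.eta (Nat.mul C.wQ t.nQ)))
      (Nat.mul C.mL (Nat.mul C.wL
        (Nat.add (Nat.mul (Nat.mul C.P.bd C.P.sr) t.nD)
          (Nat.mul t.nM (Nat.add (Nat.mul (Nat.mul C.P.bd C.P.sr) 12)
            (Nat.add (Nat.mul (Nat.mul 2 C.P.bd) (Nat.add (Int.natAbs C.P.p) (Int.natAbs C.P.q)))
              (Nat.mul C.P.sr (Nat.add C.P.bn (Nat.mul C.P.bd 12)))))))))))
    (Nat.mul C.m2 (Nat.mul C.wG t.nC)))
    (Nat.add (Nat.mul (Nat.add C.wD C.eps) t.nB) (Nat.mul 2 (Nat.mul C.wR t.nR)))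

/-- equality to zero -/
noncomputable def isz (x : ℤ) : Bool :=
  Int.rec (motive := fun _ => Bool) (fun n => Nat.beq n 0) (fun _ => false) x

/-- the numbers of digits of the rows are `n`, `n - 1`, ... -/
noncomputable def uok (U : List (ℕ × ℕ × ℕ)) : ℕ → Bool :=
  List.rec (motive := fun _ => ℕ → Bool) (fun n => Nat.beq n 0)
    (fun r _ ih n => and (Nat.beq r.1 n) (and (Nat.ble 1 n) (ih (Nat.sub n 1)))) U

/-- the real part of the check -/
noncomputable def chR (t : Tab6) (C : Cert6) : Bool := isz (FR t C)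

/-- the imaginary part of the check -/
noncomputable def chI (t : Tab6) (C : Cert6) : Bool := isz (FI t C)

/-- the other conditions; `2 ^ K` is the base -/
noncomputable def chB (t : Tab6) (K : ℕ) (C : Cert6) : Bool :=
  and (and (Nat.ble (Nat.succ (nF t C)) (Nat.pow 2 K)) (uok C.U t.n))
    (and (Nat.ble (Nat.mul 2 (Nat.add (sab C.wR C.hR t.nR C.rx) (sab C.wR C.hR t.nR C.ry))) C.eps)
      (and (and (Nat.ble 1 C.P.sr) (and (Nat.ble 1 C.P.bd) (and (Nat.ble 1 C.m1) (Nat.ble 1 C.wD))))
        (and (and (Nat.ble (Nat.succ C.hL) C.wL) (Nat.ble C.wL (Nat.succ (Nat.mul 2 C.hL))))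
          (and (and (Nat.ble (Nat.succ C.hR) C.wR) (Nat.ble C.wR (Nat.succ (Nat.mul 2 C.hR))))
            (and (and (Nat.ble (Nat.succ C.hQ) C.wQ) (Nat.ble C.wQ (Nat.succ (Nat.mul 2 C.hQ))))
              (and (and (Nat.ble (Nat.succ C.hU) C.wU) (Nat.ble C.wU (Nat.succ (Nat.mul 2 C.hU))))
                (and (Nat.beq C.wG (Nat.mul 2 C.hG))
                  (Nat.ble (Nat.mul (Nat.mul 2 t.n) (Nat.mul C.wU C.wU)) C.hG))))))))

end Pool.Agent.Helper54.HR2
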