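import Mathlib
import Pool.Agent.Helper54.HR2.Core6

/-!
MP_16b0ee, project HR2: the forms of the second kernel computation with values in a commutative
group, and the vanishing of a form from the vanishing of its packed value.
-/

set_option autoImplicit false

namespace Pool.Agent.Helper54.HR2

open Pool.Agent.Helper12.HR2 (Par)

section Forms

variable {A : Type*} [AddCommGroup A]

/-- the value of a list of terms -/
def tv (v : ℕ → A) (l : List (ℕ × ℕ)) : A := (l.map fun p => (p.2 : ℤ) • v p.1).sum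

/-- the real value of a row -/
def rowR (v : ℕ → A) (r : Row) : A := tv v r.1 + (tv v r.2.1 + tv v r.2.2)

/-- the imaginary value of a row -/
def rowI (v : ℕ → A) (r : Row) : A := tv v r.1 - tv v r.2.1

/-- the real value of a row with one term -/
def sR (v : ℕ → A) (s : Sng) : A := v s.1

/-- the imaginary value of a row with one term -/
def sI (v : ℕ → A) (s : Sng) : A := if s.2 = 0 then v s.1 else if s.2 = 1 then -v s.1 else 0

/-- a form: the digits of `x` minus `h` times the rows -/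
def fm {R : Type} (F : R → A) (w h : ℕ) : List R → ℕ → A
  | [], _ => 0
  | (r :: rs), x => (((x % w : ℕ) : ℤ) - h) • F r + fm F w h rs (x / w)

/-- the shifted valuation -/
def vo (v : ℕ → A) (o : ℕ) : ℕ → A := fun T => v (o + T)

/-- the real form of blocks -/
def bmR (v : ℕ → A) (w h : ℕ) (bs : List Blk) (x : ℕ) : A :=
  (bs.map fun b => fm (sR (vo v b.1)) w h b.2.2 (x / w ^ b.2.1)).sum

/-- the imaginary form of blocks -/
def bmI (v : ℕ → A) (w h : ℕ) (bs : List Blk) (x : ℕ) : A :=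
  (bs.map fun b => fm (sI (vo v b.1)) w h b.2.2 (x / w ^ b.2.1)).sum

/-- the real form of a group -/
noncomputable def gmR (P : Par) (v : ℕ → A) (w h : ℕ) (g : Grp) (xy : ℕ × ℕ) : A :=
  (cD P • fm (rowR (vo v g.oE)) w h g.D xy.1 - cE P g.a • fm (sR (vo v g.oE)) w h g.E xy.1)
    + cF P • fm (sR (vo v g.oE)) w h g.E xy.2 - cM P g.w • fm (sR (vo v g.oM)) w h g.M xy.1

/-- the imaginary form of a group -/
noncomputable def gmI (P : Par) (v : ℕ → A) (w h : ℕ) (g : Grp) (xy : ℕ × ℕ) : A :=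
  (cF P • fm (sI (vo v g.oE)) w h g.E xy.1 - cD P • fm (rowI (vo v g.oE)) w h g.D xy.2)
    + cE P g.a • fm (sI (vo v g.oE)) w h g.E xy.2 + cM P g.w • fm (sI (vo v g.oM)) w h g.M xy.2

/-- the real form of the groups -/
noncomputable def gsmR (P : Par) (v : ℕ → A) (w h : ℕ) : List Grp → List (ℕ × ℕ) → A
  | [], _ => 0
  | (_ :: _), [] => 0
  | (g :: gs), (xy :: l) => gmR P v w h g xy + gsmR P v w h gs l

/-- the imaginary form of the groups -/
noncomputable def gsmI (P : Par) (v : ℕ → A) (w h : ℕ) : List Grp → List (ℕ × ℕ) → A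
  | [], _ => 0
  | (_ :: _), [] => 0
  | (g :: gs), (xy :: l) => gmI P v w h g xy + gsmI P v w h gs l

/-- the packed column of the Gram matrix, real part -/
noncomputable def zc (B H w h n : ℕ) (U : List (ℕ × ℕ × ℕ)) (k : ℕ) : ℕ :=
  cr B w h U k + H * ons B n - cq B w h U k

/-- the packed column of the Gram matrix, imaginary part -/
noncomputable def zd (B H w h n : ℕ) (U : List (ℕ × ℕ × ℕ)) (k : ℕ) : ℕ :=
  ci B w h U k + H * ons B n - cq B w h U k

/-- the real form of the Gram matrix -/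
noncomputable def mmR (v : ℕ → A) (B H w h n : ℕ) (U : List (ℕ × ℕ × ℕ)) (T : List (ℕ × List Blk)) :
    A := (T.map fun bs => bmR v B H bs.2 (zc B H w h n U bs.1)).sum

/-- the imaginary form of the Gram matrix -/
noncomputable def mmI (v : ℕ → A) (B H w h n : ℕ) (U : List (ℕ × ℕ × ℕ)) (T : List (ℕ × List Blk)) :
    A := (T.map fun bs => bmI v B H bs.2 (zd B H w h n U bs.1)).sum

/-- the real form of the left side -/
noncomputable def TRm (t : Tab6) (C : Cert6) (v : ℕ → A) : A :=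
  ((C.P.sr * C.P.bd : ℕ) : ℤ) • ((C.eta : ℤ) • v t.one + bmR v C.wQ C.hQ t.q C.qx)
    + (C.mL : ℤ) • gsmR C.P v C.wL C.hL t.g C.G

/-- the imaginary form of the left side -/
noncomputable def TIm (t : Tab6) (C : Cert6) (v : ℕ → A) : A :=
  (C.mL : ℤ) • gsmI C.P v C.wL C.hL t.g C.G
    - ((C.P.sr * C.P.bd : ℕ) : ℤ) • bmI v C.wQ C.hQ t.q C.qy

/-- the real form of the identity -/
noncomputable def FRm (t : Tab6) (C : Cert6) (v : ℕ → A) : A :=
  (((2 * C.m1 : ℕ) : ℤ) • TRm t C v + (C.m2 : ℤ) • mmR v C.wG C.hG C.wU C.hU t.n C.U t.c)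
    + ((bmR v C.wD 0 t.d C.dg + (C.eps : ℤ) • bmR v 2 0 t.d (2 ^ t.nB - 1))
      + (2 : ℤ) • bmR v C.wR C.hR t.r C.rx)

/-- minus the imaginary form of the identity -/
noncomputable def FIm (t : Tab6) (C : Cert6) (v : ℕ → A) : A :=
  ((C.m2 : ℤ) • mmI v C.wG C.hG C.wU C.hU t.n C.U t.c - ((2 * C.m1 : ℕ) : ℤ) • TIm t C v)
    + (2 : ℤ) • bmI v C.wR C.hR t.r C.ry

end Forms

/-! ## Homomorphisms -/

section Hom

variable {A B : Type*} [AddCommGroup A] [AddCommGroup B] (φ : A →+ B)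

theorem map_tv (v : ℕ → A) (l : List (ℕ × ℕ)) : φ (tv v l) = tv (fun T => φ (v T)) l := by
  unfold tv
  rw [map_list_sum, List.map_map]
  congr 1
  apply List.map_congr_left
  intro p _
  simp [map_zsmul]

theorem map_fm {R : Type} (F : R → A) (w h : ℕ) (rs : List R) (x : ℕ) :
    φ (fm F w h rs x) = fm (fun r => φ (F r)) w h rs x := by
  induction rs generalizing x with
  | nil => simp [fm]
  | cons r rs ih => simp only [fm, map_add, map_zsmul, ih]

theorem map_rowR (v : ℕ → A) (r : Row) : φ (rowR v r) = rowR (fun T => φ (v T)) r := by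
  simp only [rowR, map_add, map_tv]

theorem map_rowI (v : ℕ → A) (r : Row) : φ (rowI v r) = rowI (fun T => φ (v T)) r := by
  simp only [rowI, map_sub, map_tv]

theorem map_sR (v : ℕ → A) (s : Sng) : φ (sR v s) = sR (fun T => φ (v T)) s := rfl

theorem map_sI (v : ℕ → A) (s : Sng) : φ (sI v s) = sI (fun T => φ (v T)) s := by
  unfold sI
  split_ifs
  · rfl
  · rw [map_neg]
  · rw [map_zero]

theorem map_bmR (v : ℕ → A) (w h : ℕ) (bs : List Blk) (x : ℕ) :
    φ (bmR v w h bs x) = bmR (fun T => φ (v T)) w h bs x := by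
  unfold bmR
  rw [map_list_sum, List.map_map]
  congr 1
  apply List.map_congr_left
  intro b _
  simp only [Function.comp, map_fm]
  rfl

theorem map_bmI (v : ℕ → A) (w h : ℕ) (bs : List Blk) (x : ℕ) :
    φ (bmI v w h bs x) = bmI (fun T => φ (v T)) w h bs x := by
  unfold bmI
  rw [map_list_sum, List.map_map]
  congr 1
  apply List.map_congr_left
  intro b _
  simp only [Function.comp, map_fm, map_sI]
  rfl

theorem map_gmR (P : Par) (v : ℕ → A) (w h : ℕ) (g : Grp) (xy : ℕ × ℕ) :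
    φ (gmR P v w h g xy) = gmR P (fun T => φ (v T)) w h g xy := by
  unfold gmR
  simp only [map_add, map_sub, map_zsmul, map_fm, map_rowR, map_sR]
  rfl

theorem map_gmI (P : Par) (v : ℕ → A) (w h : ℕ) (g : Grp) (xy : ℕ × ℕ) :
    φ (gmI P v w h g xy) = gmI P (fun T => φ (v T)) w h g xy := by
  unfold gmI
  simp only [map_add, map_sub, map_zsmul, map_fm, map_rowI, map_sI]
  rfl

theorem map_gsmR (P : Par) (v : ℕ → A) (w h : ℕ) (gs : List Grp) (l : List (ℕ × ℕ)) :
    φ (gsmR P v w h gs l) = gsmR P (fun T => φ (v T)) w h gs l := by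
  induction gs generalizing l with
  | nil => simp [gsmR]
  | cons g gs ih =>
    rcases l with _ | ⟨xy, l⟩
    · simp [gsmR]
    · simp only [gsmR, map_add, ih, map_gmR]

theorem map_gsmI (P : Par) (v : ℕ → A) (w h : ℕ) (gs : List Grp) (l : List (ℕ × ℕ)) :
    φ (gsmI P v w h gs l) = gsmI P (fun T => φ (v T)) w h gs l := by
  induction gs generalizing l with
  | nil => simp [gsmI]
  | cons g gs ih =>
    rcases l with _ | ⟨xy, l⟩
    · simp [gsmI]
    · simp only [gsmI, map_add, ih, map_gmI]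

theorem map_mmR (v : ℕ → A) (B' H w h n : ℕ) (U : List (ℕ × ℕ × ℕ)) (T : List (ℕ × List Blk)) :
    φ (mmR v B' H w h n U T) = mmR (fun T => φ (v T)) B' H w h n U T := by
  unfold mmR
  rw [map_list_sum, List.map_map]
  congr 1
  apply List.map_congr_left
  intro b _
  simp only [Function.comp, map_bmR]

theorem map_mmI (v : ℕ → A) (B' H w h n : ℕ) (U : List (ℕ × ℕ × ℕ)) (T : List (ℕ × List Blk)) :
    φ (mmI v B' H w h n U T) = mmI (fun T => φ (v T)) B' H w h n U T := by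
  unfold mmI
  rw [map_list_sum, List.map_map]
  congr 1
  apply List.map_congr_left
  intro b _
  simp only [Function.comp, map_bmI]

theorem map_FRm (t : Tab6) (C : Cert6) (v : ℕ → A) : φ (FRm t C v) = FRm t C (fun T => φ (v T)) := by
  unfold FRm TRm
  simp only [map_add, map_zsmul, map_bmR, map_gsmR, map_mmR]

theorem map_FIm (t : Tab6) (C : Cert6) (v : ℕ → A) : φ (FIm t C v) = FIm t C (fun T => φ (v T)) := by
  unfold FIm TIm
  simp only [map_add, map_sub, map_zsmul, map_bmI, map_gsmI, map_mmI]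

end Hom

/-! ## The kernel functions are the forms with the values `2 ^ T` -/

/-- the packed valuation -/
def pw (T : ℕ) : ℤ := 2 ^ T

theorem rr_eq (l : List (ℕ × ℕ)) : ((rr l : ℕ) : ℤ) = tv pw l := by
  induction l with
  | nil => rfl
  | cons p l ih =>
    have h1 : rr (p :: l) = p.2 <<< p.1 + rr l := rfl
    rw [h1, Nat.shiftLeft_eq]
    push_cast
    rw [ih]
    simp [tv, pw]

theorem ra_eq (r : Row) : ((ra r : ℕ) : ℤ) = rowR pw r := by
  have h1 : ra r = rr r.1 + (rr r.2.1 + rr r.2.2) := rfl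
  rw [h1, rowR, ← rr_eq, ← rr_eq, ← rr_eq]
  push_cast
  rfl

theorem zr_eq (w h : ℕ) (rs : List Row) (x : ℕ) : zr w h rs x = fm (rowR pw) w h rs x := by
  have h0 : zr w h rs x = (fr w rs x : ℤ) - (h * fr1 rs : ℕ) := Int.subNatNat_eq_coe
  rw [h0]
  clear h0
  induction rs generalizing x with
  | nil => simp [fr, fr1, fm]
  | cons r rs ih =>
    have h1 : fr w (r :: rs) x = (x % w) * ra r + fr w rs (x / w) := rfl
    have h2 : fr1 (r :: rs) = ra r + fr1 rs := rfl
    rw [h1, h2, fm, ← ih, ← ra_eq]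
    push_cast
    simp only [smul_eq_mul]
    ring

theorem zi_eq (w h : ℕ) (hw0 : 0 < w) (hw : w ≤ 2 * h + 1) (rs : List Row) (x : ℕ) :
    zi w h rs x = fm (rowI pw) w h rs x := by
  have h0 : zi w h rs x = (fi w (2 * h) rs x : ℤ) - (h * fi1 rs : ℕ) := Int.subNatNat_eq_coe
  rw [h0]
  clear h0
  induction rs generalizing x with
  | nil => simp [fi, fi1, fm]
  | cons r rs ih =>
    have h1 : fi w (2 * h) (r :: rs) x = ((x % w) * rr r.1 + (2 * h - x % w) * rr r.2.1)
      + fi w (2 * h) rs (x / w) := rfl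
    have h2 : fi1 (r :: rs) = (rr r.1 + rr r.2.1) + fi1 rs := rfl
    have h3 : x % w ≤ 2 * h := by
      have := Nat.mod_lt x hw0
      omega
    rw [h1, h2, fm, ← ih, rowI, ← rr_eq, ← rr_eq]
    push_cast [Nat.cast_sub h3]
    simp only [smul_eq_mul]
    ring

theorem yr_eq (w h : ℕ) (rs : List Sng) (x : ℕ) : yr w h rs x = fm (sR pw) w h rs x := by
  have h0 : yr w h rs x = (gr1 w rs x : ℤ) - (h * go1 rs : ℕ) := Int.subNatNat_eq_coe
  rw [h0]
  clear h0
  induction rs generalizing x with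
  | nil => simp [gr1, go1, fm]
  | cons r rs ih =>
    have h1 : gr1 w (r :: rs) x = (x % w) <<< r.1 + gr1 w rs (x / w) := rfl
    have h2 : go1 (r :: rs) = 1 <<< r.1 + go1 rs := rfl
    rw [h1, h2, fm, ← ih, Nat.shiftLeft_eq, Nat.shiftLeft_eq, sR, pw]
    push_cast
    simp only [smul_eq_mul]
    ring

theorem yi_eq (w h : ℕ) (hw0 : 0 < w) (hw : w ≤ 2 * h + 1) (rs : List Sng) (x : ℕ) :
    yi w h rs x = fm (sI pw) w h rs x := by
  have h0 : yi w h rs x = (gi1 w (2 * h) rs x : ℤ) - (h * gp1 rs : ℕ) := Int.subNatNat_eq_coe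
  rw [h0]
  clear h0
  induction rs generalizing x with
  | nil => simp [gi1, gp1, fm]
  | cons r rs ih =>
    obtain ⟨T, f⟩ := r
    have h3 : x % w ≤ 2 * h := by
      have := Nat.mod_lt x hw0
      omega
    rcases f with _ | _ | f
    · have h1 : gi1 w (2 * h) ((T, 0) :: rs) x = (x % w) <<< T + gi1 w (2 * h) rs (x / w) := rfl
      have h2 : gp1 ((T, 0) :: rs) = 1 <<< T + gp1 rs := rfl
      rw [h1, h2, fm, ← ih, Nat.shiftLeft_eq, Nat.shiftLeft_eq, sI, pw]
      push_cast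
      simp only [smul_eq_mul]
      ring
    · have h1 : gi1 w (2 * h) ((T, 0 + 1) :: rs) x
        = (2 * h - x % w) <<< T + gi1 w (2 * h) rs (x / w) := rfl
      have h2 : gp1 ((T, 0 + 1) :: rs) = 1 <<< T + gp1 rs := rfl
      rw [h1, h2, fm, ← ih, Nat.shiftLeft_eq, Nat.shiftLeft_eq, sI, pw]
      push_cast [Nat.cast_sub h3]
      simp only [smul_eq_mul]
      ring
    · have h1 : gi1 w (2 * h) ((T, f + 1 + 1) :: rs) x = gi1 w (2 * h) rs (x / w) := rfl
      have h2 : gp1 ((T, f + 1 + 1) :: rs) = gp1 rs := rfl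
      have h4 : sI pw ((T, f + 1 + 1) : Sng) = 0 := by
        simp [sI]
      rw [h1, h2, fm, ← ih, h4, smul_zero, zero_add]

theorem vo_pw (o : ℕ) : vo pw o = fun T => (2 ^ o : ℤ) * pw T := by
  funext T
  simp only [vo, pw, pow_add]

theorem fm_mul {R : Type} (F : R → ℤ) (z : ℤ) (w h : ℕ) (rs : List R) (x : ℕ) :
    fm (fun r => z * F r) w h rs x = z * fm F w h rs x := by
  have := map_fm (AddMonoidHom.mulLeft z) F w h rs x
  simpa using this.symm

theorem sh_eq (o : ℕ) (z : ℤ) : sh o z = 2 ^ o * z := by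
  have h1 : sh o z = ((1 <<< o : ℕ) : ℤ) * z := rfl
  rw [h1, Nat.shiftLeft_eq]
  push_cast
  ring

theorem fm_sR_vo (o w h : ℕ) (rs : List Sng) (x : ℕ) :
    fm (sR (vo pw o)) w h rs x = 2 ^ o * fm (sR pw) w h rs x := by
  rw [← fm_mul, vo_pw]
  rfl

theorem fm_sI_vo (o w h : ℕ) (rs : List Sng) (x : ℕ) :
    fm (sI (vo pw o)) w h rs x = 2 ^ o * fm (sI pw) w h rs x := by
  rw [← fm_mul, vo_pw]
  congr 1
  funext r
  unfold sI
  split_ifs <;> ring

theorem fm_rowR_vo (o w h : ℕ) (rs : List Row) (x : ℕ) :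
    fm (rowR (vo pw o)) w h rs x = 2 ^ o * fm (rowR pw) w h rs x := by
  rw [← fm_mul, vo_pw]
  congr 1
  funext r
  have := map_rowR (AddMonoidHom.mulLeft (2 ^ o : ℤ)) pw r
  simpa using this.symm

theorem fm_rowI_vo (o w h : ℕ) (rs : List Row) (x : ℕ) :
    fm (rowI (vo pw o)) w h rs x = 2 ^ o * fm (rowI pw) w h rs x := by
  rw [← fm_mul, vo_pw]
  congr 1
  funext r
  have := map_rowI (AddMonoidHom.mulLeft (2 ^ o : ℤ)) pw r
  simpa using this.symm

theorem br_eq (w h : ℕ) (bs : List Blk) (x : ℕ) : br w h bs x = bmR pw w h bs x := by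
  induction bs with
  | nil => rfl
  | cons b bs ih =>
    have h1 : br w h (b :: bs) x = sh b.1 (yr w h b.2.2 (x / w ^ b.2.1)) + br w h bs x := rfl
    rw [h1, ih, sh_eq, yr_eq]
    simp only [bmR, List.map_cons, List.sum_cons]
    rw [fm_sR_vo]

theorem bi_eq (w h : ℕ) (hw0 : 0 < w) (hw : w ≤ 2 * h + 1) (bs : List Blk) (x : ℕ) :
    bi w h bs x = bmI pw w h bs x := by
  induction bs with
  | nil => rfl
  | cons b bs ih =>
    have h1 : bi w h (b :: bs) x = sh b.1 (yi w h b.2.2 (x / w ^ b.2.1)) + bi w h bs x := rfl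
    rw [h1, ih, sh_eq, yi_eq w h hw0 hw]
    simp only [bmI, List.map_cons, List.sum_cons]
    rw [fm_sI_vo]

theorem gr_eq (P : Par) (w h : ℕ) (g : Grp) (xy : ℕ × ℕ) : gr P w h g xy = gmR P pw w h g xy := by
  have h1 : gr P w h g xy = sh g.oE (cD P * zr w h g.D xy.1 - cE P g.a * yr w h g.E xy.1
    + cF P * yr w h g.E xy.2) - sh g.oM (cM P g.w * yr w h g.M xy.1) := rfl
  rw [h1, gmR, sh_eq, sh_eq, zr_eq, yr_eq, yr_eq, yr_eq, fm_rowR_vo, fm_sR_vo, fm_sR_vo, fm_sR_vo]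
  simp only [smul_eq_mul]
  ring

theorem gi_eq (P : Par) (w h : ℕ) (hw0 : 0 < w) (hw : w ≤ 2 * h + 1) (g : Grp) (xy : ℕ × ℕ) :
    gi P w h g xy = gmI P pw w h g xy := by
  have h1 : gi P w h g xy = sh g.oE (cF P * yi w h g.E xy.1 - cD P * zi w h g.D xy.2
    + cE P g.a * yi w h g.E xy.2) + sh g.oM (cM P g.w * yi w h g.M xy.2) := rfl
  rw [h1, gmI, sh_eq, sh_eq, zi_eq w h hw0 hw, yi_eq w h hw0 hw, yi_eq w h hw0 hw,
    yi_eq w h hw0 hw, fm_rowI_vo, fm_sI_vo, fm_sI_vo, fm_sI_vo]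
  simp only [smul_eq_mul]
  ring

theorem gsr_eq (P : Par) (w h : ℕ) (gs : List Grp) (l : List (ℕ × ℕ)) :
    gsr P w h gs l = gsmR P pw w h gs l := by
  induction gs generalizing l with
  | nil => rfl
  | cons g gs ih =>
    rcases l with _ | ⟨xy, l⟩
    · rfl
    · have h1 : gsr P w h (g :: gs) (xy :: l) = gr P w h g xy + gsr P w h gs l := rfl
      rw [h1, ih, gr_eq, gsmR]

theorem gsi_eq (P : Par) (w h : ℕ) (hw0 : 0 < w) (hw : w ≤ 2 * h + 1) (gs : List Grp)
    (l : List (ℕ × ℕ)) : gsi P w h gs l = gsmI P pw w h gs l := by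
  induction gs generalizing l with
  | nil => rfl
  | cons g gs ih =>
    rcases l with _ | ⟨xy, l⟩
    · rfl
    · have h1 : gsi P w h (g :: gs) (xy :: l) = gi P w h g xy + gsi P w h gs l := rfl
      rw [h1, ih, gi_eq P w h hw0 hw, gsmI]

theorem mr_eq (B H w h n : ℕ) (U : List (ℕ × ℕ × ℕ)) (T : List (ℕ × List Blk)) :
    mr B H w h n U T = mmR pw B H w h n U T := by
  induction T with
  | nil => rfl
  | cons b T ih =>
    have h1 : mr B H w h n U (b :: T) = br B H b.2 (zc B H w h n U b.1) + mr B H w h n U T := rfl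
    rw [h1, ih, br_eq]
    simp [mmR]

theorem mi_eq (B H w h n : ℕ) (hw0 : 0 < B) (hw : B ≤ 2 * H + 1) (U : List (ℕ × ℕ × ℕ))
    (T : List (ℕ × List Blk)) : mi B H w h n U T = mmI pw B H w h n U T := by
  induction T with
  | nil => rfl
  | cons b T ih =>
    have h1 : mi B H w h n U (b :: T) = bi B H b.2 (zd B H w h n U b.1) + mi B H w h n U T := rfl
    rw [h1, ih, bi_eq B H hw0 hw]
    simp [mmI]

theorem FR_eq (t : Tab6) (C : Cert6) : FR t C = FRm t C pw := by
  have h1 : FR t C = (((2 * C.m1 : ℕ) : ℤ) * TR t C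
      + (C.m2 : ℤ) * mr C.wG C.hG C.wU C.hU t.n C.U t.c)
      + ((br C.wD 0 t.d C.dg + (C.eps : ℤ) * br 2 0 t.d (2 ^ t.nB - 1))
        + 2 * br C.wR C.hR t.r C.rx) := rfl
  have h2 : TR t C = ((C.P.sr * C.P.bd : ℕ) : ℤ) * (((C.eta <<< t.one : ℕ) : ℤ)
      + br C.wQ C.hQ t.q C.qx) + (C.mL : ℤ) * gsr C.P C.wL C.hL t.g C.G := rfl
  rw [h1, h2, FRm, TRm, mr_eq, br_eq, br_eq, br_eq, br_eq, gsr_eq, Nat.shiftLeft_eq]
  simp only [smul_eq_mul, pw]
  push_cast
  ring

theorem FI_eq (t : Tab6) (C : Cert6) (hL0 : 0 < C.wL) (hL : C.wL ≤ 2 * C.hL + 1) (hQ0 : 0 < C.wQ)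
    (hQ : C.wQ ≤ 2 * C.hQ + 1) (hG0 : 0 < C.wG) (hG : C.wG ≤ 2 * C.hG + 1) (hR0 : 0 < C.wR)
    (hR : C.wR ≤ 2 * C.hR + 1) : FI t C = FIm t C pw := by
  have h1 : FI t C = ((C.m2 : ℤ) * mi C.wG C.hG C.wU C.hU t.n C.U t.c
      - ((2 * C.m1 : ℕ) : ℤ) * TI t C) + 2 * bi C.wR C.hR t.r C.ry := rfl
  have h2 : TI t C = (C.mL : ℤ) * gsi C.P C.wL C.hL t.g C.G
      - ((C.P.sr * C.P.bd : ℕ) : ℤ) * bi C.wQ C.hQ t.q C.qy := rfl
  rw [h1, h2, FIm, TIm, mi_eq _ _ _ _ _ hG0 hG, bi_eq _ _ hQ0 hQ, bi_eq _ _ hR0 hR,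
    gsi_eq _ _ _ hL0 hL]
  simp only [smul_eq_mul]

end Pool.Agent.Helper54.HR2
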