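import Mathlib
import Pool.Agent.Helper54.HR2.Sem6
import Pool.Agent.Helper12.HR2.Kron

/-!
MP_16b0ee, project HR2: the norm of a form and the vanishing of a form from the vanishing of its
packed value.
-/

set_option autoImplicit false

namespace Pool.Agent.Helper54.HR2

open Pool.Agent.Helper12.HR2 (Par)

/-- the norm of an integral combination -/
noncomputable def NL (L : ℕ →₀ ℤ) : ℕ := ∑ j ∈ L.support, (L j).natAbs

theorem NL_eq (L : ℕ →₀ ℤ) (S : Finset ℕ) (hS : L.support ⊆ S) : NL L = ∑ j ∈ S, (L j).natAbs := by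
  unfold NL
  apply Finset.sum_subset hS
  intro j _ hj
  rw [Finsupp.notMem_support_iff.1 hj]
  rfl

theorem NL_zero : NL 0 = 0 := by simp [NL]

theorem NL_add (L L' : ℕ →₀ ℤ) : NL (L + L') ≤ NL L + NL L' := by
  classical
  rw [NL_eq L (L.support ∪ L'.support) Finset.subset_union_left,
    NL_eq L' (L.support ∪ L'.support) Finset.subset_union_right,
    NL_eq (L + L') (L.support ∪ L'.support) Finsupp.support_add, ← Finset.sum_add_distrib]
  apply Finset.sum_le_sum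
  intro j _
  rw [Finsupp.add_apply]
  exact Int.natAbs_add_le _ _

theorem NL_smul (z : ℤ) (L : ℕ →₀ ℤ) : NL (z • L) = z.natAbs * NL L := by
  rw [NL_eq (z • L) L.support Finsupp.support_smul, NL, Finset.mul_sum]
  apply Finset.sum_congr rfl
  intro j _
  rw [Finsupp.smul_apply, smul_eq_mul, Int.natAbs_mul]

theorem NL_neg (L : ℕ →₀ ℤ) : NL (-L) = NL L := by
  have := NL_smul (-1) L
  simpa using this

theorem NL_sub (L L' : ℕ →₀ ℤ) : NL (L - L') ≤ NL L + NL L' := by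
  rw [sub_eq_add_neg]
  have := NL_add L (-L')
  rwa [NL_neg] at this

theorem NL_single (j : ℕ) (z : ℤ) : NL (Finsupp.single j z) = z.natAbs := by
  rw [NL_eq _ {j} Finsupp.support_single_subset, Finset.sum_singleton, Finsupp.single_eq_same]

/-- the formal valuation -/
noncomputable def vF (K : ℕ) (T : ℕ) : ℕ →₀ ℤ := Finsupp.single (T / K) (2 ^ (T % K))

theorem NL_vF (K T : ℕ) : NL (vF K T) = 2 ^ (T % K) := by
  rw [vF, NL_single, Int.natAbs_pow]
  rfl

/-- a small form vanishes if its packed value vanishes -/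
theorem eq_zero_of_packed (B : ℕ) (L : ℕ →₀ ℤ) (hN : NL L < B)
    (h0 : Finsupp.linearCombination ℤ (fun j => (B : ℤ) ^ j) L = 0) : L = 0 := by
  classical
  have key : ∀ i, L i = 0 := by
    intro i
    have h1 := Pool.Agent.Helper12.HR2.vanish (B : ℤ) (L.support.toList.map (fun j => (j, L j)))
      (fun j => if j = i then 1 else 0) (by
        rw [List.map_map]
        have h2 : (L.support.toList.map ((fun x : ℕ × ℤ => |x.2|) ∘ fun j => (j, L j))).sum
            = ∑ j ∈ L.support, |L j| := by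
          rw [← Finset.sum_map_toList]
          rfl
        rw [h2]
        have h3 : ((NL L : ℕ) : ℤ) = ∑ j ∈ L.support, |L j| := by
          rw [NL]
          push_cast
          rfl
        rw [← h3]
        exact_mod_cast hN) (by
        rw [List.map_map]
        have h2 : (L.support.toList.map ((fun x : ℕ × ℤ => x.2 * (B : ℤ) ^ x.1)
            ∘ fun j => (j, L j))).sum = ∑ j ∈ L.support, L j * (B : ℤ) ^ j := by
          rw [← Finset.sum_map_toList]
          rfl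
        rw [h2, ← h0, Finsupp.linearCombination_apply, Finsupp.sum]
        rfl)
    rw [List.map_map] at h1
    have h2 : (L.support.toList.map ((fun x : ℕ × ℤ => (x.2 : ℂ) * (if x.1 = i then 1 else 0))
        ∘ fun j => (j, L j))).sum = ∑ j ∈ L.support, (L j : ℂ) * (if j = i then 1 else 0) := by
      rw [← Finset.sum_map_toList]
      rfl
    rw [h2] at h1
    simp only [mul_ite, mul_one, mul_zero, Finset.sum_ite_eq', Finsupp.mem_support_iff, ne_eq,
      ite_not] at h1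
    by_cases h : L i = 0
    · exact h
    · rw [if_neg h] at h1
      exact_mod_cast h1
  ext i
  rw [key i]
  rfl

/-! ## Bounds -/

theorem NL_tv (v : ℕ → ℕ →₀ ℤ) (l : List (ℕ × ℕ)) :
    NL (tv v l) ≤ (l.map fun p => p.2 * NL (v p.1)).sum := by
  induction l with
  | nil => simp [tv, NL_zero]
  | cons p l ih =>
    have h1 : tv v (p :: l) = (p.2 : ℤ) • v p.1 + tv v l := by simp [tv]
    rw [h1]
    simp only [List.map_cons, List.sum_cons]
    refine (NL_add _ _).trans (Nat.add_le_add ?_ ih)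
    rw [NL_smul]
    simp

theorem NL_fm {R : Type} (F : R → ℕ →₀ ℤ) (c : R → ℕ) (w h : ℕ) (hw : h < w) (rs : List R) (x : ℕ)
    (hc : ∀ r ∈ rs, NL (F r) ≤ c r) : NL (fm F w h rs x) ≤ (w - 1) * (rs.map c).sum := by
  induction rs generalizing x with
  | nil => simp [fm, NL_zero]
  | cons r rs ih =>
    simp only [fm, List.map_cons, List.sum_cons, mul_add]
    refine (NL_add _ _).trans (Nat.add_le_add ?_ (ih _ (fun r' h' => hc r' (by simp [h']))))
    rw [NL_smul]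
    refine Nat.mul_le_mul ?_ (hc r (by simp))
    have := Nat.mod_lt x (show 0 < w by omega)
    omega

/-- the multiplicity of a shift -/
def eK (K T : ℕ) : ℕ := 2 ^ (T % K)

/-- the sum of the multiplicities of blocks -/
def cB (K : ℕ) (bs : List Blk) : ℕ := (bs.map fun b => (b.2.2.map fun s => eK K (b.1 + s.1)).sum).sum

/-- the sum of the multiplicities of a list of terms -/
def cT (K o : ℕ) (l : List (ℕ × ℕ)) : ℕ := (l.map fun p => p.2 * eK K (o + p.1)).sum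

/-- the sum of the multiplicities of a row -/
def cRow (K o : ℕ) (r : Row) : ℕ := cT K o r.1 + (cT K o r.2.1 + cT K o r.2.2)

/-- the sum of the multiplicities of rows -/
def cDs (K o : ℕ) (rs : List Row) : ℕ := (rs.map (cRow K o)).sum

/-- the sum of the multiplicities of rows with one term -/
def cSs (K o : ℕ) (rs : List Sng) : ℕ := (rs.map fun s => eK K (o + s.1)).sum

theorem NL_sR (K o : ℕ) (s : Sng) : NL (sR (vo (vF K) o) s) = eK K (o + s.1) := NL_vF _ _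

theorem NL_sI (K o : ℕ) (s : Sng) : NL (sI (vo (vF K) o) s) ≤ eK K (o + s.1) := by
  unfold sI
  split_ifs
  · exact (NL_vF _ _).le
  · rw [NL_neg]
    exact (NL_vF _ _).le
  · rw [NL_zero]
    exact Nat.zero_le _

theorem NL_tvo (K o : ℕ) (l : List (ℕ × ℕ)) : NL (tv (vo (vF K) o) l) ≤ cT K o l := by
  refine (NL_tv _ _).trans (le_of_eq ?_)
  unfold cT
  congr 1
  apply List.map_congr_left
  intro p _
  rw [vo, NL_vF]
  rfl

theorem NL_rowR (K o : ℕ) (r : Row) : NL (rowR (vo (vF K) o) r) ≤ cRow K o r := by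
  unfold rowR cRow
  refine (NL_add _ _).trans (Nat.add_le_add (NL_tvo _ _ _) ?_)
  exact (NL_add _ _).trans (Nat.add_le_add (NL_tvo _ _ _) (NL_tvo _ _ _))

theorem NL_rowI (K o : ℕ) (r : Row) : NL (rowI (vo (vF K) o) r) ≤ cRow K o r := by
  unfold rowI cRow
  refine (NL_sub _ _).trans (Nat.add_le_add (NL_tvo _ _ _) ?_)
  exact (NL_tvo _ _ _).trans (by omega)

theorem NL_bmR (K w h : ℕ) (hw : h < w) (bs : List Blk) (x : ℕ) :
    NL (bmR (vF K) w h bs x) ≤ (w - 1) * cB K bs := by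
  induction bs with
  | nil => simp [bmR, NL_zero]
  | cons b bs ih =>
    have h1 : bmR (vF K) w h (b :: bs) x = fm (sR (vo (vF K) b.1)) w h b.2.2 (x / w ^ b.2.1)
      + bmR (vF K) w h bs x := by simp [bmR]
    have h2 : cB K (b :: bs) = (b.2.2.map fun s => eK K (b.1 + s.1)).sum + cB K bs := by simp [cB]
    rw [h1, h2, mul_add]
    refine (NL_add _ _).trans (Nat.add_le_add ?_ ih)
    exact NL_fm _ _ w h hw _ _ (fun s _ => (NL_sR K b.1 s).le)

theorem NL_bmI (K w h : ℕ) (hw : h < w) (bs : List Blk) (x : ℕ) :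
    NL (bmI (vF K) w h bs x) ≤ (w - 1) * cB K bs := by
  induction bs with
  | nil => simp [bmI, NL_zero]
  | cons b bs ih =>
    have h1 : bmI (vF K) w h (b :: bs) x = fm (sI (vo (vF K) b.1)) w h b.2.2 (x / w ^ b.2.1)
      + bmI (vF K) w h bs x := by simp [bmI]
    have h2 : cB K (b :: bs) = (b.2.2.map fun s => eK K (b.1 + s.1)).sum + cB K bs := by simp [cB]
    rw [h1, h2, mul_add]
    refine (NL_add _ _).trans (Nat.add_le_add ?_ ih)
    exact NL_fm _ _ w h hw _ _ (fun s _ => NL_sI K b.1 s)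

theorem cD_abs (P : Par) : (cD P).natAbs = P.bd * P.sr := Int.natAbs_natCast _

theorem cE_abs (P : Par) (a : ℕ) (ha : a ≤ 12) :
    (cE P a).natAbs ≤ P.bd * P.sr * 12 + 2 * P.bd * P.p.natAbs := by
  have h1 : cE P a = ((P.bd * P.sr * a : ℕ) : ℤ) + ((2 * P.bd : ℕ) : ℤ) * P.p := rfl
  rw [h1]
  refine (Int.natAbs_add_le _ _).trans (Nat.add_le_add ?_ ?_)
  · rw [Int.natAbs_natCast]
    exact Nat.mul_le_mul_left _ ha
  · rw [Int.natAbs_mul, Int.natAbs_natCast]

theorem cF_abs (P : Par) : (cF P).natAbs = 2 * P.bd * P.q.natAbs := by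
  have h1 : cF P = ((2 * P.bd : ℕ) : ℤ) * P.q := rfl
  rw [h1, Int.natAbs_mul, Int.natAbs_natCast]

theorem cM_abs (P : Par) (w : ℕ) (hw : w ≤ 12) : (cM P w).natAbs ≤ P.sr * (P.bn + P.bd * 12) := by
  have h1 : cM P w = ((P.sr * (P.bn + P.bd * w) : ℕ) : ℤ) := rfl
  rw [h1, Int.natAbs_natCast]
  exact Nat.mul_le_mul_left _ (Nat.add_le_add_left (Nat.mul_le_mul_left _ hw) _)

/-- the number of rows of a group (with multiplicities) -/
def cG (K : ℕ) (g : Grp) : ℕ := max (cSs K g.oE g.E) (cSs K g.oM g.M)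

/-- the bound of the norm of the groups -/
def bG (P : Par) (d m : ℕ) : ℕ :=
  P.bd * P.sr * d + m * (P.bd * P.sr * 12 + (2 * P.bd * (P.p.natAbs + P.q.natAbs)
    + P.sr * (P.bn + P.bd * 12)))

theorem bG_add (P : Par) (d m d' m' : ℕ) : bG P (d + d') (m + m') = bG P d m + bG P d' m' := by
  unfold bG
  ring

theorem grp_arith (P : Par) (w d e m c : ℕ) (a1 a2 a3 a4 : ℕ) (h1 : a1 = P.bd * P.sr)
    (h2 : a2 ≤ P.bd * P.sr * 12 + 2 * P.bd * P.p.natAbs) (h3 : a3 = 2 * P.bd * P.q.natAbs)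
    (h4 : a4 ≤ P.sr * (P.bn + P.bd * 12)) (he : e ≤ c) (hm : m ≤ c) :
    a1 * (w * d) + a2 * (w * e) + a3 * (w * e) + a4 * (w * m) ≤ w * bG P d c := by
  have e1 : a2 * (w * e) ≤ (P.bd * P.sr * 12 + 2 * P.bd * P.p.natAbs) * (w * c) :=
    Nat.mul_le_mul h2 (Nat.mul_le_mul_left _ he)
  have e2 : a3 * (w * e) ≤ (2 * P.bd * P.q.natAbs) * (w * c) :=
    Nat.mul_le_mul h3.le (Nat.mul_le_mul_left _ he)
  have e3 : a4 * (w * m) ≤ (P.sr * (P.bn + P.bd * 12)) * (w * c) :=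
    Nat.mul_le_mul h4 (Nat.mul_le_mul_left _ hm)
  calc _ ≤ a1 * (w * d) + (P.bd * P.sr * 12 + 2 * P.bd * P.p.natAbs) * (w * c)
        + (2 * P.bd * P.q.natAbs) * (w * c) + (P.sr * (P.bn + P.bd * 12)) * (w * c) := by
        omega
    _ = _ := by
        rw [h1]
        unfold bG
        ring

theorem NL_gmR (P : Par) (K w h : ℕ) (hw : h < w) (g : Grp) (ha : g.a ≤ 12) (hgw : g.w ≤ 12)
    (xy : ℕ × ℕ) :
    NL (gmR P (vF K) w h g xy) ≤ (w - 1) * bG P (cDs K g.oE g.D) (cG K g) := by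
  unfold gmR
  have h1 := NL_fm (rowR (vo (vF K) g.oE)) (cRow K g.oE) w h hw g.D xy.1
    (fun r _ => NL_rowR K g.oE r)
  have h2 := NL_fm (sR (vo (vF K) g.oE)) (fun s => eK K (g.oE + s.1)) w h hw g.E xy.1
    (fun s _ => (NL_sR K g.oE s).le)
  have h3 := NL_fm (sR (vo (vF K) g.oE)) (fun s => eK K (g.oE + s.1)) w h hw g.E xy.2
    (fun s _ => (NL_sR K g.oE s).le)
  have h4 := NL_fm (sR (vo (vF K) g.oM)) (fun s => eK K (g.oM + s.1)) w h hw g.M xy.1
    (fun s _ => (NL_sR K g.oM s).le)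
  refine (NL_sub _ _).trans ?_
  refine (Nat.add_le_add_right (NL_add _ _) _).trans ?_
  refine (Nat.add_le_add_right (Nat.add_le_add_right (NL_sub _ _) _) _).trans ?_
  rw [NL_smul, NL_smul, NL_smul, NL_smul]
  refine le_trans ?_ (grp_arith P (w - 1) (cDs K g.oE g.D) (cSs K g.oE g.E) (cSs K g.oM g.M)
    (cG K g) _ _ _ _ (cD_abs P) (cE_abs P g.a ha) (cF_abs P) (cM_abs P g.w hgw)
    (le_max_left _ _) (le_max_right _ _))
  exact Nat.add_le_add (Nat.add_le_add (Nat.add_le_add (Nat.mul_le_mul_left _ h1)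
    (Nat.mul_le_mul_left _ h2)) (Nat.mul_le_mul_left _ h3)) (Nat.mul_le_mul_left _ h4)

theorem NL_gmI (P : Par) (K w h : ℕ) (hw : h < w) (g : Grp) (ha : g.a ≤ 12) (hgw : g.w ≤ 12)
    (xy : ℕ × ℕ) :
    NL (gmI P (vF K) w h g xy) ≤ (w - 1) * bG P (cDs K g.oE g.D) (cG K g) := by
  unfold gmI
  have h1 := NL_fm (rowI (vo (vF K) g.oE)) (cRow K g.oE) w h hw g.D xy.2
    (fun r _ => NL_rowI K g.oE r)
  have h2 := NL_fm (sI (vo (vF K) g.oE)) (fun s => eK K (g.oE + s.1)) w h hw g.E xy.1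
    (fun s _ => NL_sI K g.oE s)
  have h3 := NL_fm (sI (vo (vF K) g.oE)) (fun s => eK K (g.oE + s.1)) w h hw g.E xy.2
    (fun s _ => NL_sI K g.oE s)
  have h4 := NL_fm (sI (vo (vF K) g.oM)) (fun s => eK K (g.oM + s.1)) w h hw g.M xy.2
    (fun s _ => NL_sI K g.oM s)
  refine (NL_add _ _).trans ?_
  refine (Nat.add_le_add_right (NL_add _ _) _).trans ?_
  refine (Nat.add_le_add_right (Nat.add_le_add_right (NL_sub _ _) _) _).trans ?_
  rw [NL_smul, NL_smul, NL_smul, NL_smul]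
  refine le_trans ?_ (grp_arith P (w - 1) (cDs K g.oE g.D) (cSs K g.oE g.E) (cSs K g.oM g.M)
    (cG K g) _ _ _ _ (cD_abs P) (cE_abs P g.a ha) (cF_abs P) (cM_abs P g.w hgw)
    (le_max_left _ _) (le_max_right _ _))
  have e1 := Nat.mul_le_mul_left (cF P).natAbs h2
  have e2 := Nat.mul_le_mul_left (cD P).natAbs h1
  have e3 := Nat.mul_le_mul_left (cE P g.a).natAbs h3
  have e4 := Nat.mul_le_mul_left (cM P g.w).natAbs h4
  calc _ ≤ _ := Nat.add_le_add (Nat.add_le_add (Nat.add_le_add e1 e2) e3) e4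
    _ = _ := by
      simp only [cDs, cSs]
      ring

theorem NL_gsmR (P : Par) (K w h : ℕ) (hw : h < w) (gs : List Grp)
    (hg : ∀ g ∈ gs, g.a ≤ 12 ∧ g.w ≤ 12) (l : List (ℕ × ℕ)) :
    NL (gsmR P (vF K) w h gs l)
      ≤ (w - 1) * bG P (gs.map fun g => cDs K g.oE g.D).sum (gs.map (cG K)).sum := by
  induction gs generalizing l with
  | nil => simp [gsmR, NL_zero]
  | cons g gs ih =>
    rcases l with _ | ⟨xy, l⟩
    · simp [gsmR, NL_zero]
    · simp only [gsmR, List.map_cons, List.sum_cons]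
      rw [bG_add, mul_add]
      refine (NL_add _ _).trans (Nat.add_le_add ?_ (ih (fun g' h' => hg g' (by simp [h'])) l))
      exact NL_gmR P K w h hw g (hg g (by simp)).1 (hg g (by simp)).2 xy

theorem NL_gsmI (P : Par) (K w h : ℕ) (hw : h < w) (gs : List Grp)
    (hg : ∀ g ∈ gs, g.a ≤ 12 ∧ g.w ≤ 12) (l : List (ℕ × ℕ)) :
    NL (gsmI P (vF K) w h gs l)
      ≤ (w - 1) * bG P (gs.map fun g => cDs K g.oE g.D).sum (gs.map (cG K)).sum := by
  induction gs generalizing l with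
  | nil => simp [gsmI, NL_zero]
  | cons g gs ih =>
    rcases l with _ | ⟨xy, l⟩
    · simp [gsmI, NL_zero]
    · simp only [gsmI, List.map_cons, List.sum_cons]
      rw [bG_add, mul_add]
      refine (NL_add _ _).trans (Nat.add_le_add ?_ (ih (fun g' h' => hg g' (by simp [h'])) l))
      exact NL_gmI P K w h hw g (hg g (by simp)).1 (hg g (by simp)).2 xy

theorem NL_mmR (K B H w h n : ℕ) (hB : H < B) (U : List (ℕ × ℕ × ℕ)) (T : List (ℕ × List Blk)) :
    NL (mmR (vF K) B H w h n U T) ≤ (B - 1) * (T.map fun b => cB K b.2).sum := by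
  induction T with
  | nil => simp [mmR, NL_zero]
  | cons b T ih =>
    have h1 : mmR (vF K) B H w h n U (b :: T) = bmR (vF K) B H b.2 (zc B H w h n U b.1)
      + mmR (vF K) B H w h n U T := by simp [mmR]
    rw [h1]
    simp only [List.map_cons, List.sum_cons, mul_add]
    exact (NL_add _ _).trans (Nat.add_le_add (NL_bmR K B H hB _ _) ih)

theorem NL_mmI (K B H w h n : ℕ) (hB : H < B) (U : List (ℕ × ℕ × ℕ)) (T : List (ℕ × List Blk)) :
    NL (mmI (vF K) B H w h n U T) ≤ (B - 1) * (T.map fun b => cB K b.2).sum := by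
  induction T with
  | nil => simp [mmI, NL_zero]
  | cons b T ih =>
    have h1 : mmI (vF K) B H w h n U (b :: T) = bmI (vF K) B H b.2 (zd B H w h n U b.1)
      + mmI (vF K) B H w h n U T := by simp [mmI]
    rw [h1]
    simp only [List.map_cons, List.sum_cons, mul_add]
    exact (NL_add _ _).trans (Nat.add_le_add (NL_bmI K B H hB _ _) ih)

/-- the numerical data of the tables are correct -/
structure NumOK (t : Tab6) (K : ℕ) : Prop where
  one : t.one % K = 0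
  q : cB K t.q ≤ t.nQ
  ga : ∀ g ∈ t.g, g.a ≤ 12 ∧ g.w ≤ 12
  D : (t.g.map fun g => cDs K g.oE g.D).sum ≤ t.nD
  M : (t.g.map (cG K)).sum ≤ t.nM
  c : (t.c.map fun b => cB K b.2).sum ≤ t.nC
  d : cB K t.d ≤ t.nB
  r : cB K t.r ≤ t.nR

theorem bG_mono (P : Par) {d d' m m' : ℕ} (hd : d ≤ d') (hm : m ≤ m') : bG P d m ≤ bG P d' m' := by
  unfold bG
  exact Nat.add_le_add (Nat.mul_le_mul_left _ hd) (Nat.mul_le_mul_right _ hm)

theorem NL_FRm {t : Tab6} {K : ℕ} (ht : NumOK t K) (C : Cert6) (hL : C.hL < C.wL)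
    (hQ : C.hQ < C.wQ) (hG : C.hG < C.wG) (hD : 0 < C.wD) (hR : C.hR < C.wR) :
    NL (FRm t C (vF K)) ≤ nF t C := by
  have a1 := (NL_bmR K C.wQ C.hQ hQ t.q C.qx).trans (Nat.mul_le_mul (Nat.sub_le _ _) ht.q)
  have a2 := (NL_gsmR C.P K C.wL C.hL hL t.g ht.ga C.G).trans
    (Nat.mul_le_mul (Nat.sub_le _ _) (bG_mono C.P ht.D ht.M))
  have a3 := (NL_mmR K C.wG C.hG C.wU C.hU t.n hG C.U t.c).trans
    (Nat.mul_le_mul (Nat.sub_le _ _) ht.c)
  have a4 := (NL_bmR K C.wD 0 hD t.d C.dg).trans (Nat.mul_le_mul (Nat.sub_le _ _) ht.d)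
  have a5 := (NL_bmR K 2 0 (by norm_num) t.d (2 ^ t.nB - 1)).trans
    (Nat.mul_le_mul (le_refl (2 - 1)) ht.d)
  have a6 := (NL_bmR K C.wR C.hR hR t.r C.rx).trans (Nat.mul_le_mul (Nat.sub_le _ _) ht.r)
  have a7 : NL (vF K t.one) = 1 := by rw [NL_vF, ht.one, pow_zero]
  have b1 : NL (TRm t C (vF K)) ≤ C.P.sr * C.P.bd * (C.eta + C.wQ * t.nQ)
      + C.mL * (C.wL * bG C.P t.nD t.nM) := by
    unfold TRm
    refine (NL_add _ _).trans (Nat.add_le_add ?_ ?_)
    · rw [NL_smul, Int.natAbs_natCast]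
      refine Nat.mul_le_mul_left _ ((NL_add _ _).trans (Nat.add_le_add ?_ a1))
      rw [NL_smul, Int.natAbs_natCast, a7, mul_one]
    · rw [NL_smul, Int.natAbs_natCast]
      exact Nat.mul_le_mul_left _ a2
  have e : nF t C = (2 * C.m1 * (C.P.sr * C.P.bd * (C.eta + C.wQ * t.nQ)
      + C.mL * (C.wL * bG C.P t.nD t.nM)) + C.m2 * (C.wG * t.nC))
      + ((C.wD + C.eps) * t.nB + 2 * (C.wR * t.nR)) := rfl
  rw [e]
  unfold FRm
  refine (NL_add _ _).trans (Nat.add_le_add ((NL_add _ _).trans (Nat.add_le_add ?_ ?_))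
    ((NL_add _ _).trans (Nat.add_le_add ?_ ?_)))
  · rw [NL_smul, Int.natAbs_natCast]
    exact Nat.mul_le_mul_left _ b1
  · rw [NL_smul, Int.natAbs_natCast]
    exact Nat.mul_le_mul_left _ a3
  · rw [add_mul]
    refine (NL_add _ _).trans (Nat.add_le_add a4 ?_)
    rw [NL_smul, Int.natAbs_natCast]
    exact Nat.mul_le_mul_left _ (a5.trans (by omega))
  · rw [NL_smul]
    exact Nat.mul_le_mul_left _ a6

theorem NL_FIm {t : Tab6} {K : ℕ} (ht : NumOK t K) (C : Cert6) (hL : C.hL < C.wL)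
    (hQ : C.hQ < C.wQ) (hG : C.hG < C.wG) (hR : C.hR < C.wR) :
    NL (FIm t C (vF K)) ≤ nF t C := by
  have a1 := (NL_bmI K C.wQ C.hQ hQ t.q C.qy).trans (Nat.mul_le_mul (Nat.sub_le _ _) ht.q)
  have a2 := (NL_gsmI C.P K C.wL C.hL hL t.g ht.ga C.G).trans
    (Nat.mul_le_mul (Nat.sub_le _ _) (bG_mono C.P ht.D ht.M))
  have a3 := (NL_mmI K C.wG C.hG C.wU C.hU t.n hG C.U t.c).trans
    (Nat.mul_le_mul (Nat.sub_le _ _) ht.c)
  have a6 := (NL_bmI K C.wR C.hR hR t.r C.ry).trans (Nat.mul_le_mul (Nat.sub_le _ _) ht.r)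
  have b1 : NL (TIm t C (vF K)) ≤ C.P.sr * C.P.bd * (C.eta + C.wQ * t.nQ)
      + C.mL * (C.wL * bG C.P t.nD t.nM) := by
    unfold TIm
    refine (NL_sub _ _).trans ?_
    rw [NL_smul, NL_smul, Int.natAbs_natCast, Int.natAbs_natCast]
    have c1 := Nat.mul_le_mul_left C.mL a2
    have c2 := Nat.mul_le_mul_left (C.P.sr * C.P.bd) (a1.trans (Nat.le_add_left _ C.eta))
    omega
  have e : nF t C = (2 * C.m1 * (C.P.sr * C.P.bd * (C.eta + C.wQ * t.nQ)
      + C.mL * (C.wL * bG C.P t.nD t.nM)) + C.m2 * (C.wG * t.nC))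
      + ((C.wD + C.eps) * t.nB + 2 * (C.wR * t.nR)) := rfl
  rw [e]
  unfold FIm
  have d1 := NL_add ((C.m2 : ℤ) • mmI (vF K) C.wG C.hG C.wU C.hU t.n C.U t.c
    - ((2 * C.m1 : ℕ) : ℤ) • TIm t C (vF K)) ((2 : ℤ) • bmI (vF K) C.wR C.hR t.r C.ry)
  have d2 := NL_sub ((C.m2 : ℤ) • mmI (vF K) C.wG C.hG C.wU C.hU t.n C.U t.c)
    (((2 * C.m1 : ℕ) : ℤ) • TIm t C (vF K))
  rw [NL_smul, NL_smul, Int.natAbs_natCast, Int.natAbs_natCast] at d2
  have d3 : NL ((2 : ℤ) • bmI (vF K) C.wR C.hR t.r C.ry) ≤ 2 * (C.wR * t.nR) := by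
    rw [NL_smul]
    exact Nat.mul_le_mul_left _ a6
  have d4 := Nat.mul_le_mul_left C.m2 a3
  have d5 := Nat.mul_le_mul_left (2 * C.m1) b1
  omega

/-- the packed homomorphism -/
noncomputable def lc {A : Type*} [AddCommGroup A] (V : ℕ → A) : (ℕ →₀ ℤ) →+ A :=
  (Finsupp.linearCombination ℤ V).toAddMonoidHom

theorem lc_vF {A : Type*} [AddCommGroup A] (V : ℕ → A) (K T : ℕ) :
    lc V (vF K T) = (2 ^ (T % K) : ℤ) • V (T / K) := by
  simp [lc, vF, Finsupp.linearCombination_single]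

/-- the semantic valuation -/
def vs {A : Type*} [AddCommGroup A] (K : ℕ) (V : ℕ → A) (T : ℕ) : A := (2 ^ (T % K) : ℤ) • V (T / K)

theorem vs_pw (K : ℕ) : vs K (fun j => ((2 ^ K : ℕ) : ℤ) ^ j) = pw := by
  funext T
  simp only [vs, pw, smul_eq_mul]
  push_cast
  rw [← pow_mul, ← pow_add]
  congr 1
  have := Nat.div_add_mod T K
  omega

theorem FRm_zero {t : Tab6} {K : ℕ} (ht : NumOK t K) (C : Cert6) (hL : C.hL < C.wL)
    (hQ : C.hQ < C.wQ) (hG : C.hG < C.wG) (hD : 0 < C.wD) (hR : C.hR < C.wR)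
    (hn : nF t C < 2 ^ K) (h0 : FRm t C pw = 0) {A : Type*} [AddCommGroup A] (V : ℕ → A) :
    FRm t C (vs K V) = 0 := by
  have h1 : ∀ {A : Type} [AddCommGroup A] (V : ℕ → A),
      lc V (FRm t C (vF K)) = FRm t C (vs K V) := by
    intro A _ V
    rw [map_FRm]
    simp only [lc_vF]
    rfl
  have h2 := h1 (fun j => ((2 ^ K : ℕ) : ℤ) ^ j)
  rw [vs_pw, h0] at h2
  have h3 := eq_zero_of_packed (2 ^ K) (FRm t C (vF K))
    (lt_of_le_of_lt (NL_FRm ht C hL hQ hG hD hR) hn) h2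
  have h4 : lc V (FRm t C (vF K)) = FRm t C (vs K V) := by
    rw [map_FRm]
    simp only [lc_vF]
    rfl
  rw [← h4, h3, map_zero]

theorem FIm_zero {t : Tab6} {K : ℕ} (ht : NumOK t K) (C : Cert6) (hL : C.hL < C.wL)
    (hQ : C.hQ < C.wQ) (hG : C.hG < C.wG) (hR : C.hR < C.wR)
    (hn : nF t C < 2 ^ K) (h0 : FIm t C pw = 0) {A : Type*} [AddCommGroup A] (V : ℕ → A) :
    FIm t C (vs K V) = 0 := by
  have h2 : lc (fun j => ((2 ^ K : ℕ) : ℤ) ^ j) (FIm t C (vF K))
      = FIm t C (vs K (fun j => ((2 ^ K : ℕ) : ℤ) ^ j)) := by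
    rw [map_FIm]
    simp only [lc_vF]
    rfl
  rw [vs_pw, h0] at h2
  have h3 := eq_zero_of_packed (2 ^ K) (FIm t C (vF K))
    (lt_of_le_of_lt (NL_FIm ht C hL hQ hG hR) hn) h2
  have h4 : lc V (FIm t C (vF K)) = FIm t C (vs K V) := by
    rw [map_FIm]
    simp only [lc_vF]
    rfl
  rw [← h4, h3, map_zero]

end Pool.Agent.Helper54.HR2
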