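import Mathlib
import Pool.Agent.Helper54.HR2.Van6
import Pool.Agent.Helper12.HR2.Sound

/-!
MP_16b0ee, project HR2: codes of monomials and the correctness of the tables of the second kernel
computation.
-/

set_option autoImplicit false

open scoped ComplexConjugate

namespace Pool.Agent.Helper54.HR2

open Pool.Agent.Helper12.HR2 (Par Mo GZ gv Pol mv pv wl rel Dvl dvl upl prd)

/-! ## Codes -/

/-- a digit to the base 16 -/
def dig (κ k : ℕ) : ℕ := κ / 16 ^ k % 16

/-- the value of a code -/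
noncomputable def mc (c : ℕ → ℂ) (κ : ℕ) : ℂ :=
  (∏ k ∈ Finset.range 6, c k ^ dig κ k) * ∏ k ∈ Finset.range 6, conj (c k) ^ dig κ (6 + k)

/-- the code of the conjugate monomial -/
def sw (κ : ℕ) : ℕ := κ / 16777216 % 16777216 + 16777216 * (κ % 16777216)

/-- the code of a monomial -/
def cod (m : Mo) : ℕ := (m.1.map (fun a => 16 ^ a)).sum + (m.2.map (fun b => 16 ^ (6 + b))).sum

theorem dig_aux (X H k : ℕ) (hk : k < 6) : (X + 16777216 * H) / 16 ^ k % 16 = X / 16 ^ k % 16 := by
  interval_cases k <;> norm_num <;> omega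

theorem dig_sw_lo (κ k : ℕ) (hk : k < 6) : dig (sw κ) k = dig κ (6 + k) := by
  have h1 := dig_aux (κ / 16777216 % 16777216) (κ % 16777216) k hk
  have h2 := dig_aux (κ / 16777216 % 16777216) (κ / 16777216 / 16777216) k hk
  have h3 : κ / 16777216 % 16777216 + 16777216 * (κ / 16777216 / 16777216) = κ / 16777216 :=
    Nat.mod_add_div _ _
  have h4 : κ / 16 ^ (6 + k) = κ / 16777216 / 16 ^ k := by
    rw [pow_add, ← Nat.div_div_eq_div_mul]
    norm_num
  unfold dig sw
  rw [h1, h4, ← h2, h3]

theorem dig_sw_hi (κ k : ℕ) (hk : k < 6) : dig (sw κ) (6 + k) = dig κ k := by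
  have h1 := dig_aux (κ % 16777216) (κ / 16777216) k hk
  have h3 : κ % 16777216 + 16777216 * (κ / 16777216) = κ := Nat.mod_add_div _ _
  have h4 : ∀ z : ℕ, z / 16 ^ (6 + k) = z / 16777216 / 16 ^ k := by
    intro z
    rw [pow_add, ← Nat.div_div_eq_div_mul]
    norm_num
  have h5 : (κ / 16777216 % 16777216 + 16777216 * (κ % 16777216)) / 16777216
      = κ % 16777216 := by omega
  unfold dig sw
  rw [h4, h5, ← h1, h3]

theorem mc_sw (c : ℕ → ℂ) (κ : ℕ) : mc c (sw κ) = conj (mc c κ) := by
  unfold mc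
  rw [map_mul, map_prod, map_prod, mul_comm]
  congr 1
  · apply Finset.prod_congr rfl
    intro k hk
    rw [dig_sw_hi κ k (Finset.mem_range.1 hk), map_pow]
  · apply Finset.prod_congr rfl
    intro k hk
    rw [dig_sw_lo κ k (Finset.mem_range.1 hk), map_pow, Complex.conj_conj]

theorem dig_sum (n : ℕ) : ∀ (e : ℕ → ℕ) (_ : ∀ k < n, e k < 16) (j : ℕ), j < n →
    dig (∑ k ∈ Finset.range n, e k * 16 ^ k) j = e j := by
  induction n with
  | zero => intro e _ j hj; omega
  | succ n ih =>
    intro e he j hj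
    have h1 : ∑ k ∈ Finset.range (n + 1), e k * 16 ^ k
        = e 0 + 16 * ∑ k ∈ Finset.range n, e (k + 1) * 16 ^ k := by
      rw [Finset.sum_range_succ', Finset.mul_sum, add_comm]
      congr 1
      · simp
      · apply Finset.sum_congr rfl
        intro k _
        ring
    rw [h1]
    have h0 := he 0 (by omega)
    rcases j with _ | j
    · unfold dig
      simp only [pow_zero, Nat.div_one]
      omega
    · have h2 := ih (fun k => e (k + 1)) (fun k hk => he (k + 1) (by omega)) j (by omega)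
      unfold dig at h2 ⊢
      rw [pow_succ', ← Nat.div_div_eq_div_mul]
      have h3 : (e 0 + 16 * ∑ k ∈ Finset.range n, e (k + 1) * 16 ^ k) / 16
          = ∑ k ∈ Finset.range n, e (k + 1) * 16 ^ k := by omega
      rw [h3]
      exact h2

/-- validity of a monomial -/
def vmo (m : Mo) : Bool :=
  m.1.all (fun i => Nat.ble (i + 1) 6) && m.2.all (fun i => Nat.ble (i + 1) 6)
    && Nat.ble m.1.length 15 && Nat.ble m.2.length 15

theorem vmo_iff {m : Mo} (h : vmo m = true) : (∀ i ∈ m.1, i < 6) ∧ (∀ i ∈ m.2, i < 6) ∧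
    m.1.length ≤ 15 ∧ m.2.length ≤ 15 := by
  unfold vmo at h
  simp only [Bool.and_eq_true, List.all_eq_true, Nat.ble_eq] at h
  obtain ⟨⟨⟨h1, h2⟩, h3⟩, h4⟩ := h
  exact ⟨fun i hi => h1 i hi, fun i hi => h2 i hi, h3, h4⟩

theorem cod_eq {m : Mo} (h : vmo m = true) : cod m
    = ∑ k ∈ Finset.range 12, (if k < 6 then m.1.count k else m.2.count (k - 6)) * 16 ^ k := by
  obtain ⟨h1, h2, -, -⟩ := vmo_iff h
  unfold cod
  rw [Pool.Agent.Helper12.HR2.sum_count 6 m.1 h1 (fun a => 16 ^ a),
    Pool.Agent.Helper12.HR2.sum_count 6 m.2 h2 (fun b => 16 ^ (6 + b))]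
  simp only [Finset.sum_range_succ, Finset.sum_range_zero]
  norm_num
  ring

theorem mc_cod (c : ℕ → ℂ) {m : Mo} (h : vmo m = true) :
    mc c (cod m) = mv c (fun k => conj (c k)) m := by
  obtain ⟨h1, h2, h3, h4⟩ := vmo_iff h
  have hd : ∀ j < 12, dig (cod m) j = if j < 6 then m.1.count j else m.2.count (j - 6) := by
    intro j hj
    rw [cod_eq h]
    refine dig_sum 12 (fun k => if k < 6 then m.1.count k else m.2.count (k - 6)) ?_ j hj
    intro k _
    split_ifs
    · exact lt_of_le_of_lt List.count_le_length (by omega)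
    · exact lt_of_le_of_lt List.count_le_length (by omega)
  unfold mc mv
  rw [Pool.Agent.Helper12.HR2.prod_count 6 m.1 h1, Pool.Agent.Helper12.HR2.prod_count 6 m.2 h2]
  congr 1
  · apply Finset.prod_congr rfl
    intro k hk
    have := Finset.mem_range.1 hk
    rw [hd k (by omega), if_pos this]
  · apply Finset.prod_congr rfl
    intro k hk
    have := Finset.mem_range.1 hk
    rw [hd (6 + k) (by omega), if_neg (by omega)]
    congr 2
    omega

/-! ## Forms with complex digits -/

/-- a form with complex digits -/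
noncomputable def cf {R : Type} (F : R → ℂ) (w h : ℕ) : List R → ℕ → ℕ → ℂ
  | [], _, _ => 0
  | (r :: rs), x, y => gv ((((x % w : ℕ) : ℤ) - h), (((y % w : ℕ) : ℤ) - h)) * F r
      + cf F w h rs (x / w) (y / w)

theorem cf_congr {R : Type} {F G : R → ℂ} (w h : ℕ) (rs : List R) (hFG : ∀ r ∈ rs, F r = G r)
    (x y : ℕ) : cf F w h rs x y = cf G w h rs x y := by
  induction rs generalizing x y with
  | nil => rfl
  | cons r rs ih =>
    rw [cf, cf, hFG r (by simp), ih (fun r' h' => hFG r' (by simp [h']))]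

theorem cf_add {R : Type} (F G : R → ℂ) (w h : ℕ) (rs : List R) (x y : ℕ) :
    cf (fun r => F r + G r) w h rs x y = cf F w h rs x y + cf G w h rs x y := by
  induction rs generalizing x y with
  | nil => simp [cf]
  | cons r rs ih => rw [cf, cf, cf, ih]; ring

theorem cf_mul {R : Type} (a : ℂ) (F : R → ℂ) (w h : ℕ) (rs : List R) (x y : ℕ) :
    cf (fun r => a * F r) w h rs x y = a * cf F w h rs x y := by
  induction rs generalizing x y with
  | nil => simp [cf]
  | cons r rs ih => rw [cf, cf, ih]; ring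

theorem pv_upl (φ ψ : ℕ → ℂ) (w h : ℕ) (ms : List Mo) (x y : ℕ) :
    pv φ ψ (upl w h ms x y) = cf (mv φ ψ) w h ms x y := by
  induction ms generalizing x y with
  | nil => simp [upl, cf, pv]
  | cons m ms ih => rw [upl, Pool.Agent.Helper12.HR2.pv_cons, ih, cf]

/-- the value of a relation -/
noncomputable def rv (s b : ℂ) (c : ℕ → ℂ) (m : Mo) : ℂ :=
  ((-2 * s * c 0 * (m.1.map c).prod + Dvl c m.1) - (b + wl m.1 + wl m.2) * (m.1.map c).prod)
    * conj ((m.2.map c).prod)

theorem rel_upl (s b : ℂ) (c : ℕ → ℂ) (w h : ℕ) (ms : List Mo) (x y : ℕ) :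
    rel s b c (upl w h ms x y) = cf (rv s b c) w h ms x y := by
  induction ms generalizing x y with
  | nil => simp [upl, cf, rel]
  | cons m ms ih => rw [upl, Pool.Agent.Helper12.HR2.rel_cons, ih, cf, rv]

/-- the rows have the real and imaginary parts of the complex values -/
theorem fm_cf {R S : Type} (FR FI : R → ℝ) (G : S → ℂ) (w h : ℕ) {rs : List R} {ms : List S}
    (hf : List.Forall₂ (fun r m => FR r = (G m).re ∧ FI r = (G m).im) rs ms) (x y : ℕ) :
    fm FR w h rs x - fm FI w h rs y = (cf G w h ms x y).re ∧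
      fm FI w h rs x + fm FR w h rs y = (cf G w h ms x y).im := by
  induction hf generalizing x y with
  | nil => simp [fm, cf]
  | cons h1 _ ih =>
    obtain ⟨i1, i2⟩ := ih (x / w) (y / w)
    simp only [fm, cf, Complex.add_re, Complex.add_im, Complex.mul_re, Complex.mul_im,
      Pool.Agent.Helper12.HR2.gv_re, Pool.Agent.Helper12.HR2.gv_im, zsmul_eq_mul]
    rw [← i1, ← i2, h1.1, h1.2]
    constructor <;> ring

/-! ## The check of the tables -/

/-- the semantic valuations -/
noncomputable def rhoV (K : ℕ) (rep : ℕ → ℕ) (c : ℕ → ℂ) : ℕ → ℝ :=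
  vs K (fun j => (mc c (rep j)).re)

/-- the semantic valuations -/
noncomputable def sigV (K : ℕ) (rep : ℕ → ℕ) (c : ℕ → ℂ) : ℕ → ℝ :=
  vs K (fun j => (mc c (rep j)).im)

/-- the check of a row with one term: code `κ`, multiplicity `2 ^ e` -/
def okS (K : ℕ) (rep : ℕ → ℕ) (o : ℕ) (s : Sng) (κ e : ℕ) : Bool :=
  Nat.beq ((o + s.1) % K) e &&
    match s.2 with
    | 0 => Nat.beq (rep ((o + s.1) / K)) κ
    | 1 => Nat.beq (rep ((o + s.1) / K)) (sw κ)
    | 2 => Nat.beq (rep ((o + s.1) / K)) κ && Nat.beq (sw κ) κ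
    | _ => false

theorem okS_spec {K : ℕ} {rep : ℕ → ℕ} {o : ℕ} {s : Sng} {κ e : ℕ} (h : okS K rep o s κ e = true)
    (c : ℕ → ℂ) : sR (vo (rhoV K rep c) o) s = ((2 ^ e : ℂ) * mc c κ).re ∧
      sI (vo (sigV K rep c) o) s = ((2 ^ e : ℂ) * mc c κ).im := by
  unfold okS at h
  rw [Bool.and_eq_true] at h
  obtain ⟨h1, h2⟩ := h
  have h1' := Nat.eq_of_beq_eq_true h1
  have e1 : ((2 ^ e : ℂ) * mc c κ).re = 2 ^ e * (mc c κ).re := by
    have : (2 ^ e : ℂ) = ((2 ^ e : ℝ) : ℂ) := by push_cast; rfl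
    rw [this, Complex.re_ofReal_mul]
  have e2 : ((2 ^ e : ℂ) * mc c κ).im = 2 ^ e * (mc c κ).im := by
    have : (2 ^ e : ℂ) = ((2 ^ e : ℝ) : ℂ) := by push_cast; rfl
    rw [this, Complex.im_ofReal_mul]
  have e3 : sR (vo (rhoV K rep c) o) s = 2 ^ e * (mc c (rep ((o + s.1) / K))).re := by
    simp only [sR, vo, rhoV, vs, h1', zsmul_eq_mul]
    push_cast
    rfl
  have e4 : vo (sigV K rep c) o s.1 = 2 ^ e * (mc c (rep ((o + s.1) / K))).im := by
    simp only [vo, sigV, vs, h1', zsmul_eq_mul]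
    push_cast
    rfl
  rw [e1, e2, e3, sI, e4]
  obtain ⟨T, f⟩ := s
  simp only at h2 ⊢
  rcases f with _ | _ | _ | f
  · have h3 := Nat.eq_of_beq_eq_true h2
    rw [h3]
    simp
  · have h3 := Nat.eq_of_beq_eq_true h2
    rw [h3, mc_sw]
    simp
  · simp only [Bool.and_eq_true] at h2
    have h3 := Nat.eq_of_beq_eq_true h2.1
    have h4 := Nat.eq_of_beq_eq_true h2.2
    rw [h3]
    have h5 : (mc c κ).im = 0 := by
      have := mc_sw c κ
      rw [h4] at this
      have h6 := congrArg Complex.im this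
      rw [Complex.conj_im] at h6
      linarith
    rw [h5]
    simp
  · exact absurd h2 (by simp)

/-- the check of rows with one term -/
def okL {S : Type} (K : ℕ) (rep : ℕ → ℕ) (o : ℕ) (q : S → ℕ × ℕ) : List Sng → List S → Bool
  | [], [] => true
  | (s :: ss), (m :: ms) => okS K rep o s (q m).1 (q m).2 && okL K rep o q ss ms
  | _, _ => false

theorem okL_spec {S : Type} {K : ℕ} {rep : ℕ → ℕ} {o : ℕ} {q : S → ℕ × ℕ} (c : ℕ → ℂ) :
    ∀ (ss : List Sng) (ms : List S), okL K rep o q ss ms = true →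
    List.Forall₂ (fun s m => sR (vo (rhoV K rep c) o) s = ((2 ^ (q m).2 : ℂ) * mc c (q m).1).re ∧
      sI (vo (sigV K rep c) o) s = ((2 ^ (q m).2 : ℂ) * mc c (q m).1).im) ss ms := by
  intro ss
  induction ss with
  | nil =>
    intro ms h
    rcases ms with _ | ⟨m, ms⟩
    · exact List.Forall₂.nil
    · exact absurd h (by simp [okL])
  | cons s ss ih =>
    intro ms h
    rcases ms with _ | ⟨m, ms⟩
    · exact absurd h (by simp [okL])
    · simp only [okL, Bool.and_eq_true] at h
      exact List.Forall₂.cons (okS_spec h.1 c) (ih ms h.2)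

/-! ## The derivative -/

/-- derivative of a variable -/
def dvt : ℕ → List (List ℕ × ℤ)
  | 0 => [([1], 3), ([0, 0], -1)]
  | (k + 1) => ([k + 2], (k : ℤ) + 4) :: (List.range k).map (fun i => ([i + 1, k - i], 1))

/-- derivative of a monomial -/
def Dt : List ℕ → List (List ℕ × ℤ)
  | [] => []
  | (a :: A) => (dvt a).map (fun t => (t.1 ++ A, t.2)) ++ (Dt A).map (fun t => (a :: t.1, t.2))

/-- the value of a list of terms -/
noncomputable def tev (c : ℕ → ℂ) (l : List (List ℕ × ℤ)) : ℂ :=
  (l.map fun t => (t.2 : ℂ) * (t.1.map c).prod).sum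

theorem tev_append (c : ℕ → ℂ) (l l' : List (List ℕ × ℤ)) : tev c (l ++ l') = tev c l + tev c l' := by
  simp [tev]

theorem tev_cons (c : ℕ → ℂ) (t : List ℕ × ℤ) (l : List (List ℕ × ℤ)) :
    tev c (t :: l) = (t.2 : ℂ) * (t.1.map c).prod + tev c l := by
  simp [tev]

theorem tev_dvt (c : ℕ → ℂ) (n : ℕ) : tev c (dvt n) = dvl c n := by
  rcases n with _ | k
  · simp only [dvt, tev, dvl, List.map_cons, List.map_nil, List.prod_cons, List.prod_nil,
      List.sum_cons, List.sum_nil, if_true]
    push_cast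
    ring
  · rw [dvt, tev_cons, dvl, if_neg (Nat.succ_ne_zero k)]
    have h1 : tev c ((List.range k).map (fun i => (([i + 1, k - i] : List ℕ), (1 : ℤ))))
        = ∑ i ∈ Finset.range k, c (i + 1) * c (k - i) := by
      unfold tev
      rw [List.map_map, Finset.sum_range]
      have : ∀ n : ℕ, ((List.range n).map ((fun t : List ℕ × ℤ => (t.2 : ℂ) * (t.1.map c).prod)
          ∘ fun i => (([i + 1, k - i] : List ℕ), (1 : ℤ)))).sum
          = ∑ i ∈ Finset.range n, c (i + 1) * c (k - i) := by
        intro n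
        induction n with
        | zero => simp
        | succ n ih =>
          rw [List.range_succ, List.map_append, List.sum_append, ih, Finset.sum_range_succ]
          simp
      rw [this, Finset.sum_range]
    rw [h1]
    simp only [List.map_cons, List.map_nil, List.prod_cons, List.prod_nil, mul_one,
      Nat.add_sub_cancel]
    push_cast
    ring

theorem tev_Dt (c : ℕ → ℂ) (A : List ℕ) : tev c (Dt A) = Dvl c A := by
  induction A with
  | nil => rfl
  | cons a A ih =>
    rw [Dt, tev_append]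
    have h1 : tev c ((dvt a).map (fun t => (t.1 ++ A, t.2))) = tev c (dvt a) * (A.map c).prod := by
      generalize dvt a = l
      induction l with
      | nil => simp [tev]
      | cons t l ihl =>
        rw [List.map_cons, tev_cons, tev_cons, ihl]
        simp only [List.map_append, List.prod_append]
        ring
    have h2 : tev c ((Dt A).map (fun t => (a :: t.1, t.2))) = c a * tev c (Dt A) := by
      generalize Dt A = l
      induction l with
      | nil => simp [tev]
      | cons t l ihl =>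
        rw [List.map_cons, tev_cons, tev_cons, ihl]
        simp only [List.map_cons, List.prod_cons]
        ring
    rw [h1, h2, ih, tev_dvt]
    rfl

/-- insertion in a sorted list -/
def ins (p : ℕ × ℤ) : List (ℕ × ℤ) → List (ℕ × ℤ)
  | [] => [p]
  | (q :: l) => bif Nat.beq p.1 q.1 then (q.1, p.2 + q.2) :: l
      else bif Nat.ble p.1 q.1 then p :: q :: l else q :: ins p l

/-- the normal form -/
def nf (l : List (ℕ × ℤ)) : List (ℕ × ℤ) := l.foldr ins []

/-- the value of coded terms -/
noncomputable def kev (f : ℕ → ℂ) (l : List (ℕ × ℤ)) : ℂ := (l.map fun p => (p.2 : ℂ) * f p.1).sum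

theorem kev_cons (f : ℕ → ℂ) (p : ℕ × ℤ) (l : List (ℕ × ℤ)) :
    kev f (p :: l) = (p.2 : ℂ) * f p.1 + kev f l := by simp [kev]

theorem kev_append (f : ℕ → ℂ) (l l' : List (ℕ × ℤ)) : kev f (l ++ l') = kev f l + kev f l' := by
  simp [kev]

theorem kev_ins (f : ℕ → ℂ) (p : ℕ × ℤ) (l : List (ℕ × ℤ)) :
    kev f (ins p l) = (p.2 : ℂ) * f p.1 + kev f l := by
  induction l with
  | nil => simp [ins, kev]
  | cons q l ih =>
    rw [ins]
    rcases h1 : Nat.beq p.1 q.1 with _ | _
    · rcases h2 : Nat.ble p.1 q.1 with _ | _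
      · simp only [cond_false]
        rw [kev_cons, ih, kev_cons]
        ring
      · simp only [cond_false, cond_true]
        rw [kev_cons]
    · have h3 := Nat.eq_of_beq_eq_true h1
      simp only [cond_true]
      rw [kev_cons, kev_cons, h3]
      push_cast
      ring

theorem kev_nf (f : ℕ → ℂ) (l : List (ℕ × ℤ)) : kev f (nf l) = kev f l := by
  induction l with
  | nil => rfl
  | cons p l ih =>
    have : nf (p :: l) = ins p (nf l) := rfl
    rw [this, kev_ins, ih, kev_cons]

/-- the coded terms of a row -/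
def rowT (K : ℕ) (rep : ℕ → ℕ) (o : ℕ) (r : Row) : List (ℕ × ℤ) :=
  r.1.map (fun p => (rep ((o + p.1) / K), (p.2 : ℤ))) ++
    (r.2.1.map (fun p => (sw (rep ((o + p.1) / K)), (p.2 : ℤ))) ++
      r.2.2.map (fun p => (rep ((o + p.1) / K), (p.2 : ℤ))))

/-- the conditions on the shifts of a row -/
def okW (K : ℕ) (rep : ℕ → ℕ) (o : ℕ) (r : Row) : Bool :=
  r.1.all (fun p => Nat.beq ((o + p.1) % K) 0) && r.2.1.all (fun p => Nat.beq ((o + p.1) % K) 0) &&
    r.2.2.all (fun p => Nat.beq ((o + p.1) % K) 0 &&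
      Nat.beq (sw (rep ((o + p.1) / K))) (rep ((o + p.1) / K)))

theorem vs_zero {K : ℕ} (V : ℕ → ℝ) {T : ℕ} (h : T % K = 0) : vs K V T = V (T / K) := by
  simp [vs, h]

theorem row_spec {K : ℕ} {rep : ℕ → ℕ} {o : ℕ} {r : Row} (h : okW K rep o r = true) (c : ℕ → ℂ) :
    rowR (vo (rhoV K rep c) o) r = (kev (mc c) (rowT K rep o r)).re ∧
      rowI (vo (sigV K rep c) o) r = (kev (mc c) (rowT K rep o r)).im := by
  unfold okW at h
  simp only [Bool.and_eq_true, List.all_eq_true] at h
  obtain ⟨⟨h1, h2⟩, h3⟩ := h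
  have k0 : ∀ l : List (ℕ × ℕ), (∀ p ∈ l, Nat.beq ((o + p.1) % K) 0 = true) →
      tv (vo (rhoV K rep c) o) l
        = (kev (mc c) (l.map (fun p => (rep ((o + p.1) / K), (p.2 : ℤ))))).re ∧
      tv (vo (sigV K rep c) o) l
        = (kev (mc c) (l.map (fun p => (rep ((o + p.1) / K), (p.2 : ℤ))))).im := by
    intro l hl
    induction l with
    | nil => simp [tv, kev]
    | cons p l ih =>
      obtain ⟨i1, i2⟩ := ih (fun p' h' => hl p' (by simp [h']))
      have h4 := Nat.eq_of_beq_eq_true (hl p (by simp))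
      have e1 : tv (vo (rhoV K rep c) o) (p :: l)
          = (p.2 : ℤ) • vo (rhoV K rep c) o p.1 + tv (vo (rhoV K rep c) o) l := by simp [tv]
      have e2 : tv (vo (sigV K rep c) o) (p :: l)
          = (p.2 : ℤ) • vo (sigV K rep c) o p.1 + tv (vo (sigV K rep c) o) l := by simp [tv]
      rw [e1, e2, i1, i2, List.map_cons, kev_cons, Complex.add_re, Complex.add_im]
      have e3 : ((((p.2 : ℕ) : ℤ) : ℂ) * mc c (rep ((o + p.1) / K))).re
          = (p.2 : ℝ) * (mc c (rep ((o + p.1) / K))).re := by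
        have : ((((p.2 : ℕ) : ℤ) : ℂ)) = ((p.2 : ℝ) : ℂ) := by push_cast; rfl
        rw [this, Complex.re_ofReal_mul]
      have e4 : ((((p.2 : ℕ) : ℤ) : ℂ) * mc c (rep ((o + p.1) / K))).im
          = (p.2 : ℝ) * (mc c (rep ((o + p.1) / K))).im := by
        have : ((((p.2 : ℕ) : ℤ) : ℂ)) = ((p.2 : ℝ) : ℂ) := by push_cast; rfl
        rw [this, Complex.im_ofReal_mul]
      rw [e3, e4]
      simp only [vo, rhoV, sigV, vs_zero _ h4, zsmul_eq_mul]
      push_cast
      exact ⟨rfl, rfl⟩
  have k1 : ∀ l : List (ℕ × ℕ),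
      (kev (mc c) (l.map (fun p => (sw (rep ((o + p.1) / K)), (p.2 : ℤ)))))
        = conj (kev (mc c) (l.map (fun p => (rep ((o + p.1) / K), (p.2 : ℤ))))) := by
    intro l
    induction l with
    | nil => simp [kev]
    | cons p l ih =>
      rw [List.map_cons, List.map_cons, kev_cons, kev_cons, ih, map_add, map_mul, mc_sw]
      simp
  have k2 : (kev (mc c) (r.2.2.map (fun p => (rep ((o + p.1) / K), (p.2 : ℤ))))).im = 0 := by
    have : ∀ l : List (ℕ × ℕ), (∀ p ∈ l, Nat.beq (sw (rep ((o + p.1) / K))) (rep ((o + p.1) / K))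
        = true) → (kev (mc c) (l.map (fun p => (rep ((o + p.1) / K), (p.2 : ℤ))))).im = 0 := by
      intro l hl
      induction l with
      | nil => simp [kev]
      | cons p l ih =>
        rw [List.map_cons, kev_cons, Complex.add_im, ih (fun p' h' => hl p' (by simp [h']))]
        have h4 := Nat.eq_of_beq_eq_true (hl p (by simp))
        have h5 : (mc c (rep ((o + p.1) / K))).im = 0 := by
          have := mc_sw c (rep ((o + p.1) / K))
          rw [h4] at this
          have h6 := congrArg Complex.im this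
          rw [Complex.conj_im] at h6
          linarith
        have : ((((p.2 : ℕ) : ℤ) : ℂ)) = ((p.2 : ℝ) : ℂ) := by push_cast; rfl
        rw [this, Complex.im_ofReal_mul, h5]
        simp
    exact this _ (fun p hp => (h3 p hp).2)
  obtain ⟨a1, a2⟩ := k0 r.1 h1
  obtain ⟨b1, b2⟩ := k0 r.2.1 h2
  obtain ⟨c1, c2⟩ := k0 r.2.2 (fun p hp => (h3 p hp).1)
  unfold rowR rowI rowT
  rw [kev_append, kev_append, k1, a1, a2, b1, b2, c1]
  simp only [Complex.add_re, Complex.add_im, Complex.conj_re, Complex.conj_im]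
  rw [k2]
  constructor
  · trivial
  · ring

/-- sum of powers of 16 -/
noncomputable def sS (l : List ℕ) : ℕ :=
  List.rec (motive := fun _ => ℕ) 0 (fun a _ ih => Nat.add (Nat.pow 16 a) ih) l

theorem sS_cons (a : ℕ) (l : List ℕ) : sS (a :: l) = 16 ^ a + sS l := rfl

theorem sS_eq (l : List ℕ) : (l.map (fun a => 16 ^ a)).sum = sS l := by
  induction l with
  | nil => rfl
  | cons a l ih => rw [List.map_cons, List.sum_cons, ih, sS_cons]

theorem cod_sS (m : Mo) : cod m = sS m.1 + 16777216 * sS m.2 := by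
  have h1 : ∀ l : List ℕ, (l.map (fun b => 16 ^ (6 + b))).sum = 16777216 * sS l := by
    intro l
    induction l with
    | nil => rfl
    | cons a l ih =>
      rw [List.map_cons, List.sum_cons, ih, sS_cons, pow_add]
      norm_num
      ring
  rw [cod, sS_eq, h1]

/-- validity of a list -/
def vl (l : List ℕ) : Bool := l.all (fun i => Nat.ble (i + 1) 6) && Nat.ble l.length 15

theorem vmo_vl {A B : List ℕ} (h1 : vl A = true) (h2 : vl B = true) : vmo (A, B) = true := by
  unfold vl at h1 h2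
  unfold vmo
  simp only [Bool.and_eq_true] at h1 h2 ⊢
  exact ⟨⟨⟨h1.1, h2.1⟩, h1.2⟩, h2.2⟩

/-- the conditions for the first factor -/
def okA (A : List ℕ) : Bool := vl A && vl (0 :: A) && (Dt A).all (fun t => vl t.1)

/-- the coded terms of the derivative plus `a` times the product with the first variable -/
noncomputable def DZ (a : ℕ) (A : List ℕ) : List (ℕ × ℤ) :=
  nf ((sS (0 :: A), (a : ℤ)) :: (Dt A).map (fun t => (sS t.1, t.2)))

theorem DZ_spec {a : ℕ} {m : Mo} (hA : okA m.1 = true) (hB : vl m.2 = true) (c : ℕ → ℂ) :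
    kev (fun κ => mc c (κ + 16777216 * sS m.2)) (DZ a m.1)
      = (Dvl c m.1 + a * (c 0 * (m.1.map c).prod)) * conj ((m.2.map c).prod) := by
  unfold okA at hA
  simp only [Bool.and_eq_true, List.all_eq_true] at hA
  obtain ⟨⟨-, h2⟩, h3⟩ := hA
  have hc : ∀ A : List ℕ, vl A = true → mc c (sS A + 16777216 * sS m.2)
      = (A.map c).prod * conj ((m.2.map c).prod) := by
    intro A hA
    rw [← cod_sS (A, m.2), mc_cod c (vmo_vl hA hB), mv, Pool.Agent.Helper12.HR2.prod_conj]
  rw [DZ, kev_nf, kev_cons, hc _ h2, ← tev_Dt]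
  have h7 : ∀ l : List (List ℕ × ℤ), (∀ t ∈ l, vl t.1 = true) →
      kev (fun κ => mc c (κ + 16777216 * sS m.2)) (l.map (fun t => (sS t.1, t.2)))
        = tev c l * conj ((m.2.map c).prod) := by
    intro l hl
    induction l with
    | nil => simp [kev, tev]
    | cons t l ih =>
      rw [List.map_cons, kev_cons, tev_cons, ih (fun t' h' => hl t' (by simp [h'])),
        hc _ (hl t (by simp))]
      ring
  rw [h7 _ h3]
  simp only [List.map_cons, List.prod_cons]
  push_cast
  ring

/-- `sw` without instances -/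
noncomputable def swf (κ : ℕ) : ℕ :=
  Nat.add (Nat.mod (Nat.div κ 16777216) 16777216) (Nat.mul 16777216 (Nat.mod κ 16777216))

theorem swf_eq (κ : ℕ) : swf κ = sw κ := rfl

/-- the first element of the list is the term, kind 0 -/
noncomputable def hd0 (K : ℕ) (rep : ℕ → ℕ) (o κ μ : ℕ) (l : List (ℕ × ℕ)) : Bool :=
  List.rec (motive := fun _ => Bool) false
    (fun p _ _ => and (Nat.beq (rep (Nat.div (Nat.add o p.1) K)) κ)
      (and (Nat.beq p.2 μ) (Nat.beq (Nat.mod (Nat.add o p.1) K) 0))) l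

/-- the first element of the list is the term, kind 1 -/
noncomputable def hd1 (K : ℕ) (rep : ℕ → ℕ) (o κ μ : ℕ) (l : List (ℕ × ℕ)) : Bool :=
  List.rec (motive := fun _ => Bool) false
    (fun p _ _ => and (Nat.beq (swf (rep (Nat.div (Nat.add o p.1) K))) κ)
      (and (Nat.beq p.2 μ) (Nat.beq (Nat.mod (Nat.add o p.1) K) 0))) l

/-- the check of a row of the derivative -/
noncomputable def chk (K : ℕ) (rep : ℕ → ℕ) (o β : ℕ) (T : List (ℕ × ℤ)) :
    List (ℕ × ℕ) → List (ℕ × ℕ) → List (ℕ × ℕ) → Bool :=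
  List.rec (motive := fun _ => List (ℕ × ℕ) → List (ℕ × ℕ) → List (ℕ × ℕ) → Bool)
    (fun l0 l1 l2 => List.rec (motive := fun _ => Bool)
      (List.rec (motive := fun _ => Bool)
        (List.rec (motive := fun _ => Bool) true (fun _ _ _ => false) l2)
        (fun _ _ _ => false) l1) (fun _ _ _ => false) l0)
    (fun t _ ih l0 l1 l2 => Int.rec (motive := fun _ => Bool)
      (fun μ => Nat.rec (motive := fun _ => Bool) (ih l0 l1 l2)
        (fun _ _ => Bool.rec (motive := fun _ => Bool)
          (Bool.rec (motive := fun _ => Bool)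
            (and (hd0 K rep o (Nat.add t.1 β) μ l2)
              (and (Nat.beq (swf (Nat.add t.1 β)) (Nat.add t.1 β)) (ih l0 l1 l2.tail)))
            (ih l0 l1.tail l2) (hd1 K rep o (Nat.add t.1 β) μ l1))
          (ih l0.tail l1 l2) (hd0 K rep o (Nat.add t.1 β) μ l0)) μ)
      (fun _ => false) t.2) T

theorem hd0_spec {K : ℕ} {rep : ℕ → ℕ} {o κ μ : ℕ} {l : List (ℕ × ℕ)}
    (h : hd0 K rep o κ μ l = true) : ∃ p l', l = p :: l' ∧ rep ((o + p.1) / K) = κ ∧ p.2 = μ ∧
      Nat.beq ((o + p.1) % K) 0 = true := by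
  rcases l with _ | ⟨p, l'⟩
  · exact absurd h (by simp [hd0])
  · have h' : and (Nat.beq (rep (Nat.div (Nat.add o p.1) K)) κ)
      (and (Nat.beq p.2 μ) (Nat.beq (Nat.mod (Nat.add o p.1) K) 0)) = true := h
    simp only [Bool.and_eq_true] at h'
    exact ⟨p, l', rfl, Nat.eq_of_beq_eq_true h'.1, Nat.eq_of_beq_eq_true h'.2.1, h'.2.2⟩

theorem hd1_spec {K : ℕ} {rep : ℕ → ℕ} {o κ μ : ℕ} {l : List (ℕ × ℕ)}
    (h : hd1 K rep o κ μ l = true) : ∃ p l', l = p :: l' ∧ sw (rep ((o + p.1) / K)) = κ ∧ p.2 = μ ∧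
      Nat.beq ((o + p.1) % K) 0 = true := by
  rcases l with _ | ⟨p, l'⟩
  · exact absurd h (by simp [hd1])
  · have h' : and (Nat.beq (swf (rep (Nat.div (Nat.add o p.1) K))) κ)
      (and (Nat.beq p.2 μ) (Nat.beq (Nat.mod (Nat.add o p.1) K) 0)) = true := h
    simp only [Bool.and_eq_true] at h'
    exact ⟨p, l', rfl, Nat.eq_of_beq_eq_true h'.1, Nat.eq_of_beq_eq_true h'.2.1, h'.2.2⟩

theorem chk_spec {K : ℕ} {rep : ℕ → ℕ} {o β : ℕ} : ∀ (T : List (ℕ × ℤ)) (l0 l1 l2 : List (ℕ × ℕ)),
    chk K rep o β T l0 l1 l2 = true → okW K rep o (l0, l1, l2) = true ∧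
      ∀ f : ℕ → ℂ, kev f (rowT K rep o (l0, l1, l2)) = kev (fun κ => f (κ + β)) T := by
  intro T
  induction T with
  | nil =>
    intro l0 l1 l2 h
    rcases l0 with _ | ⟨p, l0⟩
    · rcases l1 with _ | ⟨p, l1⟩
      · rcases l2 with _ | ⟨p, l2⟩
        · exact ⟨rfl, fun f => rfl⟩
        · exact absurd h (by simp [chk])
      · exact absurd h (by simp [chk])
    · exact absurd h (by simp [chk])
  | cons t T ih =>
    intro l0 l1 l2 h
    obtain ⟨κ, z⟩ := t
    rcases z with μ | μ
    · rcases μ with _ | μ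
      · have h' : chk K rep o β T l0 l1 l2 = true := h
        obtain ⟨h1, h2⟩ := ih l0 l1 l2 h'
        refine ⟨h1, fun f => ?_⟩
        rw [h2 f, kev_cons]
        simp
      · have h' : Bool.rec (motive := fun _ => Bool)
          (Bool.rec (motive := fun _ => Bool)
            (and (hd0 K rep o (κ + β) (μ + 1) l2)
              (and (Nat.beq (swf (κ + β)) (κ + β)) (chk K rep o β T l0 l1 l2.tail)))
            (chk K rep o β T l0 l1.tail l2) (hd1 K rep o (κ + β) (μ + 1) l1))
          (chk K rep o β T l0.tail l1 l2) (hd0 K rep o (κ + β) (μ + 1) l0) = true := h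
        have hk : (Int.ofNat (μ + 1)) = ((μ + 1 : ℕ) : ℤ) := rfl
        rcases e0 : hd0 K rep o (κ + β) (μ + 1) l0 with _ | _
        · rw [e0] at h'
          rcases e1 : hd1 K rep o (κ + β) (μ + 1) l1 with _ | _
          · rw [e1] at h'
            have h'' : and (hd0 K rep o (κ + β) (μ + 1) l2)
              (and (Nat.beq (swf (κ + β)) (κ + β)) (chk K rep o β T l0 l1 l2.tail)) = true := h'
            simp only [Bool.and_eq_true] at h''
            obtain ⟨h3, h4, h5⟩ := h''
            obtain ⟨p, l', rfl, g1, g2, g3⟩ := hd0_spec h3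
            obtain ⟨h6, h7⟩ := ih _ _ _ h5
            refine ⟨?_, fun f => ?_⟩
            · simp only [okW, List.tail_cons, Bool.and_eq_true, List.all_cons] at h6 ⊢
              refine ⟨h6.1, ⟨g3, ?_⟩, h6.2⟩
              rw [g1]
              exact h4
            · have h8 := h7 f
              simp only [rowT, List.tail_cons, List.map_cons, kev_append, kev_cons] at h8 ⊢
              rw [g1, g2, hk, ← h8]
              ring
          · rw [e1] at h'
            have h5 : chk K rep o β T l0 l1.tail l2 = true := h'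
            obtain ⟨p, l', rfl, g1, g2, g3⟩ := hd1_spec e1
            obtain ⟨h6, h7⟩ := ih _ _ _ h5
            refine ⟨?_, fun f => ?_⟩
            · simp only [okW, List.tail_cons, Bool.and_eq_true, List.all_cons] at h6 ⊢
              exact ⟨⟨h6.1.1, g3, h6.1.2⟩, h6.2⟩
            · have h8 := h7 f
              simp only [rowT, List.tail_cons, List.map_cons, kev_append, kev_cons] at h8 ⊢
              rw [g1, g2, hk, ← h8]
              ring
        · rw [e0] at h'
          have h5 : chk K rep o β T l0.tail l1 l2 = true := h'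
          obtain ⟨p, l', rfl, g1, g2, g3⟩ := hd0_spec e0
          obtain ⟨h6, h7⟩ := ih _ _ _ h5
          refine ⟨?_, fun f => ?_⟩
          · simp only [okW, List.tail_cons, Bool.and_eq_true, List.all_cons] at h6 ⊢
            exact ⟨⟨⟨g3, h6.1.1⟩, h6.1.2⟩, h6.2⟩
          · have h8 := h7 f
            simp only [rowT, List.tail_cons, List.map_cons, kev_append, kev_cons] at h8 ⊢
            rw [g1, g2, hk, ← h8]
            ring
    · exact absurd h (by simp [chk])

/-- the rows of the derivative are correct -/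
def DOK (K : ℕ) (rep : ℕ → ℕ) (o a : ℕ) (rs : List Row) (ms : List Mo) : Prop :=
  ∀ c : ℕ → ℂ, List.Forall₂ (fun r m => rowR (vo (rhoV K rep c) o) r
        = ((Dvl c m.1 + a * (c 0 * (m.1.map c).prod)) * conj ((m.2.map c).prod)).re ∧
      rowI (vo (sigV K rep c) o) r
        = ((Dvl c m.1 + a * (c 0 * (m.1.map c).prod)) * conj ((m.2.map c).prod)).im) rs ms

/-- correctness of a group -/
structure GrpOK (K : ℕ) (rep : ℕ → ℕ) (g : Grp) (ms : List Mo) : Prop where
  M : okL K rep g.oM (fun m : Mo => (cod m, 0)) g.M ms = true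
  E : okL K rep g.oE (fun m : Mo => (cod (0 :: m.1, m.2), 0)) g.E ms = true
  D : DOK K rep g.oE g.a g.D ms
  v : ∀ m ∈ ms, vmo m = true
  v0 : ∀ m ∈ ms, vmo (0 :: m.1, m.2) = true
  w : ∀ m ∈ ms, wl m.1 + wl m.2 = g.w

/-- the check of a row with one term, without instances -/
noncomputable def okSf (K : ℕ) (rep : ℕ → ℕ) (T f κ e : ℕ) : Bool :=
  and (Nat.beq (Nat.mod T K) e)
   (Nat.rec (motive := fun _ => Bool) (Nat.beq (rep (Nat.div T K)) κ)
     (fun f1 _ => Nat.rec (motive := fun _ => Bool) (Nat.beq (rep (Nat.div T K)) (swf κ))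
        (fun f2 _ => Nat.rec (motive := fun _ => Bool)
          (and (Nat.beq (rep (Nat.div T K)) κ) (Nat.beq (swf κ) κ)) (fun _ _ => false) f2) f1) f)

theorem okSf_spec {K : ℕ} {rep : ℕ → ℕ} {o T f κ e : ℕ} (h : okSf K rep (o + T) f κ e = true) :
    okS K rep o (T, f) κ e = true := by
  rcases f with _ | _ | _ | f
  · exact h
  · exact h
  · exact h
  · exact absurd h (by simp [okSf])

/-- the check of a group: the lists of the rows -/
noncomputable def okGf (K : ℕ) (rep : ℕ → ℕ) (oM oE a w : ℕ) (ms : List Mo) :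
    List Sng → List Sng → List Row → Bool :=
  List.rec (motive := fun _ => List Sng → List Sng → List Row → Bool)
    (fun M E D => List.rec (motive := fun _ => Bool)
      (List.rec (motive := fun _ => Bool)
        (List.rec (motive := fun _ => Bool) true (fun _ _ _ => false) D)
        (fun _ _ _ => false) E) (fun _ _ _ => false) M)
    (fun m _ ih M E D => List.rec (motive := fun _ => Bool) false
      (fun s M' _ => List.rec (motive := fun _ => Bool) false
        (fun e E' _ => List.rec (motive := fun _ => Bool) false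
          (fun r D' _ => Prod.rec (motive := fun _ => Bool) (fun A B =>
            and (okSf K rep (Nat.add oM s.1) s.2 (Nat.add (sS A) (Nat.mul 16777216 (sS B))) 0)
             (and (okSf K rep (Nat.add oE e.1) e.2
                (Nat.add (sS (0 :: A)) (Nat.mul 16777216 (sS B))) 0)
              (and (and (okA A) (and (vl B) (Nat.beq (Nat.add (wl A) (wl B)) w)))
               (and (chk K rep oE (Nat.mul 16777216 (sS B)) (DZ a A) r.1 r.2.1 r.2.2)
                (ih M' E' D'))))) m) D) E) M) ms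

theorem okGf_spec {K : ℕ} {rep : ℕ → ℕ} {oM oE a w : ℕ} : ∀ (ms : List Mo) (M E : List Sng)
    (D : List Row), okGf K rep oM oE a w ms M E D = true →
    GrpOK K rep ⟨w, a, oM, oE, M, E, D⟩ ms := by
  intro ms
  induction ms with
  | nil =>
    intro M E D h
    rcases M with _ | ⟨s, M⟩
    · rcases E with _ | ⟨e, E⟩
      · rcases D with _ | ⟨r, D⟩
        · exact ⟨rfl, rfl, fun _ => List.Forall₂.nil, by simp, by simp, by simp⟩
        · exact absurd h (by simp [okGf])
      · exact absurd h (by simp [okGf])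
    · exact absurd h (by simp [okGf])
  | cons m ms ih =>
    intro M E D h
    rcases M with _ | ⟨s, M⟩
    · exact absurd h (by simp [okGf])
    · rcases E with _ | ⟨e, E⟩
      · exact absurd h (by simp [okGf])
      · rcases D with _ | ⟨r, D⟩
        · exact absurd h (by simp [okGf])
        · obtain ⟨A, B⟩ := m
          have h' : and (okSf K rep (oM + s.1) s.2 (sS A + 16777216 * sS B) 0)
             (and (okSf K rep (oE + e.1) e.2 (sS (0 :: A) + 16777216 * sS B) 0)
              (and (and (okA A) (and (vl B) (Nat.beq (wl A + wl B) w)))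
               (and (chk K rep oE (16777216 * sS B) (DZ a A) r.1 r.2.1 r.2.2)
                (okGf K rep oM oE a w ms M E D)))) = true := h
          simp only [Bool.and_eq_true] at h'
          obtain ⟨h1, h2, ⟨h3, h4, h5⟩, h6, h7⟩ := h'
          have G := ih M E D h7
          have hw := Nat.eq_of_beq_eq_true h5
          have hA := h3
          unfold okA at hA
          simp only [Bool.and_eq_true] at hA
          have v1 : vmo (A, B) = true := vmo_vl hA.1.1 h4
          have v2 : vmo (0 :: A, B) = true := vmo_vl hA.1.2 h4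
          have e1 : okS K rep oM s (cod (A, B)) 0 = true := by
            rw [cod_sS]
            exact okSf_spec h1
          have e2 : okS K rep oE e (cod (0 :: A, B)) 0 = true := by
            rw [cod_sS]
            exact okSf_spec h2
          refine ⟨?_, ?_, ?_, ?_, ?_, ?_⟩
          · simp only [okL, Bool.and_eq_true]
            exact ⟨e1, G.M⟩
          · simp only [okL, Bool.and_eq_true]
            exact ⟨e2, G.E⟩
          · intro c
            refine List.Forall₂.cons ?_ (G.D c)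
            obtain ⟨k1, k2⟩ := chk_spec _ _ _ _ h6
            obtain ⟨r1, r2⟩ := row_spec k1 c
            have k3 := k2 (mc c)
            rw [DZ_spec (m := (A, B)) h3 h4 c] at k3
            have hr : ((r.1, r.2.1, r.2.2) : Row) = r := rfl
            rw [hr] at k3 r1 r2
            rw [k3] at r1 r2
            exact ⟨r1, r2⟩
          · intro m hm
            rcases List.mem_cons.1 hm with rfl | hm
            · exact v1
            · exact G.v m hm
          · intro m hm
            rcases List.mem_cons.1 hm with rfl | hm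
            · exact v2
            · exact G.v0 m hm
          · intro m hm
            rcases List.mem_cons.1 hm with rfl | hm
            · exact hw
            · exact G.w m hm

/-- the check of all groups -/
noncomputable def okGsf (K : ℕ) (rep : ℕ → ℕ) (gs : List Grp) : List (List Mo) → Bool :=
  List.rec (motive := fun _ => List (List Mo) → Bool)
    (fun gm => List.rec (motive := fun _ => Bool) true (fun _ _ _ => false) gm)
    (fun g _ ih gm => List.rec (motive := fun _ => Bool) false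
      (fun ms gm' _ => and (okGf K rep g.oM g.oE g.a g.w ms g.M g.E g.D) (ih gm')) gm) gs

theorem okGsf_spec {K : ℕ} {rep : ℕ → ℕ} : ∀ (gs : List Grp) (gm : List (List Mo)),
    okGsf K rep gs gm = true → List.Forall₂ (GrpOK K rep) gs gm := by
  intro gs
  induction gs with
  | nil =>
    intro gm h
    rcases gm with _ | ⟨ms, gm⟩
    · exact List.Forall₂.nil
    · exact absurd h (by simp [okGsf])
  | cons g gs ih =>
    intro gm h
    rcases gm with _ | ⟨ms, gm⟩
    · exact absurd h (by simp [okGsf])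
    · have h' : and (okGf K rep g.oM g.oE g.a g.w ms g.M g.E g.D) (okGsf K rep gs gm) = true := h
      rw [Bool.and_eq_true] at h'
      exact List.Forall₂.cons (okGf_spec _ _ _ _ h'.1) (ih gm h'.2)

theorem mod_sub_re (z u v : ℂ) : (z * (u - v)).re = (z * u).re - (z * v).re := by
  rw [mul_sub, Complex.sub_re]

theorem grp_spec {K : ℕ} {rep : ℕ → ℕ} {g : Grp} {ms : List Mo} (h : GrpOK K rep g ms)
    (P : Par) (hs : P.sr ≠ 0) (hb : P.bd ≠ 0) (c : ℕ → ℂ) (w hh x y : ℕ) :
    gmR P (rhoV K rep c) w hh g (x, y) + gmI P (sigV K rep c) w hh g (x, y)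
      = (P.sr * P.bd : ℝ) * (rel (((P.p : ℂ) + P.q * Complex.I) / P.sr) ((P.bn : ℂ) / P.bd) c
          (upl w hh ms x y)).re := by
  obtain ⟨h1, h2, h3, hv, hv0, hw⟩ := h
  have f1 := okL_spec c g.M ms h1
  have f2 := okL_spec c g.E ms h2
  have f3 := h3 c
  obtain ⟨m1, -⟩ := fm_cf _ _ _ w hh f1 x y
  obtain ⟨e1, e2⟩ := fm_cf _ _ _ w hh f2 x y
  obtain ⟨d1, -⟩ := fm_cf _ _ (fun m : Mo => (Dvl c m.1 + g.a * (c 0 * (m.1.map c).prod))
    * conj ((m.2.map c).prod)) w hh f3 x y
  have n1 : cf (fun m : Mo => (2 ^ ((fun m : Mo => (cod m, 0)) m).2 : ℂ)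
      * mc c ((fun m : Mo => (cod m, 0)) m).1) w hh ms x y
      = cf (fun m : Mo => (m.1.map c).prod * conj ((m.2.map c).prod)) w hh ms x y := by
    apply cf_congr
    intro m hm
    simp only [pow_zero, one_mul]
    rw [mc_cod c (hv m hm), mv, Pool.Agent.Helper12.HR2.prod_conj]
  have n2 : cf (fun m : Mo => (2 ^ ((fun m : Mo => (cod (0 :: m.1, m.2), 0)) m).2 : ℂ)
      * mc c ((fun m : Mo => (cod (0 :: m.1, m.2), 0)) m).1) w hh ms x y
      = cf (fun m : Mo => (c 0 * (m.1.map c).prod) * conj ((m.2.map c).prod)) w hh ms x y := by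
    apply cf_congr
    intro m hm
    simp only [pow_zero, one_mul]
    rw [mc_cod c (hv0 m hm), mv, Pool.Agent.Helper12.HR2.prod_conj]
    simp only [List.map_cons, List.prod_cons]
  rw [n1] at m1
  rw [n2] at e1 e2
  have hsr : (P.sr : ℂ) ≠ 0 := Nat.cast_ne_zero.2 hs
  have hbd : (P.bd : ℂ) ≠ 0 := Nat.cast_ne_zero.2 hb
  -- the relation
  have key : (P.sr * P.bd : ℂ) * rel (((P.p : ℂ) + P.q * Complex.I) / P.sr)
      ((P.bn : ℂ) / P.bd) c (upl w hh ms x y)
      = (P.bd * P.sr : ℂ) * cf (fun m : Mo => (Dvl c m.1 + g.a * (c 0 * (m.1.map c).prod))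
          * conj ((m.2.map c).prod)) w hh ms x y
        + (-(((P.bd * P.sr * g.a : ℂ) + 2 * P.bd * P.p) + 2 * P.bd * P.q * Complex.I))
          * cf (fun m : Mo => (c 0 * (m.1.map c).prod) * conj ((m.2.map c).prod)) w hh ms x y
        + (-(P.sr * (P.bn + P.bd * g.w) : ℂ))
          * cf (fun m : Mo => (m.1.map c).prod * conj ((m.2.map c).prod)) w hh ms x y := by
    rw [rel_upl, ← cf_mul, ← cf_mul, ← cf_mul, ← cf_mul, ← cf_add, ← cf_add]
    apply cf_congr
    intro m hm
    have hwm := hw m hm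
    have hwc : (g.w : ℂ) = (wl m.1 : ℂ) + wl m.2 := by
      rw [← hwm]
      push_cast
      rfl
    rw [rv, hwc]
    field_simp
    ring
  have key2 := congrArg Complex.re key
  have r1 : ((P.sr * P.bd : ℂ) * rel (((P.p : ℂ) + P.q * Complex.I) / P.sr)
      ((P.bn : ℂ) / P.bd) c (upl w hh ms x y)).re = (P.sr * P.bd : ℝ)
      * (rel (((P.p : ℂ) + P.q * Complex.I) / P.sr) ((P.bn : ℂ) / P.bd) c
        (upl w hh ms x y)).re := by
    have : (P.sr * P.bd : ℂ) = ((P.sr * P.bd : ℝ) : ℂ) := by push_cast; rfl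
    rw [this, Complex.re_ofReal_mul]
  rw [r1] at key2
  rw [key2]
  generalize cf (fun m : Mo => (Dvl c m.1 + g.a * (c 0 * (m.1.map c).prod))
          * conj ((m.2.map c).prod)) w hh ms x y = zD at d1 ⊢
  generalize cf (fun m : Mo => (c 0 * (m.1.map c).prod) * conj ((m.2.map c).prod)) w hh ms x y
    = zE at e1 e2 ⊢
  generalize cf (fun m : Mo => (m.1.map c).prod * conj ((m.2.map c).prod)) w hh ms x y
    = zM at m1 ⊢
  have c1 : ((P.bd * P.sr : ℂ) * zD).re = (P.bd * P.sr : ℝ) * zD.re := by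
    have : (P.bd * P.sr : ℂ) = ((P.bd * P.sr : ℝ) : ℂ) := by push_cast; rfl
    rw [this, Complex.re_ofReal_mul]
  have c2 : ((-(P.sr * (P.bn + P.bd * g.w) : ℂ)) * zM).re
      = -(P.sr * (P.bn + P.bd * g.w) : ℝ) * zM.re := by
    have : (-(P.sr * (P.bn + P.bd * g.w) : ℂ)) = ((-(P.sr * (P.bn + P.bd * g.w)) : ℝ) : ℂ) := by
      push_cast; rfl
    rw [this, Complex.re_ofReal_mul]
  have c3 : ((-(((P.bd * P.sr * g.a : ℂ) + 2 * P.bd * P.p) + 2 * P.bd * P.q * Complex.I)) * zE).re
      = -(P.bd * P.sr * g.a + 2 * P.bd * P.p : ℝ) * zE.re + (2 * P.bd * P.q : ℝ) * zE.im := by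
    have : (-(((P.bd * P.sr * g.a : ℂ) + 2 * P.bd * P.p) + 2 * P.bd * P.q * Complex.I))
        = ((-(P.bd * P.sr * g.a + 2 * P.bd * P.p) : ℝ) : ℂ)
          + ((-(2 * P.bd * P.q) : ℝ) : ℂ) * Complex.I := by
      push_cast; ring
    rw [this, add_mul, Complex.add_re, Complex.re_ofReal_mul,
      mul_assoc ((-(2 * P.bd * P.q) : ℝ) : ℂ), Complex.re_ofReal_mul, Complex.I_mul_re]
    ring
  rw [Complex.add_re, Complex.add_re, c1, c2, c3, ← d1, ← e1, ← e2, ← m1]
  unfold gmR gmI
  have p1 : ((cD P : ℤ) : ℝ) = P.bd * P.sr := by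
    have : cD P = ((P.bd * P.sr : ℕ) : ℤ) := rfl
    rw [this]; push_cast; rfl
  have p2 : ((cE P g.a : ℤ) : ℝ) = P.bd * P.sr * g.a + 2 * P.bd * P.p := by
    have : cE P g.a = ((P.bd * P.sr * g.a : ℕ) : ℤ) + ((2 * P.bd : ℕ) : ℤ) * P.p := rfl
    rw [this]; push_cast; rfl
  have p3 : ((cF P : ℤ) : ℝ) = 2 * P.bd * P.q := by
    have : cF P = ((2 * P.bd : ℕ) : ℤ) * P.q := rfl
    rw [this]; push_cast; rfl
  have p4 : ((cM P g.w : ℤ) : ℝ) = P.sr * (P.bn + P.bd * g.w) := by
    have : cM P g.w = ((P.sr * (P.bn + P.bd * g.w) : ℕ) : ℤ) := rfl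
    rw [this]; push_cast; rfl
  simp only [zsmul_eq_mul, p1, p2, p3, p4]
  ring

end Pool.Agent.Helper54.HR2
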