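import Mathlib
import Pool.Agent.Helper54.HR2.Code6

/-!
MP_16b0ee, project HR2: the Gram matrix of the rows in the second kernel computation.
-/

set_option autoImplicit false

open scoped ComplexConjugate

namespace Pool.Agent.Helper54.HR2

open Pool.Agent.Helper12.HR2 (Par Mo GZ gv Pol mv pv wl rel Dvl dvl upl prd)

/-! ## Digits -/

theorem ons_eq (B n : ℕ) : ons B n = ∑ i ∈ Finset.range n, B ^ i := by
  induction n with
  | zero => rfl
  | succ n ih =>
    have h : ons B (n + 1) = 1 + B * ons B n := rfl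
    rw [h, ih, Finset.sum_range_succ', Finset.mul_sum, pow_zero, add_comm]
    congr 1
    exact Finset.sum_congr rfl (fun i _ => by rw [pow_succ, mul_comm])

theorem spr_eq (B w n x : ℕ) : spr B w n x = ∑ i ∈ Finset.range n, x / w ^ i % w * B ^ i := by
  induction n generalizing x with
  | zero => rfl
  | succ n ih =>
    have h : spr B w (n + 1) x = x % w + B * spr B w n (x / w) := rfl
    rw [h, ih, Finset.sum_range_succ', Finset.mul_sum, pow_zero, pow_zero, mul_one, Nat.div_one,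
      add_comm]
    congr 1
    refine Finset.sum_congr rfl (fun i _ => ?_)
    rw [pow_succ' w, Nat.div_div_eq_div_mul]
    ring

/-- the digits of a sum -/
theorem dig_base (B n : ℕ) : ∀ (f : ℕ → ℕ) (_ : ∀ i < n, f i < B) (i : ℕ), i < n →
    (∑ j ∈ Finset.range n, f j * B ^ j) / B ^ i % B = f i := by
  induction n with
  | zero => intro f _ i hi; omega
  | succ n ih =>
    intro f hf i hi
    have h1 : ∑ j ∈ Finset.range (n + 1), f j * B ^ j
        = f 0 + B * ∑ j ∈ Finset.range n, f (j + 1) * B ^ j := by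
      rw [Finset.sum_range_succ', Finset.mul_sum, pow_zero, mul_one, add_comm]
      congr 1
      exact Finset.sum_congr rfl (fun j _ => by ring)
    rw [h1]
    have h0 := hf 0 (by omega)
    rcases i with _ | i
    · rw [pow_zero, Nat.div_one, Nat.add_mul_mod_self_left, Nat.mod_eq_of_lt h0]
    · rw [pow_succ', ← Nat.div_div_eq_div_mul, Nat.add_mul_div_left _ _ (by omega),
        Nat.div_eq_of_lt h0, zero_add]
      exact ih (fun k => f (k + 1)) (fun k hk => hf (k + 1) (by omega)) i (by omega)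

/-- a digit minus the offset -/
def dgo (w h x i : ℕ) : ℤ := ((x / w ^ i % w : ℕ) : ℤ) - h

/-- the Gram matrix, real part -/
def Gre (w h : ℕ) : List (ℕ × ℕ × ℕ) → ℕ → ℕ → ℤ
  | [], _, _ => 0
  | (r :: U), i, k => (dgo w h r.2.1 i * dgo w h r.2.1 k + dgo w h r.2.2 i * dgo w h r.2.2 k) +
      (if 0 < i ∧ 0 < k then Gre w h U (i - 1) (k - 1) else 0)

/-- the Gram matrix, imaginary part -/
def Gim (w h : ℕ) : List (ℕ × ℕ × ℕ) → ℕ → ℕ → ℤ
  | [], _, _ => 0
  | (r :: U), i, k => (dgo w h r.2.2 i * dgo w h r.2.1 k - dgo w h r.2.1 i * dgo w h r.2.2 k) +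
      (if 0 < i ∧ 0 < k then Gim w h U (i - 1) (k - 1) else 0)

theorem head_re (B w h n x y k : ℕ) (hw0 : 0 < w) (hw : w ≤ 2 * h + 1) :
    (((x / w ^ k % w) * spr B w n x + (y / w ^ k % w) * spr B w n y
      + (4 * h - (x / w ^ k % w + y / w ^ k % w)) * (h * ons B n) : ℕ) : ℤ)
      - ((h * (spr B w n x + spr B w n y) + 2 * h * (h * ons B n) : ℕ) : ℤ)
    = ∑ i ∈ Finset.range n, (dgo w h x i * dgo w h x k + dgo w h y i * dgo w h y k) * (B : ℤ) ^ i := by
  have hx : x / w ^ k % w < w := Nat.mod_lt _ hw0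
  have hy : y / w ^ k % w < w := Nat.mod_lt _ hw0
  have h1 : ∀ i, (dgo w h x i * dgo w h x k + dgo w h y i * dgo w h y k) * (B : ℤ) ^ i
      = ((x / w ^ k % w : ℕ) : ℤ) * (((x / w ^ i % w : ℕ) : ℤ) * (B : ℤ) ^ i)
        + ((y / w ^ k % w : ℕ) : ℤ) * (((y / w ^ i % w : ℕ) : ℤ) * (B : ℤ) ^ i)
        + (2 * (h : ℤ) * h - h * ((x / w ^ k % w : ℕ) : ℤ) - h * ((y / w ^ k % w : ℕ) : ℤ))
          * (B : ℤ) ^ i
        - h * (((x / w ^ i % w : ℕ) : ℤ) * (B : ℤ) ^ i)
        - h * (((y / w ^ i % w : ℕ) : ℤ) * (B : ℤ) ^ i) := by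
    intro i
    unfold dgo
    ring
  simp only [h1, Finset.sum_add_distrib, Finset.sum_sub_distrib, ← Finset.mul_sum]
  rw [spr_eq, spr_eq, ons_eq]
  have h2 : x / w ^ k % w + y / w ^ k % w ≤ 4 * h := by omega
  push_cast [Nat.cast_sub h2]
  ring

theorem head_im (B w h n x y k : ℕ) (hw0 : 0 < w) (hw : w ≤ 2 * h + 1) :
    (((x / w ^ k % w) * spr B w n y + (2 * h - y / w ^ k % w) * spr B w n x
      + (2 * h + y / w ^ k % w - x / w ^ k % w) * (h * ons B n) : ℕ) : ℤ)
      - ((h * (spr B w n x + spr B w n y) + 2 * h * (h * ons B n) : ℕ) : ℤ)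
    = ∑ i ∈ Finset.range n, (dgo w h y i * dgo w h x k - dgo w h x i * dgo w h y k) * (B : ℤ) ^ i := by
  have hx : x / w ^ k % w < w := Nat.mod_lt _ hw0
  have hy : y / w ^ k % w < w := Nat.mod_lt _ hw0
  have h1 : ∀ i, (dgo w h y i * dgo w h x k - dgo w h x i * dgo w h y k) * (B : ℤ) ^ i
      = ((x / w ^ k % w : ℕ) : ℤ) * (((y / w ^ i % w : ℕ) : ℤ) * (B : ℤ) ^ i)
        - ((y / w ^ k % w : ℕ) : ℤ) * (((x / w ^ i % w : ℕ) : ℤ) * (B : ℤ) ^ i)
        + ((h : ℤ) * ((y / w ^ k % w : ℕ) : ℤ) - h * ((x / w ^ k % w : ℕ) : ℤ))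
          * (B : ℤ) ^ i
        + h * (((x / w ^ i % w : ℕ) : ℤ) * (B : ℤ) ^ i)
        - h * (((y / w ^ i % w : ℕ) : ℤ) * (B : ℤ) ^ i) := by
    intro i
    unfold dgo
    ring
  simp only [h1, Finset.sum_add_distrib, Finset.sum_sub_distrib, ← Finset.mul_sum]
  rw [spr_eq, spr_eq, ons_eq]
  have h2 : y / w ^ k % w ≤ 2 * h := by omega
  have h3 : x / w ^ k % w ≤ 2 * h + y / w ^ k % w := by omega
  push_cast [Nat.cast_sub h2, Nat.cast_sub h3]
  ring

theorem uok_cons {r : ℕ × ℕ × ℕ} {U : List (ℕ × ℕ × ℕ)} {n : ℕ} (h : uok (r :: U) n = true) :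
    ∃ m, n = m + 1 ∧ r.1 = m + 1 ∧ uok U m = true := by
  have h' : (Nat.beq r.1 n && (Nat.ble 1 n && uok U (n - 1))) = true := h
  simp only [Bool.and_eq_true] at h'
  have h1 := Nat.eq_of_beq_eq_true h'.1
  have h2 : 1 ≤ n := Nat.le_of_ble_eq_true h'.2.1
  refine ⟨n - 1, by omega, by omega, h'.2.2⟩

theorem uok_nil {n : ℕ} (h : uok [] n = true) : n = 0 := Nat.eq_of_beq_eq_true h

theorem uok_len {U : List (ℕ × ℕ × ℕ)} {n : ℕ} (h : uok U n = true) : U.length = n := by
  induction U generalizing n with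
  | nil => rw [uok_nil h]; rfl
  | cons r U ih =>
    obtain ⟨m, rfl, -, h1⟩ := uok_cons h
    rw [List.length_cons, ih h1]

theorem cast_split (X Y c' q' : ℕ) :
    ((X + c' : ℕ) : ℤ) - ((Y + q' : ℕ) : ℤ) = ((X : ℤ) - Y) + ((c' : ℤ) - q') := by
  push_cast
  ring

theorem cr_cq (B w h : ℕ) (hw0 : 0 < w) (hw : w ≤ 2 * h + 1) (U : List (ℕ × ℕ × ℕ)) :
    ∀ (n k : ℕ), uok U n = true → k < n →
    ((cr B w h U k : ℕ) : ℤ) - (cq B w h U k : ℕ)
      = ∑ i ∈ Finset.range n, Gre w h U i k * (B : ℤ) ^ i := by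
  induction U with
  | nil =>
    intro n k hn hk
    rw [uok_nil hn] at hk
    omega
  | cons r U ih =>
    intro n k hn hk
    obtain ⟨m, rfl, hr, hU⟩ := uok_cons hn
    have h0 := head_re B w h r.1 r.2.1 r.2.2 k hw0 hw
    rcases k with _ | k
    · have e1 : cr B w h (r :: U) 0 = ((r.2.1 / w ^ 0 % w) * spr B w r.1 r.2.1
        + (r.2.2 / w ^ 0 % w) * spr B w r.1 r.2.2
        + (4 * h - (r.2.1 / w ^ 0 % w + r.2.2 / w ^ 0 % w)) * (h * ons B r.1)) + 0 := rfl
      have e2 : cq B w h (r :: U) 0 = (h * (spr B w r.1 r.2.1 + spr B w r.1 r.2.2)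
        + 2 * h * (h * ons B r.1)) + 0 := rfl
      rw [e1, e2, add_zero, add_zero, h0, hr]
      apply Finset.sum_congr rfl
      intro i _
      rw [Gre, if_neg (by omega), add_zero]
    · have e1 : cr B w h (r :: U) (k + 1) = ((r.2.1 / w ^ (k + 1) % w) * spr B w r.1 r.2.1
        + (r.2.2 / w ^ (k + 1) % w) * spr B w r.1 r.2.2
        + (4 * h - (r.2.1 / w ^ (k + 1) % w + r.2.2 / w ^ (k + 1) % w)) * (h * ons B r.1))
          + B * cr B w h U k := rfl
      have e2 : cq B w h (r :: U) (k + 1) = (h * (spr B w r.1 r.2.1 + spr B w r.1 r.2.2)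
        + 2 * h * (h * ons B r.1)) + B * cq B w h U k := rfl
      have h1 := ih m k hU (by omega)
      rw [e1, e2, cast_split, h0, hr]
      have h2 : ((B * cr B w h U k : ℕ) : ℤ) - ((B * cq B w h U k : ℕ) : ℤ)
          = ∑ i ∈ Finset.range (m + 1),
            (if 0 < i ∧ 0 < k + 1 then Gre w h U (i - 1) (k + 1 - 1) else 0) * (B : ℤ) ^ i := by
        rw [Finset.sum_range_succ', if_neg (by omega), zero_mul, add_zero, Nat.cast_mul,
          Nat.cast_mul, ← mul_sub, h1, Finset.mul_sum]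
        apply Finset.sum_congr rfl
        intro i _
        rw [if_pos (by omega), Nat.add_sub_cancel, Nat.add_sub_cancel, pow_succ]
        ring
      rw [h2, ← Finset.sum_add_distrib]
      apply Finset.sum_congr rfl
      intro i _
      rw [Gre]
      ring

theorem ci_cq (B w h : ℕ) (hw0 : 0 < w) (hw : w ≤ 2 * h + 1) (U : List (ℕ × ℕ × ℕ)) :
    ∀ (n k : ℕ), uok U n = true → k < n →
    ((ci B w h U k : ℕ) : ℤ) - (cq B w h U k : ℕ)
      = ∑ i ∈ Finset.range n, Gim w h U i k * (B : ℤ) ^ i := by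
  induction U with
  | nil =>
    intro n k hn hk
    rw [uok_nil hn] at hk
    omega
  | cons r U ih =>
    intro n k hn hk
    obtain ⟨m, rfl, hr, hU⟩ := uok_cons hn
    have h0 := head_im B w h r.1 r.2.1 r.2.2 k hw0 hw
    rcases k with _ | k
    · have e1 : ci B w h (r :: U) 0 = ((r.2.1 / w ^ 0 % w) * spr B w r.1 r.2.2
        + (2 * h - r.2.2 / w ^ 0 % w) * spr B w r.1 r.2.1
        + (2 * h + r.2.2 / w ^ 0 % w - r.2.1 / w ^ 0 % w) * (h * ons B r.1)) + 0 := rfl
      have e2 : cq B w h (r :: U) 0 = (h * (spr B w r.1 r.2.1 + spr B w r.1 r.2.2)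
        + 2 * h * (h * ons B r.1)) + 0 := rfl
      rw [e1, e2, add_zero, add_zero, h0, hr]
      apply Finset.sum_congr rfl
      intro i _
      rw [Gim, if_neg (by omega), add_zero]
    · have e1 : ci B w h (r :: U) (k + 1) = ((r.2.1 / w ^ (k + 1) % w) * spr B w r.1 r.2.2
        + (2 * h - r.2.2 / w ^ (k + 1) % w) * spr B w r.1 r.2.1
        + (2 * h + r.2.2 / w ^ (k + 1) % w - r.2.1 / w ^ (k + 1) % w) * (h * ons B r.1))
          + B * ci B w h U k := rfl
      have e2 : cq B w h (r :: U) (k + 1) = (h * (spr B w r.1 r.2.1 + spr B w r.1 r.2.2)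
        + 2 * h * (h * ons B r.1)) + B * cq B w h U k := rfl
      have h1 := ih m k hU (by omega)
      rw [e1, e2, cast_split, h0, hr]
      have h2 : ((B * ci B w h U k : ℕ) : ℤ) - ((B * cq B w h U k : ℕ) : ℤ)
          = ∑ i ∈ Finset.range (m + 1),
            (if 0 < i ∧ 0 < k + 1 then Gim w h U (i - 1) (k + 1 - 1) else 0) * (B : ℤ) ^ i := by
        rw [Finset.sum_range_succ', if_neg (by omega), zero_mul, add_zero, Nat.cast_mul,
          Nat.cast_mul, ← mul_sub, h1, Finset.mul_sum]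
        apply Finset.sum_congr rfl
        intro i _
        rw [if_pos (by omega), Nat.add_sub_cancel, Nat.add_sub_cancel, pow_succ]
        ring
      rw [h2, ← Finset.sum_add_distrib]
      apply Finset.sum_congr rfl
      intro i _
      rw [Gim]
      ring

theorem dgo_abs (w h x i : ℕ) (hw : h < w) : |dgo w h x i| ≤ (w : ℤ) - 1 := by
  have h1 : x / w ^ i % w < w := Nat.mod_lt _ (by omega)
  unfold dgo
  rw [abs_le]
  constructor <;> omega

theorem mul_abs_le {a b m : ℤ} (ha : |a| ≤ m) (hb : |b| ≤ m) : |a * b| ≤ m * m := by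
  rw [abs_mul]
  exact mul_le_mul ha hb (abs_nonneg _) ((abs_nonneg _).trans ha)

theorem Gre_abs (w h : ℕ) (hw : h < w) (U : List (ℕ × ℕ × ℕ)) (i k : ℕ) :
    |Gre w h U i k| ≤ 2 * (U.length : ℤ) * (((w : ℤ) - 1) * ((w : ℤ) - 1)) := by
  induction U generalizing i k with
  | nil => simp [Gre]
  | cons r U ih =>
    rw [Gre, List.length_cons]
    have h1 := mul_abs_le (dgo_abs w h r.2.1 i hw) (dgo_abs w h r.2.1 k hw)
    have h2 := mul_abs_le (dgo_abs w h r.2.2 i hw) (dgo_abs w h r.2.2 k hw)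
    have h3 : |if 0 < i ∧ 0 < k then Gre w h U (i - 1) (k - 1) else 0|
        ≤ 2 * (U.length : ℤ) * (((w : ℤ) - 1) * ((w : ℤ) - 1)) := by
      split_ifs
      · exact ih _ _
      · rw [abs_zero]
        exact (abs_nonneg _).trans (ih i k)
    have h4 := abs_add_le (dgo w h r.2.1 i * dgo w h r.2.1 k + dgo w h r.2.2 i * dgo w h r.2.2 k)
      (if 0 < i ∧ 0 < k then Gre w h U (i - 1) (k - 1) else 0)
    have h5 := abs_add_le (dgo w h r.2.1 i * dgo w h r.2.1 k) (dgo w h r.2.2 i * dgo w h r.2.2 k)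
    push_cast
    linarith

theorem Gim_abs (w h : ℕ) (hw : h < w) (U : List (ℕ × ℕ × ℕ)) (i k : ℕ) :
    |Gim w h U i k| ≤ 2 * (U.length : ℤ) * (((w : ℤ) - 1) * ((w : ℤ) - 1)) := by
  induction U generalizing i k with
  | nil => simp [Gim]
  | cons r U ih =>
    rw [Gim, List.length_cons]
    have h1 := mul_abs_le (dgo_abs w h r.2.2 i hw) (dgo_abs w h r.2.1 k hw)
    have h2 := mul_abs_le (dgo_abs w h r.2.1 i hw) (dgo_abs w h r.2.2 k hw)
    have h3 : |if 0 < i ∧ 0 < k then Gim w h U (i - 1) (k - 1) else 0|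
        ≤ 2 * (U.length : ℤ) * (((w : ℤ) - 1) * ((w : ℤ) - 1)) := by
      split_ifs
      · exact ih _ _
      · rw [abs_zero]
        exact (abs_nonneg _).trans (ih i k)
    have h4 := abs_add_le (dgo w h r.2.2 i * dgo w h r.2.1 k - dgo w h r.2.1 i * dgo w h r.2.2 k)
      (if 0 < i ∧ 0 < k then Gim w h U (i - 1) (k - 1) else 0)
    have h5 := abs_sub (dgo w h r.2.2 i * dgo w h r.2.1 k) (dgo w h r.2.1 i * dgo w h r.2.2 k)
    push_cast
    linarith

/-- digits of a packed sum with offset -/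
theorem packed (B H n c q : ℕ) (G : ℕ → ℤ) (hB : B = 2 * H)
    (hc : (c : ℤ) - q = ∑ i ∈ Finset.range n, G i * (B : ℤ) ^ i) (hG : ∀ i < n, |G i| < H)
    (i : ℕ) (hi : i < n) : (((c + H * ons B n - q) / B ^ i % B : ℕ) : ℤ) - H = G i := by
  have h1 : ∀ j < n, (0 : ℤ) ≤ G j + H ∧ G j + H < B := by
    intro j hj
    have := abs_lt.1 (hG j hj)
    rw [hB]
    push_cast
    constructor <;> linarith [this.1, this.2]
  have h2 : ((c + H * ons B n : ℕ) : ℤ)
      = ((q + ∑ j ∈ Finset.range n, (G j + H).toNat * B ^ j : ℕ) : ℤ) := by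
    rw [ons_eq]
    push_cast
    have h3 : ∑ j ∈ Finset.range n, (((G j + (H : ℤ)).toNat : ℕ) : ℤ) * (B : ℤ) ^ j
        = ∑ j ∈ Finset.range n, (G j * (B : ℤ) ^ j + (H : ℤ) * (B : ℤ) ^ j) := by
      apply Finset.sum_congr rfl
      intro j hj
      rw [Int.toNat_of_nonneg (h1 j (Finset.mem_range.1 hj)).1]
      ring
    rw [h3, Finset.sum_add_distrib, ← hc, ← Finset.mul_sum]
    ring
  have h4 : c + H * ons B n = q + ∑ j ∈ Finset.range n, (G j + H).toNat * B ^ j := by
    exact_mod_cast h2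
  rw [h4, Nat.add_sub_cancel_left, dig_base B n (fun j => (G j + H).toNat) (by
    intro j hj
    have := h1 j hj
    omega) i hi]
  have := h1 i hi
  omega

/-! ## The sum over the pairs -/

/-- a digit as a complex number -/
noncomputable def uc (w h : ℕ) (r : ℕ × ℕ × ℕ) (i : ℕ) : ℂ := gv (dgo w h r.2.1 i, dgo w h r.2.2 i)

/-- the Gram matrix -/
noncomputable def GG (w h : ℕ) (U : List (ℕ × ℕ × ℕ)) (i k : ℕ) : ℂ :=
  gv (Gre w h U i k, Gim w h U i k)

theorem GG_cons (w h : ℕ) (r : ℕ × ℕ × ℕ) (U : List (ℕ × ℕ × ℕ)) (i k : ℕ) :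
    GG w h (r :: U) i k = uc w h r i * conj (uc w h r k)
      + if 0 < i ∧ 0 < k then GG w h U (i - 1) (k - 1) else 0 := by
  unfold GG uc
  rw [Gre, Gim]
  have h1 : ∀ a b : ℤ, gv (a, b) = (a : ℂ) + b * Complex.I := fun a b => rfl
  split_ifs
  · simp only [h1, map_add, map_mul, Complex.conj_I]
    apply Complex.ext
    · simp
    · simp
      ring
  · simp only [h1]
    apply Complex.ext
    · simp
    · simp
      ring

/-- the sum over the pairs `i ≤ k` -/
noncomputable def SP (G : ℕ → ℕ → ℂ) (v : ℕ → ℂ) (n : ℕ) : ℝ :=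
  ∑ k ∈ Finset.range n, ∑ i ∈ Finset.range (k + 1),
    (if i < k then 2 else 1) * (G i k * (v i * conj (v k))).re

theorem SP_add (G G' : ℕ → ℕ → ℂ) (v : ℕ → ℂ) (n : ℕ) :
    SP (fun i k => G i k + G' i k) v n = SP G v n + SP G' v n := by
  unfold SP
  rw [← Finset.sum_add_distrib]
  apply Finset.sum_congr rfl
  intro k _
  rw [← Finset.sum_add_distrib]
  apply Finset.sum_congr rfl
  intro i _
  rw [add_mul, Complex.add_re]
  ring

theorem SP_sq (u v : ℕ → ℂ) (n : ℕ) :
    SP (fun i k => u i * conj (u k)) v n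
      = ((∑ i ∈ Finset.range n, u i * v i) * conj (∑ i ∈ Finset.range n, u i * v i)).re := by
  unfold SP
  induction n with
  | zero => simp
  | succ n ih =>
    rw [Finset.sum_range_succ, ih, Finset.sum_range_succ, if_neg (lt_irrefl n),
      Finset.sum_range_succ (fun i => u i * v i)]
    have h1 : ∑ i ∈ Finset.range n, (if i < n then 2 else 1 : ℝ)
        * (u i * conj (u n) * (v i * conj (v n))).re
        = 2 * ((∑ i ∈ Finset.range n, u i * v i) * conj (u n * v n)).re := by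
      rw [Finset.sum_mul, Complex.re_sum, Finset.mul_sum]
      apply Finset.sum_congr rfl
      intro i hi
      rw [if_pos (Finset.mem_range.1 hi), map_mul]
      congr 2
      ring
    rw [h1, map_add]
    generalize ∑ i ∈ Finset.range n, u i * v i = Z
    generalize hz : u n * v n = z
    have h2 : u n * conj (u n) * (v n * conj (v n)) = z * conj z := by
      rw [← hz, map_mul]
      ring
    rw [h2]
    simp only [Complex.mul_re, Complex.add_re, Complex.add_im, Complex.conj_re, Complex.conj_im]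
    ring

theorem SP_shift (G : ℕ → ℕ → ℂ) (v : ℕ → ℂ) (m : ℕ) :
    SP (fun i k => if 0 < i ∧ 0 < k then G (i - 1) (k - 1) else 0) v (m + 1)
      = SP G (fun i => v (i + 1)) m := by
  unfold SP
  rw [Finset.sum_range_succ']
  have h1 : ∑ i ∈ Finset.range (0 + 1), (if i < 0 then 2 else 1 : ℝ)
      * ((if 0 < i ∧ 0 < 0 then G (i - 1) (0 - 1) else 0) * (v i * conj (v 0))).re = 0 := by
    simp
  rw [h1, add_zero]
  apply Finset.sum_congr rfl
  intro k _
  rw [Finset.sum_range_succ']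
  have h2 : (if 0 < k + 1 then 2 else 1 : ℝ)
      * ((if 0 < 0 ∧ 0 < k + 1 then G (0 - 1) (k + 1 - 1) else 0) * (v 0 * conj (v (k + 1)))).re
      = 0 := by
    simp
  rw [h2, add_zero]
  apply Finset.sum_congr rfl
  intro i _
  have h3 : (i + 1 < k + 1) ↔ i < k := by omega
  simp only [h3]
  rw [if_pos (show 0 < i + 1 ∧ 0 < k + 1 by omega), Nat.add_sub_cancel, Nat.add_sub_cancel]

theorem SP_nonneg (w h : ℕ) (U : List (ℕ × ℕ × ℕ)) : ∀ (n : ℕ) (v : ℕ → ℂ), uok U n = true →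
    0 ≤ SP (GG w h U) v n := by
  induction U with
  | nil =>
    intro n v hn
    rw [uok_nil hn]
    simp [SP]
  | cons r U ih =>
    intro n v hn
    obtain ⟨m, rfl, -, hU⟩ := uok_cons hn
    have h1 : GG w h (r :: U) = fun i k => uc w h r i * conj (uc w h r k)
        + (if 0 < i ∧ 0 < k then GG w h U (i - 1) (k - 1) else 0) := by
      funext i k
      exact GG_cons w h r U i k
    rw [h1, SP_add, SP_sq, SP_shift]
    refine add_nonneg ?_ (ih m _ hU)
    rw [Complex.mul_conj, Complex.ofReal_re]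
    exact Complex.normSq_nonneg _

end Pool.Agent.Helper54.HR2
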