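import Mathlib
import Pool.Agent.Helper54.HR2.Gram6

/-!
MP_16b0ee, project HR2: soundness of the second kernel check of a certificate.
-/

set_option autoImplicit false

open scoped ComplexConjugate

namespace Pool.Agent.Helper54.HR2

open Pool.Agent.Helper12.HR2 (Par Mo GZ gv Pol mv pv wl rel Dvl dvl upl prd)

/-! ## Blocks -/

/-- the rows of blocks -/
def flat : List Blk → List Sng
  | [] => []
  | (b :: bs) => b.2.2.map (fun s => (b.1 + s.1, s.2)) ++ flat bs

/-- the blocks are consecutive -/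
def okB : ℕ → List Blk → Bool
  | _, [] => true
  | k, (b :: bs) => Nat.beq b.2.1 k && okB (k + b.2.2.length) bs

section Forms

variable {A : Type*} [AddCommGroup A]

theorem fm_append {R : Type} (F : R → A) (w h : ℕ) (l l' : List R) (x : ℕ) :
    fm F w h (l ++ l') x = fm F w h l x + fm F w h l' (x / w ^ l.length) := by
  induction l generalizing x with
  | nil => simp [fm]
  | cons r l ih =>
    rw [List.cons_append, fm, ih, fm, List.length_cons, pow_succ', ← Nat.div_div_eq_div_mul,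
      add_assoc]

theorem fm_map {R S : Type} (F : R → A) (f : S → R) (w h : ℕ) (l : List S) (x : ℕ) :
    fm F w h (l.map f) x = fm (fun s => F (f s)) w h l x := by
  induction l generalizing x with
  | nil => rfl
  | cons r l ih => rw [List.map_cons, fm, fm, ih]

theorem bmR_flat (v : ℕ → A) (w h : ℕ) (bs : List Blk) (k x : ℕ) (hk : okB k bs = true) :
    bmR v w h bs x = fm (sR v) w h (flat bs) (x / w ^ k) := by
  induction bs generalizing k with
  | nil => rfl
  | cons b bs ih =>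
    simp only [okB, Bool.and_eq_true] at hk
    have h1 := Nat.eq_of_beq_eq_true hk.1
    have h2 := ih _ hk.2
    have h3 : bmR v w h (b :: bs) x = fm (sR (vo v b.1)) w h b.2.2 (x / w ^ b.2.1)
      + bmR v w h bs x := by simp [bmR]
    rw [h3, h2, flat, fm_append, fm_map, List.length_map, Nat.div_div_eq_div_mul, ← pow_add, h1]
    rfl

theorem bmI_flat (v : ℕ → A) (w h : ℕ) (bs : List Blk) (k x : ℕ) (hk : okB k bs = true) :
    bmI v w h bs x = fm (sI v) w h (flat bs) (x / w ^ k) := by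
  induction bs generalizing k with
  | nil => rfl
  | cons b bs ih =>
    simp only [okB, Bool.and_eq_true] at hk
    have h1 := Nat.eq_of_beq_eq_true hk.1
    have h2 := ih _ hk.2
    have h3 : bmI v w h (b :: bs) x = fm (sI (vo v b.1)) w h b.2.2 (x / w ^ b.2.1)
      + bmI v w h bs x := by simp [bmI]
    rw [h3, h2, flat, fm_append, fm_map, List.length_map, Nat.div_div_eq_div_mul, ← pow_add, h1]
    rfl

theorem bmR_flat0 (v : ℕ → A) (w h : ℕ) (bs : List Blk) (x : ℕ) (hk : okB 0 bs = true) :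
    bmR v w h bs x = fm (sR v) w h (flat bs) x := by
  rw [bmR_flat v w h bs 0 x hk, pow_zero, Nat.div_one]

theorem bmI_flat0 (v : ℕ → A) (w h : ℕ) (bs : List Blk) (x : ℕ) (hk : okB 0 bs = true) :
    bmI v w h bs x = fm (sI v) w h (flat bs) x := by
  rw [bmI_flat v w h bs 0 x hk, pow_zero, Nat.div_one]

end Forms

theorem vo_zero {A : Type*} (v : ℕ → A) : vo v 0 = v := by
  funext T
  rw [vo, zero_add]

/-! ## Forms of monomials -/

/-- the check of blocks: the rows are the coded elements -/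
def okF {S : Type} (K : ℕ) (rep : ℕ → ℕ) (q : S → ℕ × ℕ) (bs : List Blk) (ms : List S) : Bool :=
  okB 0 bs && okL K rep 0 q (flat bs) ms

theorem okF_spec {S : Type} {K : ℕ} {rep : ℕ → ℕ} {q : S → ℕ × ℕ} {bs : List Blk} {ms : List S}
    (h : okF K rep q bs ms = true) (c : ℕ → ℂ) (w hh x y : ℕ) :
    bmR (rhoV K rep c) w hh bs x - bmI (sigV K rep c) w hh bs y
      = (cf (fun m => (2 ^ (q m).2 : ℂ) * mc c (q m).1) w hh ms x y).re := by
  unfold okF at h
  rw [Bool.and_eq_true] at h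
  rw [bmR_flat0 _ _ _ _ _ h.1, bmI_flat0 _ _ _ _ _ h.1]
  have h2 := okL_spec c (flat bs) ms h.2
  rw [vo_zero, vo_zero] at h2
  exact (fm_cf _ _ (fun m => (2 ^ (q m).2 : ℂ) * mc c (q m).1) w hh h2 x y).1

theorem okF_spec_re {S : Type} {K : ℕ} {rep : ℕ → ℕ} {q : S → ℕ × ℕ} {bs : List Blk}
    {ms : List S} (h : okF K rep q bs ms = true) (c : ℕ → ℂ) (w hh x : ℕ) :
    bmR (rhoV K rep c) w hh bs x
      = fm (fun m => ((2 ^ (q m).2 : ℂ) * mc c (q m).1).re) w hh ms x := by
  unfold okF at h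
  rw [Bool.and_eq_true] at h
  rw [bmR_flat0 _ _ _ _ _ h.1]
  have h2 := okL_spec c (flat bs) ms h.2
  rw [vo_zero, vo_zero] at h2
  clear h
  generalize flat bs = l at h2
  induction h2 generalizing x with
  | nil => rfl
  | cons h1 _ ih => rw [fm, fm, ih, h1.1]

theorem cf_range (F : ℕ → ℂ) (w h n : ℕ) : ∀ (s x y : ℕ),
    cf F w h (List.range' s n) x y
      = ∑ i ∈ Finset.range n, gv (dgo w h x i, dgo w h y i) * F (s + i) := by
  induction n with
  | zero => intro s x y; simp [cf]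
  | succ n ih =>
    intro s x y
    rw [List.range'_succ, cf, ih, Finset.sum_range_succ']
    rw [add_comm]
    congr 1
    · apply Finset.sum_congr rfl
      intro i _
      have h1 : ∀ z, dgo w h (z / w) i = dgo w h z (i + 1) := by
        intro z
        unfold dgo
        rw [Nat.div_div_eq_div_mul, ← pow_succ']
      rw [h1, h1]
      congr 2
      omega
    · simp [dgo]

/-! ## The Gram matrix -/

/-- the monomial with the number `i` -/
def bm (bas : List Mo) (i : ℕ) : Mo := bas.getD i ([], [])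

/-- the code and the multiplicity for the pair `(i, k)` -/
def qik (bas : List Mo) (k i : ℕ) : ℕ × ℕ :=
  (cod (prd (bm bas i, bm bas k)), bif Nat.beq i k then 0 else 1)

/-- the check of the columns -/
def okC (K : ℕ) (rep : ℕ → ℕ) (bas : List Mo) (n : ℕ) : ℕ → List (ℕ × List Blk) → Bool
  | k, [] => Nat.beq k n
  | k, (b :: T) => Nat.beq b.1 k && okF K rep (qik bas k) b.2 (List.range' 0 (k + 1)) &&
      (List.range' 0 (k + 1)).all (fun i => vmo (prd (bm bas i, bm bas k))) && okC K rep bas n (k + 1) T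

/-- the value of a basis monomial -/
noncomputable def bv (c : ℕ → ℂ) (m : Mo) : ℂ := mv c (fun k => conj (c k)) m

theorem mc_prd (c : ℕ → ℂ) {p : Mo × Mo} (h : vmo (prd p) = true) :
    mc c (cod (prd p)) = bv c p.1 * conj (bv c p.2) := by
  rw [mc_cod c h]
  exact Pool.Agent.Helper12.HR2.mv_prd c p

theorem okC_spec {K : ℕ} {rep : ℕ → ℕ} {bas : List Mo} {n : ℕ} (c : ℕ → ℂ) (B H w h : ℕ)
    (U : List (ℕ × ℕ × ℕ)) (hB : B = 2 * H) (hw0 : 0 < w) (hw : w ≤ 2 * h + 1) (hhw : h < w)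
    (hU : uok U n = true) (hH : 2 * n * (w * w) ≤ H) :
    ∀ (T : List (ℕ × List Blk)) (k : ℕ), okC K rep bas n k T = true →
    k ≤ n ∧ mmR (rhoV K rep c) B H w h n U T - mmI (sigV K rep c) B H w h n U T
      = ∑ j ∈ Finset.Ico k n, ∑ i ∈ Finset.range (j + 1),
        (if i < j then 2 else 1) * (GG w h U i j * (bv c (bm bas i) * conj (bv c (bm bas j)))).re := by
  intro T
  induction T with
  | nil =>
    intro k hk
    have h1 : k = n := Nat.eq_of_beq_eq_true hk
    subst h1
    simp [mmR, mmI]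
  | cons b T ih =>
    intro k hk
    simp only [okC, Bool.and_eq_true] at hk
    obtain ⟨⟨⟨h1, h2⟩, h3⟩, h4⟩ := hk
    have h1' := Nat.eq_of_beq_eq_true h1
    obtain ⟨h5, h6⟩ := ih (k + 1) h4
    refine ⟨by omega, ?_⟩
    have e1 : mmR (rhoV K rep c) B H w h n U (b :: T) = bmR (rhoV K rep c) B H b.2
      (zc B H w h n U b.1) + mmR (rhoV K rep c) B H w h n U T := by simp [mmR]
    have e2 : mmI (sigV K rep c) B H w h n U (b :: T) = bmI (sigV K rep c) B H b.2
      (zd B H w h n U b.1) + mmI (sigV K rep c) B H w h n U T := by simp [mmI]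
    rw [e1, e2, add_sub_add_comm, h6, okF_spec h2, h1', cf_range,
      ← Finset.sum_Ioo_add_eq_sum_Ico (show k < n by omega)]
    have e3 : Finset.Ico (k + 1) n = Finset.Ioo k n := by
      ext j
      simp only [Finset.mem_Ico, Finset.mem_Ioo]
      omega
    rw [e3, add_comm]
    congr 1
    rw [Complex.re_sum]
    apply Finset.sum_congr rfl
    intro i hi
    have hi' : i < k + 1 := Finset.mem_range.1 hi
    have hl := uok_len hU
    have hlt : 2 * (U.length : ℤ) * (((w : ℤ) - 1) * ((w : ℤ) - 1)) < H := by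
      have a1 : ((2 * n * (w * w) : ℕ) : ℤ) ≤ H := by exact_mod_cast hH
      have a2 : (1 : ℤ) ≤ w := by omega
      have a3 : (1 : ℤ) ≤ n := by omega
      rw [hl]
      push_cast at a1
      nlinarith
    have g1 : ∀ j < n, |Gre w h U j k| < H := fun j _ => lt_of_le_of_lt (Gre_abs w h hhw U j k) hlt
    have g2 : ∀ j < n, |Gim w h U j k| < H := fun j _ => lt_of_le_of_lt (Gim_abs w h hhw U j k) hlt
    have p1 := packed B H n (cr B w h U k) (cq B w h U k) (fun j => Gre w h U j k) hB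
      (cr_cq B w h hw0 hw U n k hU (by omega)) g1 i (by omega)
    have p2 := packed B H n (ci B w h U k) (cq B w h U k) (fun j => Gim w h U j k) hB
      (ci_cq B w h hw0 hw U n k hU (by omega)) g2 i (by omega)
    have d1 : dgo B H (zc B H w h n U k) i = Gre w h U i k := p1
    have d2 : dgo B H (zd B H w h n U k) i = Gim w h U i k := p2
    rw [d1, d2, zero_add]
    have hv : vmo (prd (bm bas i, bm bas k)) = true := by
      have := List.all_eq_true.1 h3 i (by
        rw [List.mem_range'_1]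
        omega)
      exact this
    have q1 : mc c (qik bas k i).1 = bv c (bm bas i) * conj (bv c (bm bas k)) := mc_prd c hv
    rw [q1]
    change (GG w h U i k * _).re = _
    by_cases hik : i < k
    · have q2 : (qik bas k i).2 = 1 := by
        have : Nat.beq i k = false := by
          rw [Bool.eq_false_iff]
          intro h0
          have := Nat.eq_of_beq_eq_true h0
          omega
        simp only [qik, this, cond_false]
      rw [q2, if_pos hik, pow_one]
      have : GG w h U i k * ((2 : ℂ) * (bv c (bm bas i) * conj (bv c (bm bas k))))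
          = ((2 : ℝ) : ℂ) * (GG w h U i k * (bv c (bm bas i) * conj (bv c (bm bas k)))) := by
        push_cast
        ring
      rw [this, Complex.re_ofReal_mul]
    · have hik' : i = k := by omega
      have q2 : (qik bas k i).2 = 0 := by
        have : Nat.beq i k = true := by rw [hik']; exact Nat.beq_refl k
        simp only [qik, this, cond_true]
      rw [q2, if_neg hik, pow_zero, one_mul, one_mul]

/-! ## The groups -/

/-- the decoded multipliers -/
def dec6 (w h : ℕ) : List (List Mo) → List (ℕ × ℕ) → Pol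
  | [], _ => []
  | (_ :: _), [] => []
  | (ms :: gm), (xy :: l) => upl w h ms xy.1 xy.2 ++ dec6 w h gm l

theorem okGs_spec {K : ℕ} {rep : ℕ → ℕ} (P : Par) (hs : P.sr ≠ 0) (hb : P.bd ≠ 0) (c : ℕ → ℂ)
    (w h : ℕ) (gs : List Grp) (gm : List (List Mo)) (hg : List.Forall₂ (GrpOK K rep) gs gm) :
    ∀ l : List (ℕ × ℕ),
    gsmR P (rhoV K rep c) w h gs l + gsmI P (sigV K rep c) w h gs l
      = (P.sr * P.bd : ℝ) * (rel (((P.p : ℂ) + P.q * Complex.I) / P.sr) ((P.bn : ℂ) / P.bd) c
          (dec6 w h gm l)).re := by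
  induction hg with
  | nil =>
    intro l
    simp [gsmR, gsmI, dec6, Pool.Agent.Helper12.HR2.rel_nil]
  | cons hg0 _ ih =>
    intro l
    rcases l with _ | ⟨xy, l⟩
    · simp [gsmR, gsmI, dec6, Pool.Agent.Helper12.HR2.rel_nil]
    · have h1 := grp_spec hg0 P hs hb c w h xy.1 xy.2
      have h2 := ih l
      simp only [gsmR, gsmI, dec6, Pool.Agent.Helper12.HR2.rel_append, Complex.add_re]
      rw [mul_add, ← h1, ← h2]
      ring

/-! ## Correctness of the tables -/

/-- correctness of the tables -/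
structure TabOK6 (t : Tab6) (K : ℕ) (rep : ℕ → ℕ) (bas qm : List Mo) (gm : List (List Mo))
    (prs : List (ℕ × ℕ)) : Prop where
  num : NumOK t K
  npos : 0 < t.n
  one : rep (t.one / K) = 0
  q : okF K rep (fun m => (cod m, 0)) t.q qm = true
  qv : qm.all vmo = true
  g : List.Forall₂ (GrpOK K rep) t.g gm
  c : okC K rep bas t.n 0 t.c = true
  d : okF K rep (fun m => (cod (prd (m, m)), 0)) t.d bas = true
  dv : bas.all (fun m => vmo (prd (m, m))) = true
  nB : bas.length = t.nB
  r : okF K rep (fun p => (cod (prd (bm bas p.1, bm bas p.2)), 0)) t.r prs = true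
  rv : prs.all (fun p => vmo (prd (bm bas p.1, bm bas p.2)) && Nat.ble (p.1 + 1) bas.length &&
    Nat.ble (p.2 + 1) bas.length) = true
  nR : prs.length = t.nR

/-! ## Bounds of the residual -/

theorem sab_succ (w h n x : ℕ) : sab w h (n + 1) x = ((x % w - h) + (h - x % w)) + sab w h n (x / w) :=
  rfl

theorem cf_le {S : Type} (F : S → ℂ) (w h : ℕ) (M : ℝ) (ms : List S) (hM : ∀ m ∈ ms, ‖F m‖ ≤ M) :
    ∀ (x y : ℕ), ‖cf F w h ms x y‖ ≤ ((sab w h ms.length x + sab w h ms.length y : ℕ) : ℝ) * M := by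
  induction ms with
  | nil => intro x y; simp [cf, sab]
  | cons m ms ih =>
    intro x y
    have h1 := ih (fun m' h' => hM m' (by simp [h'])) (x / w) (y / w)
    have h2 := hM m (by simp)
    rw [cf, List.length_cons, sab_succ, sab_succ]
    have h3 : ∀ z : ℕ, ((((z % w : ℕ) : ℤ) - h).natAbs : ℕ) = (z % w - h) + (h - z % w) := by
      intro z
      omega
    have h4 : ‖gv ((((x % w : ℕ) : ℤ) - h), (((y % w : ℕ) : ℤ) - h))‖
        ≤ ((((x % w - h) + (h - x % w)) + ((y % w - h) + (h - y % w)) : ℕ) : ℝ) := by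
      rw [← h3, ← h3]
      unfold gv
      refine (norm_add_le _ _).trans ?_
      rw [norm_mul, Complex.norm_I, mul_one]
      simp only
      rw [Complex.norm_intCast, Complex.norm_intCast, Nat.cast_add, Nat.cast_natAbs,
        Nat.cast_natAbs, Int.cast_abs, Int.cast_abs]
    refine (norm_add_le _ _).trans ?_
    rw [norm_mul]
    have h5 := mul_le_mul h4 h2 (norm_nonneg _) (Nat.cast_nonneg _)
    have h6 : (((x % w - h + (h - x % w) + sab w h ms.length (x / w)
        + (y % w - h + (h - y % w) + sab w h ms.length (y / w)) : ℕ)) : ℝ) * M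
        = (((x % w - h) + (h - x % w) + ((y % w - h) + (h - y % w)) : ℕ) : ℝ) * M
          + ((sab w h ms.length (x / w) + sab w h ms.length (y / w) : ℕ) : ℝ) * M := by
      push_cast
      ring
    rw [h6]
    exact add_le_add h5 h1

theorem fm_nonneg {S : Type} (F : S → ℝ) (w : ℕ) (ms : List S) (hF : ∀ m ∈ ms, 0 ≤ F m) :
    ∀ x : ℕ, 0 ≤ fm F w 0 ms x := by
  induction ms with
  | nil => intro x; simp [fm]
  | cons m ms ih =>
    intro x
    rw [fm, zsmul_eq_mul]
    have h1 := ih (fun m' h' => hF m' (by simp [h'])) (x / w)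
    have h2 := hF m (by simp)
    have h3 : (0 : ℝ) ≤ (((((x % w : ℕ) : ℤ) - (0 : ℕ)) : ℤ) : ℝ) := by
      push_cast
      rw [sub_zero]
      exact Nat.cast_nonneg _
    exact add_nonneg (mul_nonneg h3 h2) h1

theorem fm_ones {S : Type} (F : S → ℝ) (ms : List S) :
    fm F 2 0 ms (2 ^ ms.length - 1) = (ms.map F).sum := by
  induction ms with
  | nil => rfl
  | cons m ms ih =>
    rw [fm, List.length_cons, List.map_cons, List.sum_cons]
    have h1 : (2 ^ (ms.length + 1) - 1) / 2 = 2 ^ ms.length - 1 := by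
      rw [pow_succ]
      omega
    have h2 : (2 ^ (ms.length + 1) - 1) % 2 = 1 := by
      have := Nat.one_le_two_pow (n := ms.length)
      rw [pow_succ]
      omega
    rw [h1, h2, ih]
    simp

/-! ## Soundness -/

theorem isz_eq {x : ℤ} (h : isz x = true) : x = 0 := by
  rcases x with n | n
  · have h1 : n = 0 := Nat.eq_of_beq_eq_true h
    rw [h1]
    rfl
  · exact absurd h (by simp [isz])

/-- **Soundness of the second check.** -/
theorem sound6 {t : Tab6} {K : ℕ} {rep : ℕ → ℕ} {bas qm : List Mo} {gm : List (List Mo)}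
    {prs : List (ℕ × ℕ)} (ht : TabOK6 t K rep bas qm gm prs) (C : Cert6) (hR : chR t C = true)
    (hI : chI t C = true) (hBb : chB t K C = true) (c : ℕ → ℂ) :
    (C.eta : ℝ) + (pv c (fun k => conj (c k)) (upl C.wQ C.hQ qm C.qx C.qy)).re
      + C.mL * (rel (((C.P.p : ℂ) + C.P.q * Complex.I) / C.P.sr) ((C.P.bn : ℂ) / C.P.bd) c
        (dec6 C.wL C.hL gm C.G)).re ≤ 0 := by
  have hb0 : ((Nat.ble (Nat.succ (nF t C)) (2 ^ K) && uok C.U t.n)
    && (Nat.ble (2 * (sab C.wR C.hR t.nR C.rx + sab C.wR C.hR t.nR C.ry)) C.eps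
      && ((Nat.ble 1 C.P.sr && (Nat.ble 1 C.P.bd && (Nat.ble 1 C.m1 && Nat.ble 1 C.wD)))
        && ((Nat.ble (Nat.succ C.hL) C.wL && Nat.ble C.wL (Nat.succ (2 * C.hL)))
          && ((Nat.ble (Nat.succ C.hR) C.wR && Nat.ble C.wR (Nat.succ (2 * C.hR)))
            && ((Nat.ble (Nat.succ C.hQ) C.wQ && Nat.ble C.wQ (Nat.succ (2 * C.hQ)))
              && ((Nat.ble (Nat.succ C.hU) C.wU && Nat.ble C.wU (Nat.succ (2 * C.hU)))
                && (Nat.beq C.wG (2 * C.hG)
                  && Nat.ble (2 * t.n * (C.wU * C.wU)) C.hG)))))))) = true := hBb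
  simp only [Bool.and_eq_true, Nat.ble_eq] at hb0
  obtain ⟨⟨hn, hU⟩, heps, ⟨hsr, hbd, hm1, hwD⟩, ⟨hL1, hL2⟩, ⟨hR1, hR2⟩, ⟨hQ1, hQ2⟩, ⟨hU1, hU2⟩,
    hG1, hG2⟩ := hb0
  have hG1' := Nat.eq_of_beq_eq_true hG1
  have hwU : 1 ≤ C.wU := by omega
  have hH : 1 ≤ C.hG := by
    have h1 := ht.npos
    have h2 : 1 ≤ C.wU * C.wU := Nat.mul_pos hwU hwU
    have h3 : 1 ≤ 2 * t.n * (C.wU * C.wU) := Nat.mul_pos (by omega) h2
    omega
  have z1 := FRm_zero ht.num C (by omega) (by omega) (by omega) (by omega) (by omega) (by omega)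
    (by rw [← FR_eq]; exact isz_eq hR) (fun j => (mc c (rep j)).re)
  have z2 := FIm_zero ht.num C (by omega) (by omega) (by omega) (by omega) (by omega)
    (by rw [← FI_eq t C (by omega) (by omega) (by omega) (by omega) (by omega) (by omega)
      (by omega) (by omega)]; exact isz_eq hI) (fun j => (mc c (rep j)).im)
  change FRm t C (rhoV K rep c) = 0 at z1
  change FIm t C (sigV K rep c) = 0 at z2
  have hsr0 : C.P.sr ≠ 0 := by omega
  have hbd0 : C.P.bd ≠ 0 := by omega
  -- the constant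
  have e0 : rhoV K rep c t.one = 1 := by
    rw [rhoV, vs_zero _ ht.num.one, ht.one]
    simp [mc, dig]
  -- the form
  have e1 : bmR (rhoV K rep c) C.wQ C.hQ t.q C.qx - bmI (sigV K rep c) C.wQ C.hQ t.q C.qy
      = (pv c (fun k => conj (c k)) (upl C.wQ C.hQ qm C.qx C.qy)).re := by
    rw [okF_spec ht.q c C.wQ C.hQ C.qx C.qy, pv_upl]
    congr 1
    apply cf_congr
    intro m hm
    have := List.all_eq_true.1 ht.qv m hm
    simp only [pow_zero, one_mul]
    exact mc_cod c this
  -- the multipliers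
  have e2 := okGs_spec C.P hsr0 hbd0 c C.wL C.hL t.g gm ht.g C.G
  -- the Gram matrix
  have e3 : 0 ≤ mmR (rhoV K rep c) C.wG C.hG C.wU C.hU t.n C.U t.c
      - mmI (sigV K rep c) C.wG C.hG C.wU C.hU t.n C.U t.c := by
    rw [(okC_spec c C.wG C.hG C.wU C.hU C.U hG1' (by omega) (by omega) (by omega) hU hG2 t.c 0
      ht.c).2, ← Finset.range_eq_Ico]
    exact SP_nonneg C.wU C.hU C.U t.n (fun i => bv c (bm bas i)) hU
  -- the squares
  have sq : ∀ m ∈ bas, ((2 ^ 0 : ℂ) * mc c (cod (prd (m, m)))).re = ‖bv c m‖ ^ 2 := by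
    intro m hm
    have h1 := List.all_eq_true.1 ht.dv m hm
    rw [pow_zero, one_mul, mc_prd c h1]
    simp only
    rw [Complex.mul_conj, Complex.ofReal_re, Complex.normSq_eq_norm_sq]
  have e4 : 0 ≤ bmR (rhoV K rep c) C.wD 0 t.d C.dg := by
    rw [okF_spec_re ht.d]
    apply fm_nonneg
    intro m hm
    rw [sq m hm]
    exact sq_nonneg _
  obtain ⟨S, hS⟩ : ∃ S : ℝ, bmR (rhoV K rep c) 2 0 t.d (2 ^ t.nB - 1) = S := ⟨_, rfl⟩
  have hS1 : S = (bas.map (fun m => ‖bv c m‖ ^ 2)).sum := by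
    rw [← hS, okF_spec_re ht.d, ← ht.nB, fm_ones]
    congr 1
    exact List.map_congr_left sq
  have hS2 : ∀ m ∈ bas, ‖bv c m‖ ^ 2 ≤ S := by
    intro m hm
    rw [hS1]
    exact List.single_le_sum (by
      intro x hx
      obtain ⟨m', -, rfl⟩ := List.mem_map.1 hx
      exact sq_nonneg _) _ (List.mem_map.2 ⟨m, hm, rfl⟩)
  have hS0 : 0 ≤ S := by
    rw [hS1]
    apply List.sum_nonneg
    intro x hx
    obtain ⟨m', -, rfl⟩ := List.mem_map.1 hx
    exact sq_nonneg _
  -- the residual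
  have e5 : |bmR (rhoV K rep c) C.wR C.hR t.r C.rx - bmI (sigV K rep c) C.wR C.hR t.r C.ry|
      ≤ ((sab C.wR C.hR t.nR C.rx + sab C.wR C.hR t.nR C.ry : ℕ) : ℝ) * S := by
    rw [okF_spec ht.r c C.wR C.hR C.rx C.ry, ← ht.nR]
    refine (Complex.abs_re_le_norm _).trans (cf_le _ C.wR C.hR S prs ?_ C.rx C.ry)
    intro p hp
    have h1 := List.all_eq_true.1 ht.rv p hp
    simp only [Bool.and_eq_true, Nat.ble_eq] at h1
    obtain ⟨⟨h2, h3⟩, h4⟩ := h1
    rw [pow_zero, one_mul, mc_prd c h2]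
    simp only
    rw [norm_mul, Complex.norm_conj]
    have k1 : bm bas p.1 ∈ bas := by
      rw [bm, List.getD_eq_getElem _ _ (by omega)]
      exact List.getElem_mem _
    have k2 : bm bas p.2 ∈ bas := by
      rw [bm, List.getD_eq_getElem _ _ (by omega)]
      exact List.getElem_mem _
    nlinarith [hS2 _ k1, hS2 _ k2, sq_nonneg (‖bv c (bm bas p.1)‖ - ‖bv c (bm bas p.2)‖)]
  -- the sum
  unfold FRm TRm at z1
  unfold FIm TIm at z2
  simp only [zsmul_eq_mul, e0, hS] at z1 z2
  push_cast at z1 z2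
  generalize hT : (C.eta : ℝ) + (pv c (fun k => conj (c k)) (upl C.wQ C.hQ qm C.qx C.qy)).re
      + C.mL * (rel (((C.P.p : ℂ) + C.P.q * Complex.I) / C.P.sr) ((C.P.bn : ℂ) / C.P.bd) c
        (dec6 C.wL C.hL gm C.G)).re = T
  generalize (rel (((C.P.p : ℂ) + C.P.q * Complex.I) / C.P.sr) ((C.P.bn : ℂ) / C.P.bd) c
        (dec6 C.wL C.hL gm C.G)).re = X at e2 hT
  generalize (pv c (fun k => conj (c k)) (upl C.wQ C.hQ qm C.qx C.qy)).re = Y at e1 hT
  generalize bmR (rhoV K rep c) C.wQ C.hQ t.q C.qx = Q1 at e1 z1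
  generalize bmI (sigV K rep c) C.wQ C.hQ t.q C.qy = Q2 at e1 z2
  generalize gsmR C.P (rhoV K rep c) C.wL C.hL t.g C.G = G1 at e2 z1
  generalize gsmI C.P (sigV K rep c) C.wL C.hL t.g C.G = G2 at e2 z2
  generalize mmR (rhoV K rep c) C.wG C.hG C.wU C.hU t.n C.U t.c = M1 at e3 z1
  generalize mmI (sigV K rep c) C.wG C.hG C.wU C.hU t.n C.U t.c = M2 at e3 z2
  generalize bmR (rhoV K rep c) C.wD 0 t.d C.dg = D1 at e4 z1
  generalize bmR (rhoV K rep c) C.wR C.hR t.r C.rx = R1 at e5 z1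
  generalize bmI (sigV K rep c) C.wR C.hR t.r C.ry = R2 at e5 z2
  have f1 : 2 * (C.m1 : ℝ) * ((C.P.sr * C.P.bd : ℝ) * T) + C.m2 * (M1 - M2) + D1 + C.eps * S
      + 2 * (R1 - R2) = 0 := by
    rw [← hT, ← e1]
    have e2' : (C.mL : ℝ) * ((C.P.sr * C.P.bd : ℝ) * X) = C.mL * (G1 + G2) := by rw [e2]
    linear_combination z1 - z2 + 2 * (C.m1 : ℝ) * e2'
  have f2 : 0 ≤ (C.m2 : ℝ) * (M1 - M2) := mul_nonneg (Nat.cast_nonneg _) e3
  have f3 : (((sab C.wR C.hR t.nR C.rx + sab C.wR C.hR t.nR C.ry : ℕ) : ℝ) * S) * 2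
      ≤ C.eps * S := by
    have h1 : ((2 * (sab C.wR C.hR t.nR C.rx + sab C.wR C.hR t.nR C.ry) : ℕ) : ℝ) ≤ C.eps := by
      exact_mod_cast heps
    have h2 := mul_le_mul_of_nonneg_right h1 hS0
    push_cast at h2 ⊢
    linarith
  have f4 := (abs_le.1 e5).1
  have f5 : (C.m1 : ℝ) * ((C.P.sr * C.P.bd : ℝ) * T) ≤ 0 := by linarith
  have f6 : (0 : ℝ) < C.m1 * (C.P.sr * C.P.bd) := by
    have a1 : (0 : ℝ) < C.m1 := by exact_mod_cast hm1
    have a2 : (0 : ℝ) < C.P.sr := by exact_mod_cast hsr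
    have a3 : (0 : ℝ) < C.P.bd := by exact_mod_cast hbd
    positivity
  by_contra hneg
  have f7 : 0 < T := not_le.1 hneg
  nlinarith [mul_pos f6 f7]

end Pool.Agent.Helper54.HR2
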