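import Mathlib
import Pool.Agent.Helper54.HR2.Sound6

/-!
MP_16b0ee, project HR2: fast checks of the tables of the second kernel computation.
-/

set_option autoImplicit false

namespace Pool.Agent.Helper54.HR2

open Pool.Agent.Helper12.HR2 (Mo prd)

/-! ## Codes of products -/

/-- validity of a list, short version -/
def vs7 (l : List ℕ) : Bool := l.all (fun i => Nat.ble (i + 1) 6) && Nat.ble l.length 7

theorem sS_le (l : List ℕ) (h : ∀ i ∈ l, i < 6) : sS l ≤ l.length * 1048576 := by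
  induction l with
  | nil => simp [sS]
  | cons a l ih =>
    have h1 := ih (fun i hi => h i (by simp [hi]))
    have h2 : 16 ^ a ≤ 16 ^ 5 := Nat.pow_le_pow_right (by norm_num) (by
      have := h a (by simp)
      omega)
    rw [sS_cons, List.length_cons]
    norm_num at h2
    omega

theorem vs7_iff {l : List ℕ} (h : vs7 l = true) : (∀ i ∈ l, i < 6) ∧ l.length ≤ 7 := by
  unfold vs7 at h
  simp only [Bool.and_eq_true, List.all_eq_true, Nat.ble_eq] at h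
  exact ⟨fun i hi => h.1 i hi, h.2⟩

theorem sS_lt {l : List ℕ} (h : vs7 l = true) : sS l < 16777216 := by
  obtain ⟨h1, h2⟩ := vs7_iff h
  have h3 := sS_le l h1
  have h4 : l.length * 1048576 ≤ 7 * 1048576 := Nat.mul_le_mul_right _ h2
  omega

theorem sS_append (l l' : List ℕ) : sS (l ++ l') = sS l + sS l' := by
  induction l with
  | nil =>
    rw [List.nil_append]
    exact (Nat.zero_add _).symm
  | cons a l ih => rw [List.cons_append, sS_cons, sS_cons, ih, add_assoc]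

theorem cod_prd {m m' : Mo} (h1 : vs7 m'.1 = true) (h2 : vs7 m'.2 = true) :
    cod (prd (m, m')) = cod m + sw (cod m') := by
  have e1 := sS_lt h1
  have e2 := sS_lt h2
  rw [cod_sS, cod_sS, cod_sS]
  unfold prd sw
  simp only
  rw [sS_append, sS_append]
  omega

theorem vmo_prd {m m' : Mo} (h1 : vs7 m.1 = true) (h2 : vs7 m.2 = true) (h3 : vs7 m'.1 = true)
    (h4 : vs7 m'.2 = true) : vmo (prd (m, m')) = true := by
  obtain ⟨a1, b1⟩ := vs7_iff h1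
  obtain ⟨a2, b2⟩ := vs7_iff h2
  obtain ⟨a3, b3⟩ := vs7_iff h3
  obtain ⟨a4, b4⟩ := vs7_iff h4
  unfold vmo prd
  simp only [Bool.and_eq_true, List.all_eq_true, List.mem_append, Nat.ble_eq, List.length_append]
  refine ⟨⟨⟨?_, ?_⟩, by omega⟩, by omega⟩
  · rintro i (hi | hi)
    · exact a1 i hi
    · exact a4 i hi
  · rintro i (hi | hi)
    · exact a2 i hi
    · exact a3 i hi

/-- the check of the codes of the basis monomials -/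
noncomputable def okK (kb : ℕ → ℕ) (bas : List Mo) : ℕ → Bool :=
  List.rec (motive := fun _ => ℕ → Bool) (fun _ => true)
    (fun m _ ih i => Prod.rec (motive := fun _ => Bool) (fun A B => and (and (vs7 A) (vs7 B))
      (and (Nat.beq (kb i) (Nat.add (sS A) (Nat.mul 16777216 (sS B)))) (ih (Nat.succ i)))) m) bas

theorem okK_spec {kb : ℕ → ℕ} : ∀ (bas : List Mo) (s : ℕ), okK kb bas s = true →
    ∀ i < bas.length, kb (s + i) = cod (bm bas i) ∧ vs7 (bm bas i).1 = true ∧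
      vs7 (bm bas i).2 = true := by
  intro bas
  induction bas with
  | nil => intro s _ i hi; exact absurd hi (by simp)
  | cons m bas ih =>
    intro s h i hi
    obtain ⟨A, B⟩ := m
    have h' : and (and (vs7 A) (vs7 B)) (and (Nat.beq (kb s) (sS A + 16777216 * sS B))
      (okK kb bas (s + 1))) = true := h
    simp only [Bool.and_eq_true] at h'
    obtain ⟨⟨h1, h2⟩, h3, h4⟩ := h'
    rcases i with _ | i
    · refine ⟨?_, h1, h2⟩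
      rw [cod_sS]
      exact Nat.eq_of_beq_eq_true h3
    · have := ih (s + 1) h4 i (by rw [List.length_cons] at hi; omega)
      rw [show s + (i + 1) = s + 1 + i by ring]
      exact this

theorem okK_all {kb : ℕ → ℕ} {bas : List Mo} (h : okK kb bas 0 = true) (i : ℕ) :
    vs7 (bm bas i).1 = true ∧ vs7 (bm bas i).2 = true := by
  by_cases hi : i < bas.length
  · exact (okK_spec bas 0 h i hi).2
  · have : bm bas i = ([], []) := by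
      rw [bm, List.getD_eq_default _ _ (by omega)]
    rw [this]
    exact ⟨rfl, rfl⟩

theorem okK_vmo {kb : ℕ → ℕ} {bas : List Mo} (h : okK kb bas 0 = true) (i j : ℕ) :
    vmo (prd (bm bas i, bm bas j)) = true :=
  vmo_prd (okK_all h i).1 (okK_all h i).2 (okK_all h j).1 (okK_all h j).2

theorem okK_cod {kb : ℕ → ℕ} {bas : List Mo} (h : okK kb bas 0 = true) {i j : ℕ}
    (hi : i < bas.length) (hj : j < bas.length) :
    kb i + swf (kb j) = cod (prd (bm bas i, bm bas j)) := by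
  have h1 := (okK_spec bas 0 h i hi).1
  have h2 := (okK_spec bas 0 h j hj).1
  rw [zero_add] at h1 h2
  rw [cod_prd (okK_all h j).1 (okK_all h j).2, h1, h2]
  rfl

theorem okK_dv {kb : ℕ → ℕ} {bas : List Mo} (h : okK kb bas 0 = true) :
    bas.all (fun m => vmo (prd (m, m))) = true := by
  rw [List.all_eq_true]
  intro m hm
  obtain ⟨i, hi, rfl⟩ := List.getElem_of_mem hm
  have := okK_vmo h i i
  rw [bm, List.getD_eq_getElem _ _ hi] at this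
  exact this

/-! ## Blocks -/

/-- rows of a block and the elements, then the rest -/
noncomputable def okFr {S : Type} (K : ℕ) (rep : ℕ → ℕ) (q : S → ℕ × ℕ) (o : ℕ) (ss : List Sng)
    (c : ℕ → List S → Bool) : ℕ → List S → Bool :=
  List.rec (motive := fun _ => ℕ → List S → Bool) (fun i ms => c i ms)
    (fun s _ ih i ms => List.rec (motive := fun _ => Bool) false
      (fun m ms' _ => and (okSf K rep (Nat.add o s.1) s.2 (q m).1 (q m).2)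
        (ih (Nat.succ i) ms')) ms) ss

/-- all blocks -/
noncomputable def okFb {S : Type} (K : ℕ) (rep : ℕ → ℕ) (q : S → ℕ × ℕ) (bs : List Blk) :
    ℕ → List S → Bool :=
  List.rec (motive := fun _ => ℕ → List S → Bool)
    (fun _ ms => List.rec (motive := fun _ => Bool) true (fun _ _ _ => false) ms)
    (fun b _ ih i ms => and (Nat.beq b.2.1 i) (okFr K rep q b.1 b.2.2 ih i ms)) bs

theorem okL_append {S : Type} {K : ℕ} {rep : ℕ → ℕ} {o : ℕ} {q : S → ℕ × ℕ} : ∀ (l1 : List Sng)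
    (m1 : List S) (l2 : List Sng) (m2 : List S), okL K rep o q l1 m1 = true →
    okL K rep o q l2 m2 = true → okL K rep o q (l1 ++ l2) (m1 ++ m2) = true := by
  intro l1
  induction l1 with
  | nil =>
    intro m1 l2 m2 h1 h2
    rcases m1 with _ | ⟨m, m1⟩
    · exact h2
    · exact absurd h1 (by simp [okL])
  | cons s l1 ih =>
    intro m1 l2 m2 h1 h2
    rcases m1 with _ | ⟨m, m1⟩
    · exact absurd h1 (by simp [okL])
    · simp only [okL, List.cons_append, Bool.and_eq_true] at h1 ⊢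
      exact ⟨h1.1, ih m1 l2 m2 h1.2 h2⟩

theorem okL_congr {S : Type} {K : ℕ} {rep : ℕ → ℕ} {o : ℕ} {q q' : S → ℕ × ℕ} :
    ∀ (l : List Sng) (ms : List S), (∀ m ∈ ms, q m = q' m) →
    okL K rep o q l ms = true → okL K rep o q' l ms = true := by
  intro l
  induction l with
  | nil =>
    intro ms _ h
    rcases ms with _ | ⟨m, ms⟩
    · rfl
    · exact absurd h (by simp [okL])
  | cons s l ih =>
    intro ms hq h
    rcases ms with _ | ⟨m, ms⟩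
    · exact absurd h (by simp [okL])
    · simp only [okL, Bool.and_eq_true] at h ⊢
      rw [← hq m (by simp)]
      exact ⟨h.1, ih ms (fun m' h' => hq m' (by simp [h'])) h.2⟩

theorem okFr_spec {S : Type} {K : ℕ} {rep : ℕ → ℕ} {q : S → ℕ × ℕ} {o : ℕ}
    {c : ℕ → List S → Bool} : ∀ (ss : List Sng) (i : ℕ) (ms : List S),
    okFr K rep q o ss c i ms = true → ∃ m1 m2, ms = m1 ++ m2 ∧
      okL K rep 0 q (ss.map (fun s => (o + s.1, s.2))) m1 = true ∧ c (i + ss.length) m2 = true := by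
  intro ss
  induction ss with
  | nil => intro i ms h; exact ⟨[], ms, rfl, rfl, h⟩
  | cons s ss ih =>
    intro i ms h
    rcases ms with _ | ⟨m, ms⟩
    · exact absurd h (by simp [okFr])
    · have h' : and (okSf K rep (o + s.1) s.2 (q m).1 (q m).2) (okFr K rep q o ss c (i + 1) ms)
          = true := h
      rw [Bool.and_eq_true] at h'
      obtain ⟨m1, m2, e1, e2, e3⟩ := ih _ _ h'.2
      refine ⟨m :: m1, m2, by rw [e1]; rfl, ?_, ?_⟩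
      · rw [List.map_cons]
        simp only [okL, Bool.and_eq_true]
        refine ⟨?_, e2⟩
        have h1 : okSf K rep (0 + (o + s.1)) s.2 (q m).1 (q m).2 = true := by
          rw [zero_add]
          exact h'.1
        exact okSf_spec h1
      · rw [List.length_cons, show i + (ss.length + 1) = i + 1 + ss.length by ring]
        exact e3

theorem okFb_spec {S : Type} {K : ℕ} {rep : ℕ → ℕ} {q : S → ℕ × ℕ} : ∀ (bs : List Blk) (i : ℕ)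
    (ms : List S), okFb K rep q bs i ms = true → okB i bs = true ∧
      okL K rep 0 q (flat bs) ms = true := by
  intro bs
  induction bs with
  | nil =>
    intro i ms h
    rcases ms with _ | ⟨m, ms⟩
    · exact ⟨rfl, rfl⟩
    · exact absurd h (by simp [okFb])
  | cons b bs ih =>
    intro i ms h
    have h' : and (Nat.beq b.2.1 i) (okFr K rep q b.1 b.2.2 (okFb K rep q bs) i ms) = true := h
    rw [Bool.and_eq_true] at h'
    obtain ⟨m1, m2, rfl, e2, e3⟩ := okFr_spec _ _ _ h'.2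
    obtain ⟨f1, f2⟩ := ih _ _ e3
    refine ⟨?_, ?_⟩
    · simp only [okB, Bool.and_eq_true]
      exact ⟨h'.1, f1⟩
    · rw [flat]
      exact okL_append _ _ _ _ e2 f2

theorem okF_of {S : Type} {K : ℕ} {rep : ℕ → ℕ} {q q' : S → ℕ × ℕ} {bs : List Blk} {ms : List S}
    (h : okFb K rep q bs 0 ms = true) (hq : ∀ m ∈ ms, q m = q' m) :
    okF K rep q' bs ms = true := by
  obtain ⟨h1, h2⟩ := okFb_spec bs 0 ms h
  unfold okF
  rw [Bool.and_eq_true]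
  exact ⟨h1, okL_congr _ _ hq h2⟩

/-! ## The columns -/

/-- the multiplicity of the pair -/
noncomputable def eqk (i k : ℕ) : ℕ := Bool.rec (motive := fun _ => ℕ) 1 0 (Nat.beq i k)

/-- the fast check of the columns -/
noncomputable def okCf (K : ℕ) (rep kb : ℕ → ℕ) (n : ℕ) (T : List (ℕ × List Blk)) : ℕ → Bool :=
  List.rec (motive := fun _ => ℕ → Bool) (fun k => Nat.beq k n)
    (fun b _ ih k => and (Nat.beq b.1 k)
      (and (okFb K rep (fun i => (Nat.add (kb i) (swf (kb k)), eqk i k)) b.2 0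
        (List.range' 0 (Nat.succ k))) (ih (Nat.succ k)))) T

theorem okCf_len {K : ℕ} {rep kb : ℕ → ℕ} {n : ℕ} : ∀ (T : List (ℕ × List Blk)) (k : ℕ),
    okCf K rep kb n T k = true → k + T.length = n := by
  intro T
  induction T with
  | nil => intro k h; exact Nat.eq_of_beq_eq_true h
  | cons b T ih =>
    intro k h
    have h' : and (Nat.beq b.1 k)
      (and (okFb K rep (fun i => (Nat.add (kb i) (swf (kb k)), eqk i k)) b.2 0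
        (List.range' 0 (k + 1))) (okCf K rep kb n T (k + 1))) = true := h
    simp only [Bool.and_eq_true] at h'
    have := ih _ h'.2.2
    rw [List.length_cons]
    omega

theorem okC_of {K : ℕ} {rep kb : ℕ → ℕ} {bas : List Mo} {n : ℕ} (hK : okK kb bas 0 = true)
    (hn : n ≤ bas.length) : ∀ (T : List (ℕ × List Blk)) (k : ℕ), okCf K rep kb n T k = true →
    okC K rep bas n k T = true := by
  intro T
  induction T with
  | nil => intro k h; exact h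
  | cons b T ih =>
    intro k h
    have h' : and (Nat.beq b.1 k)
      (and (okFb K rep (fun i => (Nat.add (kb i) (swf (kb k)), eqk i k)) b.2 0
        (List.range' 0 (k + 1))) (okCf K rep kb n T (k + 1))) = true := h
    simp only [Bool.and_eq_true] at h'
    obtain ⟨h1, h2, h3⟩ := h'
    have hlen := okCf_len _ _ h3
    simp only [okC, Bool.and_eq_true]
    refine ⟨⟨⟨h1, okF_of h2 ?_⟩, ?_⟩, ih _ h3⟩
    · intro i hi
      rw [List.mem_range'_1] at hi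
      have e1 : kb i + swf (kb k) = cod (prd (bm bas i, bm bas k)) :=
        okK_cod hK (by omega) (by omega)
      have e2 : eqk i k = bif Nat.beq i k then 0 else 1 := by
        unfold eqk
        cases Nat.beq i k <;> rfl
      rw [qik, ← e1, ← e2]
      rfl
    · rw [List.all_eq_true]
      intro i _
      exact okK_vmo hK i k

/-! ## The residual -/

/-- the bounds of the indices -/
noncomputable def okI (n : ℕ) (prs : List (ℕ × ℕ)) : Bool :=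
  List.rec (motive := fun _ => Bool) true
    (fun p _ ih => and (Nat.ble (Nat.succ p.1) n) (and (Nat.ble (Nat.succ p.2) n) ih)) prs

theorem okI_spec {n : ℕ} : ∀ (prs : List (ℕ × ℕ)), okI n prs = true →
    ∀ p ∈ prs, p.1 < n ∧ p.2 < n := by
  intro prs
  induction prs with
  | nil => intro _ p hp; exact absurd hp (by simp)
  | cons p0 prs ih =>
    intro h p hp
    have h' : and (Nat.ble (p0.1 + 1) n) (and (Nat.ble (p0.2 + 1) n) (okI n prs)) = true := h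
    simp only [Bool.and_eq_true, Nat.ble_eq] at h'
    rcases List.mem_cons.1 hp with rfl | hp
    · exact ⟨h'.1, h'.2.1⟩
    · exact ih h'.2.2 p hp

theorem okr_of {K : ℕ} {rep kb : ℕ → ℕ} {bas : List Mo} {bs : List Blk} {prs : List (ℕ × ℕ)}
    {n : ℕ} (hK : okK kb bas 0 = true) (hn : bas.length = n) (hI : okI n prs = true)
    (h : okFb K rep (fun p : ℕ × ℕ => (Nat.add (kb p.1) (swf (kb p.2)), 0)) bs 0 prs = true) :
    okF K rep (fun p : ℕ × ℕ => (cod (prd (bm bas p.1, bm bas p.2)), 0)) bs prs = true := by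
  refine okF_of h ?_
  intro p hp
  obtain ⟨h1, h2⟩ := okI_spec _ hI p hp
  have := okK_cod hK (show p.1 < bas.length by omega) (show p.2 < bas.length by omega)
  rw [← this]
  rfl

theorem okrv_of {kb : ℕ → ℕ} {bas : List Mo} {prs : List (ℕ × ℕ)} {n : ℕ}
    (hK : okK kb bas 0 = true) (hn : bas.length = n) (hI : okI n prs = true) :
    prs.all (fun p => vmo (prd (bm bas p.1, bm bas p.2)) && Nat.ble (p.1 + 1) bas.length &&
      Nat.ble (p.2 + 1) bas.length) = true := by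
  rw [List.all_eq_true]
  intro p hp
  obtain ⟨h1, h2⟩ := okI_spec _ hI p hp
  simp only [Bool.and_eq_true, Nat.ble_eq]
  exact ⟨⟨okK_vmo hK _ _, by omega⟩, by omega⟩

/-! ## The monomials of the forms -/

/-- the monomials of the form with four moments -/
def qmSix : List Mo := [
  ([], []), ([0, 0], []), ([1], []), ([0, 0, 0, 0], []), ([0, 0, 1], []), ([1, 1], []), ([3], []),
  ([0, 2], []), ([5], []), ([0, 4], []), ([1, 3], []), ([0, 0, 3], []), ([2, 2], []),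
  ([0, 1, 2], []), ([0, 0, 0, 2], []), ([1, 1, 1], []), ([0, 0, 1, 1], []), ([0, 0, 0, 0, 1], []),
  ([0, 0, 0, 0, 0, 0], []), ([], [0, 0]), ([], [1]), ([0, 0], [0, 0]), ([0, 0], [1]),
  ([1], [0, 0]), ([1], [1]), ([0, 0, 0, 0], [0, 0]), ([0, 0, 0, 0], [1]), ([0, 0, 1], [0, 0]),
  ([0, 0, 1], [1]), ([1, 1], [0, 0]), ([1, 1], [1]), ([3], [0, 0]), ([3], [1]), ([0, 2], [0, 0]),
  ([0, 2], [1]), ([5], [0, 0]), ([5], [1]), ([0, 4], [0, 0]), ([0, 4], [1]), ([1, 3], [0, 0]),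
  ([1, 3], [1]), ([0, 0, 3], [0, 0]), ([0, 0, 3], [1]), ([2, 2], [0, 0]), ([2, 2], [1]),
  ([0, 1, 2], [0, 0]), ([0, 1, 2], [1]), ([0, 0, 0, 2], [0, 0]), ([0, 0, 0, 2], [1]),
  ([1, 1, 1], [0, 0]), ([1, 1, 1], [1]), ([0, 0, 1, 1], [0, 0]), ([0, 0, 1, 1], [1]),
  ([0, 0, 0, 0, 1], [0, 0]), ([0, 0, 0, 0, 1], [1]), ([0, 0, 0, 0, 0, 0], [0, 0]),
  ([0, 0, 0, 0, 0, 0], [1]), ([], [0, 0, 0, 0]), ([], [0, 0, 1]), ([], [1, 1]), ([], [3]),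
  ([], [0, 2]), ([0, 0], [0, 0, 0, 0]), ([0, 0], [0, 0, 1]), ([0, 0], [1, 1]), ([0, 0], [3]),
  ([0, 0], [0, 2]), ([1], [0, 0, 0, 0]), ([1], [0, 0, 1]), ([1], [1, 1]), ([1], [3]),
  ([1], [0, 2]), ([0, 0, 0, 0], [0, 0, 0, 0]), ([0, 0, 0, 0], [0, 0, 1]), ([0, 0, 0, 0], [1, 1]),
  ([0, 0, 0, 0], [3]), ([0, 0, 0, 0], [0, 2]), ([0, 0, 1], [0, 0, 0, 0]), ([0, 0, 1], [0, 0, 1]),
  ([0, 0, 1], [1, 1]), ([0, 0, 1], [3]), ([0, 0, 1], [0, 2]), ([1, 1], [0, 0, 0, 0]),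
  ([1, 1], [0, 0, 1]), ([1, 1], [1, 1]), ([1, 1], [3]), ([1, 1], [0, 2]), ([3], [0, 0, 0, 0]),
  ([3], [0, 0, 1]), ([3], [1, 1]), ([3], [3]), ([3], [0, 2]), ([0, 2], [0, 0, 0, 0]),
  ([0, 2], [0, 0, 1]), ([0, 2], [1, 1]), ([0, 2], [3]), ([0, 2], [0, 2]), ([5], [0, 0, 0, 0]),
  ([5], [0, 0, 1]), ([5], [1, 1]), ([5], [3]), ([5], [0, 2]), ([0, 4], [0, 0, 0, 0]),
  ([0, 4], [0, 0, 1]), ([0, 4], [1, 1]), ([0, 4], [3]), ([0, 4], [0, 2]), ([1, 3], [0, 0, 0, 0]),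
  ([1, 3], [0, 0, 1]), ([1, 3], [1, 1]), ([1, 3], [3]), ([1, 3], [0, 2]),
  ([0, 0, 3], [0, 0, 0, 0]), ([0, 0, 3], [0, 0, 1]), ([0, 0, 3], [1, 1]), ([0, 0, 3], [3]),
  ([0, 0, 3], [0, 2]), ([2, 2], [0, 0, 0, 0]), ([2, 2], [0, 0, 1]), ([2, 2], [1, 1]),
  ([2, 2], [3]), ([2, 2], [0, 2]), ([0, 1, 2], [0, 0, 0, 0]), ([0, 1, 2], [0, 0, 1]),
  ([0, 1, 2], [1, 1]), ([0, 1, 2], [3]), ([0, 1, 2], [0, 2]), ([0, 0, 0, 2], [0, 0, 0, 0]),
  ([0, 0, 0, 2], [0, 0, 1]), ([0, 0, 0, 2], [1, 1]), ([0, 0, 0, 2], [3]), ([0, 0, 0, 2], [0, 2]),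
  ([1, 1, 1], [0, 0, 0, 0]), ([1, 1, 1], [0, 0, 1]), ([1, 1, 1], [1, 1]), ([1, 1, 1], [3]),
  ([1, 1, 1], [0, 2]), ([0, 0, 1, 1], [0, 0, 0, 0]), ([0, 0, 1, 1], [0, 0, 1]),
  ([0, 0, 1, 1], [1, 1]), ([0, 0, 1, 1], [3]), ([0, 0, 1, 1], [0, 2]),
  ([0, 0, 0, 0, 1], [0, 0, 0, 0]), ([0, 0, 0, 0, 1], [0, 0, 1]), ([0, 0, 0, 0, 1], [1, 1]),
  ([0, 0, 0, 0, 1], [3]), ([0, 0, 0, 0, 1], [0, 2]), ([0, 0, 0, 0, 0, 0], [0, 0, 0, 0]),
  ([0, 0, 0, 0, 0, 0], [0, 0, 1]), ([0, 0, 0, 0, 0, 0], [1, 1]), ([0, 0, 0, 0, 0, 0], [3]),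
  ([0, 0, 0, 0, 0, 0], [0, 2]), ([], [5]), ([], [0, 4]), ([], [1, 3]), ([], [0, 0, 3]),
  ([], [2, 2]), ([], [0, 1, 2]), ([], [0, 0, 0, 2]), ([], [1, 1, 1]), ([], [0, 0, 1, 1]),
  ([], [0, 0, 0, 0, 1]), ([], [0, 0, 0, 0, 0, 0]), ([0, 0], [5]), ([0, 0], [0, 4]),
  ([0, 0], [1, 3]), ([0, 0], [0, 0, 3]), ([0, 0], [2, 2]), ([0, 0], [0, 1, 2]),
  ([0, 0], [0, 0, 0, 2]), ([0, 0], [1, 1, 1]), ([0, 0], [0, 0, 1, 1]), ([0, 0], [0, 0, 0, 0, 1]),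
  ([0, 0], [0, 0, 0, 0, 0, 0]), ([1], [5]), ([1], [0, 4]), ([1], [1, 3]), ([1], [0, 0, 3]),
  ([1], [2, 2]), ([1], [0, 1, 2]), ([1], [0, 0, 0, 2]), ([1], [1, 1, 1]), ([1], [0, 0, 1, 1]),
  ([1], [0, 0, 0, 0, 1]), ([1], [0, 0, 0, 0, 0, 0]), ([0, 0, 0, 0], [5]), ([0, 0, 0, 0], [0, 4]),
  ([0, 0, 0, 0], [1, 3]), ([0, 0, 0, 0], [0, 0, 3]), ([0, 0, 0, 0], [2, 2]),
  ([0, 0, 0, 0], [0, 1, 2]), ([0, 0, 0, 0], [0, 0, 0, 2]), ([0, 0, 0, 0], [1, 1, 1]),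
  ([0, 0, 0, 0], [0, 0, 1, 1]), ([0, 0, 0, 0], [0, 0, 0, 0, 1]),
  ([0, 0, 0, 0], [0, 0, 0, 0, 0, 0]), ([0, 0, 1], [5]), ([0, 0, 1], [0, 4]), ([0, 0, 1], [1, 3]),
  ([0, 0, 1], [0, 0, 3]), ([0, 0, 1], [2, 2]), ([0, 0, 1], [0, 1, 2]), ([0, 0, 1], [0, 0, 0, 2]),
  ([0, 0, 1], [1, 1, 1]), ([0, 0, 1], [0, 0, 1, 1]), ([0, 0, 1], [0, 0, 0, 0, 1]),
  ([0, 0, 1], [0, 0, 0, 0, 0, 0]), ([1, 1], [5]), ([1, 1], [0, 4]), ([1, 1], [1, 3]),
  ([1, 1], [0, 0, 3]), ([1, 1], [2, 2]), ([1, 1], [0, 1, 2]), ([1, 1], [0, 0, 0, 2]),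
  ([1, 1], [1, 1, 1]), ([1, 1], [0, 0, 1, 1]), ([1, 1], [0, 0, 0, 0, 1]),
  ([1, 1], [0, 0, 0, 0, 0, 0]), ([3], [5]), ([3], [0, 4]), ([3], [1, 3]), ([3], [0, 0, 3]),
  ([3], [2, 2]), ([3], [0, 1, 2]), ([3], [0, 0, 0, 2]), ([3], [1, 1, 1]), ([3], [0, 0, 1, 1]),
  ([3], [0, 0, 0, 0, 1]), ([3], [0, 0, 0, 0, 0, 0]), ([0, 2], [5]), ([0, 2], [0, 4]),
  ([0, 2], [1, 3]), ([0, 2], [0, 0, 3]), ([0, 2], [2, 2]), ([0, 2], [0, 1, 2]),
  ([0, 2], [0, 0, 0, 2]), ([0, 2], [1, 1, 1]), ([0, 2], [0, 0, 1, 1]), ([0, 2], [0, 0, 0, 0, 1]),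
  ([0, 2], [0, 0, 0, 0, 0, 0]), ([5], [5]), ([5], [0, 4]), ([5], [1, 3]), ([5], [0, 0, 3]),
  ([5], [2, 2]), ([5], [0, 1, 2]), ([5], [0, 0, 0, 2]), ([5], [1, 1, 1]), ([5], [0, 0, 1, 1]),
  ([5], [0, 0, 0, 0, 1]), ([5], [0, 0, 0, 0, 0, 0]), ([0, 4], [5]), ([0, 4], [0, 4]),
  ([0, 4], [1, 3]), ([0, 4], [0, 0, 3]), ([0, 4], [2, 2]), ([0, 4], [0, 1, 2]),
  ([0, 4], [0, 0, 0, 2]), ([0, 4], [1, 1, 1]), ([0, 4], [0, 0, 1, 1]), ([0, 4], [0, 0, 0, 0, 1]),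
  ([0, 4], [0, 0, 0, 0, 0, 0]), ([1, 3], [5]), ([1, 3], [0, 4]), ([1, 3], [1, 3]),
  ([1, 3], [0, 0, 3]), ([1, 3], [2, 2]), ([1, 3], [0, 1, 2]), ([1, 3], [0, 0, 0, 2]),
  ([1, 3], [1, 1, 1]), ([1, 3], [0, 0, 1, 1]), ([1, 3], [0, 0, 0, 0, 1]),
  ([1, 3], [0, 0, 0, 0, 0, 0]), ([0, 0, 3], [5]), ([0, 0, 3], [0, 4]), ([0, 0, 3], [1, 3]),
  ([0, 0, 3], [0, 0, 3]), ([0, 0, 3], [2, 2]), ([0, 0, 3], [0, 1, 2]), ([0, 0, 3], [0, 0, 0, 2]),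
  ([0, 0, 3], [1, 1, 1]), ([0, 0, 3], [0, 0, 1, 1]), ([0, 0, 3], [0, 0, 0, 0, 1]),
  ([0, 0, 3], [0, 0, 0, 0, 0, 0]), ([2, 2], [5]), ([2, 2], [0, 4]), ([2, 2], [1, 3]),
  ([2, 2], [0, 0, 3]), ([2, 2], [2, 2]), ([2, 2], [0, 1, 2]), ([2, 2], [0, 0, 0, 2]),
  ([2, 2], [1, 1, 1]), ([2, 2], [0, 0, 1, 1]), ([2, 2], [0, 0, 0, 0, 1]),
  ([2, 2], [0, 0, 0, 0, 0, 0]), ([0, 1, 2], [5]), ([0, 1, 2], [0, 4]), ([0, 1, 2], [1, 3]),
  ([0, 1, 2], [0, 0, 3]), ([0, 1, 2], [2, 2]), ([0, 1, 2], [0, 1, 2]), ([0, 1, 2], [0, 0, 0, 2]),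
  ([0, 1, 2], [1, 1, 1]), ([0, 1, 2], [0, 0, 1, 1]), ([0, 1, 2], [0, 0, 0, 0, 1]),
  ([0, 1, 2], [0, 0, 0, 0, 0, 0]), ([0, 0, 0, 2], [5]), ([0, 0, 0, 2], [0, 4]),
  ([0, 0, 0, 2], [1, 3]), ([0, 0, 0, 2], [0, 0, 3]), ([0, 0, 0, 2], [2, 2]),
  ([0, 0, 0, 2], [0, 1, 2]), ([0, 0, 0, 2], [0, 0, 0, 2]), ([0, 0, 0, 2], [1, 1, 1]),
  ([0, 0, 0, 2], [0, 0, 1, 1]), ([0, 0, 0, 2], [0, 0, 0, 0, 1]),
  ([0, 0, 0, 2], [0, 0, 0, 0, 0, 0]), ([1, 1, 1], [5]), ([1, 1, 1], [0, 4]), ([1, 1, 1], [1, 3]),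
  ([1, 1, 1], [0, 0, 3]), ([1, 1, 1], [2, 2]), ([1, 1, 1], [0, 1, 2]), ([1, 1, 1], [0, 0, 0, 2]),
  ([1, 1, 1], [1, 1, 1]), ([1, 1, 1], [0, 0, 1, 1]), ([1, 1, 1], [0, 0, 0, 0, 1]),
  ([1, 1, 1], [0, 0, 0, 0, 0, 0]), ([0, 0, 1, 1], [5]), ([0, 0, 1, 1], [0, 4]),
  ([0, 0, 1, 1], [1, 3]), ([0, 0, 1, 1], [0, 0, 3]), ([0, 0, 1, 1], [2, 2]),
  ([0, 0, 1, 1], [0, 1, 2]), ([0, 0, 1, 1], [0, 0, 0, 2]), ([0, 0, 1, 1], [1, 1, 1]),
  ([0, 0, 1, 1], [0, 0, 1, 1]), ([0, 0, 1, 1], [0, 0, 0, 0, 1]),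
  ([0, 0, 1, 1], [0, 0, 0, 0, 0, 0]), ([0, 0, 0, 0, 1], [5]), ([0, 0, 0, 0, 1], [0, 4]),
  ([0, 0, 0, 0, 1], [1, 3]), ([0, 0, 0, 0, 1], [0, 0, 3]), ([0, 0, 0, 0, 1], [2, 2]),
  ([0, 0, 0, 0, 1], [0, 1, 2]), ([0, 0, 0, 0, 1], [0, 0, 0, 2]), ([0, 0, 0, 0, 1], [1, 1, 1]),
  ([0, 0, 0, 0, 1], [0, 0, 1, 1]), ([0, 0, 0, 0, 1], [0, 0, 0, 0, 1]),
  ([0, 0, 0, 0, 1], [0, 0, 0, 0, 0, 0]), ([0, 0, 0, 0, 0, 0], [5]), ([0, 0, 0, 0, 0, 0], [0, 4]),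
  ([0, 0, 0, 0, 0, 0], [1, 3]), ([0, 0, 0, 0, 0, 0], [0, 0, 3]), ([0, 0, 0, 0, 0, 0], [2, 2]),
  ([0, 0, 0, 0, 0, 0], [0, 1, 2]), ([0, 0, 0, 0, 0, 0], [0, 0, 0, 2]),
  ([0, 0, 0, 0, 0, 0], [1, 1, 1]), ([0, 0, 0, 0, 0, 0], [0, 0, 1, 1]),
  ([0, 0, 0, 0, 0, 0], [0, 0, 0, 0, 1]), ([0, 0, 0, 0, 0, 0], [0, 0, 0, 0, 0, 0])]

/-- all pairs of monomials of weight at most four and one more -/
def qmFive : List Mo := [
  ([], []), ([], [0]), ([], [0, 0]), ([], [1]), ([], [0, 0, 0]), ([], [0, 1]), ([], [2]),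
  ([], [0, 0, 0, 0]), ([], [0, 0, 1]), ([], [0, 2]), ([], [1, 1]), ([], [3]), ([0], []),
  ([0], [0]), ([0], [0, 0]), ([0], [1]), ([0], [0, 0, 0]), ([0], [0, 1]), ([0], [2]),
  ([0], [0, 0, 0, 0]), ([0], [0, 0, 1]), ([0], [0, 2]), ([0], [1, 1]), ([0], [3]), ([0, 0], []),
  ([0, 0], [0]), ([0, 0], [0, 0]), ([0, 0], [1]), ([0, 0], [0, 0, 0]), ([0, 0], [0, 1]),
  ([0, 0], [2]), ([0, 0], [0, 0, 0, 0]), ([0, 0], [0, 0, 1]), ([0, 0], [0, 2]), ([0, 0], [1, 1]),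
  ([0, 0], [3]), ([1], []), ([1], [0]), ([1], [0, 0]), ([1], [1]), ([1], [0, 0, 0]), ([1], [0, 1]),
  ([1], [2]), ([1], [0, 0, 0, 0]), ([1], [0, 0, 1]), ([1], [0, 2]), ([1], [1, 1]), ([1], [3]),
  ([0, 0, 0], []), ([0, 0, 0], [0]), ([0, 0, 0], [0, 0]), ([0, 0, 0], [1]), ([0, 0, 0], [0, 0, 0]),
  ([0, 0, 0], [0, 1]), ([0, 0, 0], [2]), ([0, 0, 0], [0, 0, 0, 0]), ([0, 0, 0], [0, 0, 1]),
  ([0, 0, 0], [0, 2]), ([0, 0, 0], [1, 1]), ([0, 0, 0], [3]), ([0, 1], []), ([0, 1], [0]),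
  ([0, 1], [0, 0]), ([0, 1], [1]), ([0, 1], [0, 0, 0]), ([0, 1], [0, 1]), ([0, 1], [2]),
  ([0, 1], [0, 0, 0, 0]), ([0, 1], [0, 0, 1]), ([0, 1], [0, 2]), ([0, 1], [1, 1]), ([0, 1], [3]),
  ([2], []), ([2], [0]), ([2], [0, 0]), ([2], [1]), ([2], [0, 0, 0]), ([2], [0, 1]), ([2], [2]),
  ([2], [0, 0, 0, 0]), ([2], [0, 0, 1]), ([2], [0, 2]), ([2], [1, 1]), ([2], [3]),
  ([0, 0, 0, 0], []), ([0, 0, 0, 0], [0]), ([0, 0, 0, 0], [0, 0]), ([0, 0, 0, 0], [1]),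
  ([0, 0, 0, 0], [0, 0, 0]), ([0, 0, 0, 0], [0, 1]), ([0, 0, 0, 0], [2]),
  ([0, 0, 0, 0], [0, 0, 0, 0]), ([0, 0, 0, 0], [0, 0, 1]), ([0, 0, 0, 0], [0, 2]),
  ([0, 0, 0, 0], [1, 1]), ([0, 0, 0, 0], [3]), ([0, 0, 1], []), ([0, 0, 1], [0]),
  ([0, 0, 1], [0, 0]), ([0, 0, 1], [1]), ([0, 0, 1], [0, 0, 0]), ([0, 0, 1], [0, 1]),
  ([0, 0, 1], [2]), ([0, 0, 1], [0, 0, 0, 0]), ([0, 0, 1], [0, 0, 1]), ([0, 0, 1], [0, 2]),
  ([0, 0, 1], [1, 1]), ([0, 0, 1], [3]), ([0, 2], []), ([0, 2], [0]), ([0, 2], [0, 0]),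
  ([0, 2], [1]), ([0, 2], [0, 0, 0]), ([0, 2], [0, 1]), ([0, 2], [2]), ([0, 2], [0, 0, 0, 0]),
  ([0, 2], [0, 0, 1]), ([0, 2], [0, 2]), ([0, 2], [1, 1]), ([0, 2], [3]), ([1, 1], []),
  ([1, 1], [0]), ([1, 1], [0, 0]), ([1, 1], [1]), ([1, 1], [0, 0, 0]), ([1, 1], [0, 1]),
  ([1, 1], [2]), ([1, 1], [0, 0, 0, 0]), ([1, 1], [0, 0, 1]), ([1, 1], [0, 2]), ([1, 1], [1, 1]),
  ([1, 1], [3]), ([3], []), ([3], [0]), ([3], [0, 0]), ([3], [1]), ([3], [0, 0, 0]), ([3], [0, 1]),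
  ([3], [2]), ([3], [0, 0, 0, 0]), ([3], [0, 0, 1]), ([3], [0, 2]), ([3], [1, 1]), ([3], [3]),
  ([0, 0, 0, 0, 0], [0, 0, 0, 0, 0])]

end Pool.Agent.Helper54.HR2
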