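import Pool.Agent.Helper53.HR2.Fin3
import Pool.Agent.Helper54.HR2.Sound6
import Pool.Agent.Helper54.HR2.Fast6

/-!
MP_16b0ee, project HR2: the inequality at a point from a certificate of the second kernel
computation.
-/

set_option autoImplicit false

open scoped ComplexConjugate

namespace Pool.Agent.Helper54.HR2

open Pool.Agent.Helper12.HR2 (Par Mo GZ gv Pol mv pv wl rel Dvl dvl upl prd M3)
open Pool.Agent.Helper65.HR2 (AP2)
open Pool.Agent.Helper53.HR2 (qfM4)

/-! ## A faster comparison of the forms -/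

/-- `a = z + h` -/
noncomputable def ieq (a h : ℕ) (z : ℤ) : Bool :=
  Int.rec (motive := fun _ => Bool) (fun n => Nat.beq a (Nat.add n h))
    (fun n => Nat.beq (Nat.add a (Nat.succ n)) h) z

/-- the coefficients are the digits -/
noncomputable def eqQ (w h : ℕ) (l : List (Mo × GZ)) : ℕ → ℕ → Bool :=
  List.rec (motive := fun _ => ℕ → ℕ → Bool) (fun _ _ => true)
    (fun t _ ih x y => and (ieq (Nat.mod x w) h t.2.1)
      (and (ieq (Nat.mod y w) h t.2.2) (ih (Nat.div x w) (Nat.div y w)))) l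

theorem ieq_eq {a h : ℕ} {z : ℤ} (hz : ieq a h z = true) : ((a : ℕ) : ℤ) - h = z := by
  rcases z with n | n
  · have h1 : a = n + h := Nat.eq_of_beq_eq_true hz
    rw [h1]
    push_cast
    simp
  · have h1 : a + (n + 1) = h := Nat.eq_of_beq_eq_true hz
    rw [← h1, Int.negSucc_eq]
    push_cast
    ring

theorem eqQ_eq (w h : ℕ) (l : List (Mo × GZ)) : ∀ x y : ℕ, eqQ w h l x y = true →
    upl w h (l.map Prod.fst) x y = l := by
  induction l with
  | nil => intro x y _; rfl
  | cons t l ih =>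
    intro x y hq
    have h' : (ieq (x % w) h t.2.1 && (ieq (y % w) h t.2.2 && eqQ w h l (x / w) (y / w))) = true :=
      hq
    simp only [Bool.and_eq_true] at h'
    rw [List.map_cons, upl, ih _ _ h'.2.2, ieq_eq h'.1, ieq_eq h'.2.1]

set_option maxRecDepth 100000 in
theorem qfM4_mono (P : Par) (M : M3) : (qfM4 P M).map Prod.fst = qmSix := rfl

/-- a matrix from a list -/
def mfn (l : List (List (ℤ × ℤ))) : M3 := fun r t => (l.getD r []).getD t (0, 0)

/-- the first matrix is `kq` times the second (first four rows and columns) -/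
def okM (M M1 : M3) (kq : ℕ) : Bool :=
  (List.range 4).all (fun r => (List.range 4).all (fun t =>
    decide (M r t = ((kq : ℤ) * (M1 r t).1, (kq : ℤ) * (M1 r t).2))))

theorem pv_qfM4_scale (P : Par) {M M1 : M3} {kq : ℕ} (h : okM M M1 kq = true) (φ ψ : ℕ → ℂ) :
    pv φ ψ (qfM4 P M) = (kq : ℂ) * pv φ ψ (qfM4 P M1) := by
  have h' : ∀ r ∈ Finset.range 4, ∀ t ∈ Finset.range 4,
      M r t = ((kq : ℤ) * (M1 r t).1, (kq : ℤ) * (M1 r t).2) := by
    intro r hr t ht
    simp only [okM, List.all_eq_true, List.mem_range, decide_eq_true_eq] at h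
    exact h r (Finset.mem_range.1 hr) t (Finset.mem_range.1 ht)
  unfold qfM4
  rw [Pool.Agent.Helper12.HR2.pv_flatMap, Pool.Agent.Helper12.HR2.sum_range_list,
    Pool.Agent.Helper12.HR2.pv_flatMap, Pool.Agent.Helper12.HR2.sum_range_list, Finset.mul_sum]
  refine Finset.sum_congr rfl (fun r hr => ?_)
  rw [Pool.Agent.Helper12.HR2.pv_flatMap, Pool.Agent.Helper12.HR2.sum_range_list,
    Pool.Agent.Helper12.HR2.pv_flatMap, Pool.Agent.Helper12.HR2.sum_range_list, Finset.mul_sum]
  refine Finset.sum_congr rfl (fun t ht => ?_)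
  rw [h' r hr t ht]
  simp only [Pool.Agent.Helper12.HR2.pv_mul, Pool.Agent.Helper12.HR2.pv_cons,
    Pool.Agent.Helper12.HR2.pv_nil, gv]
  push_cast
  ring

/-- **The point is good**: the data of the area form, a certificate with basis monomials of weight
at most 6 for a smaller multiple of the matrix, any correct table. -/
theorem ok6k (X : AP2) (h1 : X.P.c1 = true) (h2 : X.P.c2 = true) (h3 : X.P.c3 = true)
    (h6 : X.c6 = true) (h7 : X.c7 = true) {m : ℕ} {bu gu bl gl : ℚ}
    (h5 : X.c5 m bu gu bl gl = true) {S J : ℕ} {f1 f2 g1 g2 f1' f2' g1' g2' : ℚ}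
    (h8 : X.c8 S J f1 f2 g1 g2 f1' f2' g1' g2' = true) (h10 : X.c10 4 = true)
    {t : Tab6} {K : ℕ} {rep : ℕ → ℕ} {bas : List Mo} {gm : List (List Mo)} {prs : List (ℕ × ℕ)}
    (ht : TabOK6 t K rep bas qmSix gm prs) (C : Cert6) (hR : chR t C = true)
    (hI : chI t C = true) (hB : chB t K C = true) (hP : C.P = X.P.par) (M1 : M3) (kq : ℕ)
    (hM : okM X.P.MZ M1 kq = true) (hkq : 0 < kq)
    (hqf : eqQ C.wQ C.hQ (qfM4 C.P M1) C.qx C.qy = true)
    (heta : 0 < C.eta) : Pool.Agent.Helper65.HR2.PtOK X.P.par := by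
  have hq := eqQ_eq _ _ _ _ _ hqf
  rw [qfM4_mono] at hq
  have hk : (0 : ℝ) < kq := by exact_mod_cast hkq
  have he : (0 : ℝ) < C.eta := by exact_mod_cast heta
  refine X.ok4g_of_sound h1 h2 h3 h6 h7 h5 h8 h10 (eta := (kq : ℝ) * C.eta)
    (mL := (kq : ℝ) * C.mL) (qf := qfM4 X.P.par X.P.MZ) (L := dec6 C.wL C.hL gm C.G)
    (mul_pos hk he) ?_ (fun c => rfl)
  intro c
  have h := sound6 ht C hR hI hB c
  rw [hq, hP] at h
  have h9 : ((kq : ℂ) * pv c (fun k => conj (c k)) (qfM4 X.P.par M1)).re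
      = (kq : ℝ) * (pv c (fun k => conj (c k)) (qfM4 X.P.par M1)).re := by
    have : (kq : ℂ) = ((kq : ℝ) : ℂ) := by push_cast; rfl
    rw [this, Complex.re_ofReal_mul]
  rw [pv_qfM4_scale X.P.par hM, h9]
  have h11 := mul_nonpos_of_nonneg_of_nonpos hk.le h
  linarith

end Pool.Agent.Helper54.HR2
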