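import Pool.Agent.Helper54.HR2.Core6

/-!
MP_16b0ee, project HR2: the tables for the second kernel computation, basis monomials of weight at most 6, 79 monomials in the rows, digits of 168 bits.
-/

set_option autoImplicit false
set_option maxRecDepth 100000
set_option linter.all false

namespace Pool.Agent.Helper54.HR2

/-- group -/
noncomputable def tab79bg0 : Grp :=
  ⟨0, 0, 0, 168, [(0, 2)],
   [(0, 1)],
   [([], [], [])]⟩

/-- group -/
noncomputable def tab79bg1 : Grp :=
  ⟨1, 0, 168, 336, [(0, 0)],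
   [(0, 2)],
   [([], [], [])]⟩

/-- group -/
noncomputable def tab79bg2 : Grp :=
  ⟨1, 1, 168, 504, [(0, 1)],
   [(0, 1)],
   [([], [(168, 3)], [])]⟩

/-- group -/
noncomputable def tab79bg3 : Grp :=
  ⟨2, 0, 504, 840, [(0, 0), (168, 0), (168, 1)],
   [(0, 0), (168, 0), (504, 1)],
   [([], [], []), ([], [], []), ([], [(672, 4)], [])]⟩

/-- group -/
noncomputable def tab79bg4 : Grp :=
  ⟨2, 1, 336, 840, [(0, 2)],
   [(0, 1)],
   [([], [(168, 3)], [])]⟩

/-- group -/
noncomputable def tab79bg5 : Grp :=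
  ⟨2, 2, 504, 1176, [(0, 1)],
   [(0, 1)],
   [([], [(168, 6)], [])]⟩

/-- group -/
noncomputable def tab79bg6 : Grp :=
  ⟨3, 0, 1008, 2184, [(168, 0), (336, 0), (504, 0), (0, 1), (504, 1)],
   [(0, 0), (168, 0), (336, 0), (168, 1), (840, 1)],
   [([], [], []), ([], [], []), ([], [], []), ([], [(336, 4)], []), ([], [(1008, 1), (1176, 5)], [])]⟩

/-- group -/
noncomputable def tab79bg7 : Grp :=
  ⟨3, 1, 840, 1680, [(0, 0), (168, 0), (504, 1)],
   [(0, 2), (168, 0), (1176, 1)],
   [([], [(168, 3)], []), ([], [], [(336, 3)]), ([], [(1512, 3), (1344, 4)], [])]⟩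

/-- group -/
noncomputable def tab79bg8 : Grp :=
  ⟨3, 2, 840, 2184, [(0, 1)],
   [(0, 1)],
   [([], [(168, 6)], [])]⟩

/-- group -/
noncomputable def tab79bg9 : Grp :=
  ⟨3, 3, 1176, 2688, [(0, 1)],
   [(0, 1)],
   [([], [(168, 9)], [])]⟩

/-- group -/
noncomputable def tab79bg10 : Grp :=
  ⟨4, 0, 1848, 3696, [(840, 0), (1008, 0), (1176, 0), (1344, 0), (1512, 0), (0, 1), (168, 2), (672, 1), (1344, 1), (1512, 1)],
   [(840, 0), (1008, 0), (1176, 0), (1344, 0), (1512, 0), (0, 1), (672, 0), (1176, 1), (2184, 1), (2352, 1)],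
   [([], [], []), ([], [], []), ([], [], []), ([], [], []), ([], [], []), ([], [(168, 4)], []), ([], [(336, 4)], []), ([], [(1344, 1), (1512, 5)], []), ([], [(2520, 8)], []), ([], [(2520, 2), (2688, 6)], [])]⟩

/-- group -/
noncomputable def tab79bg11 : Grp :=
  ⟨4, 1, 2184, 3528, [(0, 0), (168, 0), (336, 0), (168, 1), (840, 1)],
   [(0, 0), (168, 0), (336, 0), (1176, 1), (2184, 1)],
   [([], [(672, 3)], []), ([], [(840, 3)], []), ([(504, 3)], [], []), ([], [(1512, 3), (1344, 4)], []), ([], [(2352, 1), (2688, 3), (2520, 5)], [])]⟩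

/-- group -/
noncomputable def tab79bg12 : Grp :=
  ⟨4, 2, 1680, 3528, [(0, 2), (168, 0), (1176, 1)],
   [(0, 1), (672, 0), (2016, 1)],
   [([], [(168, 6)], []), ([(840, 6)], [], []), ([], [(2352, 6), (2184, 4)], [])]⟩

/-- group -/
noncomputable def tab79bg13 : Grp :=
  ⟨4, 3, 2184, 4536, [(0, 1)],
   [(0, 1)],
   [([], [(168, 9)], [])]⟩

/-- group -/
noncomputable def tab79bg14 : Grp :=
  ⟨4, 4, 2688, 5376, [(0, 1)],
   [(0, 1)],
   [([], [(168, 12)], [])]⟩

/-- group -/
noncomputable def tab79bg15 : Grp :=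
  ⟨5, 0, 3864, 6720, [(1512, 0), (1680, 0), (1848, 0), (2016, 0), (2184, 0), (2352, 0), (2520, 0), (336, 1), (504, 1), (168, 0), (0, 1), (168, 1), (1176, 1), (1344, 1), (2352, 1), (2520, 1)],
   [(2520, 0), (2688, 0), (2856, 0), (3024, 0), (3192, 0), (3360, 0), (3528, 0), (0, 1), (336, 2), (504, 0), (1176, 1), (2352, 0), (3024, 1), (3192, 1), (4536, 1), (4704, 1)],
   [([], [], []), ([], [], []), ([], [], []), ([], [], []), ([], [], []), ([], [], []), ([], [], []), ([], [(168, 4)], []), ([], [(504, 4)], []), ([], [], [(672, 4)]), ([], [(1344, 1), (1512, 5)], []), ([], [(1680, 1), (1848, 5)], []), ([], [(3360, 8)], []), ([], [(3360, 2), (3528, 6)], []), ([], [(4872, 1), (5208, 4), (5040, 5)], []), ([], [(5208, 1), (5040, 2), (5376, 7)], [])]⟩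

/-- group -/
noncomputable def tab79bg16 : Grp :=
  ⟨5, 1, 3696, 7560, [(840, 0), (1008, 0), (1176, 0), (1344, 0), (1512, 0), (0, 1), (672, 0), (1176, 1), (2184, 1), (2352, 1)],
   [(0, 0), (168, 0), (336, 0), (504, 0), (672, 0), (168, 1), (1344, 0), (2016, 1), (3360, 1), (3528, 1)],
   [([], [(1176, 3)], []), ([], [(1344, 3)], []), ([], [(1512, 3)], []), ([(840, 3)], [], []), ([(1008, 3)], [], []), ([], [(504, 3), (336, 4)], []), ([(1512, 4)], [(840, 3)], []), ([], [(2184, 1), (2520, 3), (2352, 5)], []), ([], [(4032, 3), (3696, 8)], []), ([], [(3696, 2), (4200, 3), (3864, 6)], [])]⟩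

/-- group -/
noncomputable def tab79bg17 : Grp :=
  ⟨5, 2, 3528, 6552, [(0, 0), (168, 0), (336, 0), (1176, 1), (2184, 1)],
   [(0, 2), (168, 0), (336, 0), (2856, 1), (4200, 1)],
   [([], [(168, 6)], []), ([], [], [(504, 6)]), ([(672, 6)], [], []), ([], [(3192, 6), (3024, 4)], []), ([], [(4368, 1), (4704, 6), (4536, 5)], [])]⟩

/-- group -/
noncomputable def tab79bg18 : Grp :=
  ⟨5, 3, 3528, 7560, [(0, 1), (672, 0), (2016, 1)],
   [(0, 1), (1176, 0), (3024, 1)],
   [([], [(168, 9)], []), ([(1344, 9)], [], []), ([], [(3360, 9), (3192, 4)], [])]⟩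

/-- group -/
noncomputable def tab79bg19 : Grp :=
  ⟨5, 4, 4536, 9240, [(0, 1)],
   [(0, 1)],
   [([], [(168, 12)], [])]⟩

/-- group -/
noncomputable def tab79bg20 : Grp :=
  ⟨5, 5, 5376, 10416, [(0, 1)],
   [(0, 1)],
   [([], [(168, 15)], [])]⟩

/-- group -/
noncomputable def tab79bg21 : Grp :=
  ⟨6, 0, 6888, 12600, [(3528, 0), (3696, 0), (3864, 0), (4032, 0), (4200, 0), (4368, 0), (4536, 0), (4704, 0), (4872, 0), (5040, 0), (5208, 0), (1848, 1), (2016, 1), (2184, 1), (1512, 0), (1680, 0), (0, 1), (336, 1), (504, 2), (1176, 1), (1512, 1), (1344, 1), (1680, 1), (3192, 1), (3360, 1), (4704, 1), (4872, 1), (5040, 1)],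
   [(4536, 0), (4704, 0), (4872, 0), (5040, 0), (5208, 0), (5376, 0), (5544, 0), (5712, 0), (5880, 0), (6048, 0), (6216, 0), (1176, 1), (1512, 1), (504, 0), (672, 0), (840, 0), (0, 1), (504, 1), (1848, 0), (2688, 1), (4200, 0), (2856, 1), (4368, 0), (5376, 1), (5544, 1), (7560, 1), (7728, 1), (7896, 1)],
   [([], [], []), ([], [], []), ([], [], []), ([], [], []), ([], [], []), ([], [], []), ([], [], []), ([], [], []), ([], [], []), ([], [], []), ([], [], []), ([], [(1344, 4)], []), ([], [(1680, 4)], []), ([], [(1848, 4)], []), ([], [(2016, 4)], []), ([(1008, 4)], [], []), ([], [(168, 1), (336, 5)], []), ([], [(672, 1), (840, 5)], []), ([(2016, 1)], [(1008, 5)], []), ([], [(3024, 8)], []), ([], [(3360, 8)], []), ([], [(3024, 2), (3192, 6)], []), ([], [(3360, 2), (3528, 6)], []), ([], [(5712, 1), (6048, 4), (5880, 5)], []), ([], [(6048, 1), (5880, 2), (6216, 7)], []), ([], [(8232, 12)], []), ([], [(8232, 2), (8568, 4), (8400, 6)], []), ([], [(8232, 2), (8568, 10)], [])]⟩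

/-- group -/
noncomputable def tab79bg22 : Grp :=
  ⟨6, 1, 6720, 12432, [(2520, 0), (2688, 0), (2856, 0), (3024, 0), (3192, 0), (3360, 0), (3528, 0), (0, 1), (336, 2), (504, 0), (1176, 1), (2352, 0), (3024, 1), (3192, 1), (4536, 1), (4704, 1)],
   [(2352, 0), (2520, 0), (2688, 0), (2856, 0), (3024, 0), (3192, 0), (3360, 0), (0, 1), (1680, 0), (1848, 0), (2688, 1), (4200, 0), (5208, 1), (5376, 1), (7392, 1), (7560, 1)],
   [([], [(3864, 3)], []), ([], [(4032, 3)], []), ([], [(4200, 3)], []), ([], [(4368, 3)], []), ([], [(4536, 3)], []), ([(3528, 3)], [], []), ([(3696, 3)], [], []), ([], [(336, 3), (168, 4)], []), ([], [(840, 3), (672, 4)], []), ([(2184, 3), (2016, 4)], [], []), ([], [(2856, 1), (3192, 3), (3024, 5)], []), ([(4368, 1), (4536, 5)], [(3528, 3)], []), ([], [(5880, 3), (5544, 8)], []), ([], [(5544, 2), (6048, 3), (5712, 6)], []), ([], [(7728, 1), (8400, 3), (8064, 4), (7896, 5)], []), ([], [(8064, 1), (7896, 2), (8568, 3), (8232, 7)], [])]⟩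

/-- group -/
noncomputable def tab79bg23 : Grp :=
  ⟨6, 2, 7560, 12264, [(0, 0), (168, 0), (336, 0), (504, 0), (672, 0), (168, 1), (1344, 0), (2016, 1), (3360, 1), (3528, 1)],
   [(0, 0), (168, 0), (336, 0), (504, 0), (672, 0), (2688, 1), (4200, 0), (5208, 1), (7224, 1), (7392, 1)],
   [([], [(1512, 6)], []), ([], [(1848, 6)], []), ([(840, 6)], [], []), ([(1008, 6)], [], []), ([(1176, 6)], [], []), ([], [(3024, 6), (2856, 4)], []), ([(4536, 6), (4368, 4)], [], []), ([], [(5376, 1), (5712, 6), (5544, 5)], []), ([], [(7896, 6), (7560, 8)], []), ([], [(7560, 2), (8064, 6), (7728, 6)], [])]⟩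

/-- group -/
noncomputable def tab79bg24 : Grp :=
  ⟨6, 3, 6552, 12264, [(0, 2), (168, 0), (336, 0), (2856, 1), (4200, 1)],
   [(0, 1), (1512, 0), (1680, 0), (5040, 1), (7056, 1)],
   [([], [(168, 9)], []), ([(1848, 9)], [], []), ([(2016, 9)], [], []), ([], [(5376, 9), (5208, 4)], []), ([], [(7224, 1), (7560, 9), (7392, 5)], [])]⟩

/-- group -/
noncomputable def tab79bg25 : Grp :=
  ⟨6, 4, 7560, 14784, [(0, 1), (1176, 0), (3024, 1)],
   [(0, 1), (1512, 0), (4368, 1)],
   [([], [(168, 12)], []), ([(1680, 12)], [], []), ([], [(4704, 12), (4536, 4)], [])]⟩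

/-- group -/
noncomputable def tab79bg26 : Grp :=
  ⟨6, 5, 9240, 17136, [(0, 1)],
   [(0, 1)],
   [([], [(168, 15)], [])]⟩

/-- group -/
noncomputable def tab79bg27 : Grp :=
  ⟨6, 6, 10416, 18984, [(0, 1)],
   [(0, 1)],
   [([], [(168, 18)], [])]⟩

/-- group -/
noncomputable def tab79bg28 : Grp :=
  ⟨7, 0, 12768, 21672, [(6216, 0), (6384, 0), (6552, 0), (6720, 0), (6888, 0), (7056, 0), (7224, 0), (7392, 0), (7560, 0), (7728, 0), (7896, 0), (8064, 0), (8232, 0), (8400, 0), (3528, 1), (3696, 1), (3864, 1), (4032, 1), (4200, 1), (3192, 0), (3360, 0), (1176, 1), (1512, 1), (1680, 1), (1848, 1), (840, 0), (0, 1), (504, 1), (1848, 0), (168, 1), (672, 1), (840, 1), (2856, 1), (3192, 1), (3024, 1), (3360, 1), (5544, 1), (5712, 1), (5880, 1)],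
   [(9408, 0), (9576, 0), (9744, 0), (9912, 0), (10080, 0), (10248, 0), (10416, 0), (10584, 0), (10752, 0), (10920, 0), (11088, 0), (11256, 0), (11424, 0), (11592, 0), (4200, 1), (4536, 1), (4872, 1), (3360, 0), (3528, 0), (3696, 0), (3864, 0), (0, 1), (672, 1), (1176, 2), (1344, 0), (1512, 0), (2688, 1), (3360, 1), (5208, 0), (2856, 1), (3528, 1), (5376, 0), (6552, 1), (9072, 0), (6720, 1), (9240, 0), (10584, 1), (10752, 1), (10920, 1)],
   [([], [], []), ([], [], []), ([], [], []), ([], [], []), ([], [], []), ([], [], []), ([], [], []), ([], [], []), ([], [], []), ([], [], []), ([], [], []), ([], [], []), ([], [], []), ([], [], []), ([], [(4368, 4)], []), ([], [(4704, 4)], []), ([], [(5040, 4)], []), ([], [(5208, 4)], []), ([], [(5376, 4)], []), ([], [(5544, 4)], []), ([(4032, 4)], [], []), ([], [(168, 1), (336, 5)], []), ([], [(840, 1), (1008, 5)], []), ([], [(1344, 1), (1512, 5)], []), ([], [(1848, 5)], [(1680, 1)]), ([(1848, 1)], [], [(2016, 5)]), ([], [(3024, 8)], []), ([],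 [(3696, 8)], []), ([(5544, 8)], [], []), ([], [(3024, 2), (3192, 6)], []), ([], [(3696, 2), (3864, 6)], []), ([(5544, 2)], [(4032, 6)], []), ([], [(6888, 1), (7224, 4), (7056, 5)], []), ([], [(7560, 1), (7896, 4), (7728, 5)], []), ([], [(7224, 1), (7056, 2), (7392, 7)], []), ([], [(7896, 1), (7728, 2), (8064, 7)], []), ([], [(11256, 12)], []), ([], [(11256, 2), (11592, 4), (11424, 6)], []), ([], [(11256, 2), (11592, 10)], [])]⟩

/-- group -/
noncomputable def tab79bg29 : Grp :=
  ⟨7, 1, 12600, 21504, [(4536, 0), (4704, 0), (4872, 0), (5040, 0), (5208, 0), (5376, 0), (5544, 0), (5712, 0), (5880, 0), (6048, 0), (6216, 0), (1176, 1), (1512, 1), (504, 0), (672, 0), (840, 0), (0, 1), (504, 1), (1848, 0), (2688, 1), (4200, 0), (2856, 1), (4368, 0), (5376, 1), (5544, 1)],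
   [(5880, 0), (6048, 0), (6216, 0), (6384, 0), (6552, 0), (6720, 0), (6888, 0), (7056, 0), (7224, 0), (7392, 0), (7560, 0), (0, 1), (672, 2), (840, 0), (1008, 0), (1176, 0), (2688, 1), (5040, 0), (5208, 0), (6384, 1), (8904, 0), (6552, 1), (9072, 0), (10416, 1), (10584, 1)],
   [([], [(8400, 3)], []), ([], [(8568, 3)], []), ([], [(8736, 3)], []), ([], [(8904, 3)], []), ([], [(9072, 3)], []), ([], [(9240, 3)], []), ([], [(9408, 3)], []), ([(7728, 3)], [], []), ([(7896, 3)], [], []), ([(8064, 3)], [], []), ([(8232, 3)], [], []), ([], [(336, 3), (168, 4)], []), ([], [(1008, 3), (840, 4)], []), ([], [(1512, 3)], [(1344, 4)]), ([(1512, 4)], [], [(1848, 3)]), ([(2016, 3), (1680, 4)], [], []), ([], [(2856, 1), (3192, 3), (3024, 5)], []), ([], [(3528, 1), (3864, 3), (3696, 5)], []), ([(5376, 1), (5712, 3), (5544, 5)], [], []), ([], [(7056, 3), (6720, 8)], []), ([(9240, 8)], [(7728, 3)], []), ([], [(6720, 2), (7224, 3), (6888, 6)], []), ([(9240, 2), (9408, 6)], [(7896, 3)], []), ([],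 [(10752, 1), (11424, 3), (11088, 4), (10920, 5)], []), ([], [(11088, 1), (10920, 2), (11592, 3), (11256, 7)], [])]⟩

/-- group -/
noncomputable def tab79bg30 : Grp :=
  ⟨7, 2, 12432, 23856, [(2352, 0), (2520, 0), (2688, 0), (2856, 0), (3024, 0), (3192, 0), (3360, 0), (0, 1), (1680, 0), (1848, 0), (2688, 1), (4200, 0), (5208, 1), (5376, 1)],
   [(0, 0), (168, 0), (336, 0), (504, 0), (672, 0), (840, 0), (1008, 0), (168, 1), (2352, 0), (2520, 0), (3864, 1), (6384, 0), (7728, 1), (7896, 1)],
   [([], [(2016, 6)], []), ([], [(2352, 6)], []), ([], [(2688, 6)], []), ([(1176, 6)], [], []), ([(1344, 6)], [], []), ([(1512, 6)], [], []), ([(1680, 6)], [], []), ([], [(504, 6), (336, 4)], []), ([(2688, 4)], [(1176, 6)], []), ([(3024, 6), (2856, 4)], [], []), ([], [(4032, 1), (4368, 6), (4200, 5)], []), ([(6552, 1), (6888, 6), (6720, 5)], [], []), ([], [(8400, 6), (8064, 8)], []), ([], [(8064, 2), (8568, 6), (8232, 6)], [])]⟩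

/-- group -/
noncomputable def tab79bg31 : Grp :=
  ⟨7, 3, 12264, 21336, [(0, 0), (168, 0), (336, 0), (504, 0), (672, 0), (2688, 1), (4200, 0), (5208, 1)],
   [(0, 2), (168, 0), (336, 0), (504, 0), (672, 0), (6216, 1), (8736, 0), (10080, 1)],
   [([], [(168, 9)], []), ([], [], [(840, 9)]), ([(1008, 9)], [], []), ([(1176, 9)], [], []), ([(1344, 9)], [], []), ([], [(6552, 9), (6384, 4)], []), ([(9072, 9), (8904, 4)], [], []), ([], [(10248, 1), (10584, 9), (10416, 5)], [])]⟩

/-- group -/
noncomputable def tab79bg32 : Grp :=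
  ⟨7, 4, 12264, 23856, [(0, 1), (1512, 0), (1680, 0), (5040, 1)],
   [(0, 1), (2016, 0), (2184, 0), (7392, 1)],
   [([], [(168, 12)], []), ([(2352, 12)], [], []), ([(2520, 12)], [], []), ([], [(7728, 12), (7560, 4)], [])]⟩

/-- group -/
noncomputable def tab79bg33 : Grp :=
  ⟨7, 5, 14784, 27384, [(0, 1), (1512, 0)],
   [(0, 1), (2520, 0)],
   [([], [(168, 15)], []), ([(2688, 15)], [], [])]⟩

/-- group -/
noncomputable def tab79bg34 : Grp :=
  ⟨7, 6, 17136, 31080, [(0, 1)],
   [(0, 1)],
   [([], [(168, 18)], [])]⟩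

/-- group -/
noncomputable def tab79bg35 : Grp :=
  ⟨8, 0, 21840, 33936, [(8064, 1), (8232, 1), (8400, 1), (8568, 1), (8736, 1), (8904, 1), (9072, 1), (7392, 0), (7560, 0), (7728, 0), (7896, 0), (4200, 1), (4536, 1), (4872, 1), (5040, 1), (5208, 1), (5376, 1), (3864, 0), (0, 1), (672, 1), (1176, 1), (1512, 2), (1680, 0), (168, 1), (840, 1), (1344, 1), (1680, 1), (1848, 2), (2856, 1), (3528, 1), (5376, 0), (3024, 1), (3696, 1), (3864, 1), (6720, 1), (7392, 1), (6888, 1), (7560, 1), (7056, 1), (7728, 1)],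
   [(8568, 1), (8904, 1), (9240, 1), (9576, 1), (9912, 1), (7224, 0), (7392, 0), (7560, 0), (7728, 0), (7896, 0), (8064, 0), (2688, 1), (3360, 1), (3864, 1), (4368, 1), (1512, 0), (1680, 0), (1848, 0), (0, 1), (840, 1), (4368, 0), (4536, 0), (4704, 0), (168, 1), (1008, 1), (1512, 1), (4872, 0), (5040, 0), (6216, 1), (7224, 1), (10248, 0), (6384, 1), (7392, 1), (10416, 0), (12096, 1), (14952, 0), (12264, 1), (15120, 0), (12432, 1), (15288, 0)],
   [([], [(8736, 4)], []), ([], [(9072, 4)], []), ([], [(9408, 4)], []), ([], [(9744, 4)], []), ([], [(10080, 4)], []), ([], [(10248, 4)], []), ([], [(10416, 4)], []), ([], [(10584, 4)], []), ([], [(10752, 4)], []), ([(8232, 4)], [], []), ([(8400, 4)], [], []), ([], [(2856, 1), (3024, 5)], []), ([], [(3528, 1), (3696, 5)], []), ([], [(4032, 1), (4200, 5)], []), ([], [(4536, 1), (4704, 5)], []), ([], [(4872, 1), (5040, 5)], []), ([(2016, 1)], [(5208, 5)], []), ([(2184, 1), (2352, 5)], [], []), ([], [(336, 8)], []), ([], [(1176, 8)], []),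 ([], [(1680, 8)], []), ([], [(2016, 8)], []), ([(5208, 8)], [], []), ([], [(336, 2), (504, 6)], []), ([], [(1176, 2), (1344, 6)], []), ([], [(1680, 2), (1848, 6)], []), ([], [(2016, 2), (2184, 6)], []), ([(5208, 2)], [(2352, 6)], []), ([], [(6552, 1), (6888, 4), (6720, 5)], []), ([], [(7560, 1), (7896, 4), (7728, 5)], []), ([(10584, 1), (10752, 5)], [(8232, 4)], []), ([], [(6888, 1), (6720, 2), (7056, 7)], []), ([], [(7896, 1), (7728, 2), (8064, 7)], []), ([(10752, 2)], [(8232, 1), (8400, 7)], []), ([], [(12768, 12)], []), ([], [(13272, 12)], []), ([], [(12768, 2), (13104, 4), (12936, 6)], []), ([], [(13272, 2), (13608, 4), (13440, 6)], []), ([], [(12768, 2), (13104, 10)], []), ([], [(13272, 2), (13608, 10)], [])]⟩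

/-- group -/
noncomputable def tab79bg36 : Grp :=
  ⟨8, 1, 21672, 33768, [(9408, 0), (9576, 0), (9744, 0), (9912, 0), (10080, 0), (10248, 0), (10416, 0), (10584, 0), (10752, 0), (10920, 0), (11088, 0), (11256, 0), (11424, 0), (11592, 0), (4200, 1), (4536, 1), (4872, 1), (3360, 0), (3528, 0), (3696, 0), (3864, 0), (0, 1), (672, 1), (1176, 2), (1344, 0), (1512, 0), (2688, 1), (3360, 1), (5208, 0), (2856, 1), (3528, 1), (5376, 0), (6552, 1), (9072, 0), (6720, 1), (9240, 0)],
   [(11088, 0), (11256, 0), (11424, 0), (11592, 0), (11760, 0), (11928, 0), (12096, 0), (12264, 0), (12432, 0), (12600, 0), (12768, 0), (12936, 0), (13104, 0), (13272, 0), (2688, 1), (3360, 1), (840, 0), (1008, 0), (1176, 0), (1344, 0), (1512, 0), (0, 1), (840, 1), (4032, 0), (4200, 0), (4368, 0), (6048, 1), (9744, 0), (9912, 0), (6216, 1), (10080, 0), (10248, 0), (11928, 1), (14784, 0), (12096, 1), (14952, 0)],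
   [([], [(13944, 3)], []), ([], [(14112, 3)], []), ([], [(14280, 3)], []), ([], [(14448, 3)], []), ([], [(14616, 3)], []), ([], [(14784, 3)], []), ([], [(14952, 3)], []), ([], [(15120, 3)], []), ([], [(15288, 3)], []), ([], [(15456, 3)], []), ([], [(15624, 3)], []), ([(13440, 3)], [], []), ([(13608, 3)], [], []), ([(13776, 3)], [], []), ([], [(3024, 3), (2856, 4)], []), ([], [(3696, 3), (3528, 4)], []), ([], [(4200, 3), (4032, 4)], []), ([], [(4704, 3), (4536, 4)], []), ([(1680, 4)], [(5040, 3)], []), ([(2184, 3), (1848, 4)], [], []), ([(2352, 3), (2016, 4)], [], []), ([], [(168, 1), (504, 3), (336, 5)], []), ([], [(1008, 1), (1344, 3), (1176, 5)], []), ([(4536, 1)], [(1848, 3), (1680, 5)], []), ([(4704, 1), (5040, 5)], [(2184, 3)], []), ([(4872, 1), (5376, 3), (5208, 5)], [], []), ([], [(6720, 3), (6384, 8)], []), ([], [(7728, 3), (7392, 8)], []), ([(10752, 3), (10416, 8)], [], []), ([], [(6384, 2), (6888, 3), (6552, 6)], []), ([], [(7392, 2), (7896, 3), (7560, 6)], []), ([(10416,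 2), (10920, 3), (10584, 6)], [], []), ([], [(12264, 1), (12936, 3), (12600, 4), (12432, 5)], []), ([(15120, 1), (15456, 4), (15288, 5)], [(13440, 3)], []), ([], [(12600, 1), (12432, 2), (13104, 3), (12768, 7)], []), ([(15456, 1), (15288, 2), (15624, 7)], [(13608, 3)], [])]⟩

/-- group -/
noncomputable def tab79bg37 : Grp :=
  ⟨8, 2, 21504, 33600, [(5880, 0), (6048, 0), (6216, 0), (6384, 0), (6552, 0), (6720, 0), (6888, 0), (7056, 0), (7224, 0), (7392, 0), (7560, 0), (0, 1), (672, 2), (840, 0), (1008, 0), (1176, 0), (2688, 1), (5040, 0), (5208, 0), (6384, 1), (8904, 0), (6552, 1), (9072, 0)],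
   [(5712, 0), (5880, 0), (6048, 0), (6216, 0), (6384, 0), (6552, 0), (6720, 0), (6888, 0), (7056, 0), (7224, 0), (7392, 0), (0, 1), (3528, 0), (3696, 0), (3864, 0), (4032, 0), (6048, 1), (9576, 0), (9744, 0), (11760, 1), (14616, 0), (11928, 1), (14784, 0)],
   [([], [(8904, 6)], []), ([], [(9240, 6)], []), ([], [(9576, 6)], []), ([], [(9912, 6)], []), ([], [(10248, 6)], []), ([(7560, 6)], [], []), ([(7728, 6)], [], []), ([(7896, 6)], [], []), ([(8064, 6)], [], []), ([(8232, 6)], [], []), ([(8400, 6)], [], []), ([], [(336, 6), (168, 4)], []), ([], [(1176, 6), (1008, 4)], []), ([(4704, 6), (4200, 4)], [], []), ([(4872, 6), (4368, 4)], [], []), ([(5040, 6), (4536, 4)], [], []), ([], [(6216, 1), (6552, 6), (6384, 5)], []), ([(9912, 1), (10248, 5)], [(7560, 6)], []), ([(10080, 1), (10584, 6), (10416, 5)], [], []), ([], [(12432, 6), (12096, 8)], []), ([(15288, 6), (14952, 8)], [], []), ([], [(12096, 2), (12600, 6), (12264, 6)], []), ([(14952, 2), (15456, 6), (15120, 6)], [], [])]⟩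

/-- group -/
noncomputable def tab79bg38 : Grp :=
  ⟨8, 3, 23856, 33432, [(0, 0), (168, 0), (336, 0), (504, 0), (672, 0), (840, 0), (1008, 0), (168, 1), (2352, 0), (2520, 0), (3864, 1), (6384, 0)],
   [(0, 0), (168, 0), (336, 0), (504, 0), (672, 0), (840, 0), (1008, 0), (6048, 1), (9408, 0), (9576, 0), (11760, 1), (14616, 0)],
   [([], [(3024, 9)], []), ([], [(3696, 9)], []), ([(1176, 9)], [], []), ([(1344, 9)], [], []), ([(1512, 9)], [], []), ([(1680, 9)], [], []), ([(1848, 9)], [], []), ([], [(6384, 9), (6216, 4)], []), ([(10080, 9), (9744, 4)], [], []), ([(10248, 9), (9912, 4)], [], []), ([], [(11928, 1), (12264, 9), (12096, 5)], []), ([(14784, 1), (15120, 9), (14952, 5)], [], [])]⟩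

/-- group -/
noncomputable def tab79bg39 : Grp :=
  ⟨8, 4, 21336, 33432, [(0, 2), (168, 0), (336, 0), (504, 0), (672, 0), (6216, 1), (8736, 0)],
   [(0, 1), (3024, 0), (3192, 0), (3360, 0), (3528, 0), (11592, 1), (14448, 0)],
   [([], [(168, 12)], []), ([(3696, 12)], [], []), ([(3864, 12)], [], []), ([(4032, 12)], [], []), ([(4200, 12)], [], []), ([], [(11928, 12), (11760, 4)], []), ([(14784, 12), (14616, 4)], [], [])]⟩

/-- group -/
noncomputable def tab79bg40 : Grp :=
  ⟨8, 5, 23856, 39312, [(0, 1), (2016, 0), (2184, 0)],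
   [(0, 1), (3192, 0), (3360, 0)],
   [([], [(168, 15)], []), ([(3528, 15)], [], []), ([(3696, 15)], [], [])]⟩

/-- group -/
noncomputable def tab79bg41 : Grp :=
  ⟨8, 6, 27384, 44856, [(0, 1), (2520, 0)],
   [(0, 1), (2856, 0)],
   [([], [(168, 18)], []), ([(3024, 18)], [], [])]⟩

/-- group -/
noncomputable def tab79bg42 : Grp :=
  ⟨9, 0, 34272, 50064, [(13440, 1), (13608, 1), (13776, 1), (13944, 1), (14112, 1), (14280, 1), (14448, 1), (14616, 1), (14784, 1), (14952, 1), (15120, 1), (12936, 0), (13104, 0), (13272, 0), (8400, 1), (8736, 1), (9072, 1), (9408, 1), (9744, 1), (9912, 1), (10080, 1), (10248, 1), (10416, 1), (7896, 0), (8064, 0), (2520, 1), (3192, 1), (3696, 1), (4200, 1), (4536, 1), (1680, 0), (1848, 0), (2688, 1), (3360, 1), (3864, 1), (4368, 1), (4704, 1), (4872, 1), (2016, 0), (0, 1), (840, 1), (1344, 1), (1680, 1), (4872, 0), (168, 1), (1008, 1), (1512, 1), (1848, 1), (2016, 1), (6216, 1), (7224, 1), (10248, 0), (6384, 1), (7392, 1), (10416, 0), (6552, 1), (7560,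 1), (7896, 1), (12432, 1), (12936, 1), (12600, 1), (13104, 1), (12768, 1), (13272, 1)],
   [(17136, 1), (17472, 1), (17808, 1), (18144, 1), (18480, 1), (18816, 1), (19152, 1), (15792, 0), (15960, 0), (16128, 0), (16296, 0), (16464, 0), (16632, 0), (16800, 0), (9240, 1), (9912, 1), (10584, 1), (11088, 1), (11592, 1), (12096, 1), (7392, 0), (7560, 0), (7728, 0), (7896, 0), (8064, 0), (0, 1), (1008, 1), (1848, 1), (2520, 2), (2688, 0), (2856, 0), (3024, 0), (168, 1), (1176, 1), (2016, 1), (2688, 1), (3192, 2), (3360, 0), (3528, 0), (5040, 1), (6384, 1), (12096, 0), (12264, 0), (12432, 0), (5208, 1), (6552, 1), (7392, 1), (12600, 0), (12768, 0), (14616, 1), (15792, 1), (19488, 0), (14784, 1), (15960, 1), (19656, 0), (14952, 1), (16128, 1), (19824, 0), (22344, 1), (26712, 0), (22512, 1), (26880, 0), (22680, 1), (27048, 0)],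
   [([], [(17304, 4)], []), ([], [(17640, 4)], []), ([], [(17976, 4)], []), ([], [(18312, 4)], []), ([], [(18648, 4)], []), ([], [(18984, 4)], []), ([], [(19320, 4)], []), ([], [(19488, 4)], []), ([], [(19656, 4)], []), ([], [(19824, 4)], []), ([], [(19992, 4)], []), ([], [(20160, 4)], []), ([], [(20328, 4)], []), ([(16968, 4)], [], []), ([], [(9408, 1), (9576, 5)], []), ([], [(10080, 1), (10248, 5)], []), ([], [(10752, 1), (10920, 5)], []), ([], [(11256, 1), (11424, 5)], []), ([], [(11760, 1), (11928, 5)], []), ([], [(12264, 1), (12432, 5)], []), ([], [(12600, 1), (12768, 5)], []), ([(8232, 1)], [(12936, 5)], []), ([(8400, 1)], [(13104, 5)], []), ([(8568, 1)], [(13272, 5)], []), ([(8736, 1), (8904, 5)], [], []), ([], [(336, 8)], []), ([], [(1344, 8)], []), ([], [(2184, 8)], []), ([], [(2856, 8)], []), ([], [(3360, 8)], []), ([], [], [(3696, 8)]), ([(3864, 8)], [], []), ([], [(336, 2), (504, 6)], []), ([], [(1344, 2), (1512, 6)], []), ([], [(2184, 2), (2352, 6)], []), ([], [(2856,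 2), (3024, 6)], []), ([], [(3360, 2), (3528, 6)], []), ([], [(3864, 6)], [(3696, 2)]), ([(3864, 2)], [], [(4032, 6)]), ([], [(5376, 1), (5712, 4), (5544, 5)], []), ([], [(6720, 1), (7056, 4), (6888, 5)], []), ([], [(7560, 1), (7896, 4), (7728, 5)], []), ([], [(8232, 1), (8568, 4), (8400, 5)], []), ([(12936, 1), (13272, 4), (13104, 5)], [], []), ([], [(5712, 1), (5544, 2), (5880, 7)], []), ([], [(7056, 1), (6888, 2), (7224, 7)], []), ([], [(7896, 1), (7728, 2), (8064, 7)], []), ([], [(8568, 1), (8400, 2), (8736, 7)], []), ([(13272, 1), (13104, 2)], [(8904, 7)], []), ([], [(15288, 12)], []), ([], [(16464, 12)], []), ([(20160, 12)], [], []), ([], [(15288, 2), (15624, 4), (15456, 6)], []), ([], [(16464, 2), (16800, 4), (16632, 6)], []), ([(20160, 2), (20328, 6)], [(16968, 4)], []), ([], [(15288, 2), (15624, 10)], []), ([], [(16464, 2), (16800, 10)], []), ([(20160, 2)], [(16968, 10)], []), ([], [(22848, 1), (23184, 8), (23016, 5)], []), ([], [(23856, 1), (24192, 8), (24024, 5)], []),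 ([], [(23184, 1), (23016, 2), (23520, 4), (23352, 7)], []), ([], [(24192, 1), (24024, 2), (24528, 4), (24360, 7)], []), ([], [(23184, 2), (23016, 1), (23688, 5), (23520, 6)], []), ([], [(24192, 2), (24024, 1), (24696, 5), (24528, 6)], [])]⟩

/-- group -/
noncomputable def tab79bg43 : Grp :=
  ⟨9, 1, 33936, 49896, [(8568, 1), (8904, 1), (9240, 1), (9576, 1), (9912, 1), (7224, 0), (7392, 0), (7560, 0), (7728, 0), (7896, 0), (8064, 0), (2688, 1), (3360, 1), (3864, 1), (4368, 1), (1512, 0), (1680, 0), (1848, 0), (0, 1), (840, 1), (4368, 0), (4536, 0), (4704, 0), (168, 1), (1008, 1), (1512, 1), (4872, 0), (5040, 0), (6216, 1), (7224, 1), (10248, 0), (6384, 1), (7392, 1), (10416, 0), (12096, 1), (14952, 0), (12264, 1), (15120, 0), (12432, 1), (15288, 0)],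
   [(9240, 1), (9912, 1), (10584, 1), (6216, 0), (6384, 0), (6552, 0), (6720, 0), (6888, 0), (7056, 0), (7224, 0), (7392, 0), (0, 1), (1008, 1), (1848, 2), (2016, 0), (2184, 0), (2352, 0), (2520, 0), (4872, 1), (6216, 1), (11256, 0), (11424, 0), (11592, 0), (5040, 1), (6384, 1), (11760, 0), (11928, 0), (12096, 0), (14448, 1), (18984, 0), (19152, 0), (14616, 1), (19320, 0), (19488, 0), (21840, 1), (26208, 0), (22008, 1), (26376, 0), (22176, 1), (26544, 0)],
   [([], [(9576, 3), (9408, 4)], []), ([], [(10248, 3), (10080, 4)], []), ([], [(10920, 3), (10752, 4)], []), ([], [(11424, 3), (11256, 4)], []), ([], [(11928, 3), (11760, 4)], []), ([], [(12432, 3), (12264, 4)], []), ([(7560, 4)], [(12768, 3)], []), ([(8400, 3), (7728, 4)], [], []), ([(8568, 3), (7896, 4)], [], []), ([(8736, 3), (8064, 4)], [], []), ([(8904, 3), (8232, 4)], [], []), ([], [(168, 1), (504, 3), (336, 5)], []), ([], [(1176, 1), (1512, 3), (1344, 5)], []), ([], [(2016, 1), (2352, 3), (2184, 5)], []), ([], [(3024,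 3), (2856, 5)], [(2688, 1)]), ([(2856, 1)], [(3528, 3)], [(3360, 5)]), ([(3024, 1), (3528, 5)], [], [(3864, 3)]), ([(3192, 1), (4032, 3), (3696, 5)], [], []), ([], [(5544, 3), (5208, 8)], []), ([], [(6888, 3), (6552, 8)], []), ([(12264, 8)], [(7728, 3)], []), ([(12432, 8)], [(8400, 3)], []), ([(13104, 3), (12600, 8)], [], []), ([], [(5208, 2), (5712, 3), (5376, 6)], []), ([], [(6552, 2), (7056, 3), (6720, 6)], []), ([(12264, 2)], [(7896, 3), (7560, 6)], []), ([(12432, 2), (12768, 6)], [(8568, 3)], []), ([(12600, 2), (13272, 3), (12936, 6)], [], []), ([], [(14784, 1), (15456, 3), (15120, 4), (14952, 5)], []), ([], [(15960, 1), (16632, 3), (16296, 4), (16128, 5)], []), ([(19656, 1), (20328, 3), (19992, 4), (19824, 5)], [], []), ([], [(15120, 1), (14952, 2), (15624, 3), (15288, 7)], []), ([], [(16296, 1), (16128, 2), (16800, 3), (16464, 7)], []), ([(19992, 1), (19824, 2), (20496, 3), (20160, 7)], [], []), ([], [(23016, 3), (22512, 12)], []), ([(26880, 12)], [(24024, 3)], []), ([],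 [(22512, 2), (23184, 3), (22848, 4), (22680, 6)], []), ([(26880, 2), (27216, 4), (27048, 6)], [(24192, 3)], []), ([], [(22512, 2), (23352, 3), (22848, 10)], []), ([(26880, 2), (27216, 10)], [(24360, 3)], [])]⟩

/-- group -/
noncomputable def tab79bg44 : Grp :=
  ⟨9, 2, 33768, 49728, [(11088, 0), (11256, 0), (11424, 0), (11592, 0), (11760, 0), (11928, 0), (12096, 0), (12264, 0), (12432, 0), (12600, 0), (12768, 0), (12936, 0), (13104, 0), (13272, 0), (2688, 1), (3360, 1), (840, 0), (1008, 0), (1176, 0), (1344, 0), (1512, 0), (0, 1), (840, 1), (4032, 0), (4200, 0), (4368, 0), (6048, 1), (9744, 0), (9912, 0), (6216, 1), (10080, 0), (10248, 0), (11928, 1), (14784, 0), (12096, 1), (14952, 0)],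
   [(13776, 0), (13944, 0), (14112, 0), (14280, 0), (14448, 0), (14616, 0), (14784, 0), (14952, 0), (15120, 0), (15288, 0), (15456, 0), (15624, 0), (15792, 0), (15960, 0), (0, 1), (1008, 2), (1176, 0), (1344, 0), (1512, 0), (1680, 0), (1848, 0), (4872, 1), (10752, 0), (10920, 0), (11088, 0), (11256, 0), (14280, 1), (18480, 0), (18648, 0), (14448, 1), (18816, 0), (18984, 0), (21672, 1), (26040, 0), (21840, 1), (26208, 0)],
   [([], [(17472, 6)], []), ([], [(17808, 6)], []), ([], [(18144, 6)], []), ([], [(18480, 6)], []), ([], [(18816, 6)], []), ([], [(19152, 6)], []), ([], [(19488, 6)], []), ([(16128, 6)], [], []), ([(16296, 6)], [], []), ([(16464, 6)], [], []), ([(16632, 6)], [], []), ([(16800, 6)], [], []), ([(16968, 6)], [], []), ([(17136, 6)], [], []), ([], [(336, 6), (168, 4)], []), ([], [(1344, 6), (1176, 4)], []), ([], [(2184, 6)], [(2016, 4)]), ([(2184, 4)], [], [(2856, 6)]), ([(3024, 6), (2352, 4)], [], []), ([(3192, 6), (2520, 4)], [], []), ([(3360, 6), (2688, 4)], [],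 []), ([], [(5040, 1), (5376, 6), (5208, 5)], []), ([], [(6384, 1), (6720, 6), (6552, 5)], []), ([(11424, 1), (12432, 6), (11928, 5)], [], []), ([(11592, 1), (12600, 6), (12096, 5)], [], []), ([(11760, 1), (12768, 6), (12264, 5)], [], []), ([], [(14952, 6), (14616, 8)], []), ([(19152, 8)], [(16128, 6)], []), ([(19824, 6), (19320, 8)], [], []), ([], [(14616, 2), (15120, 6), (14784, 6)], []), ([(19152, 2), (19488, 6)], [(16296, 6)], []), ([(19320, 2), (19992, 6), (19656, 6)], [], []), ([], [(22008, 1), (22680, 6), (22344, 4), (22176, 5)], []), ([(26376, 1), (27048, 6), (26712, 4), (26544, 5)], [], []), ([], [(22344, 1), (22176, 2), (22848, 6), (22512, 7)], []), ([(26712, 1), (26544, 2), (27216, 6), (26880, 7)], [], [])]⟩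

/-- group -/
noncomputable def tab79bg45 : Grp :=
  ⟨9, 3, 33600, 54264, [(5712, 0), (5880, 0), (6048, 0), (6216, 0), (6384, 0), (6552, 0), (6720, 0), (6888, 0), (7056, 0), (7224, 0), (7392, 0), (0, 1), (3528, 0), (3696, 0), (3864, 0), (4032, 0), (6048, 1), (9576, 0), (9744, 0), (11760, 1), (14616, 0), (11928, 1), (14784, 0)],
   [(0, 0), (168, 0), (336, 0), (504, 0), (672, 0), (840, 0), (1008, 0), (1176, 0), (1344, 0), (1512, 0), (1680, 0), (168, 1), (5544, 0), (5712, 0), (5880, 0), (6048, 0), (9576, 1), (13608, 0), (13776, 0), (16800, 1), (21168, 0), (16968, 1), (21336, 0)],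
   [([], [(4872, 9)], []), ([], [(5544, 9)], []), ([], [(6216, 9)], []), ([(1848, 9)], [], []), ([(2016, 9)], [], []), ([(2184, 9)], [], []), ([(2352, 9)], [], []), ([(2520, 9)], [], []), ([(2688, 9)], [], []), ([(2856, 9)], [], []), ([(3024, 9)], [], []), ([], [(504, 9), (336, 4)], []), ([(6216, 4)], [(1848, 9)], []), ([(6888, 9), (6384, 4)], [], []), ([(7056, 9), (6552, 4)], [], []), ([(7224, 9), (6720, 4)], [], []), ([], [(9744, 1), (10080, 9), (9912, 5)], []), ([(13944, 1), (14616, 9), (14280, 5)], [], []), ([(14112, 1), (14784, 9), (14448, 5)], [], []), ([], [(17472, 9), (17136, 8)], []), ([(21840, 9), (21504, 8)], [], []), ([], [(17136, 2), (17640, 9), (17304, 6)], []), ([(21504, 2), (22008, 9), (21672, 6)], [], [])]⟩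

/-- group -/
noncomputable def tab79bg46 : Grp :=
  ⟨9, 4, 33432, 49560, [(0, 0), (168, 0), (336, 0), (504, 0), (672, 0), (840, 0), (1008, 0), (6048, 1), (9408, 0), (9576, 0), (11760, 1), (14616, 0)],
   [(0, 2), (168, 0), (336, 0), (504, 0), (672, 0), (840, 0), (1008, 0), (14112, 1), (17976, 0), (18144, 0), (21336, 1), (25704, 0)],
   [([], [(168, 12)], []), ([], [], [(1176, 12)]), ([(1344, 12)], [], []), ([(1512, 12)], [], []), ([(1680, 12)], [], []), ([(1848, 12)], [], []), ([(2016, 12)], [], []), ([], [(14448, 12), (14280, 4)], []), ([(18648, 12), (18312, 4)], [], []), ([(18816, 12), (18480, 4)], [], []), ([], [(21504, 1), (21840, 12), (21672, 5)], []), ([(25872, 1), (26208, 12), (26040, 5)], [], [])]⟩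

/-- group -/
noncomputable def tab79bg47 : Grp :=
  ⟨9, 5, 33432, 54264, [(0, 1), (3024, 0), (3192, 0), (3360, 0), (3528, 0), (11592, 1), (14448, 0)],
   [(0, 1), (4872, 0), (5040, 0), (5208, 0), (5376, 0), (16464, 1), (20832, 0)],
   [([], [(168, 15)], []), ([(5544, 15)], [], []), ([(5712, 15)], [], []), ([(5880, 15)], [], []), ([(6048, 15)], [], []), ([], [(16800, 15), (16632, 4)], []), ([(21168, 15), (21000, 4)], [], [])]⟩

/-- group -/
noncomputable def tab79bg48 : Grp :=
  ⟨9, 6, 39312, 63504, [(0, 1), (3192, 0), (3360, 0)],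
   [(0, 1), (3696, 0), (3864, 0)],
   [([], [(168, 18)], []), ([(4032, 18)], [], []), ([(4200, 18)], [], [])]⟩

/-- group -/
noncomputable def tab79bg49 : Grp :=
  ⟨9, 7, 44856, 70560, [(0, 1), (2856, 0)],
   [(0, 1), (4368, 0)],
   [([], [(168, 21)], []), ([(4536, 21)], [], [])]⟩

/-- group -/
noncomputable def tab79bg50 : Grp :=
  ⟨10, 0, 50400, 78120, [(24528, 1), (24696, 1), (24864, 1), (25032, 1), (25200, 1), (25368, 1), (25536, 1), (25704, 1), (25872, 1), (26040, 1), (26208, 1), (26376, 1), (26544, 1), (26712, 1), (23520, 0), (23688, 0), (23856, 0), (24024, 0), (24192, 0), (16968, 1), (17304, 1), (17640, 1), (17976, 1), (18312, 1), (18648, 1), (18984, 1), (19152, 1), (19320, 1), (19488, 1), (19656, 1), (19824, 1), (19992, 1), (9072, 1), (9744, 1), (10416, 1), (10920, 1), (11424, 1), (11928, 1), (12264, 1), (7896, 0), (8064, 0), (8232, 0), (8400, 0), (9240, 1), (9912, 1), (10584, 1), (11088, 1), (11592, 1), (12096, 1), (12432, 1), (12600, 1), (12768, 1), (12936, 1), (8568,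 0), (0, 1), (1008, 1), (1848, 1), (2520, 1), (3024, 1), (3360, 2), (3528, 0), (168, 1), (1176, 1), (2016, 1), (2688, 1), (3192, 1), (3528, 1), (3696, 2), (5040, 1), (6384, 1), (7224, 1), (7896, 1), (12600, 0), (5208, 1), (6552, 1), (7392, 1), (8064, 1), (5376, 1), (6720, 1), (7560, 1), (8232, 1), (14952, 1), (16128, 1), (19824, 0), (15120, 1), (16296, 1), (19992, 0), (15288, 1), (16464, 1)],
   [(28728, 1), (29064, 1), (29400, 1), (29736, 1), (30072, 1), (30408, 1), (30744, 1), (31080, 1), (31416, 1), (31752, 1), (32088, 1), (27048, 0), (27216, 0), (27384, 0), (27552, 0), (27720, 0), (27888, 0), (28056, 0), (28224, 0), (17472, 1), (18144, 1), (18816, 1), (19488, 1), (20160, 1), (20664, 1), (21168, 1), (21672, 1), (22176, 1), (15960, 0), (16128, 0), (16296, 0), (16464, 0), (6552, 1), (7560, 1), (8400, 1), (9240, 1), (9912, 1), (3696, 0), (3864, 0), (4032, 0), (4200, 0), (4368, 0), (4536, 0), (6720, 1), (7728, 1), (8568, 1), (9408, 1), (10080, 1), (10584, 1), (4704, 0), (4872, 0),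 (5040, 0), (5208, 0), (5376, 0), (0, 1), (1512, 1), (2688, 1), (3696, 1), (10584, 0), (10752, 0), (10920, 0), (168, 1), (1680, 1), (2856, 1), (3864, 1), (4704, 1), (11088, 0), (11256, 0), (13272, 1), (14784, 1), (21672, 0), (21840, 0), (22008, 0), (13440, 1), (14952, 1), (22176, 0), (22344, 0), (13608, 1), (15120, 1), (15960, 1), (22680, 0), (25536, 1), (27048, 1), (32424, 0), (25704, 1), (27216, 1), (32592, 0), (25872, 1), (27384, 1)],
   [([], [(28896, 4)], []), ([], [(29232, 4)], []), ([], [(29568, 4)], []), ([], [(29904, 4)], []), ([], [(30240, 4)], []), ([], [(30576, 4)], []), ([], [(30912, 4)], []), ([], [(31248, 4)], []), ([], [(31584, 4)], []), ([], [(31920, 4)], []), ([], [(32256, 4)], []), ([], [(32424, 4)], []), ([], [(32592, 4)], []), ([], [(32760, 4)], []), ([], [(32928, 4)], []), ([], [(33096, 4)], []), ([], [(33264, 4)], []), ([], [(33432, 4)], []), ([(28560, 4)], [], []), ([], [(17640, 1), (17808, 5)], []), ([], [(18312, 1), (18480, 5)], []), ([], [(18984, 1),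 (19152, 5)], []), ([], [(19656, 1), (19824, 5)], []), ([], [(20328, 1), (20496, 5)], []), ([], [(20832, 1), (21000, 5)], []), ([], [(21336, 1), (21504, 5)], []), ([], [(21840, 1), (22008, 5)], []), ([], [(22344, 1), (22512, 5)], []), ([], [(22680, 1), (22848, 5)], []), ([], [(23016, 1), (23184, 5)], []), ([(16800, 1)], [(23352, 5)], []), ([(16968, 1)], [(23520, 5)], []), ([], [(6888, 8)], []), ([], [(7896, 8)], []), ([], [(8736, 8)], []), ([], [(9576, 8)], []), ([], [(10248, 8)], []), ([], [(10752, 8)], []), ([], [(11088, 8)], []), ([], [(11424, 8)], []), ([(5544, 8)], [], []), ([(5712, 8)], [], []), ([(5880, 8)], [], []), ([], [(6888, 2), (7056, 6)], []), ([], [(7896, 2), (8064, 6)], []), ([], [(8736, 2), (8904, 6)], []), ([], [(9576, 2), (9744, 6)], []), ([], [(10248, 2), (10416, 6)], []), ([], [(10752, 2), (10920, 6)], []), ([], [(11088, 2), (11256, 6)], []), ([], [(11424, 2), (11592, 6)], []), ([(5544, 2)], [(11760, 6)], []), ([(5712, 2)], [(11928, 6)], []), ([(5880, 2), (6048,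 6)], [], []), ([], [(336, 1), (672, 4), (504, 5)], []), ([], [(1848, 1), (2184, 4), (2016, 5)], []), ([], [(3024, 1), (3360, 4), (3192, 5)], []), ([], [(4032, 1), (4368, 4), (4200, 5)], []), ([], [(4872, 1), (5208, 4), (5040, 5)], []), ([(11424, 1)], [(5712, 4), (5544, 5)], []), ([(11592, 1), (11928, 4), (11760, 5)], [], []), ([], [(672, 1), (504, 2), (840, 7)], []), ([], [(2184, 1), (2016, 2), (2352, 7)], []), ([], [(3360, 1), (3192, 2), (3528, 7)], []), ([], [(4368, 1), (4200, 2), (4536, 7)], []), ([], [(5208, 1), (5040, 2), (5376, 7)], []), ([], [(5712, 1), (5544, 2), (5880, 7)], []), ([(11928, 1), (11760, 2)], [(6048, 7)], []), ([], [(13944, 12)], []), ([], [(15456, 12)], []), ([], [(16296, 12)], []), ([], [(16800, 12)], []), ([(23352, 12)], [], []), ([], [(13944, 2), (14280, 4), (14112, 6)], []), ([], [(15456, 2), (15792, 4), (15624, 6)], []), ([], [(16296, 2), (16632, 4), (16464, 6)], []), ([], [(16800, 2), (17136, 4), (16968, 6)], []), ([], [(13944, 2), (14280, 10)], []),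 ([], [(15456, 2), (15792, 10)], []), ([], [(16296, 2), (16632, 10)], []), ([], [(16800, 2), (17136, 10)], []), ([], [(26040, 1), (26376, 8), (26208, 5)], []), ([], [(27552, 1), (27888, 8), (27720, 5)], []), ([(32928, 1), (33264, 8), (33096, 5)], [], []), ([], [(26376, 1), (26208, 2), (26712, 4), (26544, 7)], []), ([], [(27888, 1), (27720, 2), (28224, 4), (28056, 7)], []), ([(33264, 1), (33096, 2), (33432, 7)], [(28560, 4)], []), ([], [(26376, 2), (26208, 1), (26880, 5), (26712, 6)], []), ([], [(27888, 2), (27720, 1), (28392, 5), (28224, 6)], [])]⟩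

/-- group -/
noncomputable def tab79bg51 : Grp :=
  ⟨10, 1, 50064, 77784, [(17136, 1), (17472, 1), (17808, 1), (18144, 1), (18480, 1), (18816, 1), (19152, 1), (15792, 0), (15960, 0), (16128, 0), (16296, 0), (16464, 0), (16632, 0), (16800, 0), (9240, 1), (9912, 1), (10584, 1), (11088, 1), (11592, 1), (12096, 1), (7392, 0), (7560, 0), (7728, 0), (7896, 0), (8064, 0), (0, 1), (1008, 1), (1848, 1), (2520, 2), (2688, 0), (2856, 0), (3024, 0), (168, 1), (1176, 1), (2016, 1), (2688, 1), (3192, 2), (3360, 0), (3528, 0), (5040, 1), (6384, 1), (12096, 0), (12264, 0), (12432, 0), (5208, 1), (6552, 1), (7392, 1), (12600, 0), (12768, 0), (14616, 1), (15792, 1), (19488, 0), (14784, 1), (15960, 1), (19656, 0), (14952, 1), (16128, 1), (19824, 0)],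
   [(17640, 1), (18312, 1), (18984, 1), (19656, 1), (20328, 1), (14784, 0), (14952, 0), (15120, 0), (15288, 0), (15456, 0), (15624, 0), (15792, 0), (15960, 0), (16128, 0), (6720, 1), (7728, 1), (8568, 1), (9408, 1), (2856, 0), (3024, 0), (3192, 0), (3360, 0), (3528, 0), (3696, 0), (3864, 0), (0, 1), (1512, 1), (9408, 0), (9576, 0), (9744, 0), (9912, 0), (10080, 0), (168, 1), (1680, 1), (2856, 1), (10248, 0), (10416, 0), (10584, 0), (10752, 0), (13272, 1), (14784, 1), (21000, 0), (21168, 0), (21336, 0), (13440, 1), (14952, 1), (21504, 0), (21672, 0), (21840, 0), (25200, 1), (31416, 0), (31584, 0), (25368, 1), (31752, 0), (31920, 0), (25536, 1), (32088, 0), (32256, 0)],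
   [([], [(17976, 3), (17808, 4)], []), ([], [(18648, 3), (18480, 4)], []), ([], [(19320, 3), (19152, 4)], []), ([], [(19992, 3), (19824, 4)], []), ([], [(20664, 3), (20496, 4)], []), ([], [(21168, 3), (21000, 4)], []), ([], [(21672, 3), (21504, 4)], []), ([], [(22176, 3), (22008, 4)], []), ([], [(22680, 3), (22512, 4)], []), ([(16296, 4)], [(23016, 3)], []), ([(16464, 4)], [(23352, 3)], []), ([(17136, 3), (16632, 4)], [], []), ([(17304, 3), (16800, 4)], [], []), ([(17472, 3), (16968, 4)], [], []), ([], [(6888, 1), (7224, 3), (7056, 5)], []), ([], [(7896, 1), (8232, 3), (8064, 5)], []), ([], [(8736, 1), (9072, 3), (8904, 5)], []), ([], [(9576, 1), (9912, 3), (9744, 5)], []), ([], [(10248, 1), (10584, 3), (10416, 5)], []), ([(4032, 1)], [(11088, 3), (10920, 5)], []), ([(4200, 1), (5040, 5)], [(11424, 3)], []), ([(4368, 1), (5208, 5)], [(11760, 3)], []), ([(4536, 1), (5880, 3), (5376, 5)], [], []), ([(4704, 1), (6048, 3), (5544, 5)], [], []), ([(4872, 1), (6216, 3), (5712, 5)],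 [], []), ([], [(672, 3), (336, 8)], []), ([], [(2184, 3), (1848, 8)], []), ([], [(3360, 3), (3024, 8)], []), ([], [(4368, 3), (4032, 8)], []), ([(10920, 8)], [(5208, 3)], []), ([(11760, 3), (11088, 8)], [], []), ([(11928, 3), (11256, 8)], [], []), ([], [(336, 2), (840, 3), (504, 6)], []), ([], [(1848, 2), (2352, 3), (2016, 6)], []), ([], [(3024, 2), (3528, 3), (3192, 6)], []), ([], [(4032, 2), (4536, 3), (4200, 6)], []), ([(10920, 2)], [(5376, 3), (5040, 6)], []), ([(11088, 2), (11424, 6)], [(5880, 3)], []), ([(11256, 2), (12096, 3), (11592, 6)], [], []), ([], [(13608, 1), (14280, 3), (13944, 4), (13776, 5)], []), ([], [(15120, 1), (15792, 3), (15456, 4), (15288, 5)], []), ([(22008, 1), (22512, 5)], [(16632, 3), (16296, 4)], []), ([(22176, 1), (23016, 4), (22680, 5)], [(17136, 3)], []), ([(22344, 1), (23688, 3), (23184, 4), (22848, 5)], [], []), ([], [(13944, 1), (13776, 2), (14448, 3), (14112, 7)], []), ([], [(15456, 1), (15288, 2), (15960, 3), (15624, 7)], []), ([(22512, 2)],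 [(16296, 1), (16800, 3), (16464, 7)], []), ([(23016, 1), (22680, 2), (23352, 7)], [(17304, 3)], []), ([(23184, 1), (22848, 2), (23856, 3), (23520, 7)], [], []), ([], [(26376, 3), (25872, 12)], []), ([], [(27888, 3), (27384, 12)], []), ([(33264, 3), (32760, 12)], [], []), ([], [(25872, 2), (26544, 3), (26208, 4), (26040, 6)], []), ([], [(27384, 2), (28056, 3), (27720, 4), (27552, 6)], []), ([(32760, 2), (33432, 3), (33096, 4), (32928, 6)], [], []), ([], [(25872, 2), (26712, 3), (26208, 10)], []), ([], [(27384, 2), (28224, 3), (27720, 10)], []), ([(32760, 2), (33600, 3), (33096, 10)], [], [])]⟩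

/-- group -/
noncomputable def tab79bg52 : Grp :=
  ⟨10, 2, 49896, 77616, [(20664, 0), (20832, 0), (21000, 0), (21168, 0), (21336, 0), (21504, 0), (21672, 0), (21840, 0), (22008, 0), (22176, 0), (22344, 0), (22512, 0), (22680, 0), (22848, 0), (23016, 0), (23184, 0), (23352, 0), (23520, 0), (23688, 0), (23856, 0), (9240, 1), (9912, 1), (10584, 1), (6216, 0), (6384, 0), (6552, 0), (6720, 0), (6888, 0), (7056, 0), (7224, 0), (7392, 0), (0, 1), (1008, 1), (1848, 2), (2016, 0), (2184, 0), (2352, 0), (2520, 0), (4872, 1), (6216, 1), (11256, 0), (11424, 0), (11592, 0), (5040, 1), (6384, 1), (11760, 0), (11928, 0), (12096, 0), (14448, 1), (18984, 0), (19152, 0), (14616, 1), (19320, 0), (19488, 0)],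
   [(24192, 0), (24360, 0), (24528, 0), (24696, 0), (24864, 0), (25032, 0), (25200, 0), (25368, 0), (25536, 0), (25704, 0), (25872, 0), (26040, 0), (26208, 0), (26376, 0), (26544, 0), (26712, 0), (26880, 0), (27048, 0), (27216, 0), (27384, 0), (6720, 1), (7728, 1), (1512, 0), (1680, 0), (1848, 0), (2016, 0), (2184, 0), (2352, 0), (2520, 0), (2688, 0), (2856, 0), (0, 1), (1512, 1), (8736, 0), (8904, 0), (9072, 0), (9240, 0), (9408, 0), (13104, 1), (19824, 0), (19992, 0), (20160, 0), (20328, 0), (13272, 1), (20496, 0), (20664, 0), (20832, 0), (21000, 0), (25032, 1), (30912, 0), (31080, 0), (25200, 1), (31248, 0), (31416, 0)],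
   [([], [(29232, 6)], []), ([], [(29568, 6)], []), ([], [(29904, 6)], []), ([], [(30240, 6)], []), ([], [(30576, 6)], []), ([], [(30912, 6)], []), ([], [(31248, 6)], []), ([], [(31584, 6)], []), ([], [(31920, 6)], []), ([], [(32256, 6)], []), ([], [(32592, 6)], []), ([(27552, 6)], [], []), ([(27720, 6)], [], []), ([(27888, 6)], [], []), ([(28056, 6)], [], []), ([(28224, 6)], [], []), ([(28392, 6)], [], []), ([(28560, 6)], [], []), ([(28728, 6)], [], []), ([(28896, 6)], [], []), ([], [(7056, 6), (6888, 4)], []), ([], [(8064, 6), (7896, 4)], []), ([], [(8904, 6), (8736, 4)], []), ([], [(9744, 6), (9576, 4)], []), ([(3024, 4)], [(10416, 6)], []), ([(4200, 6), (3192, 4)], [], []), ([(4368, 6), (3360, 4)], [], []), ([(4536, 6), (3528, 4)], [], []), ([(4704, 6), (3696, 4)], [], []), ([(4872, 6), (3864, 4)], [], []), ([(5040, 6), (4032, 4)], [], []), ([], [(168, 1), (504, 6), (336, 5)], []), ([], [(1680, 1), (2016, 6), (1848, 5)], []), ([(9576, 1)], [(3192, 6), (3024, 5)], []), ([(9744,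 1), (10416, 5)], [(4200, 6)], []), ([(9912, 1), (11088, 6), (10584, 5)], [], []), ([(10080, 1), (11256, 6), (10752, 5)], [], []), ([(10248, 1), (11424, 6), (10920, 5)], [], []), ([], [(13776, 6), (13440, 8)], []), ([], [(15288, 6), (14952, 8)], []), ([(22176, 6), (21168, 8)], [], []), ([(22344, 6), (21336, 8)], [], []), ([(22512, 6), (21504, 8)], [], []), ([], [(13440, 2), (13944, 6), (13608, 6)], []), ([], [(14952, 2), (15456, 6), (15120, 6)], []), ([(21168, 2), (22680, 6), (21672, 6)], [], []), ([(21336, 2), (22848, 6), (21840, 6)], [], []), ([(21504, 2), (23016, 6), (22008, 6)], [], []), ([], [(25368, 1), (26040, 6), (25704, 4), (25536, 5)], []), ([(31584, 1), (32256, 4), (31920, 5)], [(27552, 6)], []), ([(31752, 1), (32928, 6), (32424, 4), (32088, 5)], [], []), ([], [(25704, 1), (25536, 2), (26208, 6), (25872, 7)], []), ([(32256, 1), (31920, 2), (32592, 7)], [(27720, 6)], []), ([(32424, 1), (32088, 2), (33096, 6), (32760, 7)], [], [])]⟩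

/-- group -/
noncomputable def tab79bg53 : Grp :=
  ⟨10, 3, 49728, 77448, [(13776, 0), (13944, 0), (14112, 0), (14280, 0), (14448, 0), (14616, 0), (14784, 0), (14952, 0), (15120, 0), (15288, 0), (15456, 0), (15624, 0), (15792, 0), (15960, 0), (0, 1), (1008, 2), (1176, 0), (1344, 0), (1512, 0), (1680, 0), (1848, 0), (4872, 1), (10752, 0), (10920, 0), (11088, 0), (11256, 0), (14280, 1), (18480, 0), (18648, 0), (14448, 1), (18816, 0), (18984, 0)],
   [(12768, 0), (12936, 0), (13104, 0), (13272, 0), (13440, 0), (13608, 0), (13776, 0), (13944, 0), (14112, 0), (14280, 0), (14448, 0), (14616, 0), (14784, 0), (14952, 0), (0, 1), (7896, 0), (8064, 0), (8232, 0), (8400, 0), (8568, 0), (8736, 0), (13104, 1), (19320, 0), (19488, 0), (19656, 0), (19824, 0), (24864, 1), (30408, 0), (30576, 0), (25032, 1), (30744, 0), (30912, 0)],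
   [([], [(17976, 9)], []), ([], [(18648, 9)], []), ([], [(19320, 9)], []), ([], [(19992, 9)], []), ([], [(20664, 9)], []), ([(15120, 9)], [], []), ([(15288, 9)], [], []), ([(15456, 9)], [], []), ([(15624, 9)], [], []), ([(15792, 9)], [], []), ([(15960, 9)], [], []), ([(16128, 9)], [], []), ([(16296, 9)], [], []), ([(16464, 9)], [], []), ([], [(336, 9), (168, 4)], []), ([], [(1848, 9), (1680, 4)], []), ([(9744, 9), (8904, 4)], [], []), ([(9912, 9), (9072, 4)], [], []), ([(10080, 9), (9240, 4)], [], []), ([(10248, 9), (9408, 4)], [], []), ([(10416, 9), (9576, 4)], [], []), ([], [(13272, 1), (13608, 9), (13440, 5)], []), ([(19992, 1), (20664, 5)], [(15120, 9)], []), ([(20160, 1), (21336, 9), (20832, 5)], [], []), ([(20328, 1), (21504, 9), (21000, 5)], [], []), ([(20496, 1), (21672, 9), (21168, 5)], [], []), ([], [(25536, 9), (25200, 8)], []), ([(31752, 9), (31080, 8)], [], []), ([(31920, 9), (31248, 8)], [], []), ([], [(25200, 2), (25704, 9), (25368, 6)], []), ([(31080, 2), (32088,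 9), (31416, 6)], [], []), ([(31248, 2), (32256, 9), (31584, 6)], [], [])]⟩

/-- group -/
noncomputable def tab79bg54 : Grp :=
  ⟨10, 4, 54264, 77280, [(0, 0), (168, 0), (336, 0), (504, 0), (672, 0), (840, 0), (1008, 0), (1176, 0), (1344, 0), (1512, 0), (1680, 0), (168, 1), (5544, 0), (5712, 0), (5880, 0), (6048, 0), (9576, 1), (13608, 0), (13776, 0)],
   [(0, 0), (168, 0), (336, 0), (504, 0), (672, 0), (840, 0), (1008, 0), (1176, 0), (1344, 0), (1512, 0), (1680, 0), (13104, 1), (18816, 0), (18984, 0), (19152, 0), (19320, 0), (24864, 1), (30240, 0), (30408, 0)],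
   [([], [(7056, 12)], []), ([], [(8064, 12)], []), ([(1848, 12)], [], []), ([(2016, 12)], [], []), ([(2184, 12)], [], []), ([(2352, 12)], [], []), ([(2520, 12)], [], []), ([(2688, 12)], [], []), ([(2856, 12)], [], []), ([(3024, 12)], [], []), ([(3192, 12)], [], []), ([], [(13440, 12), (13272, 4)], []), ([(20160, 12), (19488, 4)], [], []), ([(20328, 12), (19656, 4)], [], []), ([(20496, 12), (19824, 4)], [], []), ([(20664, 12), (19992, 4)], [], []), ([], [(25032, 1), (25368, 12), (25200, 5)], []), ([(30576, 1), (31248, 12), (30912, 5)], [], []), ([(30744, 1), (31416, 12), (31080, 5)], [], [])]⟩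

/-- group -/
noncomputable def tab79bg55 : Grp :=
  ⟨10, 5, 49560, 77280, [(0, 2), (168, 0), (336, 0), (504, 0), (672, 0), (840, 0), (1008, 0), (14112, 1), (17976, 0), (18144, 0)],
   [(0, 1), (7056, 0), (7224, 0), (7392, 0), (7560, 0), (7728, 0), (7896, 0), (24696, 1), (29904, 0), (30072, 0)],
   [([], [(168, 15)], []), ([(8064, 15)], [], []), ([(8232, 15)], [], []), ([(8400, 15)], [], []), ([(8568, 15)], [], []), ([(8736, 15)], [], []), ([(8904, 15)], [], []), ([], [(25032, 15), (24864, 4)], []), ([(30576, 15), (30240, 4)], [], []), ([(30744, 15), (30408, 4)], [], [])]⟩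

/-- group -/
noncomputable def tab79bg56 : Grp :=
  ⟨10, 6, 54264, 90216, [(0, 1), (4872, 0), (5040, 0), (5208, 0), (5376, 0)],
   [(0, 1), (5208, 0), (5376, 0), (5544, 0), (5712, 0)],
   [([], [(168, 18)], []), ([(5880, 18)], [], []), ([(6048, 18)], [], []), ([(6216, 18)], [], []), ([(6384, 18)], [], [])]⟩

/-- group -/
noncomputable def tab79bg57 : Grp :=
  ⟨10, 7, 63504, 101808, [(0, 1), (3696, 0), (3864, 0)],
   [(0, 1), (5040, 0), (5208, 0)],
   [([], [(168, 21)], []), ([(5376, 21)], [], []), ([(5544, 21)], [], [])]⟩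

/-- group -/
noncomputable def tab79bg58 : Grp :=
  ⟨11, 0, 78456, 112560, [(28560, 1), (28896, 1), (29232, 1), (29568, 1), (29904, 1), (30240, 1), (30576, 1), (30912, 1), (31248, 1), (31584, 1), (31920, 1), (32088, 1), (32256, 1), (32592, 1), (32760, 1), (32928, 1), (33096, 1), (17304, 1), (17976, 1), (18648, 1), (19320, 1), (19992, 1), (20496, 1), (21000, 1), (21504, 1), (22008, 1), (22344, 1), (22680, 1), (16464, 0), (16800, 0), (17472, 1), (18144, 1), (18816, 1), (19488, 1), (20160, 1), (20664, 1), (21168, 1), (21672, 1), (22176, 1), (22512, 1), (22848, 1), (6552, 1), (7560, 1), (8400, 1), (9240, 1), (9912, 1), (10416, 1), (10752, 1), (11088, 1), (5208, 0), (5376, 0), (5544, 0), (6720, 1), (7728, 1), (8568, 1), (9408, 1), (10080, 1), (10584, 1), (10920, 1), (11256, 1), (11424, 1), (11592, 1), (5712, 0), (0, 1), (1512, 1), (2688, 1), (3696, 1), (4536, 1), (11088, 0), (168, 1), (1680, 1), (2856, 1), (3864, 1), (336, 1), (1848, 1), (3024, 1), (4032, 1), (5376, 1), (13608, 1),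 (15120, 1), (15960, 1), (16464, 1), (23016, 0), (13776, 1), (15288, 1), (16128, 1), (13944, 1), (15456, 1)],
   [(33432, 1), (34104, 1), (34776, 1), (35448, 1), (36120, 1), (36792, 1), (37464, 1), (37968, 1), (38472, 1), (38976, 1), (39480, 1), (39984, 1), (40488, 1), (31584, 0), (31752, 0), (31920, 0), (32088, 0), (17976, 1), (18984, 1), (19992, 1), (20832, 1), (21672, 1), (22512, 1), (23184, 1), (15792, 0), (15960, 0), (16128, 0), (16296, 0), (16464, 0), (16800, 0), (18144, 1), (19152, 1), (20160, 1), (21000, 1), (21840, 1), (22680, 1), (23352, 1), (23856, 1), (24360, 1), (24864, 1), (16968, 0), (0, 1), (1680, 1), (3192, 1), (4536, 1), (5712, 1), (6720, 2), (6888, 0), (7056, 0), (7224, 0), (7392, 0), (7560, 0), (168, 1), (1848, 1), (3360, 1), (4704, 1), (5880, 1), (6888, 1), (7728, 2), (7896, 0), (8064, 0), (8232, 0), (8400, 0), (11424, 1), (13272, 1), (14616, 1), (15792, 1), (23856, 0), (24024, 0), (11592, 1), (13440, 1), (14784, 1), (15960, 1), (11760, 1), (13608, 1), (14952,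 1), (16128, 1), (25032, 0), (27720, 1), (29904, 1), (39984, 0), (40152, 0), (40320, 0), (27888, 1), (30072, 1), (40488, 0), (28056, 1), (30240, 1)],
   [([], [(33600, 1), (33768, 5)], []), ([], [(34272, 1), (34440, 5)], []), ([], [(34944, 1), (35112, 5)], []), ([], [(35616, 1), (35784, 5)], []), ([], [(36288, 1), (36456, 5)], []), ([], [(36960, 1), (37128, 5)], []), ([], [(37632, 1), (37800, 5)], []), ([], [(38136, 1), (38304, 5)], []), ([], [(38640, 1), (38808, 5)], []), ([], [(39144, 1), (39312, 5)], []), ([], [(39648, 1), (39816, 5)], []), ([], [(40152, 1), (40320, 5)], []), ([], [(40656, 1), (40824, 5)], []), ([(32424, 1)], [(41160, 5)], []), ([(32592, 1)], [(41328, 5)], []), ([(32760, 1)], [(41496, 5)], []), ([(32928, 1)], [(41664, 5)], []), ([], [(18312, 8)], []), ([], [(19320, 8)], []), ([], [(20328, 8)], []), ([], [(21168, 8)], []), ([], [(22008, 8)], []), ([], [(22848, 8)], []), ([], [(23520, 8)], []), ([], [(24024, 8)], []), ([], [(24528, 8)], []), ([], [(25032, 8)],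 []), ([], [(25368, 8)], []), ([], [(25704, 8)], []), ([(17472, 8)], [], []), ([], [(18312, 2), (18480, 6)], []), ([], [(19320, 2), (19488, 6)], []), ([], [(20328, 2), (20496, 6)], []), ([], [(21168, 2), (21336, 6)], []), ([], [(22008, 2), (22176, 6)], []), ([], [(22848, 2), (23016, 6)], []), ([], [(23520, 2), (23688, 6)], []), ([], [(24024, 2), (24192, 6)], []), ([], [(24528, 2), (24696, 6)], []), ([], [(25032, 2), (25200, 6)], []), ([], [(25368, 2), (25536, 6)], []), ([], [(336, 1), (672, 4), (504, 5)], []), ([], [(2016, 1), (2352, 4), (2184, 5)], []), ([], [(3528, 1), (3864, 4), (3696, 5)], []), ([], [(4872, 1), (5208, 4), (5040, 5)], []), ([], [(6048, 1), (6384, 4), (6216, 5)], []), ([], [(7056, 1), (7392, 4), (7224, 5)], []), ([], [(7896, 1), (8232, 4), (8064, 5)], []), ([], [(8904, 4), (8736, 5)], [(8568, 1)]), ([(8736, 1)], [(9408, 4)], [(9240, 5)]), ([(8904, 1), (9408, 5)], [], [(9744, 4)]), ([(9072, 1), (9912, 4), (9576, 5)], [], []), ([], [(672, 1), (504, 2), (840, 7)],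 []), ([], [(2352, 1), (2184, 2), (2520, 7)], []), ([], [(3864, 1), (3696, 2), (4032, 7)], []), ([], [(5208, 1), (5040, 2), (5376, 7)], []), ([], [(6384, 1), (6216, 2), (6552, 7)], []), ([], [(7392, 1), (7224, 2), (7560, 7)], []), ([], [(8232, 1), (8064, 2), (8400, 7)], []), ([], [(8904, 1), (8736, 2), (9072, 7)], []), ([], [(9408, 1), (9576, 7)], [(9240, 2)]), ([(9408, 2)], [(9912, 7)], [(9744, 1)]), ([(9912, 1), (9576, 2)], [], [(10080, 7)]), ([], [(12096, 12)], []), ([], [(13944, 12)], []), ([], [(15288, 12)], []), ([], [(16464, 12)], []), ([], [(17136, 12)], []), ([(25704, 12)], [], []), ([], [(12096, 2), (12432, 4), (12264, 6)], []), ([], [(13944, 2), (14280, 4), (14112, 6)], []), ([], [(15288, 2), (15624, 4), (15456, 6)], []), ([], [(16464, 2), (16800, 4), (16632, 6)], []), ([], [(12096, 2), (12432, 10)], []), ([], [(13944, 2), (14280, 10)], []), ([], [(15288, 2), (15624, 10)], []), ([], [(16464, 2), (16800, 10)], []), ([(25704, 2)], [(17472, 10)], []), ([], [(28224, 1),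 (28560, 8), (28392, 5)], []), ([], [(30408, 1), (30744, 8), (30576, 5)], []), ([], [(31584, 1), (31920, 8), (31752, 5)], []), ([], [(32424, 1), (32760, 8), (32592, 5)], []), ([(41160, 1), (41496, 8), (41328, 5)], [], []), ([], [(28560, 1), (28392, 2), (28896, 4), (28728, 7)], []), ([], [(30744, 1), (30576, 2), (31080, 4), (30912, 7)], []), ([], [(31920, 1), (31752, 2), (32256, 4), (32088, 7)], []), ([], [(28560, 2), (28392, 1), (29064, 5), (28896, 6)], []), ([], [(30744, 2), (30576, 1), (31248, 5), (31080, 6)], [])]⟩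

/-- group -/
noncomputable def tab79bg59 : Grp :=
  ⟨11, 1, 78120, 112224, [(28728, 1), (29064, 1), (29400, 1), (29736, 1), (30072, 1), (30408, 1), (30744, 1), (31080, 1), (31416, 1), (31752, 1), (32088, 1), (27048, 0), (27216, 0), (27384, 0), (27552, 0), (27720, 0), (27888, 0), (28056, 0), (17472, 1), (18144, 1), (18816, 1), (19488, 1), (20160, 1), (20664, 1), (21168, 1), (21672, 1), (22176, 1), (15960, 0), (16128, 0), (16296, 0), (6552, 1), (7560, 1), (8400, 1), (9240, 1), (9912, 1), (3696, 0), (3864, 0), (4032, 0), (4200, 0), (4368, 0), (4536, 0), (6720, 1), (7728, 1), (8568, 1), (9408, 1), (10080, 1), (10584, 1), (4704, 0), (4872, 0), (5040, 0), (5208, 0), (5376, 0), (0, 1), (1512, 1), (2688, 1), (3696, 1), (10584, 0), (10752, 0), (168, 1), (1680, 1), (2856, 1), (3864, 1), (4704, 1), (13272, 1), (14784, 1), (21672, 0), (21840, 0), (22008, 0), (13440, 1), (14952, 1), (22176, 0), (22344, 0), (13608, 1), (15120, 1), (15960, 1), (22680, 0)],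
   [(33600, 1), (34272, 1), (34944, 1), (35616, 1), (36288, 1), (36960, 1), (37632, 1), (29568, 0), (29736, 0), (29904, 0), (30072, 0), (30240, 0), (30408, 0), (30576, 0), (30744, 0), (30912, 0), (31080, 0), (31248, 0), (18144, 1), (19152, 1), (20160, 1), (21000, 1), (21840, 1), (22680, 1), (14784, 0), (14952, 0), (15120, 0), (15288, 0), (15456, 0), (15624, 0), (0, 1), (1680, 1), (3192, 1), (4536, 2), (4704, 0), (4872, 0), (5040, 0), (5208, 0), (5376, 0), (5544, 0), (5712, 0), (168, 1), (1848, 1), (3360, 1), (4704, 1), (5880, 2), (6048, 0), (6216, 0), (6384, 0), (6552, 0), (6720, 0), (6888, 0), (11424, 1), (13272, 1), (22680, 0), (22848, 0), (23016, 0), (23184, 0), (11592, 1), (13440, 1), (14784, 1), (23520, 0), (23688, 0), (27384, 1), (29568, 1), (38304, 0), (38472, 0), (38640, 0), (27552, 1), (29736, 1), (38808, 0), (38976, 0), (27720, 1), (29904, 1), (39312, 0), (39480, 0)],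
   [([], [(33936, 3), (33768, 4)], []), ([], [(34608, 3), (34440, 4)], []), ([], [(35280, 3), (35112, 4)], []), ([], [(35952, 3), (35784, 4)], []), ([], [(36624, 3), (36456, 4)], []), ([], [(37296, 3), (37128, 4)], []), ([], [(37968, 3), (37800, 4)], []), ([], [(38472, 3), (38304, 4)], []), ([], [(38976, 3), (38808, 4)], []), ([], [(39480, 3), (39312, 4)], []), ([], [(39984, 3), (39816, 4)], []), ([], [(40488, 3), (40320, 4)], []), ([], [(40992, 3), (40824, 4)], []), ([(31752, 4)], [(41328, 3)], []), ([(32760, 3), (31920, 4)], [], []), ([(32928, 3), (32088, 4)], [], []), ([(33096, 3), (32256, 4)], [], []), ([(33264, 3), (32424, 4)], [], []), ([], [(18312, 1), (18648, 3), (18480, 5)], []), ([], [(19320, 1), (19656, 3), (19488, 5)], []), ([], [(20328, 1), (20664, 3), (20496, 5)], []), ([], [(21168, 1), (21504, 3), (21336, 5)], []), ([], [(22008, 1), (22344, 3), (22176, 5)], []), ([], [(22848, 1), (23184, 3), (23016, 5)], []), ([], [(23520, 1), (23856, 3), (23688, 5)], []), ([(16128,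 1)], [(24360, 3), (24192, 5)], []), ([(16296, 1)], [(24864, 3), (24696, 5)], []), ([(16464, 1)], [(25368, 3), (25200, 5)], []), ([(16632, 1), (17304, 5)], [(25704, 3)], []), ([(16800, 1), (17472, 5)], [(26040, 3)], []), ([], [(672, 3), (336, 8)], []), ([], [(2352, 3), (2016, 8)], []), ([], [(3864, 3), (3528, 8)], []), ([], [(5208, 3), (4872, 8)], []), ([], [(6384, 3), (6048, 8)], []), ([], [(7392, 3)], [(7056, 8)]), ([(7224, 8)], [(8232, 3)], []), ([(7392, 8)], [], [(8904, 3)]), ([(9072, 3), (7560, 8)], [], []), ([(9240, 3), (7728, 8)], [], []), ([(9408, 3), (7896, 8)], [], []), ([], [(336, 2), (840, 3), (504, 6)], []), ([], [(2016, 2), (2520, 3), (2184, 6)], []), ([], [(3528, 2), (4032, 3), (3696, 6)], []), ([], [(4872, 2), (5376, 3), (5040, 6)], []), ([], [(6048, 2), (6552, 3), (6216, 6)], []), ([], [(7560, 3), (7224, 6)], [(7056, 2)]), ([(7224, 2)], [(8400, 3)], [(8064, 6)]), ([(7392, 2), (8232, 6)], [(9072, 3)], []), ([(7560, 2), (8400, 6)], [], [(9576, 3)]), ([(7728, 2),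 (9744, 3), (8568, 6)], [], []), ([(7896, 2), (9912, 3), (8736, 6)], [], []), ([], [(11760, 1), (12432, 3), (12096, 4), (11928, 5)], []), ([], [(13608, 1), (14280, 3), (13944, 4), (13776, 5)], []), ([], [(14952, 1), (15624, 3), (15288, 4), (15120, 5)], []), ([], [(16128, 1), (16800, 3), (16464, 4), (16296, 5)], []), ([(24192, 1), (25200, 4), (24696, 5)], [(17472, 3)], []), ([(24360, 1), (26040, 3), (25368, 4), (24864, 5)], [], []), ([], [(12096, 1), (11928, 2), (12600, 3), (12264, 7)], []), ([], [(13944, 1), (13776, 2), (14448, 3), (14112, 7)], []), ([], [(15288, 1), (15120, 2), (15792, 3), (15456, 7)], []), ([], [(16464, 1), (16296, 2), (16968, 3), (16632, 7)], []), ([(25200, 1), (24696, 2)], [(17640, 3), (17304, 7)], []), ([], [(28560, 3), (28056, 12)], []), ([], [(30744, 3), (30240, 12)], []), ([(40320, 12)], [(31920, 3)], []), ([(40488, 12)], [(32760, 3)], []), ([(41496, 3), (40656, 12)], [], []), ([], [(28056, 2), (28728, 3), (28392, 4), (28224, 6)], []), ([], [(30240, 2),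 (30912, 3), (30576, 4), (30408, 6)], []), ([(40320, 2), (40824, 6)], [(32088, 3), (31752, 4)], []), ([(40488, 2), (41328, 4), (40992, 6)], [(32928, 3)], []), ([], [(28056, 2), (28896, 3), (28392, 10)], []), ([], [(30240, 2), (31080, 3), (30576, 10)], []), ([(40320, 2)], [(32256, 3), (31752, 10)], []), ([(40488, 2), (41328, 10)], [(33096, 3)], [])]⟩

/-- group -/
noncomputable def tab79bg60 : Grp :=
  ⟨11, 2, 77784, 112056, [(17640, 1), (18312, 1), (18984, 1), (19656, 1), (20328, 1), (14784, 0), (14952, 0), (15120, 0), (15288, 0), (15456, 0), (15624, 0), (15792, 0), (15960, 0), (16128, 0), (6720, 1), (7728, 1), (8568, 1), (9408, 1), (2856, 0), (3024, 0), (3192, 0), (3360, 0), (3528, 0), (3696, 0), (3864, 0), (0, 1), (1512, 1), (9408, 0), (9576, 0), (9744, 0), (9912, 0), (10080, 0), (168, 1), (1680, 1), (2856, 1), (10248, 0), (10416, 0), (10584, 0), (10752, 0), (13272, 1), (14784, 1), (21000, 0), (21168, 0), (21336, 0), (13440, 1), (14952, 1), (21504, 0), (21672, 0), (21840, 0)],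
   [(18144, 1), (19152, 1), (20160, 1), (13104, 0), (13272, 0), (13440, 0), (13608, 0), (13776, 0), (13944, 0), (14112, 0), (14280, 0), (14448, 0), (14616, 0), (14784, 0), (0, 1), (1680, 1), (3192, 2), (3360, 0), (3528, 0), (3696, 0), (3864, 0), (4032, 0), (4200, 0), (4368, 0), (4536, 0), (11256, 1), (13104, 1), (21168, 0), (21336, 0), (21504, 0), (21672, 0), (21840, 0), (11424, 1), (13272, 1), (22008, 0), (22176, 0), (22344, 0), (22512, 0), (22680, 0), (27216, 1), (37128, 0), (37296, 0), (37464, 0), (37632, 0), (27384, 1), (37800, 0), (37968, 0), (38136, 0), (38304, 0)],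
   [([], [(18480, 6), (18312, 4)], []), ([], [(19488, 6), (19320, 4)], []), ([], [(20496, 6), (20328, 4)], []), ([], [(21336, 6), (21168, 4)], []), ([], [(22176, 6), (22008, 4)], []), ([], [(23016, 6), (22848, 4)], []), ([(14952, 4)], [(23688, 6)], []), ([(16296, 6), (15120, 4)], [], []), ([(16464, 6), (15288, 4)], [], []), ([(16632, 6), (15456, 4)], [], []), ([(16800, 6), (15624, 4)], [], []), ([(16968, 6), (15792, 4)], [], []), ([(17136, 6), (15960, 4)], [], []), ([(17304, 6), (16128, 4)], [], []), ([], [(168, 1), (504, 6), (336, 5)], []), ([], [(1848, 1), (2184, 6), (2016, 5)], []), ([], [(3360, 1), (3696, 6), (3528, 5)], []), ([], [(5040, 6), (4872, 5)], [(4704, 1)]), ([(4872, 1)], [(6216, 6)], [(6048, 5)]), ([(5040, 1), (6216, 5)], [], [(7224, 6)]), ([(5208, 1), (7392, 6), (6384, 5)], [], []), ([(5376, 1), (7560, 6), (6552, 5)], [], []), ([(5544, 1), (7728, 6), (6720, 5)], [], []), ([(5712, 1), (7896, 6), (6888, 5)], [], []), ([(5880, 1), (8064, 6), (7056, 5)], [], []), ([],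 [(11928, 6), (11592, 8)], []), ([], [(13776, 6), (13440, 8)], []), ([(22848, 8)], [(15120, 6)], []), ([(23016, 8)], [(16296, 6)], []), ([(24360, 6), (23184, 8)], [], []), ([(24528, 6), (23352, 8)], [], []), ([(24696, 6), (23520, 8)], [], []), ([], [(11592, 2), (12096, 6), (11760, 6)], []), ([], [(13440, 2), (13944, 6), (13608, 6)], []), ([(22848, 2)], [(15288, 6), (14952, 6)], []), ([(23016, 2), (23688, 6)], [(16464, 6)], []), ([(23184, 2), (24864, 6), (23856, 6)], [], []), ([(23352, 2), (25032, 6), (24024, 6)], [], []), ([(23520, 2), (25200, 6), (24192, 6)], [], []), ([], [(27552, 1), (28224, 6), (27888, 4), (27720, 5)], []), ([], [(29736, 1), (30408, 6), (30072, 4), (29904, 5)], []), ([(38472, 1), (40488, 6), (39480, 4), (38976, 5)], [], []), ([(38640, 1), (40656, 6), (39648, 4), (39144, 5)], [], []), ([(38808, 1), (40824, 6), (39816, 4), (39312, 5)], [], []), ([], [(27888, 1), (27720, 2), (28392, 6), (28056, 7)], []), ([], [(30072, 1), (29904, 2), (30576, 6), (30240, 7)], []),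 ([(39480, 1), (38976, 2), (40992, 6), (39984, 7)], [], []), ([(39648, 1), (39144, 2), (41160, 6), (40152, 7)], [], []), ([(39816, 1), (39312, 2), (41328, 6), (40320, 7)], [], [])]⟩

/-- group -/
noncomputable def tab79bg61 : Grp :=
  ⟨11, 3, 77616, 111888, [(24192, 0), (24360, 0), (24528, 0), (24696, 0), (24864, 0), (25032, 0), (25200, 0), (25368, 0), (25536, 0), (25704, 0), (25872, 0), (26040, 0), (26208, 0), (26376, 0), (26544, 0), (26712, 0), (26880, 0), (27048, 0), (27216, 0), (27384, 0), (6720, 1), (7728, 1), (1512, 0), (1680, 0), (1848, 0), (2016, 0), (2184, 0), (2352, 0), (2520, 0), (2688, 0), (2856, 0), (0, 1), (1512, 1), (8736, 0), (8904, 0), (9072, 0), (9240, 0), (9408, 0), (13104, 1), (19824, 0), (19992, 0), (20160, 0), (20328, 0), (13272, 1), (20496, 0), (20664, 0), (20832, 0), (21000, 0)],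
   [(26544, 0), (26712, 0), (26880, 0), (27048, 0), (27216, 0), (27384, 0), (27552, 0), (27720, 0), (27888, 0), (28056, 0), (28224, 0), (28392, 0), (28560, 0), (28728, 0), (28896, 0), (29064, 0), (29232, 0), (29400, 0), (29568, 0), (29736, 0), (0, 1), (1680, 2), (1848, 0), (2016, 0), (2184, 0), (2352, 0), (2520, 0), (2688, 0), (2856, 0), (3024, 0), (3192, 0), (11256, 1), (20328, 0), (20496, 0), (20664, 0), (20832, 0), (21000, 0), (21168, 0), (27048, 1), (35952, 0), (36120, 0), (36288, 0), (36456, 0), (27216, 1), (36624, 0), (36792, 0), (36960, 0), (37128, 0)],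
   [([], [(33936, 9)], []), ([], [(34608, 9)], []), ([], [(35280, 9)], []), ([], [(35952, 9)], []), ([], [(36624, 9)], []), ([], [(37296, 9)], []), ([], [(37968, 9)], []), ([(29904, 9)], [], []), ([(30072, 9)], [], []), ([(30240, 9)], [], []), ([(30408, 9)], [], []), ([(30576, 9)], [], []), ([(30744, 9)], [], []), ([(30912, 9)], [], []), ([(31080, 9)], [], []), ([(31248, 9)], [], []), ([(31416, 9)], [], []), ([(31584, 9)], [], []), ([(31752, 9)], [], []), ([(31920, 9)], [], []), ([], [(336, 9), (168, 4)], []), ([], [(2016, 9), (1848, 4)], []), ([], [(3528, 9)], [(3360, 4)]), ([(3528, 4)], [], [(4872, 9)]), ([(5040, 9), (3696, 4)], [], []), ([(5208, 9), (3864, 4)], [], []), ([(5376, 9), (4032, 4)], [], []), ([(5544, 9), (4200, 4)], [], []), ([(5712, 9), (4368, 4)], [], []), ([(5880, 9), (4536, 4)], [], []), ([(6048, 9), (4704, 4)], [], []), ([], [(11424, 1), (11760, 9), (11592, 5)], []), ([], [(13272, 1), (13608, 9), (13440, 5)], []), ([(21336, 1), (23016, 9), (22176, 5)], [],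 []), ([(21504, 1), (23184, 9), (22344, 5)], [], []), ([(21672, 1), (23352, 9), (22512, 5)], [], []), ([(21840, 1), (23520, 9), (22680, 5)], [], []), ([(22008, 1), (23688, 9), (22848, 5)], [], []), ([], [(27720, 9), (27384, 8)], []), ([(37296, 8)], [(29904, 9)], []), ([(38640, 9), (37464, 8)], [], []), ([(38808, 9), (37632, 8)], [], []), ([(38976, 9), (37800, 8)], [], []), ([], [(27384, 2), (27888, 9), (27552, 6)], []), ([(37296, 2), (37968, 6)], [(30072, 9)], []), ([(37464, 2), (39144, 9), (38136, 6)], [], []), ([(37632, 2), (39312, 9), (38304, 6)], [], []), ([(37800, 2), (39480, 9), (38472, 6)], [], [])]⟩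

/-- group -/
noncomputable def tab79bg62 : Grp :=
  ⟨11, 4, 77448, 122808, [(12768, 0), (12936, 0), (13104, 0), (13272, 0), (13440, 0), (13608, 0), (13776, 0), (13944, 0), (14112, 0), (14280, 0), (14448, 0), (14616, 0), (14784, 0), (14952, 0), (0, 1), (7896, 0), (8064, 0), (8232, 0), (8400, 0), (8568, 0), (8736, 0), (13104, 1), (19320, 0), (19488, 0), (19656, 0), (19824, 0)],
   [(0, 0), (168, 0), (336, 0), (504, 0), (672, 0), (840, 0), (1008, 0), (1176, 0), (1344, 0), (1512, 0), (1680, 0), (1848, 0), (2016, 0), (2184, 0), (168, 1), (8400, 0), (8568, 0), (8736, 0), (8904, 0), (9072, 0), (9240, 0), (15960, 1), (24360, 0), (24528, 0), (24696, 0), (24864, 0)],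
   [([], [(7392, 12)], []), ([], [(8400, 12)], []), ([], [(9408, 12)], []), ([(2352, 12)], [], []), ([(2520, 12)], [], []), ([(2688, 12)], [], []), ([(2856, 12)], [], []), ([(3024, 12)], [], []), ([(3192, 12)], [], []), ([(3360, 12)], [], []), ([(3528, 12)], [], []), ([(3696, 12)], [], []), ([(3864, 12)], [], []), ([(4032, 12)], [], []), ([], [(504, 12), (336, 4)], []), ([(9408, 4)], [(2352, 12)], []), ([(10416, 12), (9576, 4)], [], []), ([(10584, 12), (9744, 4)], [], []), ([(10752, 12), (9912, 4)], [], []), ([(10920, 12), (10080, 4)], [], []), ([(11088, 12), (10248, 4)], [], []), ([], [(16128, 1), (16464, 12), (16296, 5)], []), ([(25032, 1), (26376, 12), (25704, 5)], [], []), ([(25200, 1), (26544, 12), (25872, 5)], [], []), ([(25368, 1), (26712, 12), (26040, 5)], [], []), ([(25536, 1), (26880, 12), (26208, 5)], [], [])]⟩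

/-- group -/
noncomputable def tab79bg63 : Grp :=
  ⟨11, 5, 77280, 111720, [(0, 0), (168, 0), (336, 0), (504, 0), (672, 0), (840, 0), (1008, 0), (1176, 0), (1344, 0), (1512, 0), (1680, 0), (13104, 1), (18816, 0), (18984, 0), (19152, 0), (19320, 0)],
   [(0, 2), (168, 0), (336, 0), (504, 0), (672, 0), (840, 0), (1008, 0), (1176, 0), (1344, 0), (1512, 0), (1680, 0), (26880, 1), (34776, 0), (34944, 0), (35112, 0), (35280, 0)],
   [([], [(168, 15)], []), ([], [], [(1848, 15)]), ([(2016, 15)], [], []), ([(2184, 15)], [], []), ([(2352, 15)], [], []), ([(2520, 15)], [], []), ([(2688, 15)], [], []), ([(2856, 15)], [], []), ([(3024, 15)], [], []), ([(3192, 15)], [], []), ([(3360, 15)], [], []), ([], [(27216, 15), (27048, 4)], []), ([(36120, 15), (35448, 4)], [], []), ([(36288, 15), (35616, 4)], [], []), ([(36456, 15), (35784, 4)], [], []), ([(36624, 15), (35952, 4)], [], [])]⟩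

/-- group -/
noncomputable def tab79bg64 : Grp :=
  ⟨11, 6, 77280, 122808, [(0, 1), (7056, 0), (7224, 0), (7392, 0), (7560, 0), (7728, 0), (7896, 0)],
   [(0, 1), (7392, 0), (7560, 0), (7728, 0), (7896, 0), (8064, 0), (8232, 0)],
   [([], [(168, 18)], []), ([(8400, 18)], [], []), ([(8568, 18)], [], []), ([(8736, 18)], [], []), ([(8904, 18)], [], []), ([(9072, 18)], [], []), ([(9240, 18)], [], [])]⟩

/-- group -/
noncomputable def tab79bg65 : Grp :=
  ⟨11, 7, 90216, 138432, [(0, 1), (5208, 0), (5376, 0), (5544, 0), (5712, 0)],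
   [(0, 1), (7392, 0), (7560, 0), (7728, 0), (7896, 0)],
   [([], [(168, 21)], []), ([(8064, 21)], [], []), ([(8232, 21)], [], []), ([(8400, 21)], [], []), ([(8568, 21)], [], [])]⟩

/-- column -/
noncomputable def tab79bc0 : ℕ × List Blk := (0, [(0, 0, [(0, 2)])])

/-- column -/
noncomputable def tab79bc1 : ℕ × List Blk := (1, [(168, 0, [(1, 1), (168, 2)])])

/-- column -/
noncomputable def tab79bc2 : ℕ × List Blk := (2, [(168, 0, [(1, 0), (337, 0), (168, 2)])])

/-- column -/
noncomputable def tab79bc3 : ℕ × List Blk := (3, [(504, 0, [(1, 1), (337, 1), (673, 1), (1176, 2)])])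

/-- column -/
noncomputable def tab79bc4 : ℕ × List Blk := (4, [(672, 0, [(1, 1), (337, 1), (673, 1), (1177, 1), (1344, 2)])])

/-- column -/
noncomputable def tab79bc5 : ℕ × List Blk := (5, [(336, 0, [(1, 2), (505, 0), (505, 1), (1849, 0), (2017, 0), (1344, 2)])])

/-- column -/
noncomputable def tab79bc6 : ℕ × List Blk := (6, [(504, 0, [(1, 0), (673, 0), (337, 0), (2185, 0), (2353, 0), (1681, 0), (1176, 2)])])

/-- column -/
noncomputable def tab79bc7 : ℕ × List Blk := (7, [(672, 0, [(1, 0), (673, 0), (337, 0), (2185, 0), (2521, 0), (1681, 0), (1177, 0), (1344, 2)])])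

/-- column -/
noncomputable def tab79bc8 : ℕ × List Blk := (8, [(1176, 0, [(1, 1), (1009, 1), (1513, 1), (2353, 1), (3025, 0), (3361, 1), (4201, 1), (4369, 1), (5376, 2)])])

/-- column -/
noncomputable def tab79bc9 : ℕ × List Blk := (9, [(1344, 0, [(1, 1), (1009, 1), (1513, 1), (2353, 1), (3025, 0), (3361, 1), (4201, 1), (4537, 1), (5377, 1), (5712, 2)])])

/-- column -/
noncomputable def tab79bc10 : ℕ × List Blk := (10, [(1512, 0, [(1, 1), (1009, 1), (1513, 1), (2353, 1), (2521, 1), (3361, 1), (4201, 1), (4705, 1), (5377, 1), (5713, 1), (5880, 2)])])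

/-- column -/
noncomputable def tab79bc11 : ℕ × List Blk := (11, [(840, 0, [(1, 1), (841, 2), (1345, 1), (2689, 0), (2857, 0), (2689, 1), (3697, 1), (3865, 1), (6721, 0), (6889, 0), (7057, 0), (5712, 2)])])

/-- column -/
noncomputable def tab79bc12 : ℕ × List Blk := (12, [(1008, 0, [(1, 1), (841, 1), (1345, 1), (3193, 1), (3361, 1), (2689, 1), (3697, 1), (4033, 1), (7729, 1), (7897, 1), (8065, 1), (5713, 1), (6048, 2)])])

/-- column -/
noncomputable def tab79bc13 : ℕ × List Blk := (13, [(840, 0, [(1, 0), (1345, 0), (841, 2), (3697, 0), (3865, 0), (2689, 0), (2689, 1), (2857, 1), (8401, 0), (8569, 0), (8737, 0), (6721, 0), (6889, 0), (5712, 2)])])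

/-- column -/
noncomputable def tab79bc14 : ℕ × List Blk := (14, [(1008, 0, [(1, 0), (1345, 0), (841, 0), (3697, 0), (4033, 0), (2689, 0), (3193, 0), (3361, 0), (8401, 0), (8737, 0), (9073, 0), (6721, 0), (7057, 0), (5713, 0), (6048, 2)])])

/-- column -/
noncomputable def tab79bc15 : ℕ × List Blk := (15, [(1176, 0, [(1, 0), (1513, 0), (1009, 0), (4201, 0), (4369, 0), (3361, 0), (2353, 0), (3025, 1), (9241, 0), (9409, 0), (9577, 0), (8065, 0), (8233, 0), (6385, 0), (7561, 1), (5376, 2)])])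

/-- column -/
noncomputable def tab79bc16 : ℕ × List Blk := (16, [(1344, 0, [(1, 0), (1513, 0), (1009, 0), (4201, 0), (4537, 0), (3361, 0), (2353, 0), (3025, 1), (9241, 0), (9577, 0), (9913, 0), (8065, 0), (8401, 0), (6385, 0), (7561, 1), (5377, 0), (5712, 2)])])

/-- column -/
noncomputable def tab79bc17 : ℕ × List Blk := (17, [(1512, 0, [(1, 0), (1513, 0), (1009, 0), (4201, 0), (4705, 0), (3361, 0), (2353, 0), (2521, 0), (9241, 0), (9745, 0), (10417, 0), (8065, 0), (8569, 0), (6385, 0), (7561, 1), (5377, 0), (5713, 0), (5880, 2)])])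

/-- column -/
noncomputable def tab79bc18 : ℕ × List Blk := (18, [(2184, 0, [(1, 1), (1345, 1), (2353, 1), (4369, 2), (4537, 0), (5377, 1), (7057, 1), (7225, 1), (10081, 0), (10249, 0), (10417, 0), (10081, 1), (11593, 0), (12601, 1), (12769, 1), (14953, 1), (15121, 1), (15289, 1), (19152, 2)])])

/-- column -/
noncomputable def tab79bc19 : ℕ × List Blk := (19, [(2352, 0, [(1, 1), (1345, 1), (2353, 1), (4369, 1), (4705, 2), (5377, 1), (7057, 1), (7393, 1), (11425, 1), (11761, 1), (10753, 0), (10081, 1), (11761, 0), (12601, 1), (12937, 1), (14953, 1), (15289, 1), (15625, 1), (19153, 1), (19824, 2)])])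

/-- column -/
noncomputable def tab79bc20 : ℕ × List Blk := (20, [(2520, 0, [(1, 1), (1345, 1), (2353, 1), (4369, 1), (4705, 1), (5377, 1), (7057, 1), (7561, 1), (11425, 1), (11761, 1), (11929, 1)]), (12600, 11, [(1, 1), (505, 1), (2521, 1), (3025, 1), (4873, 1), (5377, 1), (6049, 1), (9073, 1), (9745, 1), (10248, 2)])])

/-- column -/
noncomputable def tab79bc21 : ℕ × List Blk := (21, [(1680, 0, [(1, 2), (1849, 0), (1849, 1), (5881, 0), (6049, 0), (4873, 2), (5881, 1), (6049, 1), (13105, 0), (13273, 0), (13441, 0)]), (12264, 11, [(1, 0), (169, 0), (1, 1), (169, 1), (2521, 1), (2689, 1), (2857, 1), (11593, 0), (11761, 0), (11929, 0), (9072, 2)])])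

/-- column -/
noncomputable def tab79bc22 : ℕ × List Blk := (22, [(1848, 0, [(1, 1), (2353, 1), (1849, 1), (6889, 1), (7057, 1), (4873, 1), (5881, 1), (6217, 1), (14449, 1), (14617, 1), (14785, 1), (11929, 1)]), (12432, 12, [(1681, 1), (1, 1), (337, 1), (2521, 1), (2857, 1), (3193, 1), (13441, 1), (13777, 1), (14113, 1), (9073, 1), (9744, 2)])])

/-- column -/
noncomputable def tab79bc23 : ℕ × List Blk := (23, [(1848, 0, [(1, 0), (1849, 0), (2353, 0), (5881, 0), (6217, 0), (4873, 0), (6889, 0), (7057, 0), (13105, 0), (13441, 0), (13777, 0), (10585, 0)]), (12768, 12, [(1, 0), (1009, 0), (1345, 0), (3529, 0), (3697, 0), (3865, 0), (11257, 0), (11593, 0), (11929, 0), (8737, 0), (9073, 0), (9408, 2)])])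

/-- column -/
noncomputable def tab79bc24 : ℕ × List Blk := (24, [(2016, 0, [(1, 2), (2353, 1), (2353, 0), (6889, 1), (6385, 0), (5041, 2), (6889, 0), (6385, 1), (14449, 1), (14785, 1), (13945, 0), (12097, 1), (11257, 0)]), (13272, 13, [(841, 0), (1, 1), (3193, 0), (3529, 0), (2689, 1), (12937, 1), (11761, 0), (12097, 0), (8905, 2), (9241, 0), (9241, 1), (10080, 2)])])

/-- column -/
noncomputable def tab79bc25 : ℕ × List Blk := (25, [(2184, 0, [(1, 0), (2353, 0), (1345, 0), (7057, 0), (7225, 0), (5377, 0), (4369, 2), (4537, 1), (14953, 0), (15121, 0), (15289, 0), (12601, 0), (12769, 0)]), (12264, 13, [(1, 0), (1513, 1), (1, 1), (169, 1), (337, 1), (15121, 0), (15289, 0), (15457, 0), (11593, 0), (11761, 0), (13609, 1), (13945, 1), (9072, 2)])])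

/-- column -/
noncomputable def tab79bc26 : ℕ × List Blk := (26, [(2352, 0, [(1, 0), (2353, 0), (1345, 0), (7057, 0), (7393, 0), (5377, 0), (4369, 0), (4705, 2), (14953, 0), (15289, 0), (15625, 0), (12601, 0), (12937, 0), (10081, 0)]), (13104, 14, [(1009, 1), (673, 0), (1009, 0), (1, 1), (14449, 0), (14785, 0), (15121, 0), (10921, 0), (11257, 0), (13105, 1), (11929, 0), (8401, 0), (9072, 2)])])

/-- column -/
noncomputable def tab79bc27 : ℕ × List Blk := (27, [(2520, 0, [(1, 0), (2353, 0), (1345, 0), (7057, 0), (7561, 0), (5377, 0), (4369, 0), (4705, 0), (14953, 0), (15457, 0), (16129, 0), (12601, 0), (13105, 0), (10081, 0)]), (13104, 14, [(1, 0), (841, 0), (1177, 0), (1345, 0), (14617, 0), (15121, 0), (15793, 0), (11089, 0), (11593, 0), (13441, 1), (12265, 0), (8569, 0), (9241, 0), (9744, 2)])])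

/-- column -/
noncomputable def tab79bc28 : ℕ × List Blk := (28, [(4536, 0, [(1, 1), (3025, 1), (4705, 1), (7729, 1), (9241, 0), (10249, 1), (12601, 1), (12769, 1), (16801, 2), (16969, 0), (17137, 0), (19321, 1), (21337, 0), (22849, 1), (23017, 1)]), (31080, 15, [(1, 1), (169, 1), (337, 1), (2353, 1), (5377, 0), (5545, 0), (8233, 1), (11425, 0), (8401, 1), (11761, 0), (13777, 1), (13945, 1), (14113, 1), (18480, 2)])])

/-- column -/
noncomputable def tab79bc29 : ℕ × List Blk := (29, [(4704, 0, [(1, 1), (3025, 1), (4705, 1), (7729, 1), (9409, 0), (10249, 1), (12601, 1), (12937, 1), (16801, 1), (17473, 2), (17641, 0), (19321, 1), (21505, 0), (22849, 1), (23185, 1)]), (31248, 15, [(1, 1), (337, 1), (673, 1), (2353, 1), (5881, 0), (6049, 0), (8233, 1), (11593, 0), (8569, 1), (12265, 0), (13777, 1), (14113, 1), (14449, 1), (18481, 1), (19488, 2)])])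

/-- column -/
noncomputable def tab79bc30 : ℕ × List Blk := (30, [(4872, 0, [(1, 1), (3025, 1), (4705, 1), (7729, 1), (8233, 1), (10249, 1), (12601, 1), (13105, 1), (16801, 1), (17473, 1), (17977, 2), (19321, 1), (21673, 0), (22849, 1), (23353, 1), (26545, 1)]), (31920, 16, [(1, 1), (673, 1), (1849, 1), (2689, 1), (5881, 0), (7729, 1), (11257, 0), (8233, 1), (9241, 1), (13273, 1), (13777, 1), (14449, 1), (17977, 1), (18985, 1), (19824, 2)])])

/-- column -/
noncomputable def tab79bc31 : ℕ × List Blk := (31, [(5040, 0, [(1, 1), (3025, 1), (4705, 1), (7729, 1), (8233, 1), (10249, 1), (12601, 1), (13273, 1), (16801, 1), (17473, 1), (17977, 1), (19321, 1), (19993, 1), (22849, 1), (23521, 1), (26545, 1)]), (32256, 16, [(1, 1), (673, 1), (1681, 1), (2521, 1), (6049, 0), (7561, 1), (11257, 0), (8233, 1), (9241, 1), (13105, 1), (13777, 1), (14449, 1), (17809, 1), (18817, 1), (19657, 1), (20328, 2)])])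

/-- column -/
noncomputable def tab79bc32 : ℕ × List Blk := (32, [(5208, 0, [(1, 1), (3025, 1), (4705, 1), (7729, 1), (8233, 1), (10249, 1), (12601, 1), (13273, 1), (16801, 1), (17473, 1), (17977, 1), (19321, 1), (19993, 1), (22849, 1), (23521, 1), (26545, 1), (27217, 1)]), (33264, 17, [(1, 1), (841, 1), (1681, 1), (2185, 1), (6721, 1), (10585, 0), (7393, 1), (8401, 1), (12265, 1), (12937, 1), (13777, 1), (16969, 1), (17977, 1), (18817, 1), (19489, 1), (19992, 2)])])

/-- column -/
noncomputable def tab79bc33 : ℕ × List Blk := (33, [(3528, 0, [(1, 1), (3025, 2), (4033, 1), (8737, 0), (8905, 0), (8737, 1), (11257, 1), (11425, 1), (20329, 0), (20497, 0), (20665, 0), (17809, 2), (17977, 0), (20329, 1), (20497, 1), (23857, 1), (24025, 1)]), (27720, 17, [(1, 1), (5713, 0), (5881, 0), (6049, 0), (5713, 1), (8737, 0), (5881, 1), (9409, 0), (11593, 1), (11761, 1), (11929, 1), (26545, 0), (26713, 0), (26881, 0), (27049, 0), (27217, 0), (21840, 2)])])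

/-- column -/
noncomputable def tab79bc34 : ℕ × List Blk := (34, [(3696, 0, [(1, 1), (3025, 1), (4033, 1), (10081, 1), (10417, 1), (8737, 1), (11257, 1), (11593, 1), (22177, 1), (22513, 1), (22849, 1), (17809, 1), (18481, 2), (20329, 1), (20665, 1), (23857, 1), (24193, 1), (24529, 1)]), (33600, 18, [(2857, 1), (3529, 1), (1009, 0), (1, 1), (3529, 0), (337, 1), (1177, 1), (5881, 1), (6217, 1), (6553, 1), (25537, 1), (26209, 1), (26881, 1), (22513, 0), (22681, 0), (16129, 1), (17136, 2)])])

/-- column -/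
noncomputable def tab79bc35 : ℕ × List Blk := (35, [(3864, 0, [(1, 1), (3025, 1), (4033, 1), (10081, 1), (10417, 1), (8737, 1), (11257, 1), (11761, 1), (22177, 1), (22513, 1), (22849, 1), (17809, 1), (18481, 1), (20329, 1), (20833, 1), (23857, 1), (24361, 1), (25033, 1)]), (33768, 18, [(2857, 1), (3529, 1), (4033, 1), (1, 1), (841, 1), (505, 1), (1345, 1), (5881, 1), (6385, 1), (7057, 1), (25537, 1), (26209, 1), (26881, 1), (27385, 1), (27889, 1), (16129, 1), (17137, 1), (17976, 2)])])

/-- column -/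
noncomputable def tab79bc36 : ℕ × List Blk := (36, [(4200, 0, [(1, 0), (2521, 0), (4537, 0), (8233, 0), (8569, 0), (9577, 0), (12097, 0), (12265, 0), (19825, 0), (20161, 0), (20497, 0), (17305, 0), (17641, 0), (21673, 0), (22009, 0), (25705, 0), (25873, 0), (26041, 0), (29401, 0)]), (33936, 19, [(1, 0), (337, 0), (2521, 0), (2857, 0), (3193, 0), (3529, 0), (8569, 0), (8905, 0), (9241, 0), (20497, 0), (20833, 0), (21169, 0), (21505, 0), (21673, 0), (15793, 0), (16129, 0), (16465, 0), (16800, 2)])])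

/-- column -/
noncomputable def tab79bc37 : ℕ × List Blk := (37, [(4368, 0, [(1, 0), (2689, 2), (4537, 0), (9745, 1), (8905, 0), (9745, 0), (12097, 0), (12433, 0), (21841, 1), (20665, 0), (21001, 0), (17809, 2), (18145, 0), (21841, 0), (20665, 1), (25705, 0), (26041, 0), (26377, 0), (32761, 1)]), (34776, 19, [(1, 0), (337, 0), (2353, 0), (2689, 0), (1, 1), (3697, 0), (8065, 0), (8737, 0), (6385, 1), (25033, 1), (21337, 0), (21673, 0), (22009, 0), (22177, 0), (15961, 2), (16297, 0), (16633, 0), (16297, 1), (17808, 2)])])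

/-- column -/
noncomputable def tab79bc38 : ℕ × List Blk := (38, [(4032, 0, [(1, 1), (3193, 1), (5041, 0), (10249, 1), (10585, 1), (9073, 1), (12601, 0), (11929, 1), (22345, 1), (22849, 1), (23185, 1), (18313, 1), (18985, 0), (22513, 0), (21337, 1), (26209, 0), (26713, 0), (25537, 1), (33265, 1), (34273, 1)]), (34608, 20, [(1009, 0), (1, 1), (3361, 0), (505, 1), (1345, 1), (8569, 0), (6553, 1), (7225, 1), (25369, 1), (26545, 1), (27553, 1), (23017, 0), (23185, 0), (16297, 1), (17305, 0), (17641, 0), (16801, 1), (18313, 1), (19152, 2)])])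

/-- column -/
noncomputable def tab79bc39 : ℕ × List Blk := (39, [(3528, 0, [(1, 0), (4033, 0), (3025, 2), (11257, 0), (11425, 0), (8737, 0), (8737, 1), (8905, 1), (23857, 0), (24025, 0), (24193, 0), (20329, 0), (20497, 0), (17809, 2), (17977, 1), (20329, 1), (20497, 1), (20665, 1), (35785, 0), (35953, 0)]), (33432, 20, [(6217, 0), (1, 0), (169, 0), (3025, 1), (3697, 1), (1, 1), (169, 1), (337, 1), (30073, 0), (30241, 0), (30409, 0), (30577, 0), (30745, 0), (20833, 0), (21001, 0), (21169, 0), (25705, 1), (26377, 1), (27049, 1), (16128, 2)])])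

/-- column -/
noncomputable def tab79bc40 : ℕ × List Blk := (40, [(4200, 0, [(1, 1), (4537, 1), (2521, 1), (12097, 1), (12265, 1), (9577, 1), (8233, 1), (8569, 1), (25705, 1), (25873, 1), (26041, 1), (21673, 1), (22009, 1), (17305, 1)]), (21840, 14, [(1, 1), (2185, 1), (2521, 1), (2857, 1), (20665, 1), (21001, 1), (21337, 1), (14617, 1), (15289, 1), (14953, 1), (15625, 1), (11761, 1), (12097, 1), (12433, 1)]), (49728, 28, [(17473, 1), (17809, 1), (18145, 1), (18481, 1), (18817, 1), (9409, 1), (10081, 1), (10753, 1), (9745, 1), (10417, 1), (11089, 1), (1, 1), (1008, 2)])])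

/-- column -/
noncomputable def tab79bc41 : ℕ × List Blk := (41, [(3696, 0, [(1, 0), (4033, 0), (3025, 0), (11257, 0), (11593, 0), (8737, 0), (10081, 0), (10417, 0), (23857, 0), (24193, 0), (24529, 0), (20329, 0), (20665, 0), (17809, 0)]), (22176, 14, [(1, 2), (3697, 0), (4033, 0), (4369, 0), (17305, 0), (17641, 0), (17977, 0), (11425, 0), (11761, 0), (14953, 1), (12601, 0), (14281, 0), (14953, 0), (12433, 1)]), (49728, 28, [(13945, 0), (14281, 0), (14617, 0), (14953, 0), (15121, 0), (4705, 0), (5041, 0), (5377, 0), (10081, 1), (6385, 0), (6721, 0), (1, 0), (337, 0), (1008, 2)])])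

/-- column -/
noncomputable def tab79bc42 : ℕ × List Blk := (42, [(4368, 0, [(1, 1), (4537, 1), (2689, 2), (12097, 1), (12433, 1), (9745, 1), (9745, 0), (8905, 1), (25705, 1), (26041, 1), (26377, 1), (21841, 1), (20665, 0), (17809, 2), (18145, 1)]), (25032, 15, [(1177, 0), (1, 1), (337, 1), (17809, 1), (18481, 1), (16129, 0), (12097, 1), (9745, 0), (12433, 1), (13441, 1), (12097, 0), (9745, 1), (10081, 1), (42505, 1), (43177, 1)]), (50736, 30, [(18145, 1), (15121, 0), (15289, 0), (9073, 1), (5377, 0), (5713, 0), (9409, 1), (10585, 1), (11593, 1), (1, 2), (337, 0), (337, 1), (1848, 2)])])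

/-- column -/
noncomputable def tab79bc43 : ℕ × List Blk := (43, [(3864, 0, [(1, 0), (4033, 0), (3025, 0), (11257, 0), (11761, 0), (8737, 0), (10081, 0), (10417, 0), (23857, 0), (24361, 0), (25033, 0), (20329, 0), (20833, 0), (17809, 0), (18481, 0)]), (26040, 15, [(1, 0), (337, 0), (673, 0), (13609, 0), (14113, 0), (14785, 0), (7729, 0), (8233, 0), (8569, 0), (9073, 0), (10585, 0), (11257, 0), (11761, 0), (37801, 0), (38305, 0)]), (49896, 30, [(15121, 0), (15457, 0), (15793, 0), (4705, 0), (5209, 0), (5881, 0), (10585, 1), (6553, 0), (7225, 0), (1, 0), (505, 0), (1009, 0), (1513, 0), (1848, 2)])])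

/-- column -/
noncomputable def tab79bc44 : ℕ × List Blk := (44, [(4032, 0, [(1, 0), (5041, 1), (3193, 0), (12601, 1), (11929, 0), (9073, 0), (10249, 0), (10585, 0), (26209, 1), (26713, 1), (25537, 0), (22513, 1), (21337, 0), (18313, 0), (18985, 1)]), (26376, 15, [(1, 0), (505, 0), (841, 0), (16801, 1), (14785, 0), (15457, 0), (8233, 0), (8737, 0), (11593, 1), (9577, 0), (10921, 0), (11929, 0), (9241, 1), (41497, 1), (42505, 1)]), (50904, 30, [(15289, 0), (15625, 0), (15961, 0), (9577, 1), (5545, 0), (6217, 0), (9913, 1), (11425, 1), (7729, 0), (1, 0), (505, 0), (1009, 1), (2017, 0), (1345, 1), (2856, 2)])])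

/-- column -/
noncomputable def tab79bc45 : ℕ × List Blk := (45, [(4536, 0, [(1, 0), (4705, 0), (3025, 0), (12601, 0), (12769, 0), (10249, 0), (7729, 0), (9241, 1), (26545, 0), (26713, 0), (26881, 0), (22849, 0), (23017, 0), (19321, 0), (21337, 1), (16801, 2)]), (21504, 16, [(1, 1), (169, 1), (23353, 0), (23521, 0), (23689, 0), (17809, 0), (17977, 0), (21001, 1), (21337, 1), (11929, 0), (14953, 1), (15121, 1), (49057, 0), (49225, 0), (49393, 0), (49561, 0)]), (49560, 32, [(21673, 0), (13945, 0), (14113, 0), (14281, 0), (17641, 1), (17977, 1), (18313, 1), (4705, 0), (4873, 0), (9577, 1), (10249, 1), (9745, 1), (10417, 1), (0, 2)])])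

/-- column -/
noncomputable def tab79bc46 : ℕ × List Blk := (46, [(4704, 0, [(1, 0), (4705, 0), (3025, 0), (12601, 0), (12937, 0), (10249, 0), (7729, 0), (9409, 1), (26545, 0), (26881, 0), (27217, 0), (22849, 0), (23185, 0), (19321, 0), (21505, 1), (16801, 0)]), (22176, 16, [(1, 2), (169, 1), (22849, 0), (23185, 0), (23521, 0), (17305, 0), (17641, 0), (20665, 1), (21337, 1), (11425, 0), (14953, 1), (15121, 1), (48553, 0), (48889, 0), (49225, 0), (49561, 0)]), (49728, 32, [(22177, 0), (13945, 0), (14281, 0), (14617, 0), (17809, 1), (18481, 1), (19153, 1), (4705, 0), (5041, 0), (10081, 1), (6385, 0), (10249, 1), (11425, 1), (1, 0), (1008, 2)])])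

/-- column -/
noncomputable def tab79bc47 : ℕ × List Blk := (47, [(4872, 0, [(1, 0), (4705, 0), (3025, 0), (12601, 0), (13105, 0), (10249, 0), (7729, 0), (8233, 0), (26545, 0), (27049, 0), (27721, 0), (22849, 0), (23353, 0), (19321, 0), (21673, 1), (16801, 0)]), (22344, 16, [(1, 0), (505, 2), (22849, 0), (23353, 0), (24025, 0), (17305, 0), (17809, 0), (20833, 1), (18817, 0), (11425, 0), (12265, 0), (15457, 1), (48553, 0), (49057, 0), (49729, 0), (50065, 0)]), (49896, 32, [(22849, 0), (13945, 0), (14449, 0), (15121, 0), (17977, 1), (18985, 1), (16297, 0), (4705, 0), (5209, 0), (10585, 1), (6553, 0), (10753, 1), (12265, 1), (1, 0), (1009, 0), (1848, 2)])])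

/-- column -/
noncomputable def tab79bc48 : ℕ × List Blk := (48, [(5040, 0, [(1, 0), (4705, 0), (3025, 0), (12601, 0), (13273, 0), (10249, 0), (7729, 0), (8233, 0), (26545, 0), (27217, 0), (27889, 0), (22849, 0), (23521, 0), (19321, 0), (19993, 0), (16801, 0), (17473, 0)]), (23016, 17, [(1, 0), (22345, 0), (23017, 0), (23689, 0), (16801, 0), (17473, 0), (20497, 1), (18481, 0), (10921, 0), (11761, 0), (15289, 1), (48049, 0), (48721, 0), (49393, 0), (49897, 0), (50065, 0), (40993, 0)]), (50064, 34, [(14617, 0), (15289, 0), (18145, 1), (15793, 0), (16465, 0), (4705, 0), (5377, 0), (6049, 0), (6721, 0), (11089, 1), (7561, 0), (1, 0), (1009, 0), (1849, 0), (2520, 2)])])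

/-- column -/
noncomputable def tab79bc49 : ℕ × List Blk := (49, [(5208, 0, [(1, 0), (4705, 0), (3025, 0), (12601, 0), (13273, 0), (10249, 0), (7729, 0), (8233, 0), (26545, 0), (27217, 0), (28057, 0), (22849, 0), (23521, 0), (19321, 0), (19993, 0), (16801, 0), (17473, 0)]), (23184, 17, [(1, 0), (22345, 0), (23017, 0), (23857, 0), (16801, 0), (17473, 0), (20665, 1), (18481, 0), (10921, 0), (11761, 0), (12265, 0), (48049, 0), (48721, 0), (49561, 0), (49897, 0), (50569, 0), (40993, 0)]), (50232, 34, [(14617, 0), (15457, 0), (18313, 1), (15793, 0), (16633, 0), (4705, 0), (5377, 0), (6049, 0), (6721, 0), (11425, 1), (7561, 0), (1, 0), (1009, 0), (1849, 0), (2521, 0), (3024, 2)])])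

/-- column -/
noncomputable def tab79bc50 : ℕ × List Blk := (50, [(7560, 0, [(1, 1), (4705, 1), (7225, 1), (13777, 2), (13945, 0), (16297, 1), (19825, 1), (19993, 1), (25873, 0), (26041, 0), (26209, 0), (25873, 1), (28897, 0), (31753, 1), (31921, 1), (37297, 1), (37465, 1)]), (45192, 17, [(1, 1), (4369, 2), (4537, 0), (4705, 0), (9073, 1), (13945, 0), (9241, 1), (14617, 0), (18313, 1), (18481, 1), (18649, 1), (32089, 0), (32257, 0), (32425, 0), (32593, 0), (32761, 0), (32089, 1)]), (77448, 34, [(6889, 0), (7057, 0), (1, 1), (7897, 0), (8065, 0), (12769, 1), (17977, 0), (12937, 1), (18649, 0), (13105, 1), (19321, 0), (24361, 1), (24529, 1), (24697, 1), (24865, 1), (25033, 1), (34272, 2)])])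

/-- column -/
noncomputable def tab79bc51 : ℕ × List Blk := (51, [(7728, 0, [(1, 1), (4705, 1), (7225, 1), (13777, 1), (14449, 2), (16297, 1), (19825, 1), (20161, 1), (28729, 1), (29401, 1), (26881, 0), (25873, 1), (29401, 0), (31753, 1), (32089, 1), (37297, 1), (37633, 1), (37969, 1)]), (49728, 18, [(1, 1), (1009, 2), (1177, 0), (4705, 1), (10081, 0), (5041, 1), (6385, 1), (13945, 1), (14281, 1), (14617, 1), (34609, 1), (35617, 1), (29401, 0), (29569, 0), (29737, 0), (27721, 1), (35617, 0), (35785, 0)]), (77784, 36, [(1, 1), (1513, 1), (9409, 0), (12601, 1), (18313, 0), (12937, 1), (19657, 0), (13273, 1), (14785, 1), (24193, 1), (24529, 1), (24865, 1), (25201, 1), (25369, 1), (34105, 1), (35784, 2)])])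

/-- column -/
noncomputable def tab79bc52 : ℕ × List Blk := (52, [(7896, 0, [(1, 1), (4705, 1), (7225, 1), (13777, 1), (14449, 1), (16297, 1), (19825, 1), (20329, 1), (28729, 1), (29401, 1), (29905, 1), (25873, 1), (26713, 1), (31753, 1), (32257, 1), (37297, 1), (37801, 1), (38473, 1)]), (49896, 18, [(1, 1), (1009, 1), (1849, 2), (4705, 1), (10585, 0), (5209, 1), (6553, 1), (13945, 1), (14449, 1), (15121, 1), (34609, 1), (35617, 1), (36457, 1), (37297, 1), (30745, 0), (27721, 1), (29233, 1), (36457, 0)]), (78120, 36, [(1, 1), (1513, 1), (2689, 1), (12433, 1), (18649, 0), (12937, 1), (14449, 1), (13609, 1), (15121, 1), (24025, 1), (24529, 1), (25201, 1), (25537, 1), (25873, 1), (33937, 1), (35617, 1), (37128, 2)])])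

/-- column -/
noncomputable def tab79bc53 : ℕ × List Blk := (53, [(8064, 0, [(1, 1), (4705, 1), (7225, 1), (13777, 1), (14449, 1), (16297, 1), (19825, 1), (20497, 1), (28729, 1), (29401, 1), (29905, 1), (25873, 1), (26713, 1), (31753, 1), (32425, 1), (37297, 1), (37969, 1), (38641, 1)]), (50064, 18, [(1, 1), (1009, 1), (1849, 1), (4705, 1), (6049, 1), (5377, 1), (6721, 1), (13945, 1), (14617, 1), (15289, 1), (34609, 1), (35617, 1), (36457, 1), (37297, 1), (37969, 1), (27721, 1), (29233, 1), (37129, 0)]), (78456, 36, [(1, 1), (1513, 1), (2689, 1), (12265, 1), (18985, 0), (12937, 1), (14449, 1), (13609, 1), (15121, 1), (23857, 1), (24529, 1), (25201, 1), (25705, 1), (25873, 1), (33769, 1), (35449, 1), (36961, 1), (38304, 2)])])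

/-- column -/
noncomputable def tab79bc54 : ℕ × List Blk := (54, [(8232, 0, [(1, 1), (4705, 1), (7225, 1), (13777, 1), (14449, 1), (16297, 1), (19825, 1), (20497, 1), (28729, 1), (29401, 1), (29905, 1), (25873, 1), (26713, 1), (31753, 1), (32425, 1), (37297, 1), (37969, 1), (38809, 1), (42001, 1)]), (51240, 19, [(1, 1), (841, 1), (3697, 1), (5041, 1), (4369, 1), (5713, 1), (12937, 1), (13609, 1), (14449, 1), (33601, 1), (34609, 1), (35449, 1), (36289, 1), (36961, 1), (26713, 1), (28225, 1), (29401, 1), (27385, 1), (28897, 1)]), (81312, 38, [(1, 1), (9577, 1), (16801, 0), (10249, 1), (11761, 1), (11089, 1), (12601, 1), (21169, 1), (21841, 1), (22681, 1), (23017, 1), (23689, 1), (31081, 1), (32761, 1), (34273, 1), (35617, 1), (36792, 2)])])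

/-- column -/
noncomputable def tab79bc55 : ℕ × List Blk := (55, [(8736, 0, [(1, 0), (5041, 0), (7561, 0), (12769, 0), (13105, 0), (17137, 0), (21169, 0), (21337, 0), (24865, 0), (25201, 0), (25537, 0), (27721, 0), (28057, 0), (33769, 0), (34105, 0), (38977, 0), (39145, 0), (39313, 0), (40993, 0)]), (50064, 19, [(1, 0), (337, 0), (9073, 0), (9409, 0), (9745, 0), (10081, 0), (17137, 0), (17473, 0), (17809, 0), (27385, 0), (27721, 0), (28057, 0), (28393, 0), (28561, 0), (34273, 0), (34609, 0), (34945, 0), (35281, 0), (35617, 0)]), (86016, 38, [(1, 0), (9409, 0), (9745, 0), (10081, 0), (10417, 0), (10753, 0), (11089, 0), (20833, 0), (21169, 0), (21505, 0), (21841, 0), (22177, 0), (25873, 0), (26209, 0), (26545, 0), (26881, 0), (27049, 0), (27552, 2)])])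

/-- column -/
noncomputable def tab79bc56 : ℕ × List Blk := (56, [(8904, 0, [(1, 0), (5209, 0), (7561, 0), (13273, 2), (13609, 0), (17305, 0), (21169, 0), (21505, 0), (28225, 1), (25873, 0), (26209, 0), (28225, 0), (28561, 0), (33937, 0), (34609, 0), (38977, 0), (39313, 0), (39649, 0), (41833, 2)]), (51072, 19, [(1, 0), (337, 0), (8737, 0), (9073, 0), (5041, 1), (10249, 0), (16465, 0), (17137, 0), (17809, 0), (34273, 1), (28225, 0), (28561, 0), (28897, 0), (29065, 0), (34273, 0), (34609, 0), (34945, 0), (28225, 1), (36289, 0)]), (87696, 38, [(1, 0), (8401, 0), (8737, 0), (9745, 0), (10081, 0), (4873, 1), (11257, 0), (19489, 0), (20161, 0), (20833, 0), (21505, 0), (21841, 0), (25873, 2), (26209, 0), (26545, 0), (26881, 0), (27049, 0), (26209, 1), (29064, 2)])])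

/-- column -/
noncomputable def tab79bc57 : ℕ × List Blk := (57, [(9072, 0, [(1, 0), (4033, 1), (7561, 0), (13273, 1), (13945, 0), (17473, 0), (21169, 0), (21673, 0), (28225, 1), (29233, 1), (26545, 0), (25537, 1), (28897, 0), (34105, 0), (32089, 1), (38977, 0), (39481, 0), (40153, 0), (41833, 1), (42841, 0)]), (52248, 20, [(1, 0), (8233, 0), (8569, 0), (4201, 1), (10081, 0), (15625, 0), (16633, 0), (13945, 1), (33265, 1), (34945, 1), (28561, 0), (28897, 0), (29065, 0), (26881, 1), (34273, 0), (34609, 0), (27385, 1), (29569, 1), (36625, 0), (44521, 0)]), (92568, 40, [(4537, 0), (1, 1), (6385, 0), (673, 1), (8233, 0), (14953, 0), (15961, 0), (17305, 0), (12601, 1), (12937, 1), (21169, 1), (22849, 0), (23185, 0), (23521, 0), (23689, 0), (21673, 1), (24529, 1), (26712, 2)])])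

/-- column -/
noncomputable def tab79bc58 : ℕ × List Blk := (58, [(8400, 0, [(1, 1), (4873, 1), (8401, 0), (14113, 1), (14953, 2), (16633, 1), (22009, 0), (20833, 1), (29065, 1), (30073, 1), (27553, 0), (26377, 1), (30073, 0), (35113, 0), (33097, 1), (39817, 0), (40489, 0), (38809, 1), (42673, 1), (44185, 2)]), (52920, 20, [(1, 0), (3193, 1), (8401, 0), (3865, 1), (5377, 1), (15289, 0), (12937, 1), (13609, 1), (32761, 1), (34441, 1), (28897, 0), (29233, 0), (29401, 0), (26377, 1), (34441, 0), (34777, 0), (27049, 1), (29233, 1), (36625, 0), (44521, 0)]), (92904, 40, [(4873, 0), (1, 1), (7057, 0), (673, 1), (2017, 1), (14953, 0), (16297, 0), (12265, 1), (12769, 1), (12937, 1), (21001, 1), (23857, 2), (24193, 0), (24529, 0), (24697, 0), (21673, 1), (24529, 1), (26713, 1), (28224, 2)])])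

/-- column -/
noncomputable def tab79bc59 : ℕ × List Blk := (59, [(8568, 0, [(1, 1), (4873, 1), (8401, 0), (14113, 1), (14953, 1), (16633, 1), (22009, 0), (20833, 1), (29065, 1), (30073, 1), (30577, 1), (26377, 1), (30241, 0), (35281, 0), (33097, 1), (39817, 0), (40489, 0), (38977, 1), (42673, 1), (44185, 1)]), (53424, 20, [(1, 0), (2857, 1), (8401, 0), (3529, 1), (5041, 1), (15121, 0), (12601, 1), (13441, 1), (32425, 1), (34105, 1), (35281, 1), (29569, 0), (29737, 0), (26041, 1), (34609, 0), (34945, 0), (26713, 1), (28897, 1), (30241, 1), (44689, 0)]), (93072, 40, [(5377, 0), (1, 1), (7393, 0), (841, 1), (2185, 1), (15121, 0), (16465, 0), (12433, 1), (12769, 1), (13441, 1), (21001, 1), (23857, 1), (25201, 0), (25537, 0), (25705, 0), (21673, 1), (24529, 1), (26713, 1), (28225, 1), (28728, 2)])])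

/-- column -/
noncomputable def tab79bc60 : ℕ × List Blk := (60, [(6552, 0, [(1, 2), (5713, 0), (5713, 1), (17305, 0), (17473, 0), (14785, 2), (17305, 1), (17473, 1), (32761, 0), (32929, 0), (33097, 0), (26881, 0), (27049, 0), (26881, 1), (27049, 1), (32761, 1)]), (39480, 16, [(1, 1), (169, 1), (14785, 0), (14953, 0), (15121, 0), (10081, 2), (10249, 0), (10249, 1), (11257, 2), (14785, 1), (14953, 1), (15121, 1), (50737, 0), (50905, 0), (51073, 0), (51241, 0)]), (77280, 32, [(13609, 0), (1, 0), (169, 0), (337, 0), (7057, 1), (8065, 1), (1849, 0), (1, 1), (7057, 0), (169, 1), (8065, 0), (337, 1), (1849, 1), (12937, 1), (13105, 1), (13273, 1)]), (90720, 48, [(1, 1), (169, 1), (32089, 0), (32257, 0), (32425, 0), (32593, 0), (32761, 0), (39481, 1), (40489, 1), (41497, 1), (34441, 0), (34609, 0), (21000, 2)])])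

/-- column -/
noncomputable def tab79bc61 : ℕ × List Blk := (61, [(6720, 0, [(1, 1), (7057, 1), (5713, 1), (19153, 1), (19489, 1), (14785, 1), (17305, 1), (17641, 1), (35785, 1), (36121, 1), (36457, 1), (29737, 1), (30409, 1), (26881, 1), (27217, 1), (32761, 1)]), (39816, 16, [(1, 1), (337, 1), (19321, 1), (19993, 1), (20665, 1), (9913, 1), (10921, 2), (10249, 1), (11257, 1), (14617, 1), (14953, 1), (15289, 1), (55609, 1), (56281, 1), (56953, 1), (57625, 1)]), (77448, 32, [(20665, 1), (6889, 1), (7897, 1), (1681, 0), (7225, 1), (8233, 1), (9073, 1), (1, 1), (7897, 0), (337, 1), (1849, 1), (673, 1), (2185, 1), (12937, 1), (13273, 1), (13609, 1)]), (91392, 48, [(1, 1), (169, 1), (38809, 1), (39817, 1), (40825, 1), (33769, 0), (33937, 0), (39145, 1), (40153, 1), (41161, 1), (42001, 1), (42841, 1), (20497, 1), (22176, 2)])])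

/-- column -/
noncomputable def tab79bc62 : ℕ × List Blk := (62, [(6888, 0, [(1, 1), (7057, 1), (5713, 1), (19153, 1), (19489, 1), (14785, 1), (17305, 1), (17809, 1), (35785, 1), (36121, 1), (36457, 1), (29737, 1), (30409, 1), (26881, 1), (27385, 1), (32761, 1)]), (40152, 16, [(1, 1), (673, 1), (19153, 1), (19825, 1), (20497, 1), (9745, 1), (10753, 1), (10249, 1), (11257, 1), (14449, 1), (14953, 1), (15625, 1), (55441, 1), (56113, 1), (56785, 1), (57457, 1)]), (77616, 32, [(20665, 1), (6889, 1), (7897, 1), (8737, 1), (7393, 1), (8401, 1), (9241, 1), (1, 1), (1513, 1), (505, 1), (2017, 1), (1177, 1), (2689, 1), (12937, 1), (13441, 1), (14113, 1)]), (92064, 48, [(1, 1), (337, 1), (38305, 1), (39313, 1), (40321, 1), (41161, 1), (42001, 1), (38809, 1), (39817, 1), (40825, 1), (41665, 1), (42505, 1), (19993, 1), (21673, 1), (23184, 2)])])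

/-- column -/
noncomputable def tab79bc63 : ℕ × List Blk := (63, [(6720, 0, [(1, 0), (5713, 0), (7057, 0), (17305, 0), (17641, 0), (14785, 0), (19153, 0), (19489, 0), (32761, 0), (33097, 0), (33433, 0), (26881, 0), (27217, 0), (29737, 0), (30409, 0), (35785, 0)]), (42840, 16, [(1, 0), (337, 0), (11593, 0), (11929, 0), (12265, 0), (6889, 0), (7225, 0), (7897, 2), (8233, 0), (16297, 0), (16969, 0), (17641, 0), (47545, 0), (47881, 0), (48217, 0), (48553, 0)]), (77448, 32, [(14113, 0), (1, 0), (337, 0), (673, 0), (7897, 1), (1849, 0), (2185, 0), (6889, 0), (7225, 0), (7897, 0), (8233, 0), (1681, 1), (9073, 0), (17977, 0), (18649, 0), (19321, 0)]), (97440, 48, [(1, 0), (673, 0), (25537, 0), (25873, 0), (26209, 0), (26545, 0), (26713, 0), (33769, 1), (27721, 0), (28057, 0), (28393, 0), (28561, 0), (14449, 0), (14785, 0), (15121, 0), (16128, 2)])])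

/-- column -/
noncomputable def tab79bc64 : ℕ × List Blk := (64, [(7056, 0, [(1, 2), (7057, 1), (7057, 0), (19153, 1), (17977, 0), (15121, 2), (19153, 0), (17977, 1), (35785, 1), (36457, 1), (34105, 0), (30073, 1), (27721, 0), (30073, 0), (27721, 1), (35785, 0), (36457, 0)]), (41160, 17, [(1, 1), (18649, 1), (14953, 0), (15289, 0), (9577, 2), (9913, 0), (9913, 1), (11425, 2), (18649, 0), (14953, 1), (15289, 1), (54937, 1), (56281, 1), (51409, 0), (51745, 0), (51913, 0), (44185, 1)]), (79296, 34, [(1, 0), (337, 0), (6385, 1), (8065, 1), (2521, 0), (6049, 0), (6385, 0), (1, 1), (8065, 0), (337, 1), (2521, 1), (16801, 0), (18145, 0), (13273, 1), (13609, 1), (13777, 1), (51913, 1)]), (113568, 51, [(11593, 0), (11929, 0), (12265, 0), (12433, 0), (17977, 1), (19825, 1), (21505, 1), (14785, 0), (14953, 0), (1, 2), (337, 0), (673, 0), (337, 1), (3192, 2)])])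

/-- column -/
noncomputable def tab79bc65 : ℕ × List Blk := (65, [(7224, 0, [(1, 1), (7057, 1), (5881, 1), (19153, 1), (19657, 1), (15121, 1), (19321, 0), (18145, 1), (35785, 1), (36457, 1), (36961, 1), (30073, 1), (31081, 1), (27385, 1), (27889, 1), (35953, 0), (33937, 1)]), (41832, 17, [(1, 1), (18145, 1), (19321, 1), (20329, 1), (9073, 1), (10081, 0), (9577, 1), (11089, 1), (18649, 0), (14617, 1), (15289, 1), (54433, 1), (55777, 1), (56953, 1), (57961, 1), (58465, 1), (43681, 1)]), (79128, 34, [(8065, 1), (1681, 0), (6889, 1), (8569, 1), (9745, 1), (1, 1), (7393, 0), (505, 1), (2689, 1), (1177, 1), (3361, 1), (17641, 0), (13441, 1), (14113, 1), (14449, 1), (14785, 1), (52249, 1)]), (113736, 51, [(19489, 1), (21169, 1), (13441, 0), (13609, 0), (18145, 1), (19993, 1), (21673, 1), (22849, 1), (23353, 1), (1, 1), (1681, 0), (2017, 0), (505, 1), (3361, 1), (5544, 2)])])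

/-- column -/
noncomputable def tab79bc66 : ℕ × List Blk := (66, [(6888, 0, [(1, 0), (5713, 0), (7057, 0), (17305, 0), (17809, 0), (14785, 0), (19153, 0), (19489, 0), (32761, 0), (33265, 0), (33937, 0), (26881, 0), (27385, 0), (29737, 0), (30409, 0), (35785, 0), (36121, 0)]), (43344, 17, [(1, 0), (11257, 0), (11761, 0), (12433, 0), (6553, 0), (7057, 0), (7561, 0), (8065, 0), (15961, 0), (16633, 0), (17305, 0), (47209, 0), (47713, 0), (48385, 0), (48721, 0), (49057, 0), (34273, 0)]), (78120, 34, [(1, 0), (673, 0), (1009, 0), (1513, 0), (2185, 0), (6385, 0), (6889, 0), (7393, 0), (7897, 0), (8233, 0), (8737, 0), (17473, 0), (18145, 0), (18817, 0), (19489, 0), (20161, 0), (45025, 0)]), (112056, 51, [(11593, 0), (12265, 0), (12601, 0), (12937, 0), (20161, 1), (13441, 0), (14113, 0), (14449, 0), (14785, 0), (1, 0), (505, 0), (1177, 0), (1681, 0), (2185, 0), (2857, 0), (3192, 2)])])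

/-- column -/
noncomputable def tab79bc67 : ℕ × List Blk := (67, [(7224, 0, [(1, 0), (5881, 0), (7057, 0), (19321, 1), (18145, 0), (15121, 0), (19153, 0), (19657, 0), (35953, 1), (33937, 0), (34609, 0), (27385, 0), (27889, 0), (30073, 0), (31081, 0), (35785, 0), (36457, 0)]), (44184, 17, [(1, 0), (16297, 1), (12265, 0), (12937, 0), (6721, 0), (7225, 0), (7729, 1), (8737, 0), (15793, 0), (16969, 0), (17977, 0), (52585, 1), (48385, 0), (49057, 0), (49393, 0), (49729, 0), (34945, 0)]), (79632, 34, [(1, 0), (673, 0), (6889, 1), (2185, 0), (2857, 0), (5881, 0), (6385, 0), (7561, 0), (8065, 0), (1177, 1), (9241, 0), (16633, 0), (17977, 0), (19153, 0), (20161, 0), (20665, 0), (52585, 1)]), (113736, 51, [(11761, 0), (12433, 0), (12769, 0), (13105, 0), (18817, 1), (21337, 1), (14953, 0), (15289, 0), (15625, 0), (1, 0), (505, 0), (1177, 0), (1681, 1), (3361, 0), (4033, 0), (2017, 1), (5544, 2)])])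

/-- column -/
noncomputable def tab79bc68 : ℕ × List Blk := (68, [(7392, 0, [(1, 2), (7057, 1), (7057, 0), (19321, 1), (19825, 1), (15457, 2), (19321, 0), (19825, 0), (35953, 1), (36793, 1), (34777, 0), (30409, 1), (28225, 0), (30409, 0), (28225, 1), (35953, 0), (36793, 0), (34777, 1)]), (51744, 18, [(8905, 1), (10417, 1), (6217, 0), (1, 2), (505, 0), (505, 1), (2017, 2), (8905, 0), (10417, 0), (6217, 1), (45193, 1), (47041, 1), (42337, 0), (42673, 0), (43009, 0), (34609, 1), (29065, 0), (29737, 0)]), (80808, 36, [(6049, 1), (8065, 1), (3025, 0), (5545, 0), (6049, 0), (1, 1), (8065, 0), (673, 1), (3025, 1), (16129, 0), (17977, 0), (13273, 1), (13609, 1), (13945, 1), (51577, 1), (54097, 1), (46705, 0), (47041, 0)]), (115248, 54, [(12937, 0), (17641, 1), (20161, 1), (22345, 1), (23017, 1), (14785, 0), (1, 2), (505, 0), (1177, 0), (505, 1), (4033, 2), (4705, 0), (1177, 1), (4705, 1), (7056, 2)])])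

/-- column -/
noncomputable def tab79bc69 : ℕ × List Blk := (69, [(7560, 0, [(1, 0), (7225, 0), (4705, 0), (19825, 0), (19993, 0), (16297, 0), (13777, 2), (13945, 1), (37297, 0), (37465, 0), (37633, 0), (31753, 0), (31921, 0), (25873, 0), (28897, 1), (25873, 1), (26041, 1), (26209, 1)]), (49560, 18, [(13945, 0), (14113, 0), (14281, 0), (4705, 0), (4873, 0), (9577, 1), (10249, 1), (1, 2), (169, 1), (337, 1), (52249, 0), (52417, 0), (52585, 0), (52753, 0), (52921, 0), (40657, 0), (40825, 0), (40993, 0)]), (77280, 36, [(18145, 1), (18817, 1), (19489, 1), (1, 0), (169, 0), (7057, 1), (8065, 1), (7225, 1), (8233, 1), (1, 1), (169, 1), (337, 1), (505, 1), (673, 1), (61153, 0), (61321, 0), (61489, 0), (61657, 0)]), (111720, 54, [(27385, 0), (34105, 1), (34777, 1), (35449, 1), (36121, 1), (36793, 1), (11089, 0), (11257, 0), (11425, 0), (18481, 1), (19489, 1), (20497, 1), (18649, 1), (19657, 1), (20665, 1), (0, 2)])])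

/-- column -/
noncomputable def tab79bc70 : ℕ × List Blk := (70, [(8736, 0, [(1, 1), (7561, 1), (5041, 1), (21169, 1), (21337, 1), (17137, 1), (12769, 1), (13105, 1), (38977, 1), (39145, 1), (39313, 1), (33769, 1), (34105, 1), (27721, 1), (28057, 1), (24865, 1), (25201, 1), (25537, 1)]), (49728, 18, [(17473, 1), (17809, 1), (18145, 1), (9409, 1), (10081, 1), (9745, 1), (10417, 1), (1, 1), (337, 1), (673, 1), (57121, 1), (57457, 1), (57793, 1), (58129, 1), (58465, 1), (45697, 1), (46369, 1), (47041, 1)]), (77448, 36, [(18313, 1), (18985, 1), (19657, 1), (6889, 1), (7897, 1), (7225, 1), (8233, 1), (7561, 1), (8569, 1), (1, 1), (337, 1), (673, 1), (1009, 1), (1177, 1), (68377, 1), (69049, 1), (69721, 1), (70393, 1)]), (111888, 54, [(36625, 1), (34273, 1), (34945, 1), (35617, 1), (36289, 1), (36961, 1), (18313, 1), (19321, 1), (20329, 1), (18649, 1), (19657, 1), (20665, 1), (18985, 1), (19993, 1), (21001, 1), (1, 1), (1680, 2)])])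

/-- column -/
noncomputable def tab79bc71 : ℕ × List Blk := (71, [(7728, 0, [(1, 0), (7225, 0), (4705, 0), (19825, 0), (20161, 0), (16297, 0), (13777, 0), (14449, 2), (37297, 0), (37633, 0), (37969, 0), (31753, 0), (32089, 0), (25873, 0), (29401, 1), (28729, 0), (29401, 0), (26881, 1)]), (49728, 18, [(13945, 0), (14281, 0), (14617, 0), (4705, 0), (5041, 0), (10081, 1), (6385, 0), (1, 0), (1009, 2), (1177, 1), (52249, 0), (52585, 0), (52921, 0), (53257, 0), (53425, 0), (40657, 0), (40993, 0), (41329, 0)]), (77448, 36, [(18649, 1), (19993, 1), (15121, 0), (1, 0), (337, 0), (7897, 1), (1849, 0), (8065, 1), (9745, 1), (6889, 0), (7897, 0), (1681, 1), (1849, 1), (2017, 1), (61153, 0), (61489, 0), (61825, 0), (62161, 0)]), (111888, 54, [(27889, 0), (34609, 1), (35953, 1), (37297, 1), (29905, 0), (30073, 0), (11089, 0), (11425, 0), (11761, 0), (19321, 1), (13273, 0), (13609, 0), (19489, 1), (21337, 1), (23017, 1), (1, 0), (337, 0), (1680, 2)])])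

/-- column -/
noncomputable def tab79bc72 : ℕ × List Blk := (72, [(8904, 0, [(1, 1), (7561, 1), (5209, 1), (21169, 1), (21505, 1), (17305, 1), (13273, 2), (13609, 1), (38977, 1), (39313, 1), (39649, 1), (33937, 1), (34609, 1), (28225, 1), (28561, 1), (28225, 0), (25873, 1), (26209, 1), (58633, 1)]), (50736, 19, [(17473, 1), (18145, 1), (9073, 1), (5377, 0), (9409, 1), (10585, 1), (1, 2), (337, 1), (673, 1), (56449, 1), (57121, 1), (57793, 1), (58465, 1), (58801, 1), (45361, 1), (46705, 1), (41833, 0), (45697, 1), (47041, 1)]), (79296, 38, [(19657, 1), (6049, 1), (1, 0), (6385, 1), (8065, 1), (6721, 1), (8401, 1), (6049, 0), (1, 1), (337, 1), (673, 1), (841, 1), (67201, 1), (68545, 1), (69889, 1), (62497, 0), (62665, 0), (67537, 1), (68881, 1)]), (113568, 57, [(35953, 1), (37129, 1), (37633, 1), (17641, 1), (11593, 0), (11929, 0), (17977, 1), (19825, 1), (21505, 1), (18313, 1), (20161, 1), (21841, 1), (1, 2), (337, 0), (337, 1), (3192, 2)])])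

/-- column -/
noncomputable def tab79bc73 : ℕ × List Blk := (73, [(7896, 0, [(1, 0), (7225, 0), (4705, 0), (19825, 0), (20329, 0), (16297, 0), (13777, 0), (14449, 0), (37297, 0), (37801, 0), (38473, 0), (31753, 0), (32257, 0), (25873, 0), (26713, 0), (28729, 0), (29401, 0), (29905, 0), (55945, 0)]), (49896, 19, [(14449, 0), (15121, 0), (4705, 0), (5209, 0), (10585, 1), (6553, 0), (1, 0), (1009, 0), (1849, 2), (52249, 0), (52753, 0), (53425, 0), (53761, 0), (54097, 0), (40657, 0), (41161, 0), (41833, 0), (46873, 1), (42673, 0)]), (77616, 38, [(15625, 0), (1, 0), (505, 0), (1513, 0), (2017, 0), (8737, 1), (3193, 0), (6889, 0), (7897, 0), (8737, 0), (9577, 0), (3025, 1), (61153, 0), (61657, 0), (62329, 0), (62665, 0), (63001, 0), (69553, 1), (71569, 1)]), (112056, 57, [(30073, 0), (30409, 0), (30745, 0), (11089, 0), (11593, 0), (12265, 0), (20161, 1), (13441, 0), (14113, 0), (20329, 1), (22849, 1), (15457, 0), (1, 0), (505, 0), (1681, 0), (2185, 0), (3192, 2)])])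

/-- column -/
noncomputable def tab79bc74 : ℕ × List Blk := (74, [(9072, 0, [(1, 1), (7561, 1), (4033, 0), (21169, 1), (21673, 1), (17473, 1), (13273, 0), (13945, 1), (38977, 1), (39481, 1), (40153, 1), (34105, 1), (32089, 0), (25537, 0), (28897, 1), (28225, 0), (29233, 0), (26545, 1), (58801, 1)]), (50904, 19, [(17977, 1), (15289, 0), (9577, 1), (5545, 0), (9913, 1), (11425, 1), (1, 0), (1009, 1), (1345, 1), (56617, 1), (57625, 1), (58969, 1), (54265, 0), (54601, 0), (45865, 1), (41665, 0), (42337, 0), (46201, 1), (48049, 1)]), (79128, 38, [(21673, 1), (1, 0), (505, 0), (7393, 1), (2689, 0), (7729, 1), (9745, 1), (6385, 0), (8065, 0), (1681, 1), (2017, 1), (2185, 1), (68041, 1), (70057, 1), (63001, 0), (63337, 0), (63673, 0), (68377, 1), (70393, 1)]), (113736, 57, [(37969, 1), (38977, 1), (39817, 1), (18481, 1), (11761, 0), (12433, 0), (18817, 1), (21337, 1), (14953, 0), (19153, 1), (21673, 1), (23857, 1), (1, 0), (505, 0), (1681, 1), (3361, 0), (2017, 1), (5544, 2)])])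

/-- column -/
noncomputable def tab79bc75 : ℕ × List Blk := (75, [(8064, 0, [(1, 0), (7225, 0), (4705, 0), (19825, 0), (20497, 0), (16297, 0), (13777, 0), (14449, 0), (37297, 0), (37969, 0), (38641, 0), (31753, 0), (32425, 0), (25873, 0), (26713, 0), (28729, 0), (29401, 0), (29905, 0), (55945, 0)]), (50064, 19, [(14617, 0), (15289, 0), (4705, 0), (5377, 0), (6049, 0), (6721, 0), (1, 0), (1009, 0), (1849, 0), (52249, 0), (52921, 0), (53593, 0), (54097, 0), (54265, 0), (40657, 0), (41329, 0), (42001, 0), (47377, 1), (42841, 0)]), (77784, 38, [(15793, 0), (1, 0), (673, 0), (1513, 0), (2185, 0), (9409, 1), (3361, 0), (6889, 0), (7897, 0), (8737, 0), (9577, 0), (10249, 0), (61153, 0), (61825, 0), (62497, 0), (63001, 0), (63169, 0), (70057, 1), (64009, 0)]), (112224, 57, [(30241, 0), (30745, 0), (30913, 0), (11089, 0), (11761, 0), (12433, 0), (12937, 0), (13609, 0), (14281, 0), (21001, 1), (14953, 0), (15625, 0), (1, 0), (673, 0), (1681, 0), (2353, 0), (3193, 0), (3865, 0), (4536,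 2)])])

/-- column -/
noncomputable def tab79bc76 : ℕ × List Blk := (76, [(8400, 0, [(1, 0), (8401, 1), (4873, 0), (22009, 1), (20833, 0), (16633, 0), (14113, 0), (14953, 2), (39817, 1), (40489, 1), (38809, 0), (35113, 1), (33097, 0), (26377, 0), (30073, 1), (29065, 0), (30073, 0), (27553, 1), (59809, 1), (57457, 0)]), (51072, 20, [(15457, 0), (5041, 0), (5713, 0), (10249, 1), (7225, 0), (1, 0), (1513, 2), (1849, 1), (56785, 1), (58129, 1), (54097, 0), (54601, 0), (54769, 0), (46369, 1), (41833, 0), (42505, 0), (46705, 1), (48889, 1), (43849, 0), (28225, 0)]), (79968, 40, [(1, 0), (7393, 1), (2185, 0), (7729, 1), (9577, 1), (5713, 0), (7393, 0), (1849, 1), (2185, 1), (2353, 1), (67873, 1), (61825, 0), (62497, 0), (63001, 0), (63169, 0), (68209, 1), (70729, 1), (72745, 1), (65017, 0), (65185, 0)]), (113904, 60, [(11257, 0), (11929, 0), (12601, 0), (19489, 1), (14449, 0), (15121, 0), (19825, 1), (22681, 1), (24361, 1), (1, 0), (673, 0), (2857, 2), (3529, 0), (3193, 1), (5713, 0),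 (3529, 1), (7224, 2)])])

/-- column -/
noncomputable def tab79bc77 : ℕ × List Blk := (77, [(8232, 0, [(1, 0), (7225, 0), (4705, 0), (19825, 0), (20497, 0), (16297, 0), (13777, 0), (14449, 0), (37297, 0), (37969, 0), (38809, 0), (31753, 0), (32425, 0), (25873, 0), (26713, 0), (28729, 0), (29401, 0), (29905, 0), (55945, 0), (56617, 0)]), (50232, 20, [(15457, 0), (4705, 0), (5377, 0), (6049, 0), (6721, 0), (1, 0), (1009, 0), (1849, 0), (52249, 0), (52921, 0), (53761, 0), (54097, 0), (54769, 0), (40657, 0), (41329, 0), (42169, 0), (47881, 1), (42841, 0), (43681, 0), (27721, 0)]), (78624, 40, [(1, 0), (841, 0), (1513, 0), (2017, 0), (2689, 0), (6217, 0), (7225, 0), (8065, 0), (8905, 0), (9577, 0), (60481, 0), (61153, 0), (61993, 0), (62329, 0), (63001, 0), (69889, 1), (63337, 0), (64177, 0), (64513, 0), (65185, 0)]), (112392, 60, [(11089, 0), (11761, 0), (12601, 0), (12937, 0), (13609, 0), (14449, 0), (21673, 1), (14953, 0), (15793, 0), (1, 0), (673, 0), (1681, 0), (2353, 0), (3193,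 0), (3865, 0), (4537, 0), (5209, 0), (5712, 2)])])

/-- column -/
noncomputable def tab79bc78 : ℕ × List Blk := (78, [(8568, 0, [(1, 0), (8401, 1), (4873, 0), (22009, 1), (20833, 0), (16633, 0), (14113, 0), (14953, 0), (39817, 1), (40489, 1), (38977, 0), (35281, 1), (33097, 0), (26377, 0), (30241, 1), (29065, 0), (30073, 0), (30577, 0), (59977, 1), (57457, 0)]), (51240, 20, [(15625, 0), (5041, 0), (5713, 0), (10585, 1), (7225, 0), (1, 0), (1513, 0), (2185, 1), (56953, 1), (58297, 1), (54265, 0), (54601, 0), (55273, 0), (46873, 1), (41833, 0), (42673, 0), (47209, 1), (49225, 1), (44017, 0), (28225, 0)]), (80136, 40, [(1, 0), (7897, 1), (2185, 0), (8233, 1), (3529, 0), (5713, 0), (7393, 0), (8569, 0), (2857, 1), (3025, 1), (68377, 1), (61825, 0), (62665, 0), (63001, 0), (63673, 0), (68713, 1), (71065, 1), (73417, 1), (65017, 0), (65521, 0)]), (114072, 60, [(11257, 0), (11929, 0), (12769, 0), (20161, 1), (14449, 0), (15289, 0), (20497, 1), (23017, 1), (15961, 0), (1, 0), (673, 0),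 (2857, 0), (3529, 0), (4201, 1), (5713, 0), (4537, 1), (7225, 0), (4705, 1), (7728, 2)])])

/-- block -/
noncomputable def tab79br0 : Blk := (168, 0, [(0, 0)])

/-- block -/
noncomputable def tab79br1 : Blk := (504, 1, [(0, 0), (168, 0)])

/-- block -/
noncomputable def tab79br2 : Blk := (840, 3, [(0, 0), (168, 0), (336, 0), (504, 0), (672, 0)])

/-- block -/
noncomputable def tab79br3 : Blk := (1848, 8, [(0, 0), (336, 0), (504, 0), (672, 0), (840, 0), (1008, 0), (1176, 0), (1344, 0), (1512, 0)])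

/-- block -/
noncomputable def tab79br4 : Blk := (3528, 17, [(0, 0), (168, 0), (336, 0), (504, 0), (672, 0), (840, 0), (1008, 0), (1176, 0), (1344, 0), (1512, 0), (1680, 0), (1848, 0), (2016, 0), (2184, 0), (2352, 0), (2520, 0), (2688, 0), (2856, 0)])

/-- block -/
noncomputable def tab79br5 : Blk := (6720, 35, [(0, 0), (168, 0), (504, 0), (840, 0), (1008, 0), (1176, 0), (1344, 0), (1512, 0), (1680, 0), (1848, 0), (2016, 0), (2184, 0), (2352, 0), (2520, 0), (2688, 0), (2856, 0), (3024, 0), (3192, 0), (3360, 0), (3528, 0), (3696, 0), (3864, 0), (4032, 0), (4200, 0), (4368, 0), (4536, 0), (4704, 0), (4872, 0), (5040, 0), (5208, 0), (5376, 0)])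

/-- block -/
noncomputable def tab79br6 : Blk := (12264, 66, [(0, 0), (168, 0), (336, 0), (504, 0), (672, 0), (840, 0), (1008, 0), (1176, 0), (1344, 0), (1512, 0), (1680, 0), (1848, 0), (2016, 0), (2184, 0), (2352, 0), (2520, 0), (2688, 0), (2856, 0), (3024, 0), (3192, 0), (3360, 0), (3528, 0), (3696, 0), (3864, 0), (4032, 0), (4200, 0), (4368, 0), (4536, 0), (4704, 0), (4872, 0), (5040, 0), (5208, 0), (5376, 0), (5544, 0), (5712, 0), (5880, 0), (6048, 0), (6216, 0), (6384, 0), (6552, 0), (6720, 0), (6888, 0), (7056, 0), (7224, 0), (7392, 0), (7560, 0), (7728, 0), (7896, 0), (8064, 0), (8232, 0), (8400, 0), (8568, 0), (8736, 0), (8904, 0)])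

/-- block -/
noncomputable def tab79br7 : Blk := (21504, 120, [(0, 0), (168, 0), (336, 0), (504, 0), (840, 0), (1008, 0), (1176, 0), (1512, 0), (1680, 0), (2016, 0), (2352, 0), (2520, 0), (2688, 0), (2856, 0), (3024, 0), (3192, 0), (3360, 0), (3528, 0), (3696, 0), (3864, 0), (4032, 0), (4200, 0), (4368, 0), (4536, 0), (4704, 0), (4872, 0), (5040, 0), (5208, 0), (5376, 0), (5544, 0), (5712, 0), (5880, 0), (6048, 0), (6216, 0), (6384, 0), (6552, 0), (6720, 0), (6888, 0), (7056, 0), (7224, 0), (7392, 0), (7560, 0), (7728, 0), (7896, 0), (8064, 0), (8232, 0), (8400, 0), (8568, 0), (8736, 0), (8904, 0), (9072, 0), (9240, 0), (9408, 0), (9576, 0), (9744, 0), (9912, 0), (10080, 0), (10248, 0), (10416, 0), (10584, 0), (10752, 0), (10920, 0), (11088, 0), (11256, 0), (11424, 0), (11592, 0), (11760, 0)])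

/-- block -/
noncomputable def tab79br8 : Blk := (33432, 187, [(0, 0), (168, 0), (336, 0), (504, 0), (672, 0), (840, 0), (1008, 0), (1176, 0), (1344, 0), (1512, 0), (1680, 0), (1848, 0), (2016, 0), (2184, 0), (2352, 0), (2520, 0), (2688, 0), (2856, 0), (3024, 0), (3192, 0), (3360, 0), (3528, 0), (3696, 0), (3864, 0), (4032, 0), (4200, 0), (4368, 0), (4536, 0), (4704, 0), (4872, 0), (5040, 0), (5208, 0), (5376, 0), (5544, 0), (5712, 0), (5880, 0), (6048, 0), (6216, 0), (6384, 0), (6552, 0), (6720, 0), (6888, 0), (7056, 0), (7224, 0), (7392, 0), (7560, 0), (7728, 0), (7896, 0), (8064, 0), (8232, 0), (8400, 0), (8568, 0), (8736, 0), (8904, 0), (9072, 0), (9240, 0), (9408, 0), (9576, 0), (9744, 0), (9912, 0), (10080, 0), (10248, 0), (10416, 0), (10584, 0), (10752, 0), (10920, 0), (11088, 0), (11256, 0), (11424, 0), (11592, 0), (11760, 0), (11928, 0), (12096, 0), (12264, 0), (12432, 0), (12600, 0), (12768, 0), (12936, 0), (13104, 0), (13272, 0), (13440, 0), (13608, 0), (13776, 0),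 (13944, 0), (14112, 0), (14280, 0), (14448, 0), (14616, 0), (14784, 0), (14952, 0), (15120, 0), (15288, 0), (15456, 0), (15624, 0), (15792, 0), (15960, 0)])

/-- block -/
noncomputable def tab79br9 : Blk := (49728, 283, [(0, 0), (168, 0), (336, 0), (504, 0), (672, 0), (840, 0), (1176, 0), (1344, 0), (1512, 0), (1680, 0), (1848, 0), (2184, 0), (2352, 0), (2520, 0), (2688, 0), (3024, 0), (3192, 0), (3360, 0), (3696, 0), (3864, 0), (4200, 0), (4536, 0), (4704, 0), (4872, 0), (5040, 0), (5208, 0), (5376, 0), (5544, 0), (5712, 0), (5880, 0), (6048, 0), (6216, 0), (6384, 0), (6552, 0), (6720, 0), (6888, 0), (7056, 0), (7224, 0), (7392, 0), (7560, 0), (7728, 0), (7896, 0), (8064, 0), (8232, 0), (8400, 0), (8568, 0), (8736, 0), (8904, 0), (9072, 0), (9240, 0), (9408, 0), (9576, 0), (9744, 0), (9912, 0), (10080, 0), (10248, 0), (10416, 0), (10584, 0), (10752, 0), (10920, 0), (11088, 0), (11256, 0), (11424, 0), (11592, 0), (11760, 0), (11928, 0), (12096, 0), (12264, 0), (12432, 0), (12600,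 0), (12768, 0), (12936, 0), (13104, 0), (13272, 0), (13440, 0), (13608, 0), (13776, 0), (13944, 0), (14112, 0), (14280, 0), (14448, 0), (14616, 0), (14784, 0), (14952, 0), (15120, 0), (15288, 0), (15456, 0), (15624, 0), (15792, 0), (15960, 0), (16128, 0), (16296, 0), (16464, 0), (16632, 0), (16800, 0), (16968, 0), (17136, 0), (17304, 0), (17472, 0), (17640, 0), (17808, 0), (17976, 0), (18144, 0), (18312, 0), (18480, 0), (18648, 0), (18816, 0), (18984, 0), (19152, 0), (19320, 0), (19488, 0), (19656, 0), (19824, 0), (19992, 0), (20160, 0), (20328, 0), (20496, 0), (20664, 0), (20832, 0), (21000, 0), (21168, 0), (21336, 0), (21504, 0), (21672, 0), (21840, 0), (22008, 0), (22176, 0), (22344, 0), (22512, 0), (22680, 0), (22848, 0), (23016, 0), (23184, 0), (23352, 0), (23520, 0), (23688, 0), (23856, 0), (24024, 0), (24192, 0), (24360, 0), (24528, 0), (24696, 0), (24864, 0), (25032, 0), (25200, 0), (25368, 0), (25536, 0), (25704, 0), (25872, 0), (26040, 0), (26208, 0), (26376, 0), (26544,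 0), (26712, 0), (26880, 0), (27048, 0), (27216, 0), (27384, 0)])

/-- block -/
noncomputable def tab79br10 : Blk := (77280, 441, [(0, 0), (168, 0), (336, 0), (504, 0), (672, 0), (840, 0), (1008, 0), (1176, 0), (1344, 0), (1512, 0), (1680, 0), (1848, 0), (2016, 0), (2184, 0), (2352, 0), (2520, 0), (2688, 0), (2856, 0), (3024, 0), (3192, 0), (3360, 0), (3528, 0), (3696, 0), (3864, 0), (4032, 0), (4200, 0), (4368, 0), (4536, 0), (4704, 0), (4872, 0), (5040, 0), (5208, 0), (5376, 0), (5544, 0), (5712, 0), (5880, 0), (6048, 0), (6216, 0), (6384, 0), (6552, 0), (6720, 0), (6888, 0), (7056, 0), (7224, 0), (7392, 0), (7560, 0), (7728, 0), (7896, 0), (8064, 0), (8232, 0), (8400, 0), (8568, 0), (8736, 0), (8904, 0), (9072, 0), (9240, 0), (9408, 0), (9576, 0), (9744, 0), (9912, 0), (10080, 0), (10248, 0), (10416, 0), (10584, 0), (10752, 0), (10920, 0), (11088, 0), (11256, 0), (11424, 0), (11592, 0), (11760, 0), (11928, 0), (12096, 0), (12264, 0), (12432, 0), (12600, 0), (12768, 0), (12936,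 0), (13104, 0), (13272, 0), (13440, 0), (13608, 0), (13776, 0), (13944, 0), (14112, 0), (14280, 0), (14448, 0), (14616, 0), (14784, 0), (14952, 0), (15120, 0), (15288, 0), (15456, 0), (15624, 0), (15792, 0), (15960, 0), (16128, 0), (16296, 0), (16464, 0), (16632, 0), (16800, 0), (16968, 0), (17136, 0), (17304, 0), (17472, 0), (17640, 0), (17808, 0), (17976, 0), (18144, 0), (18312, 0), (18480, 0), (18648, 0), (18816, 0), (18984, 0), (19152, 0), (19320, 0), (19488, 0), (19656, 0), (19824, 0), (19992, 0), (20160, 0), (20328, 0), (20496, 0), (20664, 0), (20832, 0), (21000, 0), (21168, 0), (21336, 0), (21504, 0), (21672, 0), (21840, 0), (22008, 0), (22176, 0), (22344, 0), (22512, 0), (22680, 0), (22848, 0), (23016, 0), (23184, 0), (23352, 0), (23520, 0), (23688, 0), (23856, 0), (24024, 0), (24192, 0), (24360, 0), (24528, 0), (24696, 0), (24864, 0), (25032, 0), (25200, 0), (25368, 0), (25536, 0), (25704, 0), (25872, 0), (26040, 0), (26208, 0), (26376, 0), (26544, 0), (26712, 0), (26880,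 0), (27048, 0), (27216, 0), (27384, 0), (27552, 0), (27720, 0), (27888, 0), (28056, 0), (28224, 0), (28392, 0), (28560, 0), (28728, 0), (28896, 0), (29064, 0), (29232, 0), (29400, 0), (29568, 0), (29736, 0), (29904, 0), (30072, 0), (30240, 0), (30408, 0), (30576, 0), (30744, 0), (30912, 0), (31080, 0), (31248, 0), (31416, 0), (31584, 0), (31752, 0), (31920, 0), (32088, 0), (32256, 0), (32424, 0), (32592, 0), (32760, 0), (32928, 0), (33096, 0), (33264, 0), (33432, 0), (33600, 0), (33768, 0), (33936, 0), (34104, 0), (34272, 0)])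

/-- block -/
noncomputable def tab79br11 : Blk := (111888, 646, [(0, 0), (168, 0), (336, 0), (504, 0), (672, 0), (840, 0), (1008, 0), (1176, 0), (1344, 0), (1512, 0), (1848, 0), (2016, 0), (2184, 0), (2352, 0), (2520, 0), (2688, 0), (2856, 0), (3024, 0), (3192, 0), (3528, 0), (3696, 0), (3864, 0), (4032, 0), (4200, 0), (4368, 0), (4536, 0), (4704, 0), (5040, 0), (5208, 0), (5376, 0), (5544, 0), (5712, 0), (5880, 0), (6048, 0), (6384, 0), (6552, 0), (6720, 0), (6888, 0), (7056, 0), (7224, 0), (7560, 0), (7728, 0), (7896, 0), (8064, 0), (8232, 0), (8568, 0), (8736, 0), (8904, 0), (9072, 0), (9408, 0), (9576, 0), (9744, 0), (10080, 0), (10248, 0), (10584, 0), (10920, 0), (11088, 0), (11256, 0), (11424, 0), (11592, 0), (11760, 0), (11928, 0), (12096, 0), (12264, 0), (12432, 0), (12600, 0), (12768, 0), (12936, 0), (13104, 0), (13272, 0), (13440, 0), (13608, 0), (13776, 0), (13944, 0), (14112, 0), (14280, 0), (14448, 0), (14616, 0), (14784, 0), (14952, 0), (15120, 0), (15288, 0), (15456,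 0), (15624, 0), (15792, 0), (15960, 0), (16128, 0), (16296, 0), (16464, 0), (16632, 0), (16800, 0), (16968, 0), (17136, 0), (17304, 0), (17472, 0), (17640, 0), (17808, 0), (17976, 0), (18144, 0), (18312, 0), (18480, 0), (18648, 0), (18816, 0), (18984, 0), (19152, 0), (19320, 0), (19488, 0), (19656, 0), (19824, 0), (19992, 0), (20160, 0), (20328, 0), (20496, 0), (20664, 0), (20832, 0), (21000, 0), (21168, 0), (21336, 0), (21504, 0), (21672, 0), (21840, 0), (22008, 0), (22176, 0), (22344, 0), (22512, 0), (22680, 0), (22848, 0), (23016, 0), (23184, 0), (23352, 0), (23520, 0), (23688, 0), (23856, 0), (24024, 0), (24192, 0), (24360, 0), (24528, 0), (24696, 0), (24864, 0), (25032, 0), (25200, 0), (25368, 0), (25536, 0), (25704, 0), (25872, 0), (26040, 0), (26208, 0), (26376, 0), (26544, 0), (26712, 0), (26880, 0), (27048, 0), (27216, 0), (27384, 0), (27552, 0), (27720, 0), (27888, 0), (28056, 0), (28224, 0), (28392, 0), (28560, 0), (28728, 0), (28896, 0), (29064, 0), (29232, 0), (29400,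 0), (29568, 0), (29736, 0), (29904, 0), (30072, 0), (30240, 0), (30408, 0), (30576, 0), (30744, 0), (30912, 0), (31080, 0), (31248, 0), (31416, 0), (31584, 0), (31752, 0), (31920, 0), (32088, 0), (32256, 0), (32424, 0), (32592, 0), (32760, 0), (32928, 0), (33096, 0), (33264, 0), (33432, 0), (33600, 0), (33768, 0), (33936, 0), (34104, 0), (34272, 0), (34440, 0), (34608, 0), (34776, 0), (34944, 0), (35112, 0), (35280, 0), (35448, 0), (35616, 0), (35784, 0), (35952, 0), (36120, 0), (36288, 0), (36456, 0), (36624, 0), (36792, 0), (36960, 0), (37128, 0), (37296, 0), (37464, 0), (37632, 0), (37800, 0), (37968, 0), (38136, 0), (38304, 0), (38472, 0), (38640, 0), (38808, 0), (38976, 0), (39144, 0), (39312, 0), (39480, 0), (39648, 0), (39816, 0), (39984, 0), (40152, 0), (40320, 0), (40488, 0), (40656, 0), (40824, 0), (40992, 0), (41160, 0), (41328, 0), (41496, 0), (41664, 0), (41832, 0), (42000, 0), (42168, 0), (42336, 0)])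

/-- form -/
noncomputable def tab79bq : List Blk := [(0, 0, [(0, 2), (504, 1), (672, 1), (2688, 1), (2856, 1), (3192, 1), (3360, 1), (3024, 1), (12096, 1), (11424, 1), (11760, 1), (11088, 1), (11928, 1), (11256, 1), (10752, 1), (11592, 1), (10920, 1), (10584, 1), (10416, 1), (504, 0), (672, 0), (1680, 2), (1848, 0), (1848, 1), (2016, 2), (7560, 1), (8736, 0), (7728, 1), (8904, 0), (8064, 1), (8400, 1), (8232, 1), (8568, 1), (7896, 1), (9072, 0), (29064, 1), (29736, 1), (28392, 1), (30912, 0), (28728, 1), (29400, 1), (28056, 1), (30576, 0), (28896, 1), (29568, 1), (28224, 1), (30744, 0), (27720, 1), (30240, 0), (28560, 1), (29232, 1), (27888, 1), (30408, 0), (27552, 1), (30072, 0), (27384, 1), (29904, 0), (2688, 0), (2856, 0), (3192, 0), (3360, 0), (3024, 0), (7560, 0), (7728, 0), (8064, 0), (8232, 0), (7896, 0), (8736, 1), (8904, 1), (8400, 0), (8568, 0), (9072, 1), (21336, 2), (21504, 0), (21840, 0), (22008, 0), (21672, 0), (21504, 1), (22176, 2), (22512, 0), (22680, 0), (22344,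 0), (21840, 1), (22512, 1), (23352, 2), (23520, 0), (23016, 1), (22008, 1), (22680, 1), (23520, 1), (23688, 2), (23184, 1), (21672, 1), (22344, 1), (23016, 0), (23184, 0), (22848, 2), (55944, 1), (57288, 1), (58800, 1), (58968, 1), (58128, 1), (55272, 1), (56616, 1), (62664, 0), (62832, 0), (57456, 1), (55608, 1), (56952, 1), (58464, 1), (63168, 0), (57792, 1), (54936, 1), (56280, 1), (61824, 0), (61992, 0), (61656, 0), (55776, 1), (57120, 1), (58632, 1), (63336, 0), (57960, 1), (55104, 1), (56448, 1), (62328, 0), (62496, 0), (62160, 0), (54600, 1), (60480, 0), (60816, 0), (60984, 0), (60648, 0), (55440, 1), (56784, 1), (58296, 1), (63000, 0), (57624, 1), (54768, 1), (56112, 1), (61320, 0), (61488, 0), (61152, 0), (54432, 1), (59808, 0), (60144, 0), (60312, 0), (59976, 0), (54264, 1), (59136, 0), (59472, 0), (59640, 0), (59304, 0), (12096, 0), (11424, 0), (11760, 0), (11088, 0), (11928, 0), (11256, 0), (10752, 0), (11592, 0), (10920, 0), (10584, 0), (10416, 0), (29064, 0), (28392,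 0), (28728, 0), (28056, 0), (28896, 0), (28224, 0), (27720, 0), (28560, 0), (27888, 0), (27552, 0), (27384, 0), (29736, 0), (30912, 1), (29400, 0), (30576, 1), (29568, 0), (30744, 1), (30240, 1), (29232, 0), (30408, 1), (30072, 1), (29904, 1), (55944, 0), (55272, 0), (55608, 0), (54936, 0), (55776, 0), (55104, 0), (54600, 0), (55440, 0), (54768, 0), (54432, 0), (54264, 0), (57288, 0), (56616, 0), (56952, 0), (56280, 0), (57120, 0), (56448, 0), (60480, 1), (56784, 0), (56112, 0), (59808, 1), (59136, 1), (58800, 0), (62664, 1), (58464, 0), (61824, 1), (58632, 0), (62328, 1), (60816, 1), (58296, 0), (61320, 1), (60144, 1), (59472, 1), (58968, 0), (62832, 1), (63168, 1), (61992, 1), (63336, 1), (62496, 1), (60984, 1), (63000, 1), (61488, 1), (60312, 1), (59640, 1), (58128, 0), (57456, 0), (57792, 0), (61656, 1), (57960, 0), (62160, 1), (60648, 1), (57624, 0), (61152, 1), (59976, 1), (59304, 1), (122640, 2), (120960, 1), (122136, 1), (119112, 1), (122472, 1), (120120, 1), (116592,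 1), (121632, 1), (117936, 1), (115080, 1), (113400, 1), (120960, 0), (120288, 2), (120624, 0), (118440, 1), (120792, 0), (119448, 1), (115920, 1), (120456, 0), (117264, 1), (114408, 1), (112728, 1), (122136, 0), (120624, 1), (121800, 2), (118776, 1), (121968, 0), (119784, 1), (116256, 1), (121296, 1), (117600, 1), (114744, 1), (113064, 1), (119112, 0), (118440, 0), (118776, 0), (118104, 2), (118944, 0), (118272, 0), (115584, 1), (118608, 0), (116928, 1), (114072, 1), (112392, 1), (122472, 0), (120792, 1), (121968, 1), (118944, 1), (122304, 2), (119952, 1), (116424, 1), (121464, 1), (117768, 1), (114912, 1), (113232, 1), (120120, 0), (119448, 0), (119784, 0), (118272, 1), (119952, 0), (119280, 2), (115752, 1), (119616, 0), (117096, 1), (114240, 1), (112560, 1), (116592, 0), (115920, 0), (116256, 0), (115584, 0), (116424, 0), (115752, 0), (115248, 2), (116088, 0), (115416, 0), (113736, 1), (112056, 1), (121632, 0), (120456, 1), (121296, 0), (118608, 1), (121464, 0), (119616, 1),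 (116088, 1), (121128, 2), (117432, 1), (114576, 1), (112896, 1), (117936, 0), (117264, 0), (117600, 0), (116928, 0), (117768, 0), (117096, 0), (115416, 1), (117432, 0), (116760, 2), (113904, 1), (112224, 1), (115080, 0), (114408, 0), (114744, 0), (114072, 0), (114912, 0), (114240, 0), (113736, 0), (114576, 0), (113904, 0), (113568, 2), (111888, 1), (113400, 0), (112728, 0), (113064, 0), (112392, 0), (113232, 0), (112560, 0), (112056, 0), (112896, 0), (112224, 0), (111888, 0), (111720, 2)])]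

/-- squares -/
noncomputable def tab79bd : List Blk := [(0, 0, [(0, 2)]), (336, 1, [(0, 2), (0, 2)]), (1680, 3, [(0, 2), (336, 2), (0, 2), (0, 2), (336, 2)]), (6552, 8, [(0, 2), (504, 2), (840, 2), (0, 2), (504, 2), (0, 2), (504, 2), (0, 2), (504, 2), (840, 2)]), (21336, 18, [(0, 2), (840, 2), (1512, 2), (0, 2), (840, 2), (840, 2), (2016, 2), (0, 2), (840, 2), (1512, 2)]), (49560, 28, [(0, 2), (1176, 2), (2184, 2), (3024, 2), (3696, 2), (0, 2), (1176, 2), (2184, 2), (1176, 2), (3024, 2), (4200, 2), (0, 2), (1176, 2), (1176, 2), (3024, 2), (2184, 2), (4200, 2), (0, 2), (1176, 2), (2184, 2), (3024, 2), (3696, 2)]), (111720, 50, [(0, 2), (1848, 2), (3528, 2), (5040, 2), (6384, 2), (1848, 2), (5040, 2), (7560, 2), (9408, 2), (10080, 2), (0, 2), (1848, 2), (3528, 2), (1848, 2), (5040, 2), (7560, 2), (3528, 2), (7560, 2), (10584, 2), (0, 2), (1848, 2), (1848, 2), (5040, 2), (3528, 2), (7560, 2), (5040, 2), (9408, 2), (6384, 2), (10080, 2)]), (21336, 79, [(0, 2), (840, 2), (1512, 2),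 (2016, 2), (2352, 2), (0, 2), (840, 2), (1512, 2), (2016, 2), (2352, 2)]), (49560, 89, [(0, 2), (1176, 2), (2184, 2), (3024, 2), (3696, 2), (4200, 2), (4536, 2), (0, 2), (1176, 2), (2184, 2), (3024, 2), (3696, 2), (4200, 2), (4536, 2)]), (111720, 103, [(0, 2), (1848, 2), (3528, 2), (5040, 2), (6384, 2), (7560, 2), (8568, 2), (9408, 2), (10080, 2), (10584, 2), (10920, 2), (0, 2), (1848, 2), (3528, 2), (5040, 2), (6384, 2), (7560, 2), (8568, 2), (0, 2), (1848, 2), (3528, 2), (5040, 2), (6384, 2), (7560, 2), (8568, 2), (0, 2), (1848, 2), (3528, 2), (5040, 2), (6384, 2), (7560, 2), (8568, 2), (9408, 2), (10080, 2), (10584, 2), (10920, 2)])]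

/-- tables -/
noncomputable def tab79b : Tab6 where
  one := 0
  q := tab79bq
  g := [tab79bg0, tab79bg1, tab79bg2, tab79bg3, tab79bg4, tab79bg5, tab79bg6, tab79bg7, tab79bg8, tab79bg9, tab79bg10, tab79bg11, tab79bg12, tab79bg13, tab79bg14, tab79bg15, tab79bg16, tab79bg17, tab79bg18, tab79bg19, tab79bg20, tab79bg21, tab79bg22, tab79bg23, tab79bg24, tab79bg25, tab79bg26, tab79bg27, tab79bg28, tab79bg29, tab79bg30, tab79bg31, tab79bg32, tab79bg33, tab79bg34, tab79bg35, tab79bg36, tab79bg37, tab79bg38, tab79bg39, tab79bg40, tab79bg41, tab79bg42, tab79bg43, tab79bg44, tab79bg45, tab79bg46, tab79bg47, tab79bg48, tab79bg49, tab79bg50, tab79bg51, tab79bg52, tab79bg53, tab79bg54, tab79bg55, tab79bg56, tab79bg57, tab79bg58, tab79bg59, tab79bg60, tab79bg61, tab79bg62, tab79bg63, tab79bg64, tab79bg65]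
  n := 79
  c := [tab79bc0, tab79bc1, tab79bc2, tab79bc3, tab79bc4, tab79bc5, tab79bc6, tab79bc7, tab79bc8, tab79bc9, tab79bc10, tab79bc11, tab79bc12, tab79bc13, tab79bc14, tab79bc15, tab79bc16, tab79bc17, tab79bc18, tab79bc19, tab79bc20, tab79bc21, tab79bc22, tab79bc23, tab79bc24, tab79bc25, tab79bc26, tab79bc27, tab79bc28, tab79bc29, tab79bc30, tab79bc31, tab79bc32, tab79bc33, tab79bc34, tab79bc35, tab79bc36, tab79bc37, tab79bc38, tab79bc39, tab79bc40, tab79bc41, tab79bc42, tab79bc43, tab79bc44, tab79bc45, tab79bc46, tab79bc47, tab79bc48, tab79bc49, tab79bc50, tab79bc51, tab79bc52, tab79bc53, tab79bc54, tab79bc55, tab79bc56, tab79bc57, tab79bc58, tab79bc59, tab79bc60, tab79bc61, tab79bc62, tab79bc63, tab79bc64, tab79bc65, tab79bc66, tab79bc67, tab79bc68, tab79bc69, tab79bc70, tab79bc71, tab79bc72, tab79bc73, tab79bc74, tab79bc75, tab79bc76, tab79bc77, tab79bc78]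
  d := tab79bd
  r := [tab79br0, tab79br1, tab79br2, tab79br3, tab79br4, tab79br5, tab79br6, tab79br7, tab79br8, tab79br9, tab79br10, tab79br11]
  nQ := 361
  nM := 1126
  nD := 11118
  nC := 6241
  nB := 139
  nR := 889

end Pool.Agent.Helper54.HR2
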