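import Pool.Agent.Helper54.HR2.Fast6
import Pool.Agent.Helper54.HR2.TabData5

/-!
MP_16b0ee, project HR2: correctness of the tables for the second kernel computation, basis monomials of weight at most 5, 74 monomials in the rows, digits of 168 bits.
-/

set_option autoImplicit false
set_option maxRecDepth 100000
set_option linter.all false

namespace Pool.Agent.Helper54.HR2

open Pool.Agent.Helper12.HR2 (Mo)

/-- the codes of the monomials -/
noncomputable def repFive (j : ℕ) : ℕ := Nat.mod (Nat.shiftRight 1247038098897813108897277006493079342174777473050813267205006078359765988158165871955206369035331483269408322833704586610216197431355359732788925159523038014640683257735660170001482638399434305067059935977592246560087245137485172843856863646748739842127656442884914288810154888520670419434851627524297173038463750526499906478452588046067944118141543913360980724692121734821553253292759028393853019553650029099744783941826674151999805413433380420049995757853497065944519834402475655092565714824917544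586258520186503003968526887186196582137179727646277319957971236914249055874054034872663325332921769212275450828026940141908400859163178431401794629534646226827870884287371706961741812030761219816117110664643631884882276248845888594266992692268677946041415980116492376721901466529887480953741858571149807382524912522711624372846501840975714934496437365604018904481632698405099787621893208535801048764294647666991953570778168953611525293877191631190493430889502959854900559321909563641049185623106354940332030023165444737203102417423606838572779120151779978350780926753858069098713264226017667592186365697776126868116939076595520716411313075876944344205706596022290906754485874557056054437060115871877434910060794205374490291416209492043801673315069420597012210821670375015122723225451768665096757711719857347389583641780801962326796360262610940225454017527877130025528065594825082549622089416564978259495161610813365274575888172681770404499113441406108380169756728538978317724436811492971330029136322335906196403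985162745668122430918414908332841607878610566644427292249848162229425517680619766119452351185443054910020568974255811165997339152932719564397171120505784258806410409782425206803930976142215593667254900567637590878641045161593613497764676234646524954811901474350796261182801990619571588292145583991720731107180303553051350619588242214643098502732382393006264292359446022315039166467676860009673051921044135107464005862917757769319530886529348577515445845381907978661833901848196274670323033744985543969928959047287651878831358156315563646186358182204791295833085937205188625644612065938179042645423806256062063030762057655632096520654493200569846134678498308658516962322747206311633430284658999658646786077521812615235561642350309511644494246294976354565385047862809699268429761753336240106137463961217662855978113655187536490108760798718919196582894933154785900490111635021345099695255118988003624450077581099462676898874859195340821082575456300153827080417161671999101373116166784640045271770185714883408676449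486532518555896321509896413710716620855778402601438997532882117330774379566217610563589751819816399287720654637768155224621403366370046324839573222069248423032495679136017184331002226056538943557946973592505380127823929948941057301472481877896005693159343494616275865894241795033038539980763965423044796930452071331465087889039208105585549781634059282242987064167573089302782250579048089832105310735020251556490404727451187000549810534358362865721000131518773668441753734791101771950446813539534364987231151782357224141032608456274073062138240796660432247333242598842919617252029598128777197047946515057801048616705432228253375793134593222381648220389085095664606973127360611946591722707848180263085200385428681585627123023686811134869396093332739412444871468643300272587873815415391542868491186349790730601571803986807170530837772182650378631636403724860823776170025478839167324239950291770883219429603407920731484562881997695545041218797118175415605586605221495384323029516523452665404451493653697334201870600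662354709784992557445377535152396531554855845899837004634789213064878324781190606188517127442888216517221931060762458496685231516336906980395125941492132156553599175028904055542763058875910671089944436031736551490187273608860125197624367072022932313423211924628311359723702457397663081153186136511498474737401213582845066835463300994345458547028228636593357664066966088900372635053955560498628270355460900094677953681779689227325244178736060145760143247300948820088061224726567281776979521171334993236751672816030481139349907554241821298082824930436984733945355455493163100620390998696763229532930150980060865774062875705044329171674095803319543016236528957305958568440333228686475023336343249200163445552060250060970749739788128046159054741851143530772502792757089282416925677649134261508662194792697214659680627093534041701525805193275845197216954851498127938570517848599929397164696407607535636939347712736598221188904380965624382711219204568913516418001169434703801238176915559408274615102033425356242229923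557274227684478697433471383697994535983761138306308090329793227902195853967896753145177403801212155594006924076381347284389051027447795438772756590891986296206961120904743958424417324153687657013787682037383923003553851688908436273438322464760488499020650477718725516835734361831947280669479495854214756057442128740935567040502753944175936810887052846467085810313877356207683892637747253127622265870385951398445106569828411370610582120382524296463456699950643641769973238653281445816162749567856952515843476295922860786920611967417481786466218386837805550795567091196680067363864201824659672453318254348756517254003145799225384747075624098039465991135861887093849953010079589846631375116938881973684271944206311691737636258857214478539473085080106067733714332959910177007897737724173894040795334007423895871013768826849133062789043492896548722837275669305388233818522306091209961525210081543012398671988756199148347277043195501029647104535786145769156943422124414409019248706779272994072503670651643853192067583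857228754317030721088396529698332998740967643513784578339839919278130445881452170791654967798345284914453524002757190269510071486169463286265769276609033199454137040399301103443478705572461506989379293367065232559492635225182373452180229846021030773228657115459964903682462908359379406340677641549301688745052581002129459521449117826756867254461022971035323953825475262947889832129003167352181170523145919418573528829748302993613112674450455977274233521601582503301106021746339956625803955950316357881858735905109389695514827207138900393333203771710721579765273709152554906181534046975776451205763106269473663534571514093418655924848492911195099599186322778928721534106002928936711686622572348188352897447406076422040460680667770545665162233880022380525337138997541847338090096598711923828923534102237520170806358968711332658484397949869575689102227361942920715294440478798489308291132431499400696789499380718315087745337017465335393598030552148400075808309935506362804237455041317987762469499428557449076875429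011427562184730021896402636654105226823497330740516572017319933840085636852639914324516403856015295421646972264371105050658369283011013532945562292906460917748528753572599051081651769085411557039858343696725913604075939383129169791563829767032716356243647330769291790047289384832152175688583478107833273005518349719128683966453935534621886371079035446001580275336613076926590765384417438151094309333722606210156616908123768117209067127964681059075293463045810866600811785165705618207562616938866886836884570870923335225689746605064348950684774983656819815938451495501187980375280241687988016226328299333236297822459857823983173140726011431642620421409647139365395432186577619552208403892885646307012865065210148744260310422361877540682924178495383130738829523670106019854322836772861181433059152165092364568762048006627444485150812940498118065736797991039401232459521221367422296314819164554755841832248732119448481722380818660402873178147831488368576570562845153334464404577054935352834237679519751252624701278877230043217164282779951913339386097573417282007650108717686593938558743641849856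 (Nat.mul 48 j)) 281474976710656

/-- the codes of the basis monomials -/
noncomputable def kbFive (j : ℕ) : ℕ := Nat.mod (Nat.shiftRight 4222646610334809852213890951147432693944543405945426117858734729548978456363166795011269390778166657401274130285108916734215881016939674423680195170098176310889637974378702959007637756849334149671179499240705488908237870522708770591891244063162984235204000673489728189527499410635666430170214715733807202569051790888191419983649886994279828107466859079580003725139786695316747548562189851726763861911310914370989151989859962354864410871671762800443425731469205272168062860405708160762779550811495252882871586945327511215662625769714108101963683596433882858953588601748028160021146279307731748804253507438442672527988812902883440058663927643881543310397256291222864868064636233684915413846755178867424654350002337043189346303145281494496577572591990637330352072239772823181428959636599372232768900969185948038205890889473624976166896511320746877799258032698977428736144051948123108243828535135751047463649450253024196974458716810585254375076020162157620340648988081660415524682126470147514564850858296782809032447345789263515653135641362659530868259537794629632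 (Nat.mul 48 j)) 281474976710656

/-- the basis monomials -/
noncomputable def basFive : List Mo := [
  ([], []), ([], [0]), ([0], []), ([], [0, 0]), ([], [1]), ([0], [0]), ([0, 0], []), ([1], []),
  ([], [0, 0, 0]), ([], [0, 1]), ([], [2]), ([0], [0, 0]), ([0], [1]), ([0, 0], [0]), ([1], [0]),
  ([0, 0, 0], []), ([0, 1], []), ([2], []), ([], [0, 0, 0, 0]), ([], [0, 0, 1]), ([], [0, 2]),
  ([], [1, 1]), ([], [3]), ([0], [0, 0, 0]), ([0], [0, 1]), ([0], [2]), ([0, 0], [0, 0]),
  ([0, 0], [1]), ([1], [0, 0]), ([1], [1]), ([0, 0, 0], [0]), ([0, 1], [0]), ([2], [0]),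
  ([0, 0, 0, 0], []), ([0, 0, 1], []), ([0, 2], []), ([1, 1], []), ([3], []),
  ([], [0, 0, 0, 0, 0]), ([], [0, 0, 0, 1]), ([], [0, 0, 2]), ([], [0, 1, 1]), ([], [0, 3]),
  ([], [1, 2]), ([], [4]), ([0], [0, 0, 0, 0]), ([0], [0, 0, 1]), ([0], [0, 2]), ([0], [1, 1]),
  ([0], [3]), ([0, 0], [0, 0, 0]), ([0, 0], [0, 1]), ([0, 0], [2]), ([1], [0, 0, 0]),
  ([1], [0, 1]), ([1], [2]), ([0, 0, 0], [0, 0]), ([0, 0, 0], [1]), ([0, 1], [0, 0]),
  ([0, 1], [1]), ([2], [0, 0]), ([2], [1]), ([0, 0, 0, 0], [0]), ([0, 0, 1], [0]), ([0, 2], [0]),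
  ([1, 1], [0]), ([3], [0]), ([0, 0, 0, 0, 0], []), ([0, 0, 0, 1], []), ([0, 0, 2], []),
  ([0, 1, 1], []), ([0, 3], []), ([1, 2], []), ([4], [])]

/-- the multipliers of a group -/
noncomputable def gmFivex0 : List Mo := [
  ([], [])]

/-- the multipliers of a group -/
noncomputable def gmFivex1 : List Mo := [
  ([], [0])]

/-- the multipliers of a group -/
noncomputable def gmFivex2 : List Mo := [
  ([0], [])]

/-- the multipliers of a group -/
noncomputable def gmFivex3 : List Mo := [
  ([], [0, 0]), ([], [1]), ([1], [])]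

/-- the multipliers of a group -/
noncomputable def gmFivex4 : List Mo := [
  ([0], [0])]

/-- the multipliers of a group -/
noncomputable def gmFivex5 : List Mo := [
  ([0, 0], [])]

/-- the multipliers of a group -/
noncomputable def gmFivex6 : List Mo := [
  ([], [0, 0, 0]), ([], [0, 1]), ([], [2]), ([1], [0]), ([2], [])]

/-- the multipliers of a group -/
noncomputable def gmFivex7 : List Mo := [
  ([0], [0, 0]), ([0], [1]), ([0, 1], [])]

/-- the multipliers of a group -/
noncomputable def gmFivex8 : List Mo := [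
  ([0, 0], [0])]

/-- the multipliers of a group -/
noncomputable def gmFivex9 : List Mo := [
  ([0, 0, 0], [])]

/-- the multipliers of a group -/
noncomputable def gmFivex10 : List Mo := [
  ([], [0, 0, 0, 0]), ([], [0, 0, 1]), ([], [0, 2]), ([], [1, 1]), ([], [3]), ([1], [0, 0]),
  ([1], [1]), ([2], [0]), ([1, 1], []), ([3], [])]

/-- the multipliers of a group -/
noncomputable def gmFivex11 : List Mo := [
  ([0], [0, 0, 0]), ([0], [0, 1]), ([0], [2]), ([0, 1], [0]), ([0, 2], [])]

/-- the multipliers of a group -/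
noncomputable def gmFivex12 : List Mo := [
  ([0, 0], [0, 0]), ([0, 0], [1]), ([0, 0, 1], [])]

/-- the multipliers of a group -/
noncomputable def gmFivex13 : List Mo := [
  ([0, 0, 0], [0])]

/-- the multipliers of a group -/
noncomputable def gmFivex14 : List Mo := [
  ([0, 0, 0, 0], [])]

/-- the multipliers of a group -/
noncomputable def gmFivex15 : List Mo := [
  ([], [0, 0, 0, 0, 0]), ([], [0, 0, 0, 1]), ([], [0, 0, 2]), ([], [0, 1, 1]), ([], [0, 3]),
  ([], [1, 2]), ([], [4]), ([1], [0, 0, 0]), ([1], [0, 1]), ([1], [2]), ([2], [0, 0]), ([2], [1]),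
  ([1, 1], [0]), ([3], [0]), ([1, 2], [])]

/-- the multipliers of a group -/
noncomputable def gmFivex16 : List Mo := [
  ([0], [0, 0, 0, 0]), ([0], [0, 0, 1]), ([0], [0, 2]), ([0], [1, 1]), ([0], [3]),
  ([0, 1], [0, 0]), ([0, 1], [1]), ([0, 2], [0]), ([0, 1, 1], []), ([0, 3], [])]

/-- the multipliers of a group -/
noncomputable def gmFivex17 : List Mo := [
  ([0, 0], [0, 0, 0]), ([0, 0], [0, 1]), ([0, 0], [2]), ([0, 0, 1], [0]), ([0, 0, 2], [])]

/-- the multipliers of a group -/
noncomputable def gmFivex18 : List Mo := [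
  ([0, 0, 0], [0, 0]), ([0, 0, 0], [1]), ([0, 0, 0, 1], [])]

/-- the multipliers of a group -/
noncomputable def gmFivex19 : List Mo := [
  ([0, 0, 0, 0], [0])]

/-- the multipliers of a group -/
noncomputable def gmFivex20 : List Mo := [
  ([0, 0, 0, 0, 0], [])]

/-- the multipliers of a group -/
noncomputable def gmFivex21 : List Mo := [
  ([], [0, 0, 0, 0, 0, 0]), ([], [0, 0, 0, 0, 1]), ([], [0, 0, 0, 2]), ([], [0, 0, 1, 1]),
  ([], [0, 0, 3]), ([], [0, 1, 2]), ([], [0, 4]), ([], [1, 1, 1]), ([], [1, 3]), ([], [2, 2]),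
  ([1], [0, 0, 0, 0]), ([1], [0, 0, 1]), ([1], [0, 2]), ([1], [1, 1]), ([1], [3]),
  ([2], [0, 0, 0]), ([2], [0, 1]), ([2], [2]), ([1, 1], [0, 0]), ([1, 1], [1]), ([3], [0, 0]),
  ([3], [1]), ([1, 2], [0]), ([1, 1, 1], []), ([1, 3], []), ([2, 2], [])]

/-- the multipliers of a group -/
noncomputable def gmFivex22 : List Mo := [
  ([0], [0, 0, 0, 0, 0]), ([0], [0, 0, 0, 1]), ([0], [0, 0, 2]), ([0], [0, 1, 1]), ([0], [0, 3]),
  ([0], [1, 2]), ([0], [4]), ([0, 1], [0, 0, 0]), ([0, 1], [0, 1]), ([0, 1], [2]),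
  ([0, 2], [0, 0]), ([0, 2], [1]), ([0, 1, 1], [0]), ([0, 3], [0]), ([0, 1, 2], [])]

/-- the multipliers of a group -/
noncomputable def gmFivex23 : List Mo := [
  ([0, 0], [0, 0, 0, 0]), ([0, 0], [0, 0, 1]), ([0, 0], [0, 2]), ([0, 0], [1, 1]), ([0, 0], [3]),
  ([0, 0, 1], [0, 0]), ([0, 0, 1], [1]), ([0, 0, 2], [0]), ([0, 0, 1, 1], []), ([0, 0, 3], [])]

/-- the multipliers of a group -/
noncomputable def gmFivex24 : List Mo := [
  ([0, 0, 0], [0, 0, 0]), ([0, 0, 0], [0, 1]), ([0, 0, 0], [2]), ([0, 0, 0, 1], [0]),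
  ([0, 0, 0, 2], [])]

/-- the multipliers of a group -/
noncomputable def gmFivex25 : List Mo := [
  ([0, 0, 0, 0], [0, 0]), ([0, 0, 0, 0], [1]), ([0, 0, 0, 0, 1], [])]

/-- the multipliers of a group -/
noncomputable def gmFivex26 : List Mo := [
  ([0, 0, 0, 0, 0], [0])]

/-- the multipliers of a group -/
noncomputable def gmFivex27 : List Mo := [
  ([0, 0, 0, 0, 0, 0], [])]

/-- the multipliers of a group -/
noncomputable def gmFivex28 : List Mo := [
  ([], [0, 0, 0, 0, 0, 0, 0]), ([], [0, 0, 0, 0, 0, 1]), ([], [0, 0, 0, 0, 2]),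
  ([], [0, 0, 0, 1, 1]), ([], [0, 0, 0, 3]), ([], [0, 0, 1, 2]), ([], [0, 0, 4]),
  ([], [0, 1, 1, 1]), ([], [0, 1, 3]), ([], [0, 2, 2]), ([], [1, 1, 2]), ([], [1, 4]),
  ([], [2, 3]), ([1], [0, 0, 0, 0, 0]), ([1], [0, 0, 0, 1]), ([1], [0, 0, 2]), ([1], [0, 1, 1]),
  ([1], [0, 3]), ([1], [1, 2]), ([1], [4]), ([2], [0, 0, 0, 0]), ([2], [0, 0, 1]), ([2], [0, 2]),
  ([2], [1, 1]), ([2], [3]), ([1, 1], [0, 0, 0]), ([1, 1], [0, 1]), ([1, 1], [2]),
  ([3], [0, 0, 0]), ([3], [0, 1]), ([3], [2]), ([1, 2], [0, 0]), ([1, 2], [1]), ([1, 1, 1], [0]),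
  ([1, 3], [0]), ([2, 2], [0]), ([1, 1, 2], []), ([2, 3], [])]

/-- the multipliers of a group -/
noncomputable def gmFivex29 : List Mo := [
  ([0], [0, 0, 0, 0, 0, 0]), ([0], [0, 0, 0, 0, 1]), ([0], [0, 0, 0, 2]), ([0], [0, 0, 1, 1]),
  ([0], [0, 0, 3]), ([0], [0, 1, 2]), ([0], [0, 4]), ([0], [1, 1, 1]), ([0], [1, 3]),
  ([0], [2, 2]), ([0, 1], [0, 0, 0, 0]), ([0, 1], [0, 0, 1]), ([0, 1], [0, 2]), ([0, 1], [1, 1]),
  ([0, 1], [3]), ([0, 2], [0, 0, 0]), ([0, 2], [0, 1]), ([0, 2], [2]), ([0, 1, 1], [0, 0]),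
  ([0, 1, 1], [1]), ([0, 3], [0, 0]), ([0, 3], [1]), ([0, 1, 2], [0]), ([0, 1, 1, 1], []),
  ([0, 1, 3], []), ([0, 2, 2], [])]

/-- the multipliers of a group -/
noncomputable def gmFivex30 : List Mo := [
  ([0, 0], [0, 0, 0, 0, 0]), ([0, 0], [0, 0, 0, 1]), ([0, 0], [0, 0, 2]), ([0, 0], [0, 1, 1]),
  ([0, 0], [0, 3]), ([0, 0], [1, 2]), ([0, 0], [4]), ([0, 0, 1], [0, 0, 0]), ([0, 0, 1], [0, 1]),
  ([0, 0, 1], [2]), ([0, 0, 2], [0, 0]), ([0, 0, 2], [1]), ([0, 0, 1, 1], [0]), ([0, 0, 3], [0]),
  ([0, 0, 1, 2], [])]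

/-- the multipliers of a group -/
noncomputable def gmFivex31 : List Mo := [
  ([0, 0, 0], [0, 0, 0, 0]), ([0, 0, 0], [0, 0, 1]), ([0, 0, 0], [0, 2]), ([0, 0, 0], [1, 1]),
  ([0, 0, 0], [3]), ([0, 0, 0, 1], [0, 0]), ([0, 0, 0, 1], [1]), ([0, 0, 0, 2], [0]),
  ([0, 0, 0, 1, 1], []), ([0, 0, 0, 3], [])]

/-- the multipliers of a group -/
noncomputable def gmFivex32 : List Mo := [
  ([0, 0, 0, 0], [0, 0, 0]), ([0, 0, 0, 0], [0, 1]), ([0, 0, 0, 0], [2]), ([0, 0, 0, 0, 1], [0]),
  ([0, 0, 0, 0, 2], [])]

/-- the multipliers of a group -/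
noncomputable def gmFivex33 : List Mo := [
  ([0, 0, 0, 0, 0], [0, 0]), ([0, 0, 0, 0, 0], [1]), ([0, 0, 0, 0, 0, 1], [])]

/-- the multipliers of a group -/
noncomputable def gmFivex34 : List Mo := [
  ([0, 0, 0, 0, 0, 0], [0])]

/-- the multipliers of a group -/
noncomputable def gmFivex35 : List Mo := [
  ([0, 0, 0, 0, 0, 0, 0], [])]

/-- the multipliers of a group -/
noncomputable def gmFivex36 : List Mo := [
  ([], [0, 0, 0, 0, 0, 0, 0, 0]), ([], [0, 0, 0, 0, 0, 0, 1]), ([], [0, 0, 0, 0, 0, 2]),
  ([], [0, 0, 0, 0, 1, 1]), ([], [0, 0, 0, 0, 3]), ([], [0, 0, 0, 1, 2]), ([], [0, 0, 0, 4]),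
  ([], [0, 0, 1, 1, 1]), ([], [0, 0, 1, 3]), ([], [0, 0, 2, 2]), ([], [0, 1, 1, 2]),
  ([], [0, 1, 4]), ([], [0, 2, 3]), ([], [1, 1, 1, 1]), ([], [1, 1, 3]), ([], [1, 2, 2]),
  ([], [2, 4]), ([], [3, 3]), ([1], [0, 0, 0, 0, 0, 0]), ([1], [0, 0, 0, 0, 1]),
  ([1], [0, 0, 0, 2]), ([1], [0, 0, 1, 1]), ([1], [0, 0, 3]), ([1], [0, 1, 2]), ([1], [0, 4]),
  ([1], [1, 1, 1]), ([1], [1, 3]), ([2], [0, 0, 0, 0, 0]), ([2], [0, 0, 0, 1]), ([2], [0, 0, 2]),
  ([2], [0, 1, 1]), ([2], [0, 3]), ([2], [1, 2]), ([2], [4]), ([1, 1], [0, 0, 0, 0]),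
  ([1, 1], [0, 0, 1]), ([1, 1], [0, 2]), ([1, 1], [1, 1]), ([1, 1], [3]), ([3], [0, 0, 0, 0]),
  ([3], [0, 0, 1]), ([3], [0, 2]), ([3], [1, 1]), ([3], [3]), ([1, 2], [0, 0, 0]),
  ([1, 2], [0, 1]), ([1, 1, 1], [0, 0]), ([1, 1, 1], [1]), ([1, 3], [0, 0]), ([1, 3], [1]),
  ([2, 2], [0, 0]), ([2, 2], [1]), ([1, 1, 2], [0]), ([2, 3], [0]), ([1, 1, 1, 1], []),
  ([1, 1, 3], []), ([3, 3], [])]

/-- the multipliers of a group -/
noncomputable def gmFivex37 : List Mo := [
  ([0], [0, 0, 0, 0, 0, 0, 0]), ([0], [0, 0, 0, 0, 0, 1]), ([0], [0, 0, 0, 0, 2]),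
  ([0], [0, 0, 0, 1, 1]), ([0], [0, 0, 0, 3]), ([0], [0, 0, 1, 2]), ([0], [0, 0, 4]),
  ([0], [0, 1, 1, 1]), ([0], [0, 1, 3]), ([0], [0, 2, 2]), ([0], [1, 1, 2]), ([0], [1, 4]),
  ([0], [2, 3]), ([0, 1], [0, 0, 0, 0, 0]), ([0, 1], [0, 0, 0, 1]), ([0, 1], [0, 0, 2]),
  ([0, 1], [0, 1, 1]), ([0, 1], [0, 3]), ([0, 1], [1, 2]), ([0, 1], [4]), ([0, 2], [0, 0, 0, 0]),
  ([0, 2], [0, 0, 1]), ([0, 2], [0, 2]), ([0, 2], [1, 1]), ([0, 2], [3]), ([0, 1, 1], [0, 0, 0]),
  ([0, 1, 1], [0, 1]), ([0, 1, 1], [2]), ([0, 3], [0, 0, 0]), ([0, 3], [0, 1]), ([0, 3], [2]),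
  ([0, 1, 2], [0, 0]), ([0, 1, 2], [1]), ([0, 1, 1, 1], [0]), ([0, 1, 3], [0]), ([0, 2, 2], [0]),
  ([0, 1, 1, 2], []), ([0, 2, 3], [])]

/-- the multipliers of a group -/
noncomputable def gmFivex38 : List Mo := [
  ([0, 0], [0, 0, 0, 0, 0, 0]), ([0, 0], [0, 0, 0, 0, 1]), ([0, 0], [0, 0, 0, 2]),
  ([0, 0], [0, 0, 1, 1]), ([0, 0], [0, 0, 3]), ([0, 0], [0, 1, 2]), ([0, 0], [0, 4]),
  ([0, 0], [1, 1, 1]), ([0, 0], [1, 3]), ([0, 0], [2, 2]), ([0, 0, 1], [0, 0, 0, 0]),
  ([0, 0, 1], [0, 0, 1]), ([0, 0, 1], [0, 2]), ([0, 0, 1], [1, 1]), ([0, 0, 1], [3]),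
  ([0, 0, 2], [0, 0, 0]), ([0, 0, 2], [0, 1]), ([0, 0, 2], [2]), ([0, 0, 1, 1], [0, 0]),
  ([0, 0, 1, 1], [1]), ([0, 0, 3], [0, 0]), ([0, 0, 3], [1]), ([0, 0, 1, 2], [0]),
  ([0, 0, 1, 1, 1], []), ([0, 0, 1, 3], []), ([0, 0, 2, 2], [])]

/-- the multipliers of a group -/
noncomputable def gmFivex39 : List Mo := [
  ([0, 0, 0], [0, 0, 0, 0, 0]), ([0, 0, 0], [0, 0, 0, 1]), ([0, 0, 0], [0, 0, 2]),
  ([0, 0, 0], [0, 1, 1]), ([0, 0, 0], [0, 3]), ([0, 0, 0], [1, 2]), ([0, 0, 0], [4]),
  ([0, 0, 0, 1], [0, 0, 0]), ([0, 0, 0, 1], [0, 1]), ([0, 0, 0, 1], [2]), ([0, 0, 0, 2], [0, 0]),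
  ([0, 0, 0, 2], [1]), ([0, 0, 0, 1, 1], [0]), ([0, 0, 0, 3], [0]), ([0, 0, 0, 1, 2], [])]

/-- the multipliers of a group -/
noncomputable def gmFivex40 : List Mo := [
  ([0, 0, 0, 0], [0, 0, 0, 0]), ([0, 0, 0, 0], [0, 0, 1]), ([0, 0, 0, 0], [0, 2]),
  ([0, 0, 0, 0], [1, 1]), ([0, 0, 0, 0], [3]), ([0, 0, 0, 0, 1], [0, 0]), ([0, 0, 0, 0, 1], [1]),
  ([0, 0, 0, 0, 2], [0]), ([0, 0, 0, 0, 1, 1], []), ([0, 0, 0, 0, 3], [])]

/-- the multipliers of a group -/
noncomputable def gmFivex41 : List Mo := [
  ([0, 0, 0, 0, 0], [0, 0, 0]), ([0, 0, 0, 0, 0], [0, 1]), ([0, 0, 0, 0, 0], [2]),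
  ([0, 0, 0, 0, 0, 1], [0]), ([0, 0, 0, 0, 0, 2], [])]

/-- the multipliers of a group -/
noncomputable def gmFivex42 : List Mo := [
  ([0, 0, 0, 0, 0, 0], [0, 0]), ([0, 0, 0, 0, 0, 0], [1]), ([0, 0, 0, 0, 0, 0, 1], [])]

/-- the multipliers of a group -/
noncomputable def gmFivex43 : List Mo := [
  ([0, 0, 0, 0, 0, 0, 0], [0])]

/-- the multipliers of a group -/
noncomputable def gmFivex44 : List Mo := [
  ([0, 0, 0, 0, 0, 0, 0, 0], [])]

/-- the multipliers of a group -/
noncomputable def gmFivex45 : List Mo := [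
  ([], [0, 0, 0, 0, 0, 0, 0, 0, 0]), ([], [0, 0, 0, 0, 0, 0, 0, 1]), ([], [0, 0, 0, 0, 0, 0, 2]),
  ([], [0, 0, 0, 0, 0, 1, 1]), ([], [0, 0, 0, 0, 0, 3]), ([], [0, 0, 0, 0, 1, 2]),
  ([], [0, 0, 0, 0, 4]), ([], [0, 0, 0, 1, 1, 1]), ([], [0, 0, 0, 1, 3]), ([], [0, 0, 0, 2, 2]),
  ([], [0, 0, 1, 1, 2]), ([], [0, 0, 1, 4]), ([], [0, 0, 2, 3]), ([], [0, 1, 1, 1, 1]),
  ([], [0, 1, 1, 3]), ([], [0, 1, 2, 2]), ([], [0, 2, 4]), ([], [0, 3, 3]), ([], [1, 1, 1, 2]),
  ([], [1, 1, 4]), ([], [1, 2, 3]), ([], [3, 4]), ([1], [0, 0, 0, 0, 0, 0, 0]),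
  ([1], [0, 0, 0, 0, 0, 1]), ([1], [0, 0, 0, 0, 2]), ([1], [0, 0, 0, 1, 1]), ([1], [0, 0, 0, 3]),
  ([1], [0, 0, 1, 2]), ([1], [0, 0, 4]), ([1], [0, 1, 1, 1]), ([1], [0, 1, 3]), ([1], [1, 1, 2]),
  ([1], [1, 4]), ([2], [0, 0, 0, 0, 0, 0]), ([2], [0, 0, 0, 0, 1]), ([2], [0, 0, 0, 2]),
  ([2], [0, 0, 1, 1]), ([2], [0, 0, 3]), ([2], [0, 1, 2]), ([2], [0, 4]),
  ([1, 1], [0, 0, 0, 0, 0]), ([1, 1], [0, 0, 0, 1]), ([1, 1], [0, 0, 2]), ([1, 1], [0, 1, 1]),
  ([1, 1], [0, 3]), ([1, 1], [1, 2]), ([1, 1], [4]), ([3], [0, 0, 0, 0, 0]), ([3], [0, 0, 0, 1]),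
  ([3], [0, 0, 2]), ([3], [0, 1, 1]), ([3], [0, 3]), ([3], [1, 2]), ([3], [4]),
  ([1, 2], [0, 0, 0, 0]), ([1, 2], [0, 0, 1]), ([1, 1, 1], [0, 0, 0]), ([1, 1, 1], [0, 1]),
  ([1, 1, 1], [2]), ([1, 3], [0, 0, 0]), ([1, 3], [0, 1]), ([2, 2], [0, 0, 0]), ([2, 2], [0, 1]),
  ([1, 1, 2], [0, 0]), ([2, 3], [0, 0]), ([1, 1, 1, 1], [0]), ([1, 1, 3], [0]), ([3, 3], [0])]

/-- the multipliers of a group -/
noncomputable def gmFivex46 : List Mo := [
  ([0], [0, 0, 0, 0, 0, 0, 0, 0]), ([0], [0, 0, 0, 0, 0, 0, 1]), ([0], [0, 0, 0, 0, 0, 2]),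
  ([0], [0, 0, 0, 0, 1, 1]), ([0], [0, 0, 0, 0, 3]), ([0], [0, 0, 0, 1, 2]), ([0], [0, 0, 0, 4]),
  ([0], [0, 0, 1, 1, 1]), ([0], [0, 0, 1, 3]), ([0], [0, 0, 2, 2]), ([0], [0, 1, 1, 2]),
  ([0], [0, 1, 4]), ([0], [0, 2, 3]), ([0], [1, 2, 2]), ([0], [2, 4]),
  ([0, 1], [0, 0, 0, 0, 0, 0]), ([0, 1], [0, 0, 0, 0, 1]), ([0, 1], [0, 0, 0, 2]),
  ([0, 1], [0, 0, 1, 1]), ([0, 1], [0, 0, 3]), ([0, 1], [0, 1, 2]), ([0, 1], [0, 4]),
  ([0, 2], [0, 0, 0, 0, 0]), ([0, 2], [0, 0, 0, 1]), ([0, 2], [0, 0, 2]), ([0, 2], [0, 1, 1]),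
  ([0, 2], [0, 3]), ([0, 2], [1, 2]), ([0, 2], [4]), ([0, 1, 1], [0, 0, 0, 0]),
  ([0, 1, 1], [0, 0, 1]), ([0, 1, 1], [0, 2]), ([0, 3], [0, 0, 0, 0]), ([0, 3], [0, 0, 1]),
  ([0, 3], [0, 2]), ([0, 1, 2], [0, 0, 0]), ([0, 1, 2], [0, 1]), ([0, 1, 1, 1], [0, 0]),
  ([0, 1, 3], [0, 0]), ([0, 2, 2], [0, 0]), ([0, 2, 2], [1]), ([0, 1, 1, 2], [0]), ([0, 2, 3], [0])]

/-- the multipliers of a group -/
noncomputable def gmFivex47 : List Mo := [
  ([0, 0], [0, 0, 0, 0, 0, 0, 0]), ([0, 0], [0, 0, 0, 0, 0, 1]), ([0, 0], [0, 0, 0, 0, 2]),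
  ([0, 0], [0, 0, 0, 1, 1]), ([0, 0], [0, 0, 0, 3]), ([0, 0], [0, 0, 1, 2]), ([0, 0], [0, 0, 4]),
  ([0, 0], [0, 1, 1, 1]), ([0, 0], [0, 1, 3]), ([0, 0], [0, 2, 2]), ([0, 0], [1, 1, 2]),
  ([0, 0], [1, 4]), ([0, 0], [2, 3]), ([0, 0, 1], [0, 0, 0, 0, 0]), ([0, 0, 1], [0, 0, 0, 1]),
  ([0, 0, 1], [0, 0, 2]), ([0, 0, 1], [0, 1, 1]), ([0, 0, 1], [0, 3]), ([0, 0, 1], [1, 2]),
  ([0, 0, 1], [4]), ([0, 0, 2], [0, 0, 0, 0]), ([0, 0, 2], [0, 0, 1]), ([0, 0, 2], [0, 2]),
  ([0, 0, 2], [1, 1]), ([0, 0, 2], [3]), ([0, 0, 1, 1], [0, 0, 0]), ([0, 0, 1, 1], [0, 1]),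
  ([0, 0, 1, 1], [2]), ([0, 0, 3], [0, 0, 0]), ([0, 0, 3], [0, 1]), ([0, 0, 3], [2]),
  ([0, 0, 1, 2], [0, 0]), ([0, 0, 1, 2], [1]), ([0, 0, 1, 1, 1], [0]), ([0, 0, 1, 3], [0]),
  ([0, 0, 2, 2], [0]), ([0, 0, 1, 1, 2], []), ([0, 0, 2, 3], [])]

/-- the multipliers of a group -/
noncomputable def gmFivex48 : List Mo := [
  ([0, 0, 0], [0, 0, 0, 0, 0, 0]), ([0, 0, 0], [0, 0, 0, 0, 1]), ([0, 0, 0], [0, 0, 0, 2]),
  ([0, 0, 0], [0, 0, 1, 1]), ([0, 0, 0], [0, 0, 3]), ([0, 0, 0], [0, 1, 2]), ([0, 0, 0], [0, 4]),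
  ([0, 0, 0], [1, 1, 1]), ([0, 0, 0], [1, 3]), ([0, 0, 0], [2, 2]), ([0, 0, 0, 1], [0, 0, 0, 0]),
  ([0, 0, 0, 1], [0, 0, 1]), ([0, 0, 0, 1], [0, 2]), ([0, 0, 0, 1], [1, 1]), ([0, 0, 0, 1], [3]),
  ([0, 0, 0, 2], [0, 0, 0]), ([0, 0, 0, 2], [0, 1]), ([0, 0, 0, 2], [2]),
  ([0, 0, 0, 1, 1], [0, 0]), ([0, 0, 0, 1, 1], [1]), ([0, 0, 0, 3], [0, 0]), ([0, 0, 0, 3], [1]),
  ([0, 0, 0, 1, 2], [0]), ([0, 0, 0, 1, 1, 1], []), ([0, 0, 0, 1, 3], []), ([0, 0, 0, 2, 2], [])]

/-- the multipliers of a group -/
noncomputable def gmFivex49 : List Mo := [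
  ([0, 0, 0, 0], [0, 0, 0, 0, 0]), ([0, 0, 0, 0], [0, 0, 0, 1]), ([0, 0, 0, 0], [0, 0, 2]),
  ([0, 0, 0, 0], [0, 1, 1]), ([0, 0, 0, 0], [0, 3]), ([0, 0, 0, 0], [1, 2]), ([0, 0, 0, 0], [4]),
  ([0, 0, 0, 0, 1], [0, 0, 0]), ([0, 0, 0, 0, 1], [0, 1]), ([0, 0, 0, 0, 1], [2]),
  ([0, 0, 0, 0, 2], [0, 0]), ([0, 0, 0, 0, 2], [1]), ([0, 0, 0, 0, 1, 1], [0]),
  ([0, 0, 0, 0, 3], [0]), ([0, 0, 0, 0, 1, 2], [])]

/-- the multipliers of a group -/
noncomputable def gmFivex50 : List Mo := [
  ([0, 0, 0, 0, 0], [0, 0, 0, 0]), ([0, 0, 0, 0, 0], [0, 0, 1]), ([0, 0, 0, 0, 0], [0, 2]),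
  ([0, 0, 0, 0, 0], [1, 1]), ([0, 0, 0, 0, 0], [3]), ([0, 0, 0, 0, 0, 1], [0, 0]),
  ([0, 0, 0, 0, 0, 1], [1]), ([0, 0, 0, 0, 0, 2], [0]), ([0, 0, 0, 0, 0, 1, 1], []),
  ([0, 0, 0, 0, 0, 3], [])]

/-- the multipliers of a group -/
noncomputable def gmFivex51 : List Mo := [
  ([0, 0, 0, 0, 0, 0], [0, 0, 0]), ([0, 0, 0, 0, 0, 0], [0, 1]), ([0, 0, 0, 0, 0, 0], [2]),
  ([0, 0, 0, 0, 0, 0, 1], [0]), ([0, 0, 0, 0, 0, 0, 2], [])]

/-- the multipliers of a group -/
noncomputable def gmFivex52 : List Mo := [
  ([0, 0, 0, 0, 0, 0, 0], [0, 0]), ([0, 0, 0, 0, 0, 0, 0], [1]), ([0, 0, 0, 0, 0, 0, 0, 1], [])]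

/-- the multipliers of a group -/
noncomputable def gmFivex53 : List Mo := [
  ([0, 0, 0, 0, 0, 0, 0, 0], [0])]

/-- the multipliers of a group -/
noncomputable def gmFivex54 : List Mo := [
  ([0, 0, 0, 0, 0, 0, 0, 0, 0], [])]

/-- the multipliers -/
noncomputable def gmFive : List (List Mo) := [
  gmFivex0, gmFivex1, gmFivex2, gmFivex3, gmFivex4, gmFivex5, gmFivex6, gmFivex7, gmFivex8,
  gmFivex9, gmFivex10, gmFivex11, gmFivex12, gmFivex13, gmFivex14, gmFivex15, gmFivex16, gmFivex17,
  gmFivex18, gmFivex19, gmFivex20, gmFivex21, gmFivex22, gmFivex23, gmFivex24, gmFivex25,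
  gmFivex26, gmFivex27, gmFivex28, gmFivex29, gmFivex30, gmFivex31, gmFivex32, gmFivex33,
  gmFivex34, gmFivex35, gmFivex36, gmFivex37, gmFivex38, gmFivex39, gmFivex40, gmFivex41,
  gmFivex42, gmFivex43, gmFivex44, gmFivex45, gmFivex46, gmFivex47, gmFivex48, gmFivex49,
  gmFivex50, gmFivex51, gmFivex52, gmFivex53, gmFivex54]

/-- the monomials of the residual -/
noncomputable def prsFive : List (ℕ × ℕ) := [
  (0, 2), (0, 6), (0, 7), (0, 13), (0, 14), (0, 15), (0, 16), (0, 17), (0, 28), (0, 30), (0, 31),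
  (0, 32), (0, 33), (0, 34), (0, 35), (0, 36), (0, 37), (0, 56), (0, 58), (0, 60), (0, 61),
  (0, 53), (0, 54), (0, 62), (0, 63), (0, 64), (0, 65), (0, 66), (0, 67), (0, 68), (0, 69),
  (0, 70), (0, 71), (0, 72), (0, 73), (1, 53), (2, 60), (2, 61), (1, 56), (1, 58), (1, 60),
  (2, 65), (2, 66), (4, 29), (7, 37), (2, 53), (2, 54), (2, 55), (1, 62), (1, 63), (1, 64),
  (1, 65), (1, 66), (2, 72), (2, 73), (1, 67), (1, 68), (1, 69), (1, 70), (1, 71), (1, 72),
  (1, 73), (4, 36), (4, 37), (10, 17), (3, 50), (3, 53), (5, 60), (4, 53), (6, 66), (5, 61),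
  (4, 54), (7, 66), (17, 37), (4, 45), (6, 60), (4, 46), (6, 61), (10, 20), (7, 61), (3, 56),
  (3, 58), (3, 60), (4, 58), (5, 66), (4, 60), (6, 73), (4, 61), (7, 73), (4, 38), (4, 39),
  (4, 40), (4, 41), (4, 42), (3, 62), (3, 63), (3, 64), (3, 65), (3, 66), (4, 64), (5, 73),
  (4, 65), (4, 66), (10, 32), (3, 67), (3, 68), (3, 69), (3, 70), (3, 71), (3, 72), (3, 73),
  (4, 70), (4, 71), (10, 35), (4, 72), (4, 73), (10, 37), (9, 45), (10, 45), (12, 53), (15, 66),
  (10, 46), (12, 54), (16, 66), (12, 55), (17, 66), (22, 21), (8, 50), (8, 53), (10, 50), (9, 53),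
  (13, 66), (10, 53), (15, 73), (9, 54), (14, 66), (10, 54), (16, 73), (17, 73), (9, 38), (10, 38),
  (9, 39), (10, 39), (9, 40), (10, 40), (10, 41), (10, 42), (10, 43), (8, 56), (8, 58), (8, 60),
  (9, 58), (11, 66), (9, 60), (13, 73), (12, 65), (12, 66), (10, 60), (21, 29), (22, 29), (10, 61),
  (12, 38), (12, 39), (12, 40), (12, 41), (12, 42), (12, 43), (12, 44), (8, 62), (8, 63), (8, 64),
  (8, 65), (8, 66), (9, 64), (11, 73), (9, 65), (9, 66), (10, 64), (10, 65), (12, 73), (10, 66),
  (8, 67), (8, 68), (8, 69), (8, 70), (8, 71), (8, 72), (8, 73), (9, 70), (9, 71), (10, 69),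
  (9, 72), (9, 73), (10, 71), (21, 36), (21, 37), (10, 72), (10, 73), (22, 37), (18, 45), (19, 45),
  (20, 45), (21, 45), (22, 45), (25, 53), (33, 73), (20, 46), (21, 46), (22, 46), (25, 54),
  (34, 73), (22, 47), (25, 55), (35, 73), (29, 61), (36, 73), (37, 73), (19, 38), (20, 38),
  (21, 38), (22, 38), (19, 39), (20, 39), (21, 39), (22, 39), (20, 40), (21, 40), (22, 40),
  (20, 41), (21, 41), (22, 41), (21, 42), (22, 42), (22, 43), (18, 50), (18, 53), (20, 50),
  (19, 53), (22, 50), (20, 53), (30, 73), (21, 53), (22, 53), (25, 60), (20, 54), (31, 73),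
  (21, 54), (22, 54), (25, 61), (24, 38), (25, 38), (24, 39), (25, 39), (24, 40), (25, 40),
  (24, 41), (25, 41), (24, 42), (25, 42), (25, 43), (25, 44), (36, 61), (37, 61), (18, 56),
  (18, 58), (18, 60), (19, 58), (22, 56), (19, 60), (26, 73), (21, 58), (22, 58), (20, 60),
  (21, 60), (27, 73), (22, 60), (21, 61), (29, 73), (22, 61), (27, 38), (27, 39), (27, 40),
  (27, 41), (27, 42), (27, 43), (27, 44), (29, 41), (29, 42), (35, 55), (18, 62), (18, 63),
  (18, 64), (18, 65), (18, 66), (19, 64), (23, 73), (19, 65), (19, 66), (20, 64), (20, 65),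
  (24, 73), (20, 66), (21, 65), (21, 66), (25, 72), (25, 73), (22, 66), (18, 67), (18, 68),
  (18, 69), (18, 70), (18, 71), (18, 72), (18, 73), (19, 70), (19, 71), (20, 69), (19, 72),
  (19, 73), (20, 71), (21, 70), (21, 71), (20, 72), (20, 73), (22, 71), (21, 72), (21, 73),
  (22, 72), (22, 73), (39, 38), (40, 38), (41, 38), (42, 38), (43, 38), (44, 38), (40, 39),
  (41, 39), (42, 39), (43, 39), (44, 39), (41, 40), (42, 40), (43, 40), (44, 40), (42, 41),
  (43, 41), (44, 41), (43, 42), (44, 42), (44, 43), (38, 45), (39, 45), (40, 45), (41, 45),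
  (42, 45), (43, 45), (44, 45), (48, 53), (49, 53), (52, 60), (41, 46), (42, 46), (43, 46),
  (44, 46), (48, 54), (49, 54), (52, 61), (44, 47), (48, 55), (49, 55), (55, 61), (46, 38),
  (47, 38), (48, 38), (49, 38), (46, 39), (47, 39), (48, 39), (49, 39), (46, 40), (47, 40),
  (48, 40), (49, 40), (47, 41), (48, 41), (49, 41), (47, 42), (48, 42), (49, 42), (47, 43),
  (48, 43), (49, 43), (48, 44), (49, 44), (38, 50), (38, 53), (40, 50), (39, 53), (42, 50),
  (40, 53), (44, 50), (41, 53), (42, 53), (47, 60), (43, 53), (44, 53), (49, 60), (41, 54),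
  (42, 54), (47, 61), (43, 54), (44, 54), (49, 61), (51, 38), (52, 38), (51, 39), (52, 39),
  (51, 40), (52, 40), (51, 41), (52, 41), (51, 42), (52, 42), (51, 43), (52, 43), (51, 44),
  (52, 44), (55, 41), (55, 42), (55, 43), (55, 44), (38, 56), (38, 58), (38, 60), (39, 58),
  (42, 56), (39, 60), (44, 56), (41, 58), (42, 58), (40, 60), (41, 60), (44, 58), (42, 60),
  (48, 65), (48, 66), (43, 60), (44, 60), (49, 66), (43, 61), (44, 61), (57, 38), (57, 39),
  (57, 40), (57, 41), (57, 42), (57, 43), (57, 44), (59, 41), (59, 42), (61, 40), (59, 43),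
  (59, 44), (61, 42), (38, 62), (38, 63), (38, 64), (38, 65), (38, 66), (39, 64), (44, 62),
  (39, 65), (39, 66), (40, 64), (40, 65), (44, 63), (40, 66), (41, 65), (41, 66), (43, 64),
  (44, 64), (42, 66), (43, 65), (44, 65), (43, 66), (44, 66), (38, 67), (38, 68), (38, 69),
  (38, 70), (38, 71), (38, 72), (38, 73), (39, 70), (39, 71), (40, 69), (39, 72), (39, 73),
  (40, 71), (41, 70), (41, 71), (40, 72), (40, 73), (42, 71), (41, 72), (41, 73), (42, 72),
  (42, 73), (43, 72), (43, 73), (44, 73)]

theorem tabFive_k : okK kbFive basFive 0 = true := by decide +kernel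

theorem tabFive_i : okI 74 prsFive = true := by decide +kernel

theorem tabFive_l : basFive.length = 74 := by decide +kernel

theorem tabFive_num : NumOK tabFive 168 where
  one := by decide +kernel
  q := by decide +kernel
  ga := by decide +kernel
  D := by decide +kernel
  M := by decide +kernel
  c := by decide +kernel
  d := by decide +kernel
  r := by decide +kernel

/-- **The tables are correct.** -/
theorem tabFive_ok : TabOK6 tabFive 168 repFive basFive qmFive gmFive prsFive where
  num := tabFive_num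
  npos := by decide +kernel
  one := by decide +kernel
  q := by decide +kernel
  qv := by decide +kernel
  g := okGsf_spec _ _ (by decide +kernel)
  c := okC_of tabFive_k (by rw [tabFive_l]; decide +kernel) _ 0 (by decide +kernel)
  d := by decide +kernel
  dv := okK_dv tabFive_k
  nB := by rw [tabFive_l]; decide +kernel
  r := okr_of tabFive_k tabFive_l tabFive_i (by decide +kernel)
  rv := okrv_of tabFive_k tabFive_l tabFive_i
  nR := by decide +kernel

end Pool.Agent.Helper54.HR2
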